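import Mathlib

/-!
Definitions for the existence of the arithmetic degree on surfaces.
-/

namespace Pool.Agent.H35S

open IntermediateField Filter Topology

universe u

/-- A place of `Ω` over `k` with values in `κ`: a valuation ring `O` containing `k` and a
`k`-algebra homomorphism `ev : O → κ` whose kernel is the maximal ideal; `ev` is extended
by `0` outside `O`. -/
structure Place (k Ω κ : Type u) [Field k] [Field Ω] [Field κ] [Algebra k Ω] [Algebra k κ] where
  O : ValuationSubring Ω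
  ev : Ω → κ
  ev_out : ∀ x, x ∉ O → ev x = 0
  alg_mem : ∀ c : k, algebraMap k Ω c ∈ O
  ev_alg : ∀ c : k, ev (algebraMap k Ω c) = algebraMap k κ c
  ev_add : ∀ x y, x ∈ O → y ∈ O → ev (x + y) = ev x + ev y
  ev_mul : ∀ x y, x ∈ O → y ∈ O → ev (x * y) = ev x * ev y
  ev_max : ∀ x, x⁻¹ ∉ O → ev x = 0

section defs

variable {k Ω κ : Type u} [Field k] [Field Ω] [Field κ] [Algebra k Ω] [Algebra k κ]

/-- Pull-back of a place along an automorphism. -/
def Place.pull (π : Place k Ω κ) (Ψ : Ω ≃ₐ[k] Ω) : Place k Ω κ where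
  O := π.O.comap (Ψ : Ω →+* Ω)
  ev := fun x => π.ev (Ψ x)
  ev_out := fun x hx => π.ev_out _ hx
  alg_mem := fun c => by
    show (Ψ : Ω →+* Ω) _ ∈ π.O
    simpa using π.alg_mem c
  ev_alg := fun c => by simpa using π.ev_alg c
  ev_add := fun x y hx hy => by
    rw [map_add]; exact π.ev_add _ _ hx hy
  ev_mul := fun x y hx hy => by
    rw [map_mul]; exact π.ev_mul _ _ hx hy
  ev_max := fun x hx => by
    apply π.ev_max
    intro h
    apply hx
    show (Ψ : Ω →+* Ω) _ ∈ π.O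
    simpa using h

/-- The residue field of the place on the subfield `L`. -/
noncomputable def Place.res (π : Place k Ω κ) (L : IntermediateField k Ω) :
    IntermediateField k κ :=
  adjoin k (π.ev '' (L : Set Ω))

/-- Coefficientwise reduction of a polynomial. -/
noncomputable def Place.evP (π : Place k Ω κ) (Q : Polynomial Ω) : Polynomial κ :=
  ∑ n ∈ Q.support, Polynomial.monomial n (π.ev (Q.coeff n))

/-- The trace of a valuation ring on the subfield `K`. -/
def label (w : ValuationSubring Ω) (K : IntermediateField k Ω) : Set Ω := {x | x ∈ K ∧ x ∈ w}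

variable (k) in
/-- `c` lies in `w` and has transcendental residue. -/
def Tr (w : ValuationSubring Ω) (c : Ω) : Prop :=
  ∀ p : Polynomial k, p ≠ 0 →
    Polynomial.aeval c p ≠ 0 ∧ Polynomial.aeval c p ∈ w ∧ (Polynomial.aeval c p)⁻¹ ∈ w

variable (k) in
/-- Exact height functions (no error terms). -/
structure IsHt (η : κ → ℝ) : Prop where
  nonneg : ∀ x, 0 ≤ η x
  pow : ∀ x (n : ℕ), η (x ^ n) = n * η x
  gel : ∀ (r : ℕ) (P : Polynomial (MvPolynomial (Fin r) k)) (p : Fin r → ℕ),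
    (∀ j i, MvPolynomial.degreeOf i (P.coeff j) ≤ p i) →
    ∀ (x : Fin r → κ) (c : κ) (s : Multiset κ), c ≠ 0 →
      P.map (MvPolynomial.aeval x : MvPolynomial (Fin r) k →ₐ[k] κ).toRingHom =
        Polynomial.C c * (s.map fun b => Polynomial.X - Polynomial.C b).prod →
      (s.map η).sum ≤ ∑ i, (p i : ℝ) * η (x i)

variable (k) in
/-- Height functions with bounded error terms. -/
structure IsAHt (η : κ → ℝ) : Prop where
  nonneg : ∀ x, 0 ≤ η x
  pow : ∀ x (n : ℕ), η (x ^ n) = n * η x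
  gel : ∀ (r : ℕ) (P : Polynomial (MvPolynomial (Fin r) k)) (p : Fin r → ℕ),
    (∀ j i, MvPolynomial.degreeOf i (P.coeff j) ≤ p i) → ∃ C : ℝ,
    ∀ (x : Fin r → κ) (c : κ) (s : Multiset κ), c ≠ 0 →
      P.map (MvPolynomial.aeval x : MvPolynomial (Fin r) k →ₐ[k] κ).toRingHom =
        Polynomial.C c * (s.map fun b => Polynomial.X - Polynomial.C b).prod →
      (s.map η).sum ≤ ∑ i, (p i : ℝ) * η (x i) + C

/-- Finitely generated subfields over which `Ω` is algebraic. -/
def Big (A : IntermediateField k Ω) : Prop := A.FG ∧ Algebra.IsAlgebraic A Ω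

/-- The index `[A B : A] / [A B : B]`. -/
noncomputable def chi (A B : IntermediateField k Ω) : ℝ :=
  (relfinrank A (A ⊔ B) : ℝ) / (relfinrank B (A ⊔ B) : ℝ)

/-- The intersection number of two functions, normalised by `K`. -/
noncomputable def pr (K : IntermediateField k Ω) (x y : Ω) : ℝ := chi k⟮x, y⟯ K

variable {ι : Type} [Fintype ι]

/-- The intersection number of two tuples of functions. -/
noncomputable def prT (K : IntermediateField k Ω) (b c : ι → Ω) : ℝ :=
  ∑ l, ∑ l', pr K (b l) (c l')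

/-- Conjugates of a tuple over `L`. -/
def conj (L : IntermediateField k Ω) (a : ι → Ω) : Set (ι → Ω) :=
  {b | ∃ Γ : Ω ≃ₐ[k] Ω, (∀ x ∈ L, Γ x = x) ∧ b = fun l => Γ (a l)}

/-- The height of a tuple at a place. -/
noncomputable def rho (π : Place k Ω κ) (η : κ → ℝ) (b : ι → Ω) : ℝ := ∑ l, η (π.ev (b l))

end defs

/-- A dominant rational self-map of a surface: generators `a` of the function field `K` and an
automorphism `Φ` of the algebraic closure `Ω` mapping `K` into itself. -/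
structure Sys (k Ω : Type u) (ι : Type) [Field k] [Field Ω] [Algebra k Ω] where
  a : ι → Ω
  Φ : Ω ≃ₐ[k] Ω
  trdeg : Algebra.trdeg k Ω = 2
  alg : Algebra.IsAlgebraic (adjoin k (Set.range a)) Ω
  map_mem : ∀ x ∈ adjoin k (Set.range a), Φ x ∈ adjoin k (Set.range a)

section sys

variable {k Ω κ : Type u} [Field k] [Field Ω] [Field κ] [Algebra k Ω] [Algebra k κ]
variable {ι : Type} [Fintype ι]

/-- The function field. -/
noncomputable def Sys.K (S : Sys k Ω ι) : IntermediateField k Ω := adjoin k (Set.range S.a)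

/-- The field `Φ^n K`. -/
noncomputable def Sys.Kn (S : Sys k Ω ι) (n : ℤ) : IntermediateField k Ω :=
  S.K.map ((S.Φ ^ n : Ω ≃ₐ[k] Ω) : Ω →ₐ[k] Ω)

/-- The tuple `Φ^n a`. -/
noncomputable def Sys.fr (S : Sys k Ω ι) (n : ℤ) : ι → Ω := fun l => (S.Φ ^ n) (S.a l)

/-- The topological degree. -/
noncomputable def Sys.D (S : Sys k Ω ι) : ℕ := relfinrank (S.Kn 1) S.K

/-- The degree sequence. -/
noncomputable def Sys.δ (S : Sys k Ω ι) (n : ℕ) : ℝ := prT S.K S.a (S.fr n)

/-- The trace of a valuation ring on `K`. -/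
def Sys.lab (S : Sys k Ω ι) (w : ValuationSubring Ω) : Set Ω := label w S.K

/-- The forward map on traces. -/
def Sys.next (S : Sys k Ω ι) (F : Set Ω) : Set Ω := {x | x ∈ S.K ∧ S.Φ x ∈ F}

/-- The iterate `Φ^m`. -/
def Sys.pow (S : Sys k Ω ι) (m : ℕ) : Sys k Ω ι where
  a := S.a
  Φ := S.Φ ^ m
  trdeg := S.trdeg
  alg := S.alg
  map_mem := by
    induction m with
    | zero => intro x hx; simpa using hx
    | succ m ih =>
      intro x hx
      rw [pow_succ, AlgEquiv.mul_apply]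
      exact ih _ (S.map_mem x hx)

/-- The `i`-th label of the tower of a place. -/
def Sys.El (S : Sys k Ω ι) (π : Place k Ω κ) (i : ℤ) : Set Ω := S.lab (π.pull (S.Φ ^ i)).O

/-- The `i`-th residue field of the tower of a place. -/
noncomputable def Sys.R (S : Sys k Ω ι) (π : Place k Ω κ) (i : ℤ) : IntermediateField k κ :=
  π.res (S.Kn i)

/-- The degree of the `i`-th curve of the tower of a place. -/
noncomputable def Sys.d (S : Sys k Ω ι) (π : Place k Ω κ) (i : ℤ) : ℕ :=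
  ∑ l, relfinrank k⟮π.ev (S.fr i l)⟯ (S.R π i)

/-- A bi-infinite non-periodic tower of curves. -/
structure Tow (S : Sys k Ω ι) (π : Place k Ω κ) (η : κ → ℝ) : Prop where
  ht : IsHt k η
  ne_top : π.O ≠ ⊤
  mem : ∀ (i : ℤ) (l : ι), S.fr i l ∈ π.O
  pos : ∀ i : ℤ, 0 < rho π η (S.fr i)
  inj : Function.Injective (S.El π)

/-- The siblings of level `n` that run along the tower at position `q` after `j` steps. -/
def Sys.pass (S : Sys k Ω ι) (π : Place k Ω κ) (q : ℤ) (n j : ℕ) : Set (ι → Ω) :=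
  {b | ∃ Γ : Ω ≃ₐ[k] Ω, (∀ x ∈ S.Kn n, Γ x = x) ∧ b = (fun l => Γ (S.a l)) ∧
    S.lab (π.pull (S.Φ ^ (q - j) * Γ * S.Φ ^ (j : ℤ))).O = S.El π q}

/-- An orbit going to infinity, encoded by a place. -/
structure Orb (S : Sys k Ω ι) (Q : Type u) [Field Q] [Algebra k Q] where
  pl : Place k Ω Q
  h : Q → ℝ
  ht : IsAHt k h
  mem : ∀ (n : ℕ) (l : ι), S.fr n l ∈ pl.O
  tends : Tendsto (fun n : ℤ => rho pl h (S.fr n)) atTop atTop

variable {Q : Type u} [Field Q] [Algebra k Q]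

/-- The height of the `n`-th point. -/
noncomputable def Orb.H {S : Sys k Ω ι} (o : Orb S Q) (n : ℤ) : ℝ := rho o.pl o.h (S.fr n)

/-- The coordinates of the `n`-th point. -/
noncomputable def Orb.y {S : Sys k Ω ι} (o : Orb S Q) (n : ℤ) : ι → Q :=
  fun l => o.pl.ev (S.fr n l)

/-- The limit valuation ring of `K` along an ultrafilter of times. -/
def Orb.E {S : Sys k Ω ι} (o : Orb S Q) (U : Ultrafilter ℤ) : Set Ω :=
  {x | x ∈ S.K ∧ ∀ᶠ n in (U : Filter ℤ), (S.Φ ^ n) x ∈ o.pl.O}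

/-- The map is regular at the points of the orbit. -/
def Orb.Reg {S : Sys k Ω ι} (o : Orb S Q) : Prop :=
  ∀ (n : ℕ) (l : ι), ∃ u v : MvPolynomial ι k, MvPolynomial.aeval (o.y n) v ≠ 0 ∧
    S.Φ (S.a l) * MvPolynomial.aeval S.a v = MvPolynomial.aeval S.a u

end sys

/-- Shift of an ultrafilter of times. -/
def sh (U : Ultrafilter ℤ) (i : ℤ) : Ultrafilter ℤ := U.map (fun n => n + i)

/-- No limit curve of the orbit is periodic. -/
def Orb.NP {k Ω : Type u} [Field k] [Field Ω] [Algebra k Ω] {ι : Type} [Fintype ι]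
    {Q : Type u} [Field Q] [Algebra k Q] {S : Sys k Ω ι} (o : Orb S Q) : Prop :=
  ∀ U : Ultrafilter ℤ, (U : Filter ℤ) ≤ atTop → o.E U ≠ (S.K : Set Ω) →
    ∀ i j : ℤ, o.E (sh U i) = o.E (sh U j) → i = j

/-- Exponential growth rate at most `β`. -/
def UB (H : ℕ → ℝ) (β : ℝ) : Prop := ∀ β', β < β' → ∀ᶠ n : ℕ in atTop, H n ≤ β' ^ n

/-- Exponential growth rate at least `β`. -/
def LB (H : ℕ → ℝ) (β : ℝ) : Prop := ∀ β', 0 < β' → β' < β → ∀ᶠ n : ℕ in atTop, β' ^ n ≤ H n

/-- The numerical condition of the counting argument. -/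
def NumCond (D : ℝ) (δ : ℕ → ℝ) (s S : ℝ) : Prop :=
  ∀ c d : ℝ, 0 < c → 0 < d → ∃ i j : ℕ, 1 ≤ i + j ∧
    16 * δ (i + j) < c * S ^ (i + j) * (max 1 (D / (8 * δ 1)) / s) ^ i * (S / s) ^ j ∧
    2 * d * D ^ j * s ^ i < S ^ (i + j)

/-- Affine coordinates on the complement of the hypersurface `q = 0`: monomials of degree `e`
(indexed by words) divided by the form `q`. -/
noncomputable def wd {k L σ : Type*} [Field k] [Field L] [Algebra k L] (q : MvPolynomial σ k)
    (e : ℕ) (ξ : σ → L) : (Fin e → σ) → L :=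
  fun w => (∏ j, ξ (w j)) / MvPolynomial.aeval ξ q

end Pool.Agent.H35S

namespace Pool.Agent.H35S

open IntermediateField Filter Topology

universe u

variable {k Ω κ : Type u} [Field k] [Field Ω] [Field κ] [Algebra k Ω] [Algebra k κ]
variable {ι : Type} [Fintype ι]

/-! Basic API for places. All proofs are short (induction on polynomials, valuation ring facts). -/

theorem Place.ev_zero (π : Place k Ω κ) : π.ev 0 = 0 := by
  simpa using π.ev_alg 0

theorem Place.ev_one (π : Place k Ω κ) : π.ev 1 = 1 := by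
  simpa using π.ev_alg 1

theorem Place.ev_neg (π : Place k Ω κ) (x : Ω) : π.ev (-x) = -π.ev x := by
  by_cases hx : x ∈ π.O
  · have h := π.ev_add x (-x) hx (π.O.neg_mem _ hx)
    rw [add_neg_cancel, π.ev_zero] at h
    exact (neg_eq_of_add_eq_zero_right h.symm).symm
  · rw [π.ev_out x hx, π.ev_out (-x) fun h => hx (by simpa using π.O.neg_mem _ h), neg_zero]

theorem Place.ev_sub (π : Place k Ω κ) {x y : Ω} (hx : x ∈ π.O) (hy : y ∈ π.O) :
    π.ev (x - y) = π.ev x - π.ev y := by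
  rw [sub_eq_add_neg, π.ev_add _ _ hx (π.O.neg_mem _ hy), π.ev_neg, sub_eq_add_neg]

theorem Place.ev_pow (π : Place k Ω κ) {x : Ω} (hx : x ∈ π.O) (n : ℕ) :
    π.ev (x ^ n) = π.ev x ^ n := by
  induction n with
  | zero => rw [pow_zero, pow_zero, π.ev_one]
  | succ n ih => rw [pow_succ, pow_succ, π.ev_mul _ _ (pow_mem hx n) hx, ih]

theorem Place.ev_sum (π : Place k Ω κ) {α : Type*} (s : Finset α) (f : α → Ω)
    (hf : ∀ i ∈ s, f i ∈ π.O) : π.ev (∑ i ∈ s, f i) = ∑ i ∈ s, π.ev (f i) := by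
  classical
  induction s using Finset.induction_on with
  | empty => simpa using π.ev_zero
  | insert a s ha ih =>
    have h1 : ∀ i ∈ s, f i ∈ π.O := fun i hi => hf i (Finset.mem_insert_of_mem hi)
    rw [Finset.sum_insert ha, Finset.sum_insert ha,
      π.ev_add _ _ (hf a (Finset.mem_insert_self _ _)) (sum_mem h1), ih h1]

theorem Place.ev_prod (π : Place k Ω κ) {α : Type*} (s : Finset α) (f : α → Ω)
    (hf : ∀ i ∈ s, f i ∈ π.O) : π.ev (∏ i ∈ s, f i) = ∏ i ∈ s, π.ev (f i) := by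
  classical
  induction s using Finset.induction_on with
  | empty => simpa using π.ev_one
  | insert a s ha ih =>
    have h1 : ∀ i ∈ s, f i ∈ π.O := fun i hi => hf i (Finset.mem_insert_of_mem hi)
    rw [Finset.prod_insert ha, Finset.prod_insert ha,
      π.ev_mul _ _ (hf a (Finset.mem_insert_self _ _)) (prod_mem h1), ih h1]

theorem Place.mem_of_ev_ne (π : Place k Ω κ) {x : Ω} (h : π.ev x ≠ 0) :
    x ∈ π.O ∧ x⁻¹ ∈ π.O :=
  ⟨by_contra fun h1 => h (π.ev_out x h1), by_contra fun h1 => h (π.ev_max x h1)⟩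

/-- Holds for every `x`: if `x ∉ O` or `x⁻¹ ∉ O` both sides vanish. -/
theorem Place.ev_inv (π : Place k Ω κ) (x : Ω) : π.ev x⁻¹ = (π.ev x)⁻¹ := by
  by_cases hx : x ∈ π.O
  · by_cases hx' : x⁻¹ ∈ π.O
    · rcases eq_or_ne x 0 with rfl | h0
      · rw [inv_zero, π.ev_zero, inv_zero]
      · have h := π.ev_mul _ _ hx hx'
        rw [mul_inv_cancel₀ h0, π.ev_one] at h
        exact eq_inv_of_mul_eq_one_right h.symm
    · rw [π.ev_out _ hx', π.ev_max _ hx', inv_zero]
  · rw [π.ev_out _ hx, π.ev_max x⁻¹ (by rwa [inv_inv]), inv_zero]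

theorem Place.ev_eq_zero_iff (π : Place k Ω κ) {x : Ω} (hx : x ∈ π.O) :
    π.ev x = 0 ↔ x = 0 ∨ x⁻¹ ∉ π.O := by
  constructor
  · intro h
    by_contra h1
    rw [not_or, not_not] at h1
    have h2 := π.ev_mul _ _ hx h1.2
    rw [mul_inv_cancel₀ h1.1, π.ev_one, h, zero_mul] at h2
    exact one_ne_zero h2
  · rintro (rfl | h)
    · exact π.ev_zero
    · exact π.ev_max x h

theorem Place.smul_mem (π : Place k Ω κ) (c : k) {x : Ω} (hx : x ∈ π.O) : c • x ∈ π.O := by
  rw [Algebra.smul_def]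
  exact mul_mem (π.alg_mem c) hx

theorem Place.ev_smul (π : Place k Ω κ) (c : k) {x : Ω} (hx : x ∈ π.O) :
    π.ev (c • x) = c • π.ev x := by
  rw [Algebra.smul_def, Algebra.smul_def, π.ev_mul _ _ (π.alg_mem c) hx, π.ev_alg]

theorem Place.aeval_mem (π : Place k Ω κ) {x : Ω} (hx : x ∈ π.O) (p : Polynomial k) :
    Polynomial.aeval x p ∈ π.O := by
  rw [Polynomial.aeval_eq_sum_range]
  exact sum_mem fun i _ => π.smul_mem _ (pow_mem hx i)

theorem Place.ev_aeval (π : Place k Ω κ) {x : Ω} (hx : x ∈ π.O) (p : Polynomial k) :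
    π.ev (Polynomial.aeval x p) = Polynomial.aeval (π.ev x) p := by
  rw [Polynomial.aeval_eq_sum_range, Polynomial.aeval_eq_sum_range,
    π.ev_sum _ _ fun i _ => π.smul_mem _ (pow_mem hx i)]
  exact Finset.sum_congr rfl fun i _ => by rw [π.ev_smul _ (pow_mem hx i), π.ev_pow hx]

theorem Place.mvaeval_mem (π : Place k Ω κ) {σ : Type*} {x : σ → Ω} (hx : ∀ i, x i ∈ π.O)
    (p : MvPolynomial σ k) : MvPolynomial.aeval x p ∈ π.O := by
  induction p using MvPolynomial.induction_on with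
  | C c => rw [MvPolynomial.aeval_C]; exact π.alg_mem c
  | add p q hp hq => rw [map_add]; exact add_mem hp hq
  | mul_X p i hp => rw [map_mul, MvPolynomial.aeval_X]; exact mul_mem hp (hx i)

theorem Place.ev_mvaeval (π : Place k Ω κ) {σ : Type*} {x : σ → Ω} (hx : ∀ i, x i ∈ π.O)
    (p : MvPolynomial σ k) :
    π.ev (MvPolynomial.aeval x p) = MvPolynomial.aeval (fun i => π.ev (x i)) p := by
  induction p using MvPolynomial.induction_on with
  | C c => rw [MvPolynomial.aeval_C, MvPolynomial.aeval_C, π.ev_alg]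
  | add p q hp hq =>
    rw [map_add, map_add, π.ev_add _ _ (π.mvaeval_mem hx p) (π.mvaeval_mem hx q), hp, hq]
  | mul_X p i hp =>
    rw [map_mul, map_mul, MvPolynomial.aeval_X, MvPolynomial.aeval_X,
      π.ev_mul _ _ (π.mvaeval_mem hx p) (hx i), hp]

/-- The set on the right is already an intermediate field (use `ev_inv`). -/
theorem Place.mem_res (π : Place k Ω κ) (L : IntermediateField k Ω) (y : κ) :
    y ∈ π.res L ↔ ∃ x ∈ L, x ∈ π.O ∧ π.ev x = y := by
  constructor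
  · intro hy
    unfold Place.res at hy
    induction hy using adjoin_induction with
    | mem y hy =>
      obtain ⟨x, hx, rfl⟩ := hy
      by_cases h : x ∈ π.O
      · exact ⟨x, hx, h, rfl⟩
      · exact ⟨0, zero_mem _, zero_mem _, by rw [π.ev_zero, π.ev_out x h]⟩
    | algebraMap c => exact ⟨_, L.algebraMap_mem c, π.alg_mem c, π.ev_alg c⟩
    | add y z _ _ hy hz =>
      obtain ⟨x, h1, h2, rfl⟩ := hy
      obtain ⟨x', h1', h2', rfl⟩ := hz
      exact ⟨x + x', add_mem h1 h1', add_mem h2 h2', π.ev_add _ _ h2 h2'⟩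
    | inv y _ hy =>
      obtain ⟨x, h1, h2, rfl⟩ := hy
      by_cases h : x⁻¹ ∈ π.O
      · exact ⟨x⁻¹, inv_mem h1, h, π.ev_inv x⟩
      · exact ⟨0, zero_mem _, zero_mem _, by rw [π.ev_zero, π.ev_max x h, inv_zero]⟩
    | mul y z _ _ hy hz =>
      obtain ⟨x, h1, h2, rfl⟩ := hy
      obtain ⟨x', h1', h2', rfl⟩ := hz
      exact ⟨x * x', mul_mem h1 h1', mul_mem h2 h2', π.ev_mul _ _ h2 h2'⟩
  · rintro ⟨x, h1, -, rfl⟩
    exact subset_adjoin k _ ⟨x, h1, rfl⟩

theorem Place.ev_mem_res (π : Place k Ω κ) {L : IntermediateField k Ω} {x : Ω} (hx : x ∈ L) :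
    π.ev x ∈ π.res L :=
  subset_adjoin k _ ⟨x, hx, rfl⟩

theorem Place.res_mono (π : Place k Ω κ) {L L' : IntermediateField k Ω} (h : L ≤ L') :
    π.res L ≤ π.res L' :=
  adjoin.mono k _ _ (Set.image_mono h)

theorem Place.tr_iff (π : Place k Ω κ) (c : Ω) :
    Tr k π.O c ↔ c ∈ π.O ∧ Transcendental k (π.ev c) := by
  constructor
  · intro h
    have hc : c ∈ π.O := by simpa using (h Polynomial.X Polynomial.X_ne_zero).2.1
    refine ⟨hc, ?_⟩
    rintro ⟨p, hp, h1⟩
    obtain ⟨h2, h3, h4⟩ := h p hp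
    rw [← π.ev_aeval hc, π.ev_eq_zero_iff h3] at h1
    exact h1.elim h2 fun h5 => h5 h4
  · rintro ⟨hc, h⟩ p hp
    have h1 : π.ev (Polynomial.aeval c p) ≠ 0 := by
      rw [π.ev_aeval hc]
      exact fun h2 => h ⟨p, hp, h2⟩
    refine ⟨fun h2 => h1 ?_, π.mem_of_ev_ne h1⟩
    rw [h2, π.ev_zero]

theorem Place.mem_pull (π : Place k Ω κ) (Ψ : Ω ≃ₐ[k] Ω) (x : Ω) :
    x ∈ (π.pull Ψ).O ↔ Ψ x ∈ π.O := Iff.rfl

theorem Place.ev_pull (π : Place k Ω κ) (Ψ : Ω ≃ₐ[k] Ω) (x : Ω) :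
    (π.pull Ψ).ev x = π.ev (Ψ x) := rfl

theorem Place.pull_pull (π : Place k Ω κ) (Ψ Θ : Ω ≃ₐ[k] Ω) :
    (π.pull Ψ).pull Θ = π.pull (Ψ * Θ) := rfl

theorem Place.pull_one (π : Place k Ω κ) : π.pull 1 = π := rfl

theorem Place.pull_ne_top (π : Place k Ω κ) (Ψ : Ω ≃ₐ[k] Ω) (h : π.O ≠ ⊤) :
    (π.pull Ψ).O ≠ ⊤ := by
  intro h1
  apply h
  refine top_unique fun x _ => ?_
  have h2 : Ψ.symm x ∈ (π.pull Ψ).O := by rw [h1]; exact ValuationSubring.mem_top _
  rwa [π.mem_pull, AlgEquiv.apply_symm_apply] at h2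

theorem Place.res_pull (π : Place k Ω κ) (Ψ : Ω ≃ₐ[k] Ω) (L : IntermediateField k Ω) :
    (π.pull Ψ).res L = π.res (L.map (Ψ : Ω →ₐ[k] Ω)) := by
  unfold Place.res
  rw [coe_map, ← Set.image_comp]
  rfl

theorem rho_pull (π : Place k Ω κ) (η : κ → ℝ) (Ψ : Ω ≃ₐ[k] Ω) (b : ι → Ω) :
    rho (π.pull Ψ) η b = rho π η (fun l => Ψ (b l)) := rfl

theorem Place.coeff_evP (π : Place k Ω κ) (Q : Polynomial Ω) (n : ℕ) :
    (π.evP Q).coeff n = π.ev (Q.coeff n) := by
  unfold Place.evP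
  rw [Polynomial.finsetSum_coeff]
  simp only [Polynomial.coeff_monomial]
  rw [Finset.sum_ite_eq']
  split_ifs with h
  · rfl
  · rw [Polynomial.notMem_support_iff.1 h, π.ev_zero]

/-- An element integral over a subfield contained in `w` lies in `w`
(valuation rings are integrally closed). -/
theorem mem_of_isAlgebraic (w : ValuationSubring Ω) (A : IntermediateField k Ω)
    (hA : ∀ x ∈ A, x ∈ w) {x : Ω} (hx : IsAlgebraic A x) : x ∈ w := by
  let φ : A →+* w := (algebraMap A Ω).codRestrict w fun a => hA a a.2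
  obtain ⟨p, hp, h⟩ := hx.isIntegral
  have h1 : IsIntegral w x := by
    refine ⟨p.map φ, hp.map φ, ?_⟩
    rw [Polynomial.eval₂_map]
    exact h
  obtain ⟨y, hy⟩ := IsIntegrallyClosed.isIntegral_iff.1 h1
  rw [← hy]
  exact y.2

/-- `Tr` puts the whole field `k(c)` inside `w`. -/
theorem Tr.adjoin_le {w : ValuationSubring Ω} {c : Ω} (h : Tr k w c) :
    ∀ x ∈ k⟮c⟯, x ∈ w := by
  intro x hx
  obtain ⟨r, s, rfl⟩ := (mem_adjoin_simple_iff k x).1 hx
  rcases eq_or_ne r 0 with rfl | hr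
  · simp
  rcases eq_or_ne s 0 with rfl | hs
  · simp
  rw [div_eq_mul_inv]
  exact mul_mem (h r hr).2.1 (h s hs).2.2

end Pool.Agent.H35S

namespace Pool.Agent.H35S

open IntermediateField Filter Topology

universe u

variable {k Ω κ : Type u} [Field k] [Field Ω] [Field κ] [Algebra k Ω] [Algebra k κ]
variable {ι : Type} [Fintype ι]

/-! Reduction of polynomials at a place. -/

theorem Place.evP_mul (π : Place k Ω κ) {P Q : Polynomial Ω} (hP : ∀ n, P.coeff n ∈ π.O)
    (hQ : ∀ n, Q.coeff n ∈ π.O) : π.evP (P * Q) = π.evP P * π.evP Q := by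
  ext n
  rw [π.coeff_evP, Polynomial.coeff_mul, Polynomial.coeff_mul,
    π.ev_sum _ _ fun i _ => π.O.mul_mem _ _ (hP _) (hQ _)]
  refine Finset.sum_congr rfl fun i _ => ?_
  rw [π.ev_mul _ _ (hP _) (hQ _), π.coeff_evP, π.coeff_evP]

theorem Place.eval_mem (π : Place k Ω κ) {P : Polynomial Ω} (hP : ∀ n, P.coeff n ∈ π.O)
    {x : Ω} (hx : x ∈ π.O) : P.eval x ∈ π.O := by
  rw [Polynomial.eval_eq_sum, Polynomial.sum_def]
  exact sum_mem fun n _ => mul_mem (hP n) (pow_mem hx n)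

theorem Place.ev_eval (π : Place k Ω κ) {P : Polynomial Ω} (hP : ∀ n, P.coeff n ∈ π.O)
    {x : Ω} (hx : x ∈ π.O) : π.ev (P.eval x) = (π.evP P).eval (π.ev x) := by
  rw [Polynomial.eval_eq_sum, Polynomial.sum_def,
    π.ev_sum _ _ fun n _ => mul_mem (hP n) (pow_mem hx n), Place.evP,
    Polynomial.eval_finsetSum]
  refine Finset.sum_congr rfl fun n _ => ?_
  rw [π.ev_mul _ _ (hP n) (pow_mem hx n), π.ev_pow hx, Polynomial.eval_monomial]

/-- A nonzero polynomial with coefficients in `L` can be scaled by an element of `L` to be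
primitive for the place (divide by a coefficient of largest valuation). -/
theorem Place.scale (π : Place k Ω κ) (L : IntermediateField k Ω) (P : Polynomial Ω)
    (hP : P ≠ 0) (hL : ∀ n, P.coeff n ∈ L) :
    ∃ c ∈ L, c ≠ 0 ∧ (∀ n, (Polynomial.C c * P).coeff n ∈ π.O) ∧
      π.evP (Polynomial.C c * P) ≠ 0 := by
  obtain ⟨n, hn, hmax⟩ := Finset.exists_max_image P.support
    (fun n => π.O.valuation (P.coeff n)) (Polynomial.support_nonempty.mpr hP)
  have h0 : P.coeff n ≠ 0 := Polynomial.mem_support_iff.mp hn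
  refine ⟨(P.coeff n)⁻¹, inv_mem (hL n), inv_ne_zero h0, fun m => ?_, fun h => ?_⟩
  · rw [Polynomial.coeff_C_mul]
    by_cases hm : m ∈ P.support
    · rw [← π.O.valuation_le_one_iff, map_mul, map_inv₀]
      have h1 : 0 < π.O.valuation (P.coeff n) := (Valuation.pos_iff _).mpr h0
      rw [inv_mul_le_iff₀ h1, mul_one]
      exact hmax m hm
    · rw [Polynomial.notMem_support_iff.mp hm, mul_zero]
      exact zero_mem _
  · have h1 := π.coeff_evP (Polynomial.C (P.coeff n)⁻¹ * P) n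
    rw [h, Polynomial.coeff_C_mul, inv_mul_cancel₀ h0, π.ev_one] at h1
    exact zero_ne_one h1

theorem PlB_mul_mem (π : Place k Ω κ) {P Q : Polynomial Ω} (hP : ∀ n, P.coeff n ∈ π.O)
    (hQ : ∀ n, Q.coeff n ∈ π.O) (n : ℕ) : (P * Q).coeff n ∈ π.O := by
  rw [Polynomial.coeff_mul]
  exact sum_mem fun i _ => mul_mem (hP _) (hQ _)

open Polynomial in
theorem PlB_lin (π : Place k Ω κ) {a b : Ω} (ha : a ∈ π.O) (hb : b ∈ π.O) :
    (∀ n, (C a * X + C b).coeff n ∈ π.O) ∧
      π.evP (C a * X + C b) = C (π.ev a) * X + C (π.ev b) := by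
  refine ⟨fun n => ?_, ?_⟩
  · rcases n with _ | _ | n
    · simpa using hb
    · simpa using ha
    · simp
  · ext n
    rw [π.coeff_evP]
    rcases n with _ | _ | n
    · simp
    · simp
    · simp [π.ev_zero]

open Polynomial Classical in
theorem PlB_prod (π : Place k Ω κ) (s : Multiset Ω) :
    ∃ (u : Ω) (P : Polynomial Ω), (s.map fun a => X - C a).prod = C u * P ∧
      (∀ n, P.coeff n ∈ π.O) ∧
      π.evP P = (((s.filter (· ∈ π.O)).map π.ev).map fun b => X - C b).prod := by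
  induction s using Multiset.induction_on with
  | empty =>
    have h := PlB_lin π (zero_mem π.O) (one_mem π.O)
    rw [π.ev_zero, π.ev_one] at h
    exact ⟨1, C 0 * X + C 1, by simp, h.1, by rw [h.2]; simp⟩
  | cons a s ih =>
    obtain ⟨u, P, h1, h2, h3⟩ := ih
    by_cases ha : a ∈ π.O
    · have h := PlB_lin π (one_mem π.O) (neg_mem ha)
      refine ⟨u, (C 1 * X + C (-a)) * P, ?_, PlB_mul_mem π h.1 h2, ?_⟩
      · rw [Multiset.map_cons, Multiset.prod_cons, h1, C_1, C_neg]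
        ring
      · rw [π.evP_mul h.1 h2, h.2, h3, Multiset.filter_cons_of_pos _ ha, Multiset.map_cons,
          Multiset.map_cons, Multiset.prod_cons, π.ev_one, π.ev_neg, C_1, C_neg]
        ring
    · have ha0 : a ≠ 0 := fun h => ha (h ▸ zero_mem _)
      have hi : a⁻¹ ∈ π.O := (π.O.mem_or_inv_mem a).resolve_left ha
      have h := PlB_lin π (neg_mem hi) (one_mem π.O)
      refine ⟨-a * u, (C (-a⁻¹) * X + C 1) * P, ?_, PlB_mul_mem π h.1 h2, ?_⟩
      · have h4 : C a * C a⁻¹ = (1 : Polynomial Ω) := by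
          rw [← C_mul, mul_inv_cancel₀ ha0, C_1]
        rw [Multiset.map_cons, Multiset.prod_cons, h1, C_1, C_mul, C_neg, C_neg]
        linear_combination (-(X * C u * P)) * h4
      · rw [π.evP_mul h.1 h2, h.2, h3, Multiset.filter_cons_of_neg _ ha, π.ev_neg, π.ev_inv,
          π.ev_out a ha, π.ev_one]
        simp

open Classical in
/-- The reduction of a primitive polynomial splits, with the residues of the roots lying in `O`
as roots. Plan: `P = C c' * P₁`, `P₁ = ∏_{θ ∉ O} (1 - θ⁻¹ X) * ∏_{θ ∈ O} (X - θ)`; `P₁` has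
coefficients in `O` and `evP P₁ = ∏_{θ ∈ O} (X - ev θ)` is monic, so one coefficient of `P₁` is
a unit, hence `c' ∈ O`, and `evP P = C (ev c') * evP P₁` (induction on the multiset of roots
is also possible). -/
theorem Place.fact [IsAlgClosed Ω] (π : Place k Ω κ) (P : Polynomial Ω)
    (hO : ∀ n, P.coeff n ∈ π.O) (hne : π.evP P ≠ 0) :
    ∃ c : κ, c ≠ 0 ∧ π.evP P = Polynomial.C c *
      (((P.roots.filter (· ∈ π.O)).map π.ev).map
        fun b => Polynomial.X - Polynomial.C b).prod := by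
  obtain ⟨u, Q, h1, h2, h3⟩ := PlB_prod π P.roots
  have h4 : P = Polynomial.C (P.leadingCoeff * u) * Q := by
    rw [Polynomial.C_mul, mul_assoc, ← h1]
    exact (IsAlgClosed.splits P).eq_prod_roots
  have h5 : (π.evP Q).Monic := by
    rw [h3]
    exact Polynomial.monic_multiset_prod_of_monic _ _ fun b _ => Polynomial.monic_X_sub_C b
  have h6 : π.ev (Q.coeff (π.evP Q).natDegree) = 1 := by
    rw [← π.coeff_evP]
    exact h5
  have h7 := π.mem_of_ev_ne (h6.trans_ne one_ne_zero)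
  have h8 : Q.coeff (π.evP Q).natDegree ≠ 0 := fun h => by
    rw [h, π.ev_zero] at h6
    exact zero_ne_one h6
  have h9 : P.leadingCoeff * u ∈ π.O := by
    have h := mul_mem (hO (π.evP Q).natDegree) h7.2
    rwa [congrArg (Polynomial.coeff · (π.evP Q).natDegree) h4, Polynomial.coeff_C_mul,
      mul_inv_cancel_right₀ h8] at h
  have h := PlB_lin π (zero_mem π.O) h9
  rw [π.ev_zero, Polynomial.C_0, Polynomial.C_0, zero_mul, zero_mul, zero_add, zero_add] at h
  have h10 : π.evP P = Polynomial.C (π.ev (P.leadingCoeff * u)) * π.evP Q := by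
    rw [← h.2, ← π.evP_mul h.1 h2, ← h4]
  refine ⟨π.ev (P.leadingCoeff * u), fun h0 => hne ?_, by rw [h10, h3]⟩
  rw [h10, h0, Polynomial.C_0, zero_mul]

end Pool.Agent.H35S

namespace Pool.Agent.H35S

open IntermediateField Filter Topology

universe u

variable {k Ω κ : Type u} [Field k] [Field Ω] [Field κ] [Algebra k Ω] [Algebra k κ]
variable {ι : Type} [Fintype ι]

/-! Indices of commensurable subfields. Use `Mathlib/FieldTheory/Relrank.lean`
(`relfinrank_mul_relfinrank`, `relfinrank_map_map`, `relfinrank_eq_finrank_of_le`). -/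

theorem Big.mono {A B : IntermediateField k Ω} (hA : Big A) (hAB : A ≤ B) (hB : B.FG) :
    Big B :=
  ⟨hB, ⟨fun x =>
    letI : Algebra A B := (inclusion hAB).toAlgebra
    haveI : IsScalarTower A B Ω := IsScalarTower.of_algebraMap_eq fun _ => rfl
    (hA.2.isAlgebraic x).tower_top B⟩⟩

theorem Big.sup {A B : IntermediateField k Ω} (hA : Big A) (hB : B.FG) : Big (A ⊔ B) :=
  hA.mono le_sup_left (fg_sup hA.1 hB)

theorem Big.map {A : IntermediateField k Ω} (hA : Big A) (Ψ : Ω ≃ₐ[k] Ω) :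
    Big (A.map (Ψ : Ω →ₐ[k] Ω)) := by
  obtain ⟨⟨s, hs⟩, h⟩ := hA
  classical
  refine ⟨⟨s.image Ψ, by rw [← hs, adjoin_map, Finset.coe_image]; rfl⟩, ⟨fun x => ?_⟩⟩
  have h1 := (h.isAlgebraic (Ψ.symm x)).ringHom_of_comp_eq
    (A.equivMap (Ψ : Ω →ₐ[k] Ω) : A →+* A.map (Ψ : Ω →ₐ[k] Ω)) (Ψ : Ω →+* Ω)
    (A.equivMap (Ψ : Ω →ₐ[k] Ω)).injective (RingHom.ext fun _ => rfl)
  simpa using h1

/-- A finitely generated algebraic extension is finite. -/
theorem relfinrank_ne_zero_of_fg {A B : IntermediateField k Ω} (hAB : A ≤ B) (hB : B.FG)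
    (halg : ∀ x ∈ B, IsAlgebraic A x) : relfinrank A B ≠ 0 := by
  obtain ⟨s, rfl⟩ := hB
  have : FiniteDimensional A (adjoin A (s : Set Ω)) :=
    finiteDimensional_adjoin fun x hx => (halg x (subset_adjoin k _ hx)).isIntegral
  rw [relfinrank_eq_finrank_of_le hAB, extendScalars_adjoin]
  exact Module.finrank_pos.ne'

theorem Big.relfinrank_ne_zero {A B : IntermediateField k Ω} (hA : Big A) (hAB : A ≤ B)
    (hB : B.FG) : relfinrank A B ≠ 0 :=
  relfinrank_ne_zero_of_fg hAB hB fun x _ => hA.2.isAlgebraic x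

theorem isAlgebraic_of_relfinrank_ne_zero {A B : IntermediateField k Ω} (hAB : A ≤ B)
    (h : relfinrank A B ≠ 0) {x : Ω} (hx : x ∈ B) : IsAlgebraic A x := by
  rw [relfinrank_eq_finrank_of_le hAB] at h
  have : FiniteDimensional A (extendScalars hAB) := Module.finite_of_finrank_pos (Nat.pos_of_ne_zero h)
  exact isAlgebraic_iff.1 (Algebra.IsAlgebraic.isAlgebraic (⟨x, hx⟩ : extendScalars hAB))

theorem relfinrank_sup_adjoin (A : IntermediateField k Ω) {z : Ω} (hz : IsAlgebraic A z) :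
    relfinrank A (A ⊔ k⟮z⟯) = (minpoly A z).natDegree := by
  have e : extendScalars (le_sup_left : A ≤ A ⊔ k⟮z⟯) = A⟮z⟯ :=
    restrictScalars_injective k (by rw [extendScalars_restrictScalars, restrictScalars_adjoin_eq_sup])
  rw [relfinrank_eq_finrank_of_le le_sup_left, e, adjoin.finrank hz.isIntegral]

theorem chi_nonneg (A B : IntermediateField k Ω) : 0 ≤ chi A B :=
  div_nonneg (Nat.cast_nonneg _) (Nat.cast_nonneg _)

theorem chi_pos {A B : IntermediateField k Ω} (hA : Big A) (hB : Big B) : 0 < chi A B :=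
  div_pos
    (Nat.cast_pos.2 (Nat.pos_of_ne_zero (hA.relfinrank_ne_zero le_sup_left (fg_sup hA.1 hB.1))))
    (Nat.cast_pos.2 (Nat.pos_of_ne_zero (hB.relfinrank_ne_zero le_sup_right (fg_sup hA.1 hB.1))))

theorem chi_self (A : IntermediateField k Ω) : chi A A = 1 := by simp [chi]

theorem chi_of_le {A B : IntermediateField k Ω} (h : A ≤ B) :
    chi A B = relfinrank A B := by
  simp [chi, sup_of_le_right h]

/-- `chi A B = [L : A] / [L : B]` for every big `L` containing both. -/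
theorem chi_eq {A B L : IntermediateField k Ω} (hA : Big A) (hB : Big B) (hL : L.FG)
    (hAL : A ≤ L) (hBL : B ≤ L) :
    chi A B = (relfinrank A L : ℝ) / (relfinrank B L : ℝ) := by
  have h1 := relfinrank_mul_relfinrank (le_sup_left : A ≤ A ⊔ B) (sup_le hAL hBL)
  have h2 := relfinrank_mul_relfinrank (le_sup_right : B ≤ A ⊔ B) (sup_le hAL hBL)
  have h3 : (relfinrank (A ⊔ B) L : ℝ) ≠ 0 :=
    Nat.cast_ne_zero.2 ((hA.sup hB.1).relfinrank_ne_zero (sup_le hAL hBL) hL)
  rw [chi, ← h1, ← h2, Nat.cast_mul, Nat.cast_mul, mul_div_mul_right _ _ h3]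

theorem chi_mul {A B C : IntermediateField k Ω} (hA : Big A) (hB : Big B) (hC : Big C) :
    chi A B * chi B C = chi A C := by
  have hL := fg_sup (fg_sup hA.1 hB.1) hC.1
  have a : A ≤ A ⊔ B ⊔ C := le_sup_left.trans le_sup_left
  have b : B ≤ A ⊔ B ⊔ C := le_sup_right.trans le_sup_left
  have h3 : (relfinrank B (A ⊔ B ⊔ C) : ℝ) ≠ 0 := Nat.cast_ne_zero.2 (hB.relfinrank_ne_zero b hL)
  rw [chi_eq hA hB hL a b, chi_eq hB hC hL b le_sup_right, chi_eq hA hC hL a le_sup_right,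
    div_mul_div_cancel₀ h3]

theorem chi_map (A B : IntermediateField k Ω) (Ψ : Ω ≃ₐ[k] Ω) :
    chi (A.map (Ψ : Ω →ₐ[k] Ω)) (B.map (Ψ : Ω →ₐ[k] Ω)) = chi A B := by
  rw [chi, chi, ← IntermediateField.map_sup, relfinrank_map_map, relfinrank_map_map]

end Pool.Agent.H35S

namespace Pool.Agent.H35S

open IntermediateField Filter Topology

universe u

variable {k Ω κ : Type u} [Field k] [Field Ω] [Field κ] [Algebra k Ω] [Algebra k κ]
variable {ι : Type} [Fintype ι]

/-! Indices of commensurable subfields. Use `Mathlib/FieldTheory/Relrank.lean`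
(`relfinrank_mul_relfinrank`, `relfinrank_map_map`, `relfinrank_eq_finrank_of_le`). -/

theorem Chi_range {α : Type*} (x y : α) : Set.range ![x, y] = {x, y} := by
  simp [Set.pair_comm]

theorem big_pair (htr : Algebra.trdeg k Ω = 2) {x y : Ω}
    (h : AlgebraicIndependent k ![x, y]) : Big k⟮x, y⟯ := by
  refine ⟨fg_adjoin_of_finite (Set.toFinite _), ?_⟩
  have := (h.isTranscendenceBasis_of_lift_trdeg_le_of_finite (by simp [htr])).isAlgebraic_field
  rwa [Chi_range] at this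

/-- Two elements over whose field `Ω` is algebraic are independent. -/
theorem indep_of_isAlgebraic (htr : Algebra.trdeg k Ω = 2) {x y : Ω}
    (h : Algebra.IsAlgebraic k⟮x, y⟯ Ω) : AlgebraicIndependent k ![x, y] := by
  rw [← Chi_range, isAlgebraic_adjoin_iff_top] at h
  exact (Algebra.IsAlgebraic.isTranscendenceBasis_of_lift_le_trdeg_of_finite k ![x, y]
    (by simp [htr])).1

theorem pr_nonneg (K : IntermediateField k Ω) (x y : Ω) : 0 ≤ pr K x y := chi_nonneg _ _

theorem pr_symm (K : IntermediateField k Ω) (x y : Ω) : pr K x y = pr K y x := by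
  rw [pr, pr, Set.pair_comm]

theorem pr_eq_zero (htr : Algebra.trdeg k Ω = 2) {K : IntermediateField k Ω} (hK : Big K)
    {x y : Ω} (h : ¬ AlgebraicIndependent k ![x, y]) : pr K x y = 0 := by
  rw [pr, chi]
  by_cases h0 : relfinrank k⟮x, y⟯ (k⟮x, y⟯ ⊔ K) = 0
  · rw [h0, Nat.cast_zero, zero_div]
  refine absurd (indep_of_isAlgebraic htr ?_) h
  have hle : k⟮x, y⟯ ≤ k⟮x, y⟯ ⊔ K := le_sup_left
  have h1 : Algebra.IsAlgebraic k⟮x, y⟯ (extendScalars hle) := ⟨fun z =>
    (isAlgebraic_algHom_iff (extendScalars hle).val Subtype.val_injective).1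
      (isAlgebraic_of_relfinrank_ne_zero hle h0 z.2)⟩
  have h2 : Big (k⟮x, y⟯ ⊔ K) := by
    rw [sup_comm]
    exact hK.sup (fg_adjoin_of_finite (Set.toFinite _))
  have h3 : Algebra.IsAlgebraic (extendScalars hle) Ω := h2.2
  exact Algebra.IsAlgebraic.trans k⟮x, y⟯ (extendScalars hle) Ω

theorem one_le_pr (htr : Algebra.trdeg k Ω = 2) {K : IntermediateField k Ω} (hK : Big K)
    {x y : Ω} (hx : x ∈ K) (hy : y ∈ K) (h : AlgebraicIndependent k ![x, y]) :
    1 ≤ pr K x y := by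
  have hle : k⟮x, y⟯ ≤ K := by
    rw [adjoin_le_iff]
    rintro z (rfl | rfl)
    exacts [hx, hy]
  rw [pr, chi_of_le hle]
  exact_mod_cast Nat.one_le_iff_ne_zero.2 ((big_pair htr h).relfinrank_ne_zero hle hK.1)

theorem pr_map (htr : Algebra.trdeg k Ω = 2) {K : IntermediateField k Ω} (hK : Big K)
    (Ψ : Ω ≃ₐ[k] Ω) (x y : Ω) :
    pr K (Ψ x) (Ψ y) = pr K x y * chi (K.map (Ψ : Ω →ₐ[k] Ω)) K := by
  have hc : ![Ψ x, Ψ y] = (Ψ : Ω →ₐ[k] Ω) ∘ ![x, y] := by
    funext i
    fin_cases i <;> rfl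
  by_cases h : AlgebraicIndependent k ![x, y]
  · have hm : k⟮Ψ x, Ψ y⟯ = k⟮x, y⟯.map (Ψ : Ω →ₐ[k] Ω) := by
      rw [adjoin_map, Set.image_pair]
      rfl
    rw [pr, pr, hm, ← chi_map k⟮x, y⟯ K Ψ, chi_mul ((big_pair htr h).map Ψ) (hK.map Ψ) hK]
  · rw [pr_eq_zero htr hK h, zero_mul]
    refine pr_eq_zero htr hK fun h' => h ?_
    rw [hc] at h'
    exact h'.of_comp _

theorem prT_nonneg (K : IntermediateField k Ω) (b c : ι → Ω) : 0 ≤ prT K b c :=
  Finset.sum_nonneg fun _ _ => Finset.sum_nonneg fun _ _ => pr_nonneg _ _ _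

theorem prT_symm (K : IntermediateField k Ω) (b c : ι → Ω) : prT K b c = prT K c b := by
  rw [prT, prT, Finset.sum_comm]
  exact Finset.sum_congr rfl fun _ _ => Finset.sum_congr rfl fun _ _ => pr_symm _ _ _

theorem prT_map (htr : Algebra.trdeg k Ω = 2) {K : IntermediateField k Ω} (hK : Big K)
    (Ψ : Ω ≃ₐ[k] Ω) (b c : ι → Ω) :
    prT K (fun l => Ψ (b l)) (fun l => Ψ (c l)) =
      prT K b c * chi (K.map (Ψ : Ω →ₐ[k] Ω)) K := by
  simp only [prT, Finset.sum_mul, pr_map htr hK]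

end Pool.Agent.H35S

namespace Pool.Agent.H35S

open IntermediateField Filter Topology

universe u

variable {k Ω κ : Type u} [Field k] [Field Ω] [Field κ] [Algebra k Ω] [Algebra k κ]
variable {ι : Type} [Fintype ι]

/-! Degrees of a system. -/

theorem Sys.big (S : Sys k Ω ι) : Big S.K :=
  ⟨fg_adjoin_of_finite (Set.finite_range S.a), S.alg⟩

theorem Sys.big_Kn (S : Sys k Ω ι) (n : ℤ) : Big (S.Kn n) := S.big.map _

theorem Sys.a_mem (S : Sys k Ω ι) (l : ι) : S.a l ∈ S.K := subset_adjoin k _ ⟨l, rfl⟩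

theorem Sys.fr_zero (S : Sys k Ω ι) : S.fr 0 = S.a := by
  funext l
  simp [Sys.fr]

theorem Sys.fr_add (S : Sys k Ω ι) (i j : ℤ) (l : ι) :
    S.fr (i + j) l = (S.Φ ^ i) (S.fr j l) := by
  simp only [Sys.fr, zpow_add, AlgEquiv.mul_apply]

theorem Sys.Kn_zero (S : Sys k Ω ι) : S.Kn 0 = S.K := by
  ext x
  simp [Sys.Kn, IntermediateField.mem_map]

theorem Sys.mem_Kn (S : Sys k Ω ι) (n : ℤ) (x : Ω) :
    x ∈ S.Kn n ↔ ∃ y ∈ S.K, (S.Φ ^ n) y = x := by
  simp [Sys.Kn, IntermediateField.mem_map]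

theorem Sys.Kn_eq (S : Sys k Ω ι) (n : ℤ) : S.Kn n = adjoin k (Set.range (S.fr n)) := by
  rw [Sys.Kn, Sys.K, adjoin_map, ← Set.range_comp]
  rfl

theorem Sys.fr_mem (S : Sys k Ω ι) (n : ℤ) (l : ι) : S.fr n l ∈ S.Kn n :=
  (S.mem_Kn n _).2 ⟨S.a l, S.a_mem l, rfl⟩

theorem Sys.Kn_map (S : Sys k Ω ι) (i j : ℤ) :
    (S.Kn j).map ((S.Φ ^ i : Ω ≃ₐ[k] Ω) : Ω →ₐ[k] Ω) = S.Kn (i + j) := by
  ext x
  rw [IntermediateField.mem_map, S.mem_Kn]
  constructor
  · rintro ⟨y, hy, rfl⟩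
    obtain ⟨z, hz, rfl⟩ := (S.mem_Kn j y).1 hy
    exact ⟨z, hz, by simp only [zpow_add, AlgEquiv.mul_apply]; rfl⟩
  · rintro ⟨z, hz, rfl⟩
    exact ⟨(S.Φ ^ j) z, (S.mem_Kn j _).2 ⟨z, hz, rfl⟩,
      by simp only [zpow_add, AlgEquiv.mul_apply]; rfl⟩

theorem ChiS0_pow_mem (S : Sys k Ω ι) {n : ℤ} (hn : 0 ≤ n) {x : Ω} (hx : x ∈ S.K) :
    (S.Φ ^ n) x ∈ S.K := by
  obtain ⟨m, rfl⟩ := Int.eq_ofNat_of_zero_le hn
  rw [zpow_natCast]
  exact (S.pow m).map_mem x hx

theorem Sys.Kn_anti (S : Sys k Ω ι) {i j : ℤ} (h : i ≤ j) : S.Kn j ≤ S.Kn i := by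
  intro x hx
  obtain ⟨y, hy, rfl⟩ := (S.mem_Kn j x).1 hx
  refine (S.mem_Kn i _).2 ⟨(S.Φ ^ (j - i)) y, ChiS0_pow_mem S (by omega) hy, ?_⟩
  rw [← AlgEquiv.mul_apply, ← zpow_add]
  congr 2
  ring

theorem Sys.pow_mem (S : Sys k Ω ι) {n : ℤ} (hn : 0 ≤ n) {x : Ω} (hx : x ∈ S.K) :
    (S.Φ ^ n) x ∈ S.K := ChiS0_pow_mem S hn hx

theorem ChiS0_Kn_le (S : Sys k Ω ι) {n : ℤ} (hn : 0 ≤ n) : S.Kn n ≤ S.K :=
  S.Kn_zero ▸ S.Kn_anti hn

theorem Sys.one_le_D (S : Sys k Ω ι) : 1 ≤ S.D :=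
  Nat.one_le_iff_ne_zero.2
    ((S.big_Kn 1).relfinrank_ne_zero (ChiS0_Kn_le S zero_le_one) S.big.1)

theorem Sys.relfinrank_Kn (S : Sys k Ω ι) (i : ℤ) (n : ℕ) :
    relfinrank (S.Kn (i + n)) (S.Kn i) = S.D ^ n := by
  have h1 : ∀ j : ℤ, relfinrank (S.Kn (j + 1)) (S.Kn j) = S.D := by
    intro j
    have := relfinrank_map_map (S.Kn 1) (S.Kn 0) ((S.Φ ^ j : Ω ≃ₐ[k] Ω) : Ω →ₐ[k] Ω)
    rw [S.Kn_map, S.Kn_map, add_zero, S.Kn_zero] at this
    exact this
  induction n with
  | zero => simp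
  | succ n ih =>
    have e : i + ((n + 1 : ℕ) : ℤ) = i + n + 1 := by push_cast; ring
    rw [e, ← relfinrank_mul_relfinrank (S.Kn_anti (show i + n ≤ i + n + 1 by omega))
      (S.Kn_anti (show i ≤ i + n by omega)), h1, ih, pow_succ']

theorem ChiS0_rel (S : Sys k Ω ι) (n : ℕ) : relfinrank (S.Kn n) S.K = S.D ^ n := by
  have := S.relfinrank_Kn 0 n
  rwa [zero_add, S.Kn_zero] at this

/-- A sibling of `K` has index one. -/
theorem Sys.chi_sib (S : Sys k Ω ι) (n : ℕ) (Γ : Ω ≃ₐ[k] Ω) (hΓ : ∀ x ∈ S.Kn n, Γ x = x) :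
    chi (S.K.map (Γ : Ω →ₐ[k] Ω)) S.K = 1 := by
  have hfix : (S.Kn n).map (Γ : Ω →ₐ[k] Ω) = S.Kn n := by
    ext x
    rw [IntermediateField.mem_map]
    constructor
    · rintro ⟨y, hy, rfl⟩
      have : (Γ : Ω →ₐ[k] Ω) y = y := hΓ y hy
      rwa [this]
    · intro hx
      exact ⟨x, hx, hΓ x hx⟩
  have h1 := chi_map (S.Kn n) S.K Γ
  rw [hfix] at h1
  have h2 := chi_mul (S.big_Kn n) (S.big.map Γ) S.big
  rw [h1] at h2
  have h3 := chi_pos (S.big_Kn n) S.big
  exact mul_left_cancel₀ h3.ne' (h2.trans (mul_one _).symm)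

theorem Sys.prT_fr (S : Sys k Ω ι) (i j : ℕ) :
    prT S.K (S.fr i) (S.fr ((i : ℤ) + j)) = (S.D : ℝ) ^ i * S.δ j := by
  have h := prT_map S.trdeg S.big (S.Φ ^ (i : ℤ)) S.a (S.fr j)
  have e : S.fr ((i : ℤ) + j) = fun l => (S.Φ ^ (i : ℤ)) (S.fr j l) := funext (S.fr_add i j)
  have h2 : chi (S.Kn i) S.K = (S.D : ℝ) ^ i := by
    rw [chi_of_le (ChiS0_Kn_le S (Int.natCast_nonneg i)), ChiS0_rel]
    push_cast
    rfl
  rw [e, mul_comm, ← h2]
  exact h

theorem Sys.prT_sib (S : Sys k Ω ι) (n : ℕ) (Γ : Ω ≃ₐ[k] Ω) (hΓ : ∀ x ∈ S.Kn n, Γ x = x) :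
    prT S.K (fun l => Γ (S.a l)) (S.fr n) = S.δ n := by
  have h := prT_map S.trdeg S.big Γ S.a (S.fr n)
  have e : (fun l => Γ (S.fr n l)) = S.fr n := funext fun l => hΓ _ (S.fr_mem n l)
  rw [e, S.chi_sib n Γ hΓ, mul_one] at h
  exact h

/-- Automorphisms agreeing on the generators agree on `K`. -/
theorem Sys.eq_on_K (S : Sys k Ω ι) {Γ Γ' : Ω ≃ₐ[k] Ω} (h : ∀ l, Γ (S.a l) = Γ' (S.a l))
    {x : Ω} (hx : x ∈ S.K) : Γ x = Γ' x := by
  induction hx using adjoin_induction with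
  | mem x hx =>
    obtain ⟨l, rfl⟩ := hx
    exact h l
  | algebraMap c => simp
  | add x y _ _ hx hy => rw [map_add, map_add, hx, hy]
  | inv x _ hx => rw [map_inv₀, map_inv₀, hx]
  | mul x y _ _ hx hy => rw [map_mul, map_mul, hx, hy]

theorem Sys.pow_K (S : Sys k Ω ι) (m : ℕ) : (S.pow m).K = S.K := rfl

theorem Sys.pow_Φ (S : Sys k Ω ι) (m : ℕ) (n : ℤ) :
    (S.pow m).Φ ^ n = S.Φ ^ ((m : ℤ) * n) := by
  rw [zpow_mul, zpow_natCast]
  rfl

theorem Sys.pow_fr (S : Sys k Ω ι) (m : ℕ) (n : ℤ) : (S.pow m).fr n = S.fr (m * n) := by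
  funext l
  simp only [Sys.fr, S.pow_Φ]
  rfl

theorem Sys.pow_D (S : Sys k Ω ι) (m : ℕ) : (S.pow m).D = S.D ^ m := by
  rw [← ChiS0_rel]
  simp only [Sys.D, Sys.Kn, S.pow_Φ, mul_one]
  rfl

theorem Sys.pow_δ (S : Sys k Ω ι) (m n : ℕ) : (S.pow m).δ n = S.δ (m * n) := by
  simp only [Sys.δ, S.pow_fr]
  push_cast
  rfl

end Pool.Agent.H35S

namespace Pool.Agent.H35S

open IntermediateField Filter Topology

universe u

variable {k Ω κ : Type u} [Field k] [Field Ω] [Field κ] [Algebra k Ω] [Algebra k κ]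
variable {ι : Type} [Fintype ι]

/-! Degrees of a system. -/

omit [Fintype ι] in
theorem ChiS_alg {A : IntermediateField k Ω} {f : ι → Ω}
    (hB : Algebra.IsAlgebraic (adjoin k (Set.range f)) Ω) (h : ∀ l, IsAlgebraic A (f l)) :
    Algebra.IsAlgebraic A Ω := by
  refine ⟨fun z => ?_⟩
  have hle : adjoin k (Set.range f) ≤ (algebraicClosure A Ω).restrictScalars k := by
    rw [adjoin_le_iff]
    rintro _ ⟨l, rfl⟩
    exact mem_algebraicClosure_iff.2 (h l)
  have h1 : IsAlgebraic ((algebraicClosure A Ω).restrictScalars k).toSubalgebra z :=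
    IsAlgebraic.tower_top_of_subalgebra_le (A := (adjoin k (Set.range f)).toSubalgebra) hle
      (hB.isAlgebraic z)
  have h2 : IsAlgebraic (algebraicClosure A Ω) z := h1
  exact (isIntegral_trans z h2.isIntegral).isAlgebraic

theorem ChiS_pair {x y : Ω} (hx : Transcendental k x) (hy : Transcendental k⟮x⟯ y) :
    AlgebraicIndependent k ![x, y] := by
  have h1 : AlgebraicIndependent k (fun _ : Unit => x) :=
    algebraicIndependent_unique_type_iff.mpr hx
  have h2 : Transcendental (Algebra.adjoin k (Set.range fun _ : Unit => x)) y := by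
    rw [Set.range_const]
    exact transcendental_adjoin_iff.mp hy
  have h3 := ((h1.option_iff_transcendental y).mpr h2).comp
    (![some (), none] : Fin 2 → Option Unit) (by decide)
  convert h3 using 1
  funext i
  fin_cases i <;> rfl

theorem ChiS_not_alg (htr : Algebra.trdeg k Ω = 2) (x : Ω) : ¬ Algebra.IsAlgebraic k⟮x⟯ Ω := by
  intro h
  have h1 : Algebra.IsAlgebraic k⟮x, x⟯ Ω := by
    rw [Set.pair_eq_singleton]
    exact h
  have h2 := (indep_of_isAlgebraic htr h1).injective (a₁ := 0) (a₂ := 1) rfl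
  exact absurd h2 (by decide)

/-- A transcendental element is independent from some generator of `Φ^n K` (otherwise `Ω` is
algebraic over `k(x)`). -/
theorem Sys.exists_indep (S : Sys k Ω ι) {x : Ω} (hx : Transcendental k x) (n : ℤ) :
    ∃ l, AlgebraicIndependent k ![x, S.fr n l] := by
  by_contra h
  refine ChiS_not_alg S.trdeg x (ChiS_alg (f := S.fr n) ?_ fun l => ?_)
  · rw [← S.Kn_eq]
    exact (S.big_Kn n).2
  · by_contra h'
    exact h ⟨l, ChiS_pair hx h'⟩

theorem Sys.exists_transcendental (S : Sys k Ω ι) : ∃ l, Transcendental k (S.a l) := by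
  by_contra h
  refine ChiS_not_alg S.trdeg 0 (ChiS_alg S.alg fun l => ?_)
  have h1 : IsAlgebraic k (S.a l) := by
    by_contra h'
    exact h ⟨l, h'⟩
  exact h1.tower_top _

theorem Sys.one_le_δ (S : Sys k Ω ι) (n : ℕ) : 1 ≤ S.δ n := by
  obtain ⟨l, hl⟩ := S.exists_transcendental
  obtain ⟨l', hl'⟩ := S.exists_indep hl n
  have h1 : S.fr n l' ∈ S.K := by
    rw [← S.Kn_zero]
    exact S.Kn_anti (Int.natCast_nonneg n) (S.fr_mem n l')
  refine (one_le_pr S.trdeg S.big (S.a_mem l) h1 hl').trans ?_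
  refine (Finset.single_le_sum (f := fun l' => pr S.K (S.a l) (S.fr n l'))
    (fun _ _ => pr_nonneg _ _ _) (Finset.mem_univ l')).trans ?_
  exact Finset.single_le_sum (f := fun l => ∑ l', pr S.K (S.a l) (S.fr n l'))
    (fun _ _ => Finset.sum_nonneg fun _ _ => pr_nonneg _ _ _) (Finset.mem_univ l)

/-- There are at most `[L(a) : L]` conjugates of a tuple: a conjugate tuple determines an
`L`-embedding of `L(a)` (`extendScalars`, `card_algHom_le_finrank` or
`AlgHom.card_le`-type bounds). -/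
theorem conj_finite_card {L : IntermediateField k Ω} (hL : Big L) (a : ι → Ω) :
    (conj L a).Finite ∧ (conj L a).ncard ≤ relfinrank L (L ⊔ adjoin k (Set.range a)) := by
  have hle : L ≤ L ⊔ adjoin k (Set.range a) := le_sup_left
  have h0 := hL.relfinrank_ne_zero hle (hL.sup (fg_adjoin_of_finite (Set.finite_range a))).1
  rw [relfinrank_eq_finrank_of_le hle] at h0 ⊢
  have : FiniteDimensional L (extendScalars hle) := .of_finrank_pos (Nat.pos_of_ne_zero h0)
  have hm : ∀ l, a l ∈ extendScalars hle := fun l =>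
    (le_sup_right : adjoin k (Set.range a) ≤ L ⊔ adjoin k (Set.range a))
      (subset_adjoin k _ ⟨l, rfl⟩)
  let f : (extendScalars hle →ₐ[L] Ω) → ι → Ω := fun φ l => φ ⟨a l, hm l⟩
  have hsub : conj L a ⊆ f '' Set.univ := by
    rintro _ ⟨Γ, hΓ, rfl⟩
    let Γ' : Ω →ₐ[L] Ω := { (Γ : Ω →+* Ω) with commutes' := fun x => hΓ x x.2 }
    exact ⟨Γ'.comp (extendScalars hle).val, trivial, rfl⟩
  have hfin : (f '' Set.univ).Finite := Set.finite_univ.image f
  refine ⟨hfin.subset hsub, (Set.ncard_le_ncard hsub hfin).trans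
    ((Set.ncard_image_le Set.finite_univ).trans ?_)⟩
  rw [Set.ncard_univ]
  exact card_algHom_le_finrank L _ Ω

theorem Sys.conj_finite (S : Sys k Ω ι) (n : ℕ) : (conj (S.Kn n) S.a).Finite :=
  (conj_finite_card (S.big_Kn n) S.a).1

theorem Sys.conj_card (S : Sys k Ω ι) (n : ℕ) : (conj (S.Kn n) S.a).ncard ≤ S.D ^ n := by
  refine (conj_finite_card (S.big_Kn n) S.a).2.trans (le_of_eq ?_)
  have h1 : S.Kn n ≤ S.K := by
    rw [← S.Kn_zero]
    exact S.Kn_anti (Int.natCast_nonneg n)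
  have h2 := S.relfinrank_Kn 0 n
  rw [zero_add, S.Kn_zero] at h2
  rw [← h2]
  exact congrArg _ (sup_eq_right.mpr h1)

end Pool.Agent.H35S

namespace Pool.Agent.H35S

open IntermediateField Filter Topology

universe u

variable {k Ω κ : Type u} [Field k] [Field Ω] [Field κ] [Algebra k Ω] [Algebra k κ]
variable {ι : Type} [Fintype ι]

/-! Residue fields of places of a field of transcendence degree two. -/

theorem exists_not_mem {w : ValuationSubring Ω} (hw : w ≠ ⊤) {L : IntermediateField k Ω}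
    (hL : Algebra.IsAlgebraic L Ω) : ∃ T ∈ L, T ∉ w := by
  by_contra h
  push Not at h
  exact hw (eq_top_iff.2 fun x _ => mem_of_isAlgebraic w L h (hL.isAlgebraic x))

theorem label_eq_iff (w : ValuationSubring Ω) {L : IntermediateField k Ω}
    (hL : Algebra.IsAlgebraic L Ω) : label w L = (L : Set Ω) ↔ w = ⊤ := by
  refine ⟨fun h => ?_, fun h => ?_⟩
  · by_contra hw
    obtain ⟨T, h1, h2⟩ := exists_not_mem hw hL
    have h3 : T ∈ label w L := by rw [h]; exact h1
    exact h2 h3.2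
  · subst h
    exact Set.ext fun x => ⟨fun h => h.1, fun h => ⟨h, ValuationSubring.mem_top x⟩⟩

theorem PlC0_indep {u v : κ} (hu : Transcendental k u) (hv : ¬ IsAlgebraic k⟮u⟯ v) :
    AlgebraicIndependent k ![u, v] := by
  have h1 : AlgebraicIndependent k (fun _ : Unit => u) := algebraicIndependent_unique_type_iff.2 hu
  rw [IntermediateField.isAlgebraic_adjoin_iff] at hv
  have h2 := (h1.option_iff_transcendental v).2 (by rw [Set.range_const]; exact hv)
  convert h2.comp ![some (), none] (by decide) using 1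
  ext i
  fin_cases i <;> rfl

/-- If the place is nontrivial and `ev c` is transcendental, every residue is algebraic over
`k(ev c)`: otherwise `c, x` have independent residues, so they are independent, `k(c,x) ⊆ O`
and `O = ⊤` by `big_pair` and `mem_of_isAlgebraic`. -/
theorem Place.isAlgebraic_ev (htr : Algebra.trdeg k Ω = 2) (π : Place k Ω κ) (hπ : π.O ≠ ⊤)
    {c : Ω} (hc : Transcendental k (π.ev c)) (x : Ω) :
    IsAlgebraic k⟮π.ev c⟯ (π.ev x) := by
  by_contra hx
  have h1 := PlC0_indep hc hx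
  have hc0 : π.ev c ≠ 0 := fun h => hc (h ▸ isAlgebraic_zero)
  have hx0 : π.ev x ≠ 0 := fun h => hx (by rw [h]; exact isAlgebraic_zero)
  have hm : ∀ i, ![c, x] i ∈ π.O := fun i => by
    fin_cases i
    · exact (π.mem_of_ev_ne hc0).1
    · exact (π.mem_of_ev_ne hx0).1
  have he : (fun i => π.ev (![c, x] i)) = ![π.ev c, π.ev x] := by
    ext i
    fin_cases i <;> rfl
  have h2 : ∀ p : MvPolynomial (Fin 2) k, p ≠ 0 → π.ev (MvPolynomial.aeval ![c, x] p) ≠ 0 :=
    fun p hp h => hp (algebraicIndependent_iff.1 h1 p (by rwa [π.ev_mvaeval hm, he] at h))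
  have h3 : AlgebraicIndependent k ![c, x] := algebraicIndependent_iff.2 fun p hp => by
    by_contra h
    exact h2 p h (by rw [hp, π.ev_zero])
  refine hπ (eq_top_iff.2 fun y _ => mem_of_isAlgebraic π.O k⟮c, x⟯ (fun z hz => ?_)
    ((big_pair htr h3).2.isAlgebraic y))
  rw [show ({c, x} : Set Ω) = Set.range ![c, x] by simp [Set.pair_comm]] at hz
  obtain ⟨r, s, rfl⟩ := (mem_adjoin_range_iff k _ z).1 hz
  by_cases hs : s = 0
  · rw [hs, map_zero, div_zero]
    exact zero_mem _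
  · rw [div_eq_mul_inv]
    exact mul_mem (π.mvaeval_mem hm r) (π.mem_of_ev_ne (h2 s hs)).2

/-- For the trivial place, `ev` is a field homomorphism. -/
theorem Place.isAlgebraic_ev_top (π : Place k Ω κ) (hπ : π.O = ⊤) (a : ι → Ω)
    (halg : Algebra.IsAlgebraic (adjoin k (Set.range a)) Ω) (x : Ω) :
    IsAlgebraic (adjoin k (Set.range fun l => π.ev (a l))) (π.ev x) := by
  have hm : ∀ y, y ∈ π.O := fun y => by rw [hπ]; exact ValuationSubring.mem_top y
  let f : Ω →ₐ[k] κ :=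
    { toFun := π.ev
      map_one' := π.ev_one
      map_mul' := fun y z => π.ev_mul y z (hm y) (hm z)
      map_zero' := π.ev_zero
      map_add' := fun y z => π.ev_add y z (hm y) (hm z)
      commutes' := π.ev_alg }
  have hf : ∀ y : adjoin k (Set.range a),
      f y ∈ adjoin k (Set.range fun l => π.ev (a l)) := fun y => by
    have h1 : f y ∈ (adjoin k (Set.range a)).map f := ⟨y, y.2, rfl⟩
    rwa [adjoin_map, ← Set.range_comp] at h1
  let g : adjoin k (Set.range a) →+* adjoin k (Set.range fun l => π.ev (a l)) :=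
    ((f : Ω →+* κ).comp (adjoin k (Set.range a)).val.toRingHom).codRestrict _ hf
  exact (halg.isAlgebraic x).ringHom_of_comp_eq g (f : Ω →+* κ) g.injective (by ext; rfl)

theorem Sys.lab_pull_mul (S : Sys k Ω ι) (π : Place k Ω κ) (Ψ : Ω ≃ₐ[k] Ω) :
    S.lab (π.pull (Ψ * S.Φ)).O = S.next (S.lab (π.pull Ψ).O) :=
  Set.ext fun x => ⟨fun h => ⟨h.1, S.map_mem x h.1, h.2⟩, fun h => ⟨h.1, h.2.2⟩⟩

theorem Sys.El_succ (S : Sys k Ω ι) (π : Place k Ω κ) (i : ℤ) :
    S.El π (i + 1) = S.next (S.El π i) := by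
  rw [Sys.El, zpow_add_one, S.lab_pull_mul, Sys.El]

theorem Sys.lab_congr (S : Sys k Ω ι) (π : Place k Ω κ) {Ψ Ψ' : Ω ≃ₐ[k] Ω}
    (h : ∀ x ∈ S.K, Ψ x = Ψ' x) : S.lab (π.pull Ψ).O = S.lab (π.pull Ψ').O :=
  Set.ext fun x => and_congr_right fun hx => by rw [π.mem_pull, π.mem_pull, h x hx]

end Pool.Agent.H35S

namespace Pool.Agent.H35S

open IntermediateField Filter Topology

universe u

variable {k Ω κ : Type u} [Field k] [Field Ω] [Field κ] [Algebra k Ω] [Algebra k κ]
variable {ι : Type} [Fintype ι]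

/-! Residue fields of places of a field of transcendence degree two. -/

theorem PlC_indep (π : Place k Ω κ) {L₀ L : IntermediateField k Ω} (h : L₀ ≤ L)
    {α : Type u} [Fintype α] (y : α → extendScalars (π.res_mono h))
    (hy : LinearIndependent (π.res L₀) y) :
    ∃ x : α → extendScalars h, LinearIndependent L₀ x := by
  classical
  have h1 : ∀ i, ∃ x ∈ L, x ∈ π.O ∧ π.ev x = (y i : κ) := fun i => (π.mem_res L _).mp (y i).2
  choose x hxL hxO hxe using h1
  refine ⟨fun i => ⟨x i, hxL i⟩, ?_⟩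
  rw [Fintype.linearIndependent_iff] at hy ⊢
  intro g hg i₀
  by_contra hne
  obtain ⟨j, -, hj⟩ := Finset.exists_max_image Finset.univ
    (fun i => π.O.valuation (g i : Ω)) ⟨i₀, Finset.mem_univ _⟩
  have hi₀ : (g i₀ : Ω) ≠ 0 := fun h0 => hne (Subtype.ext h0)
  have hj0 : (g j : Ω) ≠ 0 := by
    intro h0
    have h2 := hj i₀ (Finset.mem_univ _)
    rw [h0, map_zero, le_zero_iff] at h2
    exact hi₀ ((map_eq_zero _).mp h2)
  have hvj : 0 < π.O.valuation (g j : Ω) := zero_lt_iff.mpr ((map_ne_zero _).mpr hj0)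
  have hO : ∀ i, (g i : Ω) / g j ∈ π.O := by
    intro i
    rw [← π.O.valuation_le_one_iff, map_div₀, div_le_one₀ hvj]
    exact hj i (Finset.mem_univ _)
  have hL : ∀ i, (g i : Ω) / g j ∈ L₀ := fun i => div_mem (g i).2 (g j).2
  have hsum : ∑ i, (g i : Ω) * x i = 0 := by
    have h3 := congrArg (fun z : extendScalars h => (z : Ω)) hg
    simpa [IntermediateField.smul_def] using h3
  have hsum2 : ∑ i, (g i : Ω) / g j * x i = 0 := by
    have h4 : ∑ i, (g i : Ω) / g j * x i = (∑ i, (g i : Ω) * x i) / g j := by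
      rw [Finset.sum_div]
      exact Finset.sum_congr rfl fun i _ => by ring
    rw [h4, hsum, zero_div]
  have hev : ∑ i, π.ev ((g i : Ω) / g j) * (y i : κ) = 0 := by
    have h5 := π.ev_sum Finset.univ (fun i => (g i : Ω) / g j * x i)
      (fun i _ => mul_mem (hO i) (hxO i))
    rw [hsum2, π.ev_zero] at h5
    rw [h5]
    exact Finset.sum_congr rfl fun i _ => by rw [π.ev_mul _ _ (hO i) (hxO i), hxe]
  have h6 := hy (fun i => ⟨π.ev ((g i : Ω) / g j), π.ev_mem_res (hL i)⟩) (by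
    apply Subtype.ext
    simpa [IntermediateField.smul_def] using hev) j
  have h7 : π.ev ((g j : Ω) / g j) = 0 := congrArg Subtype.val h6
  rw [div_self hj0, π.ev_one] at h7
  exact one_ne_zero h7

/-- Residue degrees are finite: lifts of residues that are linearly independent over `res L₀`
are linearly independent over `L₀` (scale a relation by a coefficient of largest valuation). -/
theorem Place.res_fin (π : Place k Ω κ) {L₀ L : IntermediateField k Ω} (h : L₀ ≤ L)
    (hfin : relfinrank L₀ L ≠ 0) : relfinrank (π.res L₀) (π.res L) ≠ 0 := by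
  rw [relfinrank_eq_finrank_of_le h] at hfin
  rw [relfinrank_eq_finrank_of_le (π.res_mono h)]
  have : Module.Finite L₀ (extendScalars h) :=
    Module.finite_of_finrank_pos (Nat.pos_of_ne_zero hfin)
  have h1 : Module.rank (π.res L₀) (extendScalars (π.res_mono h)) ≤
      (Module.finrank L₀ (extendScalars h) : ℕ) := by
    refine rank_le fun s hs => ?_
    obtain ⟨x, hx⟩ := PlC_indep π h _ hs
    simpa using hx.fintype_card_le_finrank
  have : Module.Finite (π.res L₀) (extendScalars (π.res_mono h)) :=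
    Module.rank_lt_aleph0_iff.mp (h1.trans_lt (Cardinal.natCast_lt_aleph0))
  exact Module.finrank_pos.ne'

theorem PlC_tr (π : Place k Ω κ) {c : Ω} (hc : Transcendental k (π.ev c)) : Tr k π.O c := by
  refine (π.tr_iff c).mpr ⟨(π.mem_of_ev_ne ?_).1, hc⟩
  intro h0
  rw [h0] at hc
  exact hc isAlgebraic_zero

theorem PlC_ev_mem (π : Place k Ω κ) {c : Ω} (hc : Transcendental k (π.ev c)) {z : Ω}
    (hz : z ∈ k⟮c⟯) : π.ev z ∈ k⟮π.ev c⟯ := by
  have htr := PlC_tr π hc
  have hcO : c ∈ π.O := ((π.tr_iff c).mp htr).1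
  obtain ⟨r, s, rfl⟩ := (mem_adjoin_simple_iff k z).mp hz
  by_cases hs : s = 0
  · rw [hs, map_zero, div_zero, π.ev_zero]; exact zero_mem _
  · rw [div_eq_mul_inv, π.ev_mul _ _ (π.aeval_mem hcO r) (htr s hs).2.2, π.ev_inv,
      π.ev_aeval hcO, π.ev_aeval hcO, ← div_eq_mul_inv]
    exact (mem_adjoin_simple_iff k _).mpr ⟨r, s, rfl⟩

theorem PlC_aeval_mem (π : Place k Ω κ) {A : IntermediateField k Ω} (hA : ∀ x ∈ A, x ∈ π.O)
    {t : Ω} (ht : t ∈ π.O) (p : Polynomial A) : Polynomial.aeval t p ∈ π.O := by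
  rw [Polynomial.aeval_eq_sum_range]
  refine sum_mem fun i _ => ?_
  rw [IntermediateField.smul_def, smul_eq_mul]
  exact mul_mem (hA _ (p.coeff i).2) (pow_mem ht i)

theorem PlC_unit (π : Place k Ω κ) {c : Ω} (hc : Transcendental k (π.ev c)) {t : Ω}
    (ht : t ∈ π.O) (ht0 : π.ev t = 0) (p : Polynomial k⟮c⟯) (hp : p ≠ 0) :
    ∃ (m : ℕ) (w : Ω), Polynomial.aeval t p = t ^ m * w ∧ π.ev w ≠ 0 ∧ π.ev w ∈ k⟮π.ev c⟯ := by
  have hA := (PlC_tr π hc).adjoin_le
  obtain ⟨q, hq, hq2⟩ := Polynomial.exists_eq_pow_rootMultiplicity_mul_and_not_dvd p hp 0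
  rw [map_zero, sub_zero] at hq hq2
  have h0 : q.coeff 0 ≠ 0 := fun h => hq2 (Polynomial.X_dvd_iff.mpr h)
  have h1 : Polynomial.aeval t q = t * Polynomial.aeval t q.divX + (q.coeff 0 : Ω) := by
    conv_lhs => rw [← Polynomial.X_mul_divX_add q]
    rw [map_add, map_mul, Polynomial.aeval_X, Polynomial.aeval_C]
    rfl
  have h2 := PlC_aeval_mem π hA ht q.divX
  have h3 : π.ev (Polynomial.aeval t q) = π.ev (q.coeff 0 : Ω) := by
    rw [h1, π.ev_add _ _ (mul_mem ht h2) (hA _ (q.coeff 0).2), π.ev_mul _ _ ht h2, ht0,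
      zero_mul, zero_add]
  refine ⟨p.rootMultiplicity 0, Polynomial.aeval t q, ?_, ?_, ?_⟩
  · conv_lhs => rw [hq]
    rw [map_mul, map_pow, Polynomial.aeval_X]
  · rw [h3, Ne, π.ev_eq_zero_iff (hA _ (q.coeff 0).2)]
    rintro (h | h)
    · exact h0 (Subtype.ext h)
    · exact h (hA _ (inv_mem (q.coeff 0).2))
  · rw [h3]; exact PlC_ev_mem π hc (q.coeff 0).2

theorem PlC_quot (π : Place k Ω κ) (B : IntermediateField k κ) {t w w' : Ω} (ht : t ∈ π.O)
    (ht1 : t ≠ 0) (ht0 : π.ev t = 0) (hw : π.ev w ≠ 0) (hw' : π.ev w' ≠ 0) (hB : π.ev w ∈ B)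
    (hB' : π.ev w' ∈ B) {m n : ℕ} (hmn : n ≤ m) : π.ev (t ^ m * w / (t ^ n * w')) ∈ B := by
  obtain ⟨d, rfl⟩ := Nat.exists_eq_add_of_le hmn
  have h1 := (π.mem_of_ev_ne hw).1
  have h2 := (π.mem_of_ev_ne hw').2
  have h3 : t ^ (n + d) * w / (t ^ n * w') = t ^ d * (w * w'⁻¹) := by
    rw [pow_add, mul_assoc, mul_div_mul_left _ _ (pow_ne_zero n ht1), mul_div_assoc,
      div_eq_mul_inv]
  rw [h3, π.ev_mul _ _ (pow_mem ht d) (mul_mem h1 h2), π.ev_mul _ _ h1 h2, π.ev_pow ht,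
    π.ev_inv, ht0]
  exact mul_mem (pow_mem (zero_mem _) d) (mul_mem hB (inv_mem hB'))

/-- The residue field of `k(c,T)` is `k(ev c)` when `ev c` is transcendental and `T ∉ O`:
for `u ∈ k(c)[X]` nonzero write `u(T⁻¹) = T^{-m} u₁(T⁻¹)` with `u₁(0) ≠ 0`; `u₁(T⁻¹)` is a unit
with residue in `k(ev c)`. -/
theorem Place.res_pair (π : Place k Ω κ) {c T : Ω} (hc : Transcendental k (π.ev c))
    (hT : T ∉ π.O) : π.res k⟮c, T⟯ = k⟮π.ev c⟯ := by
  apply le_antisymm
  · intro y hy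
    obtain ⟨x, hx, -, rfl⟩ := (π.mem_res _ y).mp hy
    have hT0 : T ≠ 0 := fun h => hT (h ▸ zero_mem _)
    have ht : T⁻¹ ∈ π.O := (π.O.mem_or_inv_mem T).resolve_left hT
    have ht0 : π.ev T⁻¹ = 0 := π.ev_max _ (by rwa [inv_inv])
    have hx2 : x ∈ k⟮c⟯⟮T⁻¹⟯ := by
      have h1 : x ∈ k⟮c⟯⟮T⟯ := by
        rw [← adjoin_simple_adjoin_simple] at hx
        exact hx
      have h2 : k⟮c⟯⟮T⟯ ≤ k⟮c⟯⟮T⁻¹⟯ := by
        rw [adjoin_simple_le_iff]
        have h3 := inv_mem (mem_adjoin_simple_self k⟮c⟯ T⁻¹)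
        rwa [inv_inv] at h3
      exact h2 h1
    obtain ⟨r, s, rfl⟩ := (mem_adjoin_simple_iff _ x).mp hx2
    by_cases hr : r = 0
    · rw [hr, map_zero, zero_div, π.ev_zero]; exact zero_mem _
    by_cases hs : s = 0
    · rw [hs, map_zero, div_zero, π.ev_zero]; exact zero_mem _
    obtain ⟨m, w, e1, hw, hB⟩ := PlC_unit π hc ht ht0 r hr
    obtain ⟨n, w', e2, hw', hB'⟩ := PlC_unit π hc ht ht0 s hs
    rw [e1, e2]
    rcases le_total n m with h | h
    · exact PlC_quot π _ ht (inv_ne_zero hT0) ht0 hw hw' hB hB' h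
    · have h4 := inv_mem (PlC_quot π _ ht (inv_ne_zero hT0) ht0 hw' hw hB' hB h)
      rwa [← π.ev_inv, inv_div] at h4
  · rw [adjoin_simple_le_iff]
    exact π.ev_mem_res (subset_adjoin k _ (by simp))

theorem PlC_pair {c T : Ω} (hc : Transcendental k c) (hT : Transcendental k⟮c⟯ T) :
    AlgebraicIndependent k ![c, T] := by
  have h1 : AlgebraicIndependent k (fun _ : Unit => c) :=
    algebraicIndependent_unique_type_iff.mpr hc
  have h2 : Transcendental (Algebra.adjoin k (Set.range fun _ : Unit => c)) T := by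
    rw [Set.range_const]
    exact IntermediateField.transcendental_adjoin_iff.mp hT
  have h3 := (h1.option_iff_transcendental T).mpr h2
  have h4 := h3.comp (![some (), none] : Fin 2 → Option Unit) (by decide)
  convert h4 using 1
  funext i
  fin_cases i <;> rfl

theorem Place.res_deg (htr : Algebra.trdeg k Ω = 2) (π : Place k Ω κ) (hπ : π.O ≠ ⊤)
    {L : IntermediateField k Ω} (hL : Big L) {c : Ω} (hcL : c ∈ L)
    (hc : Transcendental k (π.ev c)) : relfinrank k⟮π.ev c⟯ (π.res L) ≠ 0 := by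
  obtain ⟨T, hTL, hT⟩ := exists_not_mem hπ hL.2
  have h0 := PlC_tr π hc
  have h1 : Transcendental k c := by
    rintro ⟨p, hp, hp0⟩
    exact (h0 p hp).1 hp0
  have h2 : Transcendental k⟮c⟯ T := fun h => hT (mem_of_isAlgebraic π.O _ h0.adjoin_le h)
  have h3 : k⟮c, T⟯ ≤ L := by
    rw [adjoin_le_iff]
    rintro x (rfl | rfl)
    · exact hcL
    · exact hTL
  have h4 := π.res_fin h3 ((big_pair htr (PlC_pair h1 h2)).relfinrank_ne_zero h3 hL.1)
  rwa [π.res_pair hc hT] at h4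

end Pool.Agent.H35S

namespace Pool.Agent.H35S

open IntermediateField Filter Topology

universe u

variable {k Ω κ : Type u} [Field k] [Field Ω] [Field κ] [Algebra k Ω] [Algebra k κ]
variable {ι : Type} [Fintype ι]

/-- The centre of a valuation ring on a subring. -/
def FinL_centre {B L : Type*} [CommRing B] [Field L] [Algebra B L] (w : ValuationSubring L)
    (hw : ∀ b : B, algebraMap B L b ∈ w) : Ideal B :=
  (IsLocalRing.maximalIdeal w).comap ((algebraMap B L).codRestrict w hw)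

theorem FinL_mem_centre {B L : Type*} [CommRing B] [Field L] [Algebra B L]
    (w : ValuationSubring L) (hw : ∀ b : B, algebraMap B L b ∈ w) (b : B) :
    b ∈ FinL_centre w hw ↔ algebraMap B L b = 0 ∨ (algebraMap B L b)⁻¹ ∉ w := by
  rw [FinL_centre, Ideal.mem_comap, IsLocalRing.mem_maximalIdeal, mem_nonunits_iff]
  constructor
  · intro h
    by_contra hc
    push Not at hc
    apply h
    refine IsUnit.of_mul_eq_one (⟨(algebraMap B L b)⁻¹, hc.2⟩ : w) (Subtype.ext ?_)
    exact mul_inv_cancel₀ hc.1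
  · intro h hu
    obtain ⟨y, hy⟩ := hu.exists_right_inv
    have hy' : algebraMap B L b * (y : L) = 1 := congrArg Subtype.val hy
    rcases h with h | h
    · rw [h, zero_mul] at hy'
      exact zero_ne_one hy'
    · apply h
      rw [← eq_inv_of_mul_eq_one_right hy']
      exact y.2

theorem FinL_core {B L : Type*} [CommRing B] [IsDedekindDomain B] [Field L] [Algebra B L]
    [IsFractionRing B L] {t : B} (ht : t ≠ 0) :
    {W : Set L | ∃ w : ValuationSubring L, (∀ b : B, algebraMap B L b ∈ w) ∧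
      (algebraMap B L t)⁻¹ ∉ w ∧ W = (w : Set L)}.Finite := by
  have hI : (Ideal.span {t} : Ideal B) ≠ 0 := by
    simpa using ht
  refine ((Ideal.finite_factors hI).image fun v : IsDedekindDomain.HeightOneSpectrum B =>
    {x : L | ∃ n d : B, d ∉ v.asIdeal ∧ x * algebraMap B L d = algebraMap B L n}).subset ?_
  rintro W ⟨w, hw, htw, rfl⟩
  have htP : t ∈ FinL_centre w hw := (FinL_mem_centre w hw t).2 (Or.inr htw)
  have hprime : (FinL_centre w hw).IsPrime := Ideal.comap_isPrime _ _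
  have hne : FinL_centre w hw ≠ ⊥ := fun h => ht (by rwa [h, Ideal.mem_bot] at htP)
  let v : IsDedekindDomain.HeightOneSpectrum B := ⟨FinL_centre w hw, hprime, hne⟩
  have hv : ∀ d : B, d ∉ v.asIdeal → algebraMap B L d ≠ 0 ∧ (algebraMap B L d)⁻¹ ∈ w := by
    intro d hd
    have := (FinL_mem_centre w hw d).not.1 hd
    push Not at this
    exact this
  refine ⟨v, ?_, ?_⟩
  · exact Ideal.dvd_span_singleton.2 htP
  · ext x
    constructor
    · rintro ⟨n, d, hd, h⟩
      have hx : x = algebraMap B L n * (algebraMap B L d)⁻¹ := by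
        rw [← h, mul_inv_cancel_right₀ (hv d hd).1]
      rw [hx]
      exact mul_mem (hw n) (hv d hd).2
    · intro hx
      obtain ⟨n, d, h | h⟩ := v.exists_primeCompl_mul_eq_or_mul_eq (K := L) x
      · exact ⟨n, d, d.2, h⟩
      · refine ⟨d, n, fun hn => ?_, h⟩
        have hd := hv d d.2
        rcases (FinL_mem_centre w hw n).1 hn with h0 | h0
        · rw [h0, mul_zero] at h
          exact hd.1 h.symm
        · apply h0
          have hn0 : algebraMap B L n ≠ 0 := by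
            intro h0
            rw [h0, mul_zero] at h
            exact hd.1 h.symm
          have hx0 : x ≠ 0 := by
            rintro rfl
            rw [zero_mul] at h
            exact hd.1 h.symm
          have : (algebraMap B L n)⁻¹ = x * (algebraMap B L d)⁻¹ := by
            rw [← h, mul_inv, mul_inv_cancel_left₀ hx0]
          rw [this]
          exact mul_mem hx hd.2

theorem FinL_mid {A E L : Type*} [CommRing A] [IsDedekindDomain A] [Field E] [CharZero E]
    [Field L] [Algebra A E] [IsFractionRing A E] [Algebra E L] [Algebra A L]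
    [IsScalarTower A E L] [FiniteDimensional E L] {t : A} (ht : t ≠ 0) :
    {W : Set L | ∃ w : ValuationSubring L, (∀ a : A, algebraMap A L a ∈ w) ∧
      (algebraMap A L t)⁻¹ ∉ w ∧ W = (w : Set L)}.Finite := by
  have : IsDedekindDomain (integralClosure A L) := integralClosure.isDedekindDomain A E L
  have : IsFractionRing (integralClosure A L) L :=
    integralClosure.isFractionRing_of_finite_extension E L
  have ht' : algebraMap A (integralClosure A L) t ≠ 0 := by
    intro h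
    have h1 : algebraMap A L t = 0 := congrArg Subtype.val h
    rw [IsScalarTower.algebraMap_apply A E L, map_eq_zero, IsFractionRing.to_map_eq_zero_iff] at h1
    exact ht h1
  refine (FinL_core (L := L) ht').subset ?_
  rintro W ⟨w, hw, htw, rfl⟩
  refine ⟨w, fun b => ?_, htw, rfl⟩
  obtain ⟨p, hp, h⟩ : IsIntegral A (b : L) := b.2
  have h1 : IsIntegral w (b : L) := by
    refine ⟨p.map ((algebraMap A L).codRestrict w hw), hp.map _, ?_⟩
    rw [Polynomial.eval₂_map]
    exact h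
  obtain ⟨y, hy⟩ := IsIntegrallyClosed.isIntegral_iff.1 h1
  show (b : L) ∈ w
  rw [← hy]
  exact y.2

open IntermediateField.algebraAdjoinAdjoin in
theorem FinL_top {F : Type u} [Field F] [CharZero F] [Algebra F Ω] {t : Ω}
    (ht : Transcendental F t) (halg : Algebra.IsAlgebraic F⟮t⟯ Ω) (S : Finset Ω) (K : Set Ω)
    (hK : ∀ x ∈ K, x ∈ adjoin F⟮t⟯ (S : Set Ω)) :
    {W : Set Ω | ∃ w : ValuationSubring Ω, (∀ a : F, algebraMap F Ω a ∈ w) ∧
      t⁻¹ ∉ w ∧ W = {x | x ∈ K ∧ x ∈ w}}.Finite := by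
  have : IsPrincipalIdealRing (Algebra.adjoin F ({t} : Set Ω)) :=
    IsPrincipalIdealRing.of_surjective (Polynomial.algEquivOfTranscendental F t ht)
      (Polynomial.algEquivOfTranscendental F t ht).surjective
  have : FiniteDimensional F⟮t⟯ (adjoin F⟮t⟯ (S : Set Ω)) :=
    finiteDimensional_adjoin fun x _ => (halg.isAlgebraic x).isIntegral
  have ht0 : t ≠ 0 := by
    rintro rfl
    exact ht isAlgebraic_zero
  have ht1 : (⟨t, Algebra.self_mem_adjoin_singleton F t⟩ : Algebra.adjoin F ({t} : Set Ω)) ≠ 0 :=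
    fun h => ht0 (congrArg Subtype.val h)
  refine ((FinL_mid (E := F⟮t⟯) (L := adjoin F⟮t⟯ (S : Set Ω)) ht1).image fun W =>
    {x | x ∈ K ∧ x ∈ Subtype.val '' W}).subset ?_
  rintro W ⟨w, hw, htw, rfl⟩
  have htw' : t ∈ w := (w.mem_or_inv_mem t).resolve_right htw
  refine ⟨(w.comap (algebraMap (adjoin F⟮t⟯ (S : Set Ω)) Ω) : Set _), ⟨_, fun a => ?_, ?_, rfl⟩, ?_⟩
  · show (a : Ω) ∈ w
    obtain ⟨a, ha⟩ := a
    show a ∈ w
    induction ha using Algebra.adjoin_induction with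
    | mem x hx => rw [Set.mem_singleton_iff.1 hx]; exact htw'
    | algebraMap r => exact hw r
    | add x y _ _ hx hy => exact add_mem hx hy
    | mul x y _ _ hx hy => exact mul_mem hx hy
  · intro h
    apply htw
    rw [ValuationSubring.mem_comap, map_inv₀] at h
    exact h
  · ext x
    constructor
    · rintro ⟨hx, y, hy, rfl⟩
      exact ⟨hx, hy⟩
    · rintro ⟨hx, hxw⟩
      exact ⟨hx, ⟨x, hK x hx⟩, hxw, rfl⟩

theorem FinL_indep {c t : Ω} (hc : Transcendental k c) (ht : Transcendental k⟮c⟯ t) :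
    AlgebraicIndependent k ![c, t] := by
  have h1 : AlgebraicIndependent k (fun _ : Unit => c) :=
    algebraicIndependent_unique_type_iff.2 hc
  have h2 : Transcendental (Algebra.adjoin k (Set.range fun _ : Unit => c)) t := by
    rw [Set.range_const]
    exact IntermediateField.transcendental_adjoin_iff.1 ht
  have h3 := (h1.option_iff_transcendental t).2 h2
  have h4 := h3.comp (![some (), none] : Fin 2 → Option Unit) (by decide)
  convert h4 using 1
  ext i
  fin_cases i <;> rfl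

/-- Finiteness of the poles of a function on the generic fibre of `c`.
Plan: if the set is nonempty, `c` is transcendental and `T` is transcendental over `F = k(c)`
(`mem_of_isAlgebraic`, `Tr.adjoin_le`), so `c, T` are independent and `L = K ⊔ k⟮c,T⟯` is finite
(separable) over `k⟮c,T⟯ = F(t)`, `t = T⁻¹`. Let `A = F[t]` (a PID) and `B` its integral closure
in `L` (Dedekind: `IsIntegralClosure.isDedekindDomain`). Every `w` in question contains `B`; its
centre `P = {b | b = 0 ∨ b⁻¹ ∉ w}` is a nonzero prime containing `t`, and `w ∩ L = B_P`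
(a DVR is a maximal proper subring of its fraction field). Only finitely many primes contain
`t` (`Ideal.finite_factors`), and `label w K` is determined by `w ∩ L`. Any other proof is
welcome. -/
theorem fin_lab [CharZero k] (htr : Algebra.trdeg k Ω = 2) {K : IntermediateField k Ω}
    (hK : Big K) (c T : Ω) :
    {F : Set Ω | ∃ w : ValuationSubring Ω, Tr k w c ∧ T ∉ w ∧ F = label w K}.Finite := by
  rcases Set.eq_empty_or_nonempty
    {F : Set Ω | ∃ w : ValuationSubring Ω, Tr k w c ∧ T ∉ w ∧ F = label w K} with h | h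
  · rw [h]
    exact Set.finite_empty
  obtain ⟨_, w₀, hc₀, hT₀, -⟩ := h
  have hc : Transcendental k c := by
    rintro ⟨p, hp, h⟩
    exact (hc₀ p hp).1 h
  have ht : Transcendental k⟮c⟯ T⁻¹ := fun h =>
    hT₀ (mem_of_isAlgebraic w₀ k⟮c⟯ hc₀.adjoin_le (IsAlgebraic.inv_iff.1 h))
  have halg : Algebra.IsAlgebraic k⟮c⟯⟮T⁻¹⟯ Ω := by
    have := (big_pair htr (FinL_indep hc ht)).2
    rw [← adjoin_simple_adjoin_simple] at this
    exact this
  obtain ⟨S, hS⟩ := hK.1
  have hKS : ∀ x ∈ (K : Set Ω), x ∈ adjoin k⟮c⟯⟮T⁻¹⟯ (S : Set Ω) := by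
    have hle : K ≤ ((adjoin k⟮c⟯⟮T⁻¹⟯ (S : Set Ω)).restrictScalars k⟮c⟯).restrictScalars k := by
      rw [← hS, adjoin_le_iff]
      exact subset_adjoin k⟮c⟯⟮T⁻¹⟯ (S : Set Ω)
    exact fun x hx => hle hx
  refine (FinL_top ht halg S (K : Set Ω) hKS).subset ?_
  rintro F ⟨w, hc', hT, rfl⟩
  refine ⟨w, fun a => hc'.adjoin_le a a.2, ?_, rfl⟩
  rwa [inv_inv]

end Pool.Agent.H35S

namespace Pool.Agent.H35S

open IntermediateField Filter Topology

universe u

variable {k Ω κ : Type u} [Field k] [Field Ω] [Field κ] [Algebra k Ω] [Algebra k κ]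
variable {ι : Type} [Fintype ι]

/-- graphs of homomorphisms: subrings of `Ω × κ` that are functional -/
def Ext_Fun (G : Subring (Ω × κ)) : Prop := ∀ c, ((0 : Ω), c) ∈ G → c = 0

theorem Ext_uniq {G : Subring (Ω × κ)} (hG : Ext_Fun G) {x : Ω} {c c' : κ} (h : (x, c) ∈ G)
    (h' : (x, c') ∈ G) : c = c' :=
  sub_eq_zero.1 (hG _ (by simpa using G.sub_mem h h'))

theorem Ext_adj {G : Subring (Ω × κ)} (hG : Maximal Ext_Fun G) (x : Ω) (c : κ)
    (h : ∀ p : Polynomial G, p.eval₂ ((RingHom.fst Ω κ).comp G.subtype) x = 0 →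
      p.eval₂ ((RingHom.snd Ω κ).comp G.subtype) c = 0) : (x, c) ∈ G := by
  let ψ : Polynomial G →+* Ω × κ := Polynomial.eval₂RingHom G.subtype (x, c)
  have h1 : ∀ p, (ψ p).1 = p.eval₂ ((RingHom.fst Ω κ).comp G.subtype) x := fun p =>
    Polynomial.hom_eval₂ p G.subtype (RingHom.fst Ω κ) (x, c)
  have h2 : ∀ p, (ψ p).2 = p.eval₂ ((RingHom.snd Ω κ).comp G.subtype) c := fun p =>
    Polynomial.hom_eval₂ p G.subtype (RingHom.snd Ω κ) (x, c)
  have hf : Ext_Fun ψ.range := by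
    rintro d ⟨p, hp⟩
    have := h p (by rw [← h1, hp])
    rwa [← h2, hp] at this
  have hle : G ≤ ψ.range := fun g hg => ⟨Polynomial.C ⟨g, hg⟩, by simp [ψ]⟩
  exact hG.le_of_ge hf hle ⟨Polynomial.X, by simp [ψ]⟩

theorem Ext_inv {G : Subring (Ω × κ)} (hG : Maximal Ext_Fun G) {a : Ω} {c : κ} (h : (a, c) ∈ G)
    (hc : c ≠ 0) : (a⁻¹, c⁻¹) ∈ G := by
  have ha : a ≠ 0 := by
    rintro rfl
    exact hc (hG.prop c h)
  refine Ext_adj hG _ _ fun p hp => ?_
  let g : G := ⟨(a, c), h⟩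
  let s : G := ∑ i ∈ Finset.range (p.natDegree + 1), p.coeff i * g ^ (p.natDegree - i)
  have key : ∀ {L : Type u} [Field L] (f : G →+* L), f g ≠ 0 →
      f s = f g ^ p.natDegree * p.eval₂ f (f g)⁻¹ := by
    intro L _ f hf
    rw [Polynomial.eval₂_eq_sum_range, Finset.mul_sum, map_sum]
    refine Finset.sum_congr rfl fun i hi => ?_
    rw [map_mul, map_pow, pow_sub₀ _ hf (Nat.lt_succ_iff.1 (Finset.mem_range.1 hi)), inv_pow]
    ring
  have e1 := key ((RingHom.fst Ω κ).comp G.subtype) ha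
  have e2 := key ((RingHom.snd Ω κ).comp G.subtype) hc
  have e3 : (s : Ω × κ).1 = 0 := e1.trans (by
    show a ^ _ * p.eval₂ _ a⁻¹ = 0
    rw [hp, mul_zero])
  have e4 : (s : Ω × κ).2 = 0 := hG.prop _ (by rw [← e3]; exact s.2)
  have e5 : c ^ p.natDegree * p.eval₂ ((RingHom.snd Ω κ).comp G.subtype) c⁻¹ = 0 :=
    e2.symm.trans e4
  exact (mul_eq_zero.1 e5).resolve_left (pow_ne_zero _ hc)

theorem Ext_val {G : Subring (Ω × κ)} (hG : Ext_Fun G) : ∃ V : ValuationSubring Ω,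
    (∀ a c, (a, c) ∈ G → a ∈ V) ∧ ∀ a, (a, (0 : κ)) ∈ G → V.valuation a < 1 := by
  let A : Subring Ω := G.map (RingHom.fst Ω κ)
  let I : Ideal A :=
    { carrier := {a | ((a : Ω), (0 : κ)) ∈ G}
      add_mem' := fun {a b} ha hb => by simpa using G.add_mem ha hb
      zero_mem' := G.zero_mem
      smul_mem' := fun r a ha => by
        obtain ⟨_, ⟨x, c⟩, hx, rfl⟩ := r
        simpa using G.mul_mem hx ha }
  have hI : I ≠ ⊤ := by
    rw [Ideal.ne_top_iff_one]
    exact fun h => zero_ne_one (Ext_uniq hG h G.one_mem)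
  obtain ⟨V, h1, h2⟩ := Ideal.image_subset_nonunits_valuationSubring I hI
  exact ⟨V, fun a c h => h1 ⟨(a, c), h, rfl⟩, fun a h =>
    V.mem_nonunits_iff.1 (h2 ⟨⟨a, (a, 0), h, rfl⟩, h, rfl⟩)⟩

theorem Ext_mem [IsAlgClosed κ] {G : Subring (Ω × κ)} (hG : Maximal Ext_Fun G)
    {V : ValuationSubring Ω} (hV : ∀ a, (a, (0 : κ)) ∈ G → V.valuation a < 1) {x : Ω}
    (hx : x ∈ V) : ∃ c, (x, c) ∈ G := by
  let F : Subfield κ :=
    { G.map (RingHom.snd Ω κ) with
      inv_mem' := by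
        rintro _ ⟨⟨a, c⟩, h, rfl⟩
        by_cases hc : c = 0
        · exact ⟨0, G.zero_mem, by simp [hc]⟩
        · exact ⟨_, Ext_inv hG h hc, rfl⟩ }
  let φ : G →+* F := ((RingHom.snd Ω κ).comp G.subtype).codRestrict F fun g => ⟨g, g.2, rfl⟩
  have hφ : Function.Surjective φ := by
    rintro ⟨_, g, hg, rfl⟩
    exact ⟨⟨g, hg⟩, rfl⟩
  have hΦ : Function.Surjective (Polynomial.mapRingHom φ) := Polynomial.map_surjective φ hφ
  let I : Ideal (Polynomial G) :=
    RingHom.ker (Polynomial.eval₂RingHom ((RingHom.fst Ω κ).comp G.subtype) x)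
  obtain ⟨g, hg⟩ := (IsPrincipalIdealRing.principal (I.map (Polynomial.mapRingHom φ))).principal
  have hdeg : g.degree ≠ 0 := by
    intro h0
    have hu : IsUnit g := Polynomial.isUnit_iff_degree_eq_zero.2 h0
    have h1 : (1 : Polynomial F) ∈ I.map (Polynomial.mapRingHom φ) := by
      rw [hg, Ideal.submodule_span_eq, Ideal.span_singleton_eq_top.2 hu]; trivial
    obtain ⟨p, hp, hp1⟩ := (Ideal.mem_map_iff_of_surjective _ hΦ).1 h1
    have h2 : (p - 1).eval₂ ((RingHom.fst Ω κ).comp G.subtype) x = -1 := by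
      have : p.eval₂ ((RingHom.fst Ω κ).comp G.subtype) x = 0 := hp
      rw [Polynomial.eval₂_sub, this, Polynomial.eval₂_one, zero_sub]
    have h3 : V.valuation ((p - 1).eval₂ ((RingHom.fst Ω κ).comp G.subtype) x) < 1 := by
      rw [Polynomial.eval₂_eq_sum_range]
      refine V.valuation.map_sum_lt one_ne_zero fun i _ => ?_
      have h4 : φ ((p - 1).coeff i) = 0 := by
        have : (p - 1).map φ = 0 := by
          rw [Polynomial.map_sub, Polynomial.map_one]; exact sub_eq_zero.2 hp1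
        rw [← Polynomial.coeff_map, this, Polynomial.coeff_zero]
      have h5 : (((p - 1).coeff i : G) : Ω × κ).2 = 0 := congrArg Subtype.val h4
      have h6 := hV (((p - 1).coeff i : G) : Ω × κ).1 (by rw [← h5]; exact ((p - 1).coeff i).2)
      rw [map_mul, map_pow]
      exact mul_lt_one_of_lt_of_le h6 (pow_le_one₀ zero_le ((V.valuation_le_one_iff x).2 hx))
    simp [h2] at h3
  obtain ⟨c, hc⟩ := IsAlgClosed.exists_eval₂_eq_zero F.subtype g hdeg
  refine ⟨c, Ext_adj hG x c fun p hp => ?_⟩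
  have h1 : p.map φ ∈ I.map (Polynomial.mapRingHom φ) := Ideal.mem_map_of_mem _ hp
  rw [hg, Ideal.submodule_span_eq, Ideal.mem_span_singleton] at h1
  obtain ⟨q, hq⟩ := h1
  have h2 : (p.map φ).eval₂ F.subtype c = 0 := by rw [hq, Polynomial.eval₂_mul, hc, zero_mul]
  rwa [Polynomial.eval₂_map] at h2

/-- Extension of homomorphisms to places (Atiyah-Macdonald 5.21). Plan: Zorn on pairs
(subalgebra, hom to `κ`) extending `(B, e)`. A maximal pair `(R, f)` is local with maximal ideal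
`ker f` (extend `f` to the fractions with denominator outside the kernel). Take a valuation ring
`V` dominating `R` (`LocalSubring.exists_le_valuationSubring`). For `x ∈ V`, the ideal generated by
`ker f` in `R[x]` is proper; choose a maximal ideal above it, the quotient is a field of finite
type over the field `R / ker f`, hence algebraic (`finite_of_finite_type_of_isJacobsonRing`), and
`IsAlgClosed.lift` extends `f` to `R[x]`; so `R = V`. -/
theorem exists_place [IsAlgClosed κ] (B : Subalgebra k Ω) (e : B →ₐ[k] κ) :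
    ∃ π : Place k Ω κ, ∀ x : B, (x : Ω) ∈ π.O ∧ π.ev x = e x := by
  classical
  let G₀ : Subring (Ω × κ) := ((B.val : B →+* Ω).prod (e : B →+* κ)).range
  have h0 : Ext_Fun G₀ := by
    rintro c ⟨b, hb⟩
    have h1 : b = 0 := Subtype.ext (congrArg Prod.fst hb)
    have h2 : e b = c := congrArg Prod.snd hb
    rw [← h2, h1, map_zero]
  obtain ⟨G, hle, hG⟩ := zorn_le_nonempty₀ {G : Subring (Ω × κ) | Ext_Fun G}
    (fun C hC hch y hy => ⟨sSup C, fun c hc => by
      obtain ⟨G, hG, h⟩ := (Subring.mem_sSup_of_directedOn ⟨y, hy⟩ hch.directedOn).1 hc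
      exact hC hG c h, fun z hz => le_sSup hz⟩) G₀ h0
  have hG' : Maximal Ext_Fun G := hG
  obtain ⟨V, hV1, hV2⟩ := Ext_val hG'.prop
  let ev : Ω → κ := fun x => if h : ∃ c, (x, c) ∈ G then h.choose else 0
  have hev : ∀ {x c}, (x, c) ∈ G → ev x = c := fun {x c} h => by
    have h1 : ∃ c, (x, c) ∈ G := ⟨c, h⟩
    simp only [ev, dif_pos h1]
    exact Ext_uniq hG'.prop h1.choose_spec h
  have hout : ∀ x, x ∉ V → ev x = 0 := fun x hx => dif_neg fun ⟨c, h⟩ => hx (hV1 x c h)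
  have hB : ∀ b : B, ((b : Ω), e b) ∈ G := fun b => hle ⟨b, rfl⟩
  refine ⟨⟨V, ev, hout, fun c => hV1 _ _ (hB (algebraMap k B c)), fun c => ?_,
    fun x y hx hy => ?_, fun x y hx hy => ?_, fun x hx => ?_⟩, fun b => ⟨hV1 _ _ (hB b), hev (hB b)⟩⟩
  · exact (hev (hB (algebraMap k B c))).trans (e.commutes c)
  · obtain ⟨c, hc⟩ := Ext_mem hG' hV2 hx
    obtain ⟨d, hd⟩ := Ext_mem hG' hV2 hy
    rw [hev hc, hev hd]; exact hev (G.add_mem hc hd)
  · obtain ⟨c, hc⟩ := Ext_mem hG' hV2 hx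
    obtain ⟨d, hd⟩ := Ext_mem hG' hV2 hy
    rw [hev hc, hev hd]; exact hev (G.mul_mem hc hd)
  · obtain ⟨c, hc⟩ := Ext_mem hG' hV2 ((V.mem_or_inv_mem x).resolve_right hx)
    rw [hev hc]
    by_contra h
    exact hx (hV1 _ _ (Ext_inv hG' hc h))

end Pool.Agent.H35S
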