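import Pool.Agent.MP_195eb9_ag.Srf.A

namespace Pool.Agent.H35S

open IntermediateField Filter Topology

universe u

variable {k Ω κ : Type u} [Field k] [Field Ω] [Field κ] [Algebra k Ω] [Algebra k κ]
variable {ι : Type} [Fintype ι]

open MvPolynomial

theorem Rel0_gen {R K E : Type*} [CommRing R] [IsDomain R] [IsGCDMonoid R] [Field K] [Field E]
    [Algebra R K] [IsFractionRing R K] [Algebra K E] [Algebra R E] [IsScalarTower R K E]
    (z : E) (hz : IsAlgebraic K z) :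
    ∃ P : Polynomial R, P ≠ 0 ∧ ∀ T : Polynomial R, Polynomial.aeval z T = 0 ↔ P ∣ T := by
  classical
  obtain ⟨inst⟩ : Nonempty (NormalizedGCDMonoid R) := inferInstance
  have hint : IsIntegral K z := hz.isIntegral
  set m := minpoly K z with hm
  have hm0 : m ≠ 0 := minpoly.ne_zero hint
  set N := IsLocalization.integerNormalization (nonZeroDivisors R) m with hN
  have hN0 : N ≠ 0 := fun h => hm0 (IsFractionRing.integerNormalization_eq_zero_iff.1 h)
  obtain ⟨b, hb1, hb2⟩ := IsLocalization.integerNormalization_spec (nonZeroDivisors R) m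
  have hinjK : Function.Injective (algebraMap R K) := IsFractionRing.injective R K
  have hinj : Function.Injective (algebraMap R E) := by
    rw [IsScalarTower.algebraMap_eq R K E]
    exact (algebraMap K E).injective.comp hinjK
  have hNz : Polynomial.aeval z N = 0 :=
    IsLocalization.integerNormalization_aeval_eq_zero (nonZeroDivisors R) m (minpoly.aeval K z)
  have hc : N.content ≠ 0 := fun h => hN0 (Polynomial.content_eq_zero_iff.1 h)
  have hP : Polynomial.aeval z N.primPart = 0 := by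
    have h1 := N.eq_C_content_mul_primPart
    rw [h1, map_mul, Polynomial.aeval_C] at hNz
    rcases mul_eq_zero.1 hNz with h | h
    · exact absurd (hinj (by rw [h, map_zero])) hc
    · exact h
  refine ⟨N.primPart, N.primPart_ne_zero, fun T => ⟨fun hT => ?_, fun hT => ?_⟩⟩
  · apply (N.isPrimitive_primPart).dvd_of_fraction_map_dvd_fraction_map (K := K)
    have h1 : m ∣ T.map (algebraMap R K) := by
      apply minpoly.dvd
      rw [Polynomial.aeval_map_algebraMap]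
      exact hT
    refine dvd_trans ?_ h1
    have h2 : N.primPart.map (algebraMap R K) ∣ N.map (algebraMap R K) :=
      Polynomial.map_dvd _ N.primPart_dvd
    have hb0 : algebraMap R K b ≠ 0 := fun h =>
      nonZeroDivisors.ne_zero hb1 (hinjK (by rw [h, map_zero]))
    have h3 : m = Polynomial.C (algebraMap R K b)⁻¹ * N.map (algebraMap R K) := by
      rw [hN, hb2, ← IsScalarTower.algebraMap_smul K b m, Polynomial.smul_eq_C_mul, ← mul_assoc,
        ← Polynomial.C_mul, inv_mul_cancel₀ hb0, Polynomial.C_1, one_mul]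
    rw [h3]
    exact Dvd.dvd.mul_left h2 _
  · obtain ⟨Q, rfl⟩ := hT
    rw [map_mul, hP, zero_mul]

theorem Rel0_eval {r : ℕ} (x : Fin r → κ) (z : κ) (T : MvPolynomial (Fin (r + 1)) k) :
    aeval (Fin.cons z x : Fin (r + 1) → κ) T =
      Polynomial.eval₂ (aeval x : MvPolynomial (Fin r) k →ₐ[k] κ).toRingHom z
        (finSuccEquiv k r T) := by
  induction T using MvPolynomial.induction_on with
  | C a =>
    have : finSuccEquiv k r (C a) = Polynomial.C (C a) := by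
      simp [finSuccEquiv_apply]
    rw [this]
    simp
  | add p q hp hq => simp only [map_add, Polynomial.eval₂_add, hp, hq]
  | mul_X p i hp =>
    rw [map_mul, map_mul, Polynomial.eval₂_mul, hp]
    congr 1
    refine Fin.cases ?_ (fun j => ?_) i
    · simp [finSuccEquiv_X_zero]
    · simp [finSuccEquiv_X_succ]

/-- The relations between independent elements and one algebraic element form a principal ideal.
Plan: `A = MvPolynomial (Fin r) k` is a UFD; through `finSuccEquiv` the kernel is the kernel of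
`A[Z] → κ`; take the primitive part `P` of a nonzero element of minimal degree; pseudo-division or
`Polynomial.IsPrimitive.dvd_of_fraction_map_dvd_fraction_map` over `FractionRing A`. -/
theorem exists_rel {r : ℕ} (x : Fin r → κ) (hx : AlgebraicIndependent k x) (z : κ)
    (hz : IsAlgebraic (adjoin k (Set.range x)) z) :
    ∃ P : MvPolynomial (Fin (r + 1)) k, P ≠ 0 ∧
      ∀ T, aeval (Fin.cons z x : Fin (r + 1) → κ) T = 0 ↔ P ∣ T := by
  classical
  let A := MvPolynomial (Fin r) k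
  let L := adjoin k (Set.range x)
  let e : FractionRing A ≃ₐ[k] L := hx.aevalEquivField
  let iA : Algebra A κ := (aeval x : A →ₐ[k] κ).toRingHom.toAlgebra
  let iF : Algebra (FractionRing A) κ :=
    ((algebraMap L κ).comp e.toRingEquiv.toRingHom).toAlgebra
  have : IsScalarTower A (FractionRing A) κ := by
    apply IsScalarTower.of_algebraMap_eq
    intro a
    exact (hx.aevalEquivField_algebraMap_apply_coe a).symm
  have hz' : IsAlgebraic (FractionRing A) z := by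
    obtain ⟨p, hp0, hp⟩ := hz
    refine ⟨p.map e.symm.toRingEquiv.toRingHom, ?_, ?_⟩
    · exact (Polynomial.map_ne_zero_iff e.symm.injective).2 hp0
    · rw [Polynomial.aeval_def, Polynomial.eval₂_map]
      rw [Polynomial.aeval_def] at hp
      have hcomp : (algebraMap (FractionRing A) κ).comp e.symm.toRingEquiv.toRingHom =
          algebraMap L κ := by
        ext a
        show ((e (e.symm a) : L) : κ) = _
        rw [e.apply_symm_apply]
        rfl
      rw [hcomp]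
      exact hp
  obtain ⟨P, hP0, hP⟩ := Rel0_gen (R := A) (K := FractionRing A) z hz'
  refine ⟨(finSuccEquiv k r).symm P, ?_, fun T => ?_⟩
  · exact fun h => hP0 ((finSuccEquiv k r).symm.injective (by rw [h, map_zero]))
  · rw [Rel0_eval]
    have h1 := hP (finSuccEquiv k r T)
    rw [Polynomial.aeval_def] at h1
    refine h1.trans ⟨fun h => ?_, fun h => ?_⟩
    · have := map_dvd (finSuccEquiv k r).symm h
      rwa [AlgEquiv.symm_apply_apply] at this
    · have := map_dvd (finSuccEquiv k r) h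
      rwa [AlgEquiv.apply_symm_apply] at this

end Pool.Agent.H35S

namespace Pool.Agent.H35S

open IntermediateField Filter Topology

universe u

variable {k Ω κ : Type u} [Field k] [Field Ω] [Field κ] [Algebra k Ω] [Algebra k κ]
variable {ι : Type} [Fintype ι]

open MvPolynomial

theorem Rel_equiv {r : ℕ} (t : Fin (r + 1) → κ) (i : Fin (r + 1)) :
    ∃ e : MvPolynomial (Fin (r + 1)) k ≃ₐ[k] Polynomial (MvPolynomial (Fin r) k),
      (∀ T, (e T).natDegree = degreeOf i T) ∧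
      ∀ T, aeval t T = Polynomial.eval₂
        (aeval fun j => t (i.succAbove j) : MvPolynomial (Fin r) k →ₐ[k] κ).toRingHom (t i)
        (e T) := by
  refine ⟨(renameEquiv k (_root_.finSuccEquiv' i)).trans (optionEquivLeft k (Fin r)),
    fun T => ?_, fun T => ?_⟩
  · rw [AlgEquiv.trans_apply, natDegree_optionEquivLeft, renameEquiv_apply,
      ← finSuccEquiv'_at i, degreeOf_rename_of_injective (_root_.finSuccEquiv' i).injective]
  · induction T using MvPolynomial.induction_on with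
    | C a => simp
    | add p q hp hq => rw [map_add, map_add, Polynomial.eval₂_add, hp, hq]
    | mul_X p n hp =>
      rw [map_mul, map_mul, Polynomial.eval₂_mul, hp]
      congr 1
      rcases Fin.eq_self_or_eq_succAbove i n with rfl | ⟨j, rfl⟩
      · simp
      · simp

/-- If the other variables are dependent, the generator does not involve `X i`
(it divides a nonzero polynomial in the other variables). -/
theorem rel_degree_zero {r : ℕ} (t : Fin (r + 1) → κ) (P : MvPolynomial (Fin (r + 1)) k)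
    (hP : ∀ T, aeval t T = 0 ↔ P ∣ T) (i : Fin (r + 1))
    (h : ¬ AlgebraicIndependent k fun j => t (i.succAbove j)) : degreeOf i P = 0 := by
  obtain ⟨e, h1, h2⟩ := Rel_equiv (k := k) t i
  rw [algebraicIndependent_iff] at h
  push Not at h
  obtain ⟨p, hp, hp0⟩ := h
  have h3 : P ∣ e.symm (Polynomial.C p) := by
    rw [← hP, h2, e.apply_symm_apply, Polynomial.eval₂_C]
    exact hp
  have h4 : e P ∣ Polynomial.C p := by simpa using map_dvd e h3
  have h5 := Polynomial.natDegree_le_of_dvd h4 (Polynomial.C_ne_zero.2 hp0)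
  rw [Polynomial.natDegree_C, h1] at h5
  omega

/-- If the other variables are independent, the degree of the generator in `X i` is the degree
of the field extension. -/
theorem rel_degree {r : ℕ} (t : Fin (r + 1) → κ) (P : MvPolynomial (Fin (r + 1)) k) (hP0 : P ≠ 0)
    (hP : ∀ T, aeval t T = 0 ↔ P ∣ T) (i : Fin (r + 1))
    (h : AlgebraicIndependent k fun j => t (i.succAbove j)) :
    degreeOf i P = relfinrank (adjoin k (Set.range fun j => t (i.succAbove j)))
      (adjoin k (Set.range t)) ∧ degreeOf i P ≠ 0 := by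
  obtain ⟨e, h1, h2⟩ := Rel_equiv (k := k) t i
  have hsup : adjoin k (Set.range t) =
      adjoin k (Set.range fun j => t (i.succAbove j)) ⊔ k⟮t i⟯ := by
    rw [← adjoin_union]
    congr 1
    ext y
    constructor
    · rintro ⟨n, rfl⟩
      rcases Fin.eq_self_or_eq_succAbove i n with rfl | ⟨j, rfl⟩
      · exact Or.inr rfl
      · exact Or.inl ⟨j, rfl⟩
    · rintro (⟨j, rfl⟩ | rfl)
      · exact ⟨_, rfl⟩
      · exact ⟨_, rfl⟩
  rw [hsup]
  generalize hx : (fun j => t (i.succAbove j)) = x at h h2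
  set L := adjoin k (Set.range x) with hL
  let φ : MvPolynomial (Fin r) k →ₐ[k] L :=
    aeval fun j => (⟨x j, subset_adjoin _ _ ⟨j, rfl⟩⟩ : L)
  have hφ : ∀ p, ((φ p : L) : κ) = aeval x p := fun p => by
    have : L.val.comp φ = aeval x := by
      ext j
      simp [φ]
    exact DFunLike.congr_fun this p
  have hinj : Function.Injective φ := fun p q hpq => h (by rw [← hφ, ← hφ, hpq])
  letI : Algebra (MvPolynomial (Fin r) k) L := φ.toRingHom.toAlgebra
  haveI : FaithfulSMul (MvPolynomial (Fin r) k) L :=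
    (faithfulSMul_iff_algebraMap_injective _ _).2 hinj
  haveI : IsFractionRing (MvPolynomial (Fin r) k) L := IsFractionRing.of_field _ _ fun z => by
    obtain ⟨p, q, hpq⟩ := (mem_adjoin_range_iff k x z).1 z.2
    refine ⟨p, q, Subtype.ext ?_⟩
    rw [hpq, ← hφ, ← hφ]
    rfl
  have hcomp : (algebraMap L κ).comp (algebraMap (MvPolynomial (Fin r) k) L) =
      (aeval x : MvPolynomial (Fin r) k →ₐ[k] κ).toRingHom := RingHom.ext hφ
  have hQ0 : (e P).map (algebraMap (MvPolynomial (Fin r) k) L) ≠ 0 :=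
    (Polynomial.map_ne_zero_iff hinj).2 ((map_ne_zero_iff e e.injective).2 hP0)
  have hQ : Polynomial.aeval (t i) ((e P).map (algebraMap (MvPolynomial (Fin r) k) L)) = 0 := by
    rw [Polynomial.aeval_def, Polynomial.eval₂_map, hcomp, ← h2]
    exact (hP P).2 dvd_rfl
  have halg : IsAlgebraic L (t i) := ⟨_, hQ0, hQ⟩
  have hge : (minpoly L (t i)).natDegree ≤ degreeOf i P := by
    rw [← h1, ← Polynomial.natDegree_map_eq_of_injective hinj]
    exact Polynomial.natDegree_le_of_dvd (minpoly.dvd _ _ hQ) hQ0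
  have hle : degreeOf i P ≤ (minpoly L (t i)).natDegree := by
    set T := IsLocalization.integerNormalization (nonZeroDivisors (MvPolynomial (Fin r) k))
      (minpoly L (t i)) with hT
    have hT0 : T ≠ 0 := fun h0 =>
      minpoly.ne_zero halg.isIntegral (IsFractionRing.integerNormalization_eq_zero_iff.1 h0)
    have h3 : P ∣ e.symm T := by
      rw [← hP, h2, e.apply_symm_apply, ← hcomp]
      exact IsLocalization.integerNormalization_eval₂_eq_zero _ _ _ (minpoly.aeval L (t i))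
    have h4 : e P ∣ T := by simpa using map_dvd e h3
    rw [← h1]
    refine (Polynomial.natDegree_le_of_dvd h4 hT0).trans ?_
    exact Polynomial.natDegree_le_natDegree
      (Polynomial.degree_mono (IsLocalization.integerNormalization_support _ _))
  have hpos := minpoly.natDegree_pos halg.isIntegral
  rw [relfinrank_sup_adjoin L halg]
  omega

end Pool.Agent.H35S

namespace Pool.Agent.H35S

open IntermediateField Filter Topology

universe u

variable {k Ω κ : Type u} [Field k] [Field Ω] [Field κ] [Algebra k Ω] [Algebra k κ]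
variable {ι : Type} [Fintype ι]

open MvPolynomial

theorem Rel2_range_pair (u v : Ω) : Set.range ![u, v] = {u, v} := by
  ext w
  simp [Matrix.range_cons, Matrix.range_empty, or_comm]

theorem Rel2_pr (htr : Algebra.trdeg k Ω = 2) {K : IntermediateField k Ω} (hK : Big K)
    (t : Fin 3 → Ω) (hL : Big (adjoin k (Set.range t))) (P : MvPolynomial (Fin 3) k)
    (hP0 : P ≠ 0) (hP : ∀ T, aeval t T = 0 ↔ P ∣ T) (i : Fin 3) (u v : Ω)
    (huv : (fun j => t (i.succAbove j)) = ![u, v]) :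
    pr K u v = degreeOf i P * chi (adjoin k (Set.range t)) K := by
  by_cases h : AlgebraicIndependent k ![u, v]
  · have h1 := (rel_degree t P hP0 hP i (huv ▸ h)).1
    have hle : k⟮u, v⟯ ≤ adjoin k (Set.range t) := by
      apply adjoin.mono
      rw [← Rel2_range_pair, ← huv]
      rintro _ ⟨j, rfl⟩
      exact ⟨_, rfl⟩
    rw [huv, Rel2_range_pair] at h1
    rw [h1, ← chi_of_le hle, chi_mul (big_pair htr h) hL hK]
    rfl
  · rw [pr_eq_zero htr hK h, rel_degree_zero t P hP i (huv ▸ h)]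
    simp

/-- The three intersection numbers are proportional to the degrees of the relation. -/
theorem pr_three (htr : Algebra.trdeg k Ω = 2) {K : IntermediateField k Ω} (hK : Big K)
    {x y : Ω} (z : Ω) (hxy : AlgebraicIndependent k ![x, y]) :
    ∃ (P : MvPolynomial (Fin 3) k) (χ : ℝ), P ≠ 0 ∧ (∀ T, aeval ![z, x, y] T = 0 ↔ P ∣ T) ∧
      0 < χ ∧ degreeOf 0 P ≠ 0 ∧ pr K x y = degreeOf 0 P * χ ∧ pr K y z = degreeOf 1 P * χ ∧
      pr K x z = degreeOf 2 P * χ ∧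
      (x ∈ K → y ∈ K → 1 ≤ χ * (minpoly K z).natDegree) := by
  have hB := big_pair htr hxy
  have hz : IsAlgebraic (adjoin k (Set.range ![x, y])) z := by
    rw [Rel2_range_pair]
    exact hB.2.isAlgebraic z
  obtain ⟨P, hP0, hP⟩ := exists_rel ![x, y] hxy z hz
  have hP' : ∀ T, aeval ![z, x, y] T = 0 ↔ P ∣ T := hP
  have hfg : (adjoin k (Set.range ![z, x, y])).FG := fg_adjoin_of_finite (Set.finite_range _)
  have hL : Big (adjoin k (Set.range ![z, x, y])) := by
    refine hB.mono (adjoin.mono _ _ _ ?_) hfg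
    rintro w (rfl | rfl)
    · exact ⟨1, rfl⟩
    · exact ⟨2, rfl⟩
  have e0 : (fun j => ![z, x, y] ((0 : Fin 3).succAbove j)) = ![x, y] := by
    funext j; fin_cases j <;> rfl
  have e1 : (fun j => ![z, x, y] ((1 : Fin 3).succAbove j)) = ![z, y] := by
    funext j; fin_cases j <;> rfl
  have e2 : (fun j => ![z, x, y] ((2 : Fin 3).succAbove j)) = ![z, x] := by
    funext j; fin_cases j <;> rfl
  refine ⟨P, chi (adjoin k (Set.range ![z, x, y])) K, hP0, hP', chi_pos hL hK,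
    (rel_degree _ P hP0 hP' 0 (e0 ▸ hxy)).2, Rel2_pr htr hK _ hL P hP0 hP' 0 _ _ e0, ?_, ?_, ?_⟩
  · rw [pr_symm]; exact Rel2_pr htr hK _ hL P hP0 hP' 1 _ _ e1
  · rw [pr_symm]; exact Rel2_pr htr hK _ hL P hP0 hP' 2 _ _ e2
  · intro hx hy
    have hM : Big (K ⊔ k⟮z⟯) := hK.sup (fg_adjoin_of_finite (Set.finite_singleton z))
    have hLM : adjoin k (Set.range ![z, x, y]) ≤ K ⊔ k⟮z⟯ := by
      rw [adjoin_le_iff]
      rintro _ ⟨j, rfl⟩
      fin_cases j
      · exact (le_sup_right : k⟮z⟯ ≤ K ⊔ k⟮z⟯) (mem_adjoin_simple_self k z)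
      · exact (le_sup_left : K ≤ K ⊔ k⟮z⟯) hx
      · exact (le_sup_left : K ≤ K ⊔ k⟮z⟯) hy
    rw [chi_eq hL hK hM.1 hLM le_sup_left, ← relfinrank_sup_adjoin K (hK.2.isAlgebraic z)]
    have h1 : (relfinrank K (K ⊔ k⟮z⟯) : ℝ) ≠ 0 := by
      exact_mod_cast hK.relfinrank_ne_zero le_sup_left hM.1
    rw [div_mul_cancel₀ _ h1]
    exact_mod_cast Nat.one_le_iff_ne_zero.2 (hL.relfinrank_ne_zero hLM hM.1)

theorem Rel2_succ (p : MvPolynomial (Fin 2) k) :
    finSuccEquiv k 2 (rename Fin.succ p) = Polynomial.C p := by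
  induction p using MvPolynomial.induction_on with
  | C a => simp [finSuccEquiv_apply]
  | add p q hp hq => simp only [map_add, hp, hq]
  | mul_X p i hp => simp only [map_mul, hp, rename_X, finSuccEquiv_X_succ]

theorem Rel2_ker {x' : κ} (hx' : Transcendental k x') {y' : κ}
    (h : ¬ AlgebraicIndependent k ![x', y']) :
    ∃ p : MvPolynomial (Fin 2) k, p ≠ 0 ∧ ∀ T, aeval ![x', y'] T = 0 ↔ p ∣ T := by
  have hx1 : AlgebraicIndependent k ![x'] := algebraicIndependent_unique_type_iff.2 hx'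
  have hy : IsAlgebraic (adjoin k (Set.range ![x'])) y' := by
    by_contra hn
    apply h
    have ht : Transcendental (Algebra.adjoin k (Set.range ![x'])) y' :=
      IntermediateField.transcendental_adjoin_iff.1 hn
    have h2 := (hx1.option_iff_transcendental y').2 ht
    have h3 := h2.comp ![some 0, none] (by
      intro a b hab
      fin_cases a <;> fin_cases b <;> simp_all)
    have e : (fun o : Option (Fin 1) => o.elim y' ![x']) ∘ ![some 0, none] = ![x', y'] := by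
      funext j; fin_cases j <;> rfl
    rwa [e] at h3
  obtain ⟨p, hp0, hp⟩ := exists_rel ![x'] hx1 y' hy
  have hs : ∀ T : MvPolynomial (Fin 2) k,
      rename (Equiv.swap (0 : Fin 2) 1) (rename (Equiv.swap (0 : Fin 2) 1) T) = T := by
    intro T
    rw [rename_rename]
    have : (Equiv.swap (0 : Fin 2) 1) ∘ (Equiv.swap (0 : Fin 2) 1) = id := by
      funext j; simp
    rw [this, rename_id]; rfl
  refine ⟨rename (Equiv.swap (0 : Fin 2) 1) p, fun h0 => hp0 ?_, fun T => ?_⟩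
  · rw [← hs p, h0, map_zero]
  · have e : (Fin.cons y' ![x'] : Fin 2 → κ) ∘ (Equiv.swap (0 : Fin 2) 1) = ![x', y'] := by
      funext j; fin_cases j <;> rfl
    rw [← e, ← aeval_rename, hp]
    constructor
    · intro hd
      rw [← hs T]
      exact map_dvd _ hd
    · intro hd
      rw [← hs p]
      exact map_dvd _ hd

/-- The coefficients of the relation do not all vanish at a point with one transcendental
coordinate. Plan: otherwise `y'` is algebraic over `k(x')` (else independence gives `P = 0`);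
`exists_rel` for `(y'; x')` gives `p` dividing all coefficients, so `P = p P'`; as `(P)` is a
kernel, `P ∣ p` (then `p(x,y) = 0`, `p = 0`) or `P ∣ P'` (then `p` is a unit, but it vanishes
at `(x',y')`). -/
theorem rel_nonvan {x y z : Ω} (hxy : AlgebraicIndependent k ![x, y])
    (P : MvPolynomial (Fin 3) k) (hP0 : P ≠ 0) (hP : ∀ T, aeval ![z, x, y] T = 0 ↔ P ∣ T)
    {x' : κ} (hx' : Transcendental k x') (y' : κ) :
    (finSuccEquiv k 2 P).map
      (aeval ![x', y'] : MvPolynomial (Fin 2) k →ₐ[k] κ).toRingHom ≠ 0 := by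
  intro h0
  have hc : ∀ j, aeval ![x', y'] ((finSuccEquiv k 2 P).coeff j) = 0 := by
    intro j
    have := congrArg (fun q => Polynomial.coeff q j) h0
    simpa [Polynomial.coeff_map] using this
  by_cases h : AlgebraicIndependent k ![x', y']
  · apply hP0
    apply (finSuccEquiv k 2).injective
    rw [map_zero]
    ext1 j
    exact h.eq_zero_of_aeval_eq_zero _ (hc j)
  obtain ⟨p, hp0, hp⟩ := Rel2_ker hx' h
  obtain ⟨Q, hQ⟩ : Polynomial.C p ∣ finSuccEquiv k 2 P :=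
    (Polynomial.C_dvd_iff_dvd_coeff _ _).2 fun j => (hp _).1 (hc j)
  obtain ⟨Q', rfl⟩ := (finSuccEquiv k 2).surjective Q
  have hPQ : P = rename Fin.succ p * Q' := by
    apply (finSuccEquiv k 2).injective
    rw [map_mul, Rel2_succ, hQ]
  have h1 : aeval ![z, x, y] (rename Fin.succ p) * aeval ![z, x, y] Q' = 0 := by
    rw [← map_mul, ← hPQ]; exact (hP P).2 dvd_rfl
  rcases mul_eq_zero.1 h1 with h2 | h2
  · rw [aeval_rename] at h2
    exact hp0 (hxy.eq_zero_of_aeval_eq_zero _ h2)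
  · obtain ⟨R, hR⟩ := (hP _).1 h2
    have h3 : rename Fin.succ p * R = 1 := by
      apply mul_left_cancel₀ hP0
      rw [mul_one, mul_left_comm, ← hR, ← hPQ]
    have h4 := congrArg (fun T => (finSuccEquiv k 2 T).map
      (aeval ![x', y'] : MvPolynomial (Fin 2) k →ₐ[k] κ).toRingHom) h3
    have h5 : aeval ![x', y'] p = 0 := (hp p).2 dvd_rfl
    simp [map_mul, Rel2_succ, h5] at h4

end Pool.Agent.H35S

namespace Pool.Agent.H35S

open IntermediateField Filter Topology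

universe u

variable {k Ω κ : Type u} [Field k] [Field Ω] [Field κ] [Algebra k Ω] [Algebra k κ]
variable {ι : Type} [Fintype ι]

open MvPolynomial

/-- The box of exponents. -/
def Box_set {n : ℕ} (b : Fin n → ℕ) : Set (Fin n →₀ ℕ) := {m | ∀ i, m i < b i}

/-- Exponents in a box correspond to tuples. -/
noncomputable def Box_equiv {n : ℕ} (b : Fin n → ℕ) : Box_set b ≃ (∀ i, Fin (b i)) where
  toFun m := fun i => ⟨m.1 i, m.2 i⟩
  invFun f := ⟨Finsupp.equivFunOnFinite.symm (fun i => (f i : ℕ)), fun i => by simp⟩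
  left_inv m := by ext i; simp
  right_inv f := by ext i; simp

theorem Box_finite {n : ℕ} (b : Fin n → ℕ) : Module.Finite k (restrictSupport k (Box_set b)) := by
  have : Finite (Box_set b) := Finite.of_equiv _ (Box_equiv b).symm
  exact Module.Finite.of_basis (basisRestrictSupport k (Box_set b))

theorem Box_finrank {n : ℕ} (b : Fin n → ℕ) :
    Module.finrank k (restrictSupport k (Box_set b)) = ∏ i, b i := by
  rw [Module.finrank_eq_nat_card_basis (basisRestrictSupport k (Box_set b)),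
    Nat.card_congr (Box_equiv b), Nat.card_pi]
  simp

theorem Box_mem {n : ℕ} {b : Fin n → ℕ} {T : MvPolynomial (Fin n) k} :
    T ∈ restrictSupport k (Box_set b) ↔ ∀ m ∈ T.support, ∀ i, m i < b i := by
  rw [mem_restrictSupport_iff]
  exact ⟨fun h m hm => h hm, fun h m hm => h m hm⟩

theorem Box_mul {n : ℕ} {b c : Fin n → ℕ} {P T : MvPolynomial (Fin n) k}
    (hT : T ∈ restrictSupport k (Box_set b)) (h : ∀ i x, x < b i → degreeOf i P + x < c i) :
    P * T ∈ restrictSupport k (Box_set c) := by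
  classical
  rw [Box_mem] at hT ⊢
  intro m hm i
  obtain ⟨u, hu, v, hv, rfl⟩ := Finset.mem_add.1 (support_mul P T hm)
  have h1 := monomial_le_degreeOf i hu
  have h2 := h i _ (hT v hv i)
  simp only [Finsupp.coe_add, Pi.add_apply]
  omega

theorem Box_deg {n : ℕ} {b : Fin n → ℕ} {T : MvPolynomial (Fin n) k}
    (hT : T ∈ restrictSupport k (Box_set b)) (i : Fin n) (hi : 0 < b i) : degreeOf i T < b i := by
  rw [degreeOf_lt_iff hi]
  exact fun m hm => Box_mem.1 hT m hm i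

/-- Dimension count. With `γ = degreeOf 0 P`, `U = {deg₀ < γ, degᵢ ≤ pᵢ}`,
`W = {deg₀ < B, degᵢ < pᵢ + 1 - αᵢ}`, `V = {deg₀ < γ + B, degᵢ ≤ pᵢ}` the linear map
`U × U × W → V`, `(T₀,T₁,R) ↦ T₀ X₀^B - T₁ - P R` has a nonzero kernel because
`2 dim U + dim W > dim V`; `T₀ = 0` would force `R = 0` (degree in `X₀`) and `T₁ = 0`.
Boxes: `MvPolynomial.restrictSupport` with `basisRestrictSupport`, or parametrise by functions on
`Fin γ × Π i, Fin (p i + 1)`. -/
theorem box {r : ℕ} (P : MvPolynomial (Fin (r + 1)) k) (hP : P ≠ 0) (α p : Fin r → ℕ)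
    (hα : ∀ i, degreeOf i.succ P ≤ α i) (B : ℕ)
    (h : B * ∏ i, (p i + 1) < degreeOf 0 P * ∏ i, (p i + 1) + B * ∏ i, (p i + 1 - α i)) :
    ∃ T₀ T₁ : MvPolynomial (Fin (r + 1)) k, T₀ ≠ 0 ∧ degreeOf 0 T₀ < degreeOf 0 P ∧
      degreeOf 0 T₁ < degreeOf 0 P ∧ (∀ i, degreeOf i.succ T₀ ≤ p i ∧ degreeOf i.succ T₁ ≤ p i) ∧
      P ∣ T₀ * X 0 ^ B - T₁ := by
  classical
  set γ := degreeOf 0 P with hγ
  have hγ0 : 0 < γ := by
    rcases Nat.eq_zero_or_pos γ with h0 | h0
    · exfalso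
      rw [h0, zero_mul, zero_add] at h
      have : ∏ i, (p i + 1 - α i) ≤ ∏ i, (p i + 1) :=
        Finset.prod_le_prod' fun i _ => Nat.sub_le _ _
      exact absurd h (not_lt.2 (Nat.mul_le_mul_left _ this))
    · exact h0
  let bU : Fin (r + 1) → ℕ := Fin.cons γ fun i => p i + 1
  let bW : Fin (r + 1) → ℕ := Fin.cons B fun i => p i + 1 - α i
  let bV : Fin (r + 1) → ℕ := Fin.cons (γ + B) fun i => p i + 1
  let U := restrictSupport k (Box_set bU)
  let W := restrictSupport k (Box_set bW)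
  let V := restrictSupport k (Box_set bV)
  have : Module.Finite k U := Box_finite bU
  have : Module.Finite k W := Box_finite bW
  have : Module.Finite k V := Box_finite bV
  let L : (U × U × W) →ₗ[k] MvPolynomial (Fin (r + 1)) k :=
    (LinearMap.mulLeft k (X 0 ^ B)) ∘ₗ U.subtype ∘ₗ LinearMap.fst k _ _ -
      U.subtype ∘ₗ LinearMap.fst k _ _ ∘ₗ LinearMap.snd k _ _ -
      (LinearMap.mulLeft k P) ∘ₗ W.subtype ∘ₗ LinearMap.snd k _ _ ∘ₗ LinearMap.snd k _ _
  have hL : ∀ x : U × U × W, L x = X 0 ^ B * x.1.1 - x.2.1.1 - P * x.2.2.1 :=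
    fun x => rfl
  have hLV : ∀ x, L x ∈ V := by
    intro x
    rw [hL]
    refine V.sub_mem (V.sub_mem ?_ ?_) ?_
    · refine Box_mul x.1.2 fun i y hy => ?_
      refine Fin.cases ?_ (fun j => ?_) i hy
      · intro hy
        have : degreeOf (0 : Fin (r + 1)) (X 0 ^ B : MvPolynomial (Fin (r + 1)) k) ≤ B := by
          simpa [degreeOf_X] using
            degreeOf_pow_le (0 : Fin (r + 1)) (X 0 : MvPolynomial (Fin (r + 1)) k) B
        simp only [bU, bV, Fin.cons_zero] at hy ⊢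
        omega
      · intro hy
        have : degreeOf j.succ (X 0 ^ B : MvPolynomial (Fin (r + 1)) k) ≤ 0 := by
          simpa [degreeOf_X, Fin.succ_ne_zero] using
            degreeOf_pow_le j.succ (X 0 : MvPolynomial (Fin (r + 1)) k) B
        simp only [bU, bV, Fin.cons_succ] at hy ⊢
        omega
    · have := x.2.1.2
      rw [Box_mem] at this ⊢
      intro m hm i
      have h2 := this m hm i
      revert h2
      refine Fin.cases ?_ (fun j => ?_) i
      · simp only [bU, bV, Fin.cons_zero]; omega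
      · simp only [bU, bV, Fin.cons_succ]; omega
    · refine Box_mul x.2.2.2 fun i y hy => ?_
      refine Fin.cases ?_ (fun j => ?_) i hy
      · simp only [bW, bV, Fin.cons_zero]; omega
      · have := hα j
        simp only [bW, bV, Fin.cons_succ]; omega
  have hlt : Module.finrank k V < Module.finrank k (U × U × W) := by
    rw [Module.finrank_prod, Module.finrank_prod, Box_finrank, Box_finrank, Box_finrank]
    simp only [bU, bV, bW, Fin.prod_univ_succ, Fin.cons_zero, Fin.cons_succ]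
    rw [add_mul]
    omega
  obtain ⟨x, hx, hx0⟩ := Submodule.exists_mem_ne_zero_of_ne_bot
    (LinearMap.ker_ne_bot_of_finrank_lt (f := L.codRestrict V hLV) hlt)
  have hx1 : L x = 0 := by
    have := congrArg Subtype.val (LinearMap.mem_ker.1 hx)
    simpa using this
  rw [hL] at hx1
  have d0 := Box_deg x.1.2 0 hγ0
  have d1 := Box_deg x.2.1.2 0 hγ0
  simp only [bU, Fin.cons_zero] at d0 d1
  refine ⟨x.1, x.2.1, ?_, d0, d1, fun i => ⟨?_, ?_⟩, ⟨x.2.2, ?_⟩⟩
  · intro h0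
    rw [h0, mul_zero, zero_sub] at hx1
    have hR : x.2.2.1 = 0 := by
      by_contra hR
      have e1 : P * x.2.2.1 = -x.2.1.1 := by linear_combination -hx1
      have e2 := degreeOf_mul_eq (n := (0 : Fin (r + 1))) hP hR
      rw [e1, degreeOf_neg] at e2
      omega
    rw [hR, mul_zero, sub_zero, neg_eq_zero] at hx1
    apply hx0
    ext1
    · exact Subtype.ext h0
    · ext1
      · exact Subtype.ext hx1
      · exact Subtype.ext hR
  · have := Box_deg x.1.2 i.succ (by simp [bU])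
    simp only [bU, Fin.cons_succ] at this
    omega
  · have := Box_deg x.2.1.2 i.succ (by simp [bU])
    simp only [bU, Fin.cons_succ] at this
    omega
  · linear_combination hx1

/-- The case of three variables: take `p = ![max 1 (4α) - 1, max 1 (4β) - 1]`, `B = 2γ - 1`. -/
theorem box_three (P : MvPolynomial (Fin 3) k) (hγ : degreeOf 0 P ≠ 0) :
    ∃ T₀ T₁ : MvPolynomial (Fin 3) k, T₀ ≠ 0 ∧ degreeOf 0 T₀ < degreeOf 0 P ∧
      degreeOf 0 T₁ < degreeOf 0 P ∧ degreeOf 1 T₀ ≤ 4 * degreeOf 1 P ∧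
      degreeOf 1 T₁ ≤ 4 * degreeOf 1 P ∧ degreeOf 2 T₀ ≤ 4 * degreeOf 2 P ∧
      degreeOf 2 T₁ ≤ 4 * degreeOf 2 P ∧ P ∣ T₀ * X 0 ^ (2 * degreeOf 0 P - 1) - T₁ := by
  have hP : P ≠ 0 := by rintro rfl; simp at hγ
  obtain ⟨g, hg⟩ := Nat.exists_eq_succ_of_ne_zero hγ
  obtain ⟨T₀, T₁, h0, h1, h2, h3, h4⟩ := box (r := 2) P hP ![degreeOf 1 P, degreeOf 2 P]
    ![max 1 (4 * degreeOf 1 P) - 1, max 1 (4 * degreeOf 2 P) - 1]
    (by intro i; fin_cases i <;> simp) (2 * degreeOf 0 P - 1) (by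
      simp only [Fin.prod_univ_two, Matrix.cons_val_zero, Matrix.cons_val_one]
      rw [hg]
      generalize degreeOf 1 P = a
      generalize degreeOf 2 P = b
      have e : 2 * g.succ - 1 = 2 * g + 1 := by omega
      rw [e, Nat.succ_eq_add_one]
      rcases a with _ | a <;> rcases b with _ | b
      · simp
      · have e1 : max 1 (4 * (b + 1)) - 1 + 1 = 4 * (b + 1) := by omega
        have e2 : 4 * (b + 1) - (b + 1) = 3 * (b + 1) := by omega
        rw [e1, e2]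
        simp only [mul_zero, Nat.sub_zero]
        norm_num
        nlinarith
      · have e1 : max 1 (4 * (a + 1)) - 1 + 1 = 4 * (a + 1) := by omega
        have e2 : 4 * (a + 1) - (a + 1) = 3 * (a + 1) := by omega
        rw [e1, e2]
        simp only [mul_zero, Nat.sub_zero]
        norm_num
        nlinarith
      · have e1 : max 1 (4 * (a + 1)) - 1 + 1 = 4 * (a + 1) := by omega
        have e2 : 4 * (a + 1) - (a + 1) = 3 * (a + 1) := by omega
        have e3 : max 1 (4 * (b + 1)) - 1 + 1 = 4 * (b + 1) := by omega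
        have e4 : 4 * (b + 1) - (b + 1) = 3 * (b + 1) := by omega
        rw [e1, e2, e3, e4]
        have : 0 < (a + 1) * (b + 1) := by positivity
        have e5 : 4 * (a + 1) * (4 * (b + 1)) = 16 * ((a + 1) * (b + 1)) := by ring
        have e6 : 3 * (a + 1) * (3 * (b + 1)) = 9 * ((a + 1) * (b + 1)) := by ring
        rw [e5, e6]
        generalize (a + 1) * (b + 1) = c at *
        nlinarith)
  have a1 := h3 0
  have a2 := h3 1
  simp only [Matrix.cons_val_zero, Matrix.cons_val_one, Fin.succ_zero_eq_one,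
    Fin.succ_one_eq_two] at a1 a2
  refine ⟨T₀, T₁, h0, h1, h2, ?_, ?_, ?_, ?_, h4⟩ <;> omega

/-- The case of two variables: take `p = N α`, `B = N γ`. -/
theorem box_two (P : MvPolynomial (Fin 2) k) (hγ : degreeOf 0 P ≠ 0) (N : ℕ) :
    ∃ T₀ T₁ : MvPolynomial (Fin 2) k, T₀ ≠ 0 ∧ degreeOf 0 T₀ < degreeOf 0 P ∧
      degreeOf 0 T₁ < degreeOf 0 P ∧ degreeOf 1 T₀ ≤ N * degreeOf 1 P ∧
      degreeOf 1 T₁ ≤ N * degreeOf 1 P ∧ P ∣ T₀ * X 0 ^ (N * degreeOf 0 P) - T₁ := by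
  have hP : P ≠ 0 := by rintro rfl; simp at hγ
  obtain ⟨T₀, T₁, h0, h1, h2, h3, h4⟩ := box (r := 1) P hP ![degreeOf 1 P]
    ![N * degreeOf 1 P] (by intro i; fin_cases i; simp) (N * degreeOf 0 P) (by
      simp only [Fin.prod_univ_one, Matrix.cons_val_zero]
      have hg : 0 < degreeOf 0 P := Nat.pos_of_ne_zero hγ
      generalize degreeOf 1 P = a
      generalize degreeOf 0 P = g at hg
      rcases N with _ | N
      · simpa using hg
      · have e : (N + 1) * a + 1 - a = N * a + 1 := by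
          rw [add_mul, one_mul]; omega
        rw [e]
        nlinarith)
  have a1 := h3 0
  simp only [Matrix.cons_val_zero, Fin.succ_zero_eq_one] at a1
  exact ⟨T₀, T₁, h0, h1, h2, a1.1, a1.2, h4⟩

end Pool.Agent.H35S

namespace Pool.Agent.H35S

open IntermediateField Filter Topology

universe u

variable {k Ω κ : Type u} [Field k] [Field Ω] [Field κ] [Algebra k Ω] [Algebra k κ]
variable {ι : Type} [Fintype ι]

open MvPolynomial

/-! Consequences of the height axioms; heights on curves are proportional to degrees. -/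

theorem IsHt.zero {η : κ → ℝ} (h : IsHt k η) : η 0 = 0 := by
  have h1 := h.pow 0 2
  rw [zero_pow two_ne_zero] at h1
  push_cast at h1
  linarith

/-- `gel` with `P = C T₀ * X - C T₁`, `s = {z}`. -/
theorem IsHt.le {η : κ → ℝ} (h : IsHt k η) {r : ℕ} (x : Fin r → κ)
    (T₀ T₁ : MvPolynomial (Fin r) k) (p : Fin r → ℕ)
    (h₀ : ∀ i, degreeOf i T₀ ≤ p i) (h₁ : ∀ i, degreeOf i T₁ ≤ p i) (hne : aeval x T₀ ≠ 0)
    {z : κ} (hz : aeval x T₀ * z = aeval x T₁) : η z ≤ ∑ i, (p i : ℝ) * η (x i) := by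
  have key := h.gel r (Polynomial.C T₀ * Polynomial.X - Polynomial.C T₁) p ?_ x (aeval x T₀) {z}
    hne ?_
  · simpa using key
  · intro j i
    rw [Polynomial.coeff_sub, Polynomial.coeff_C_mul, Polynomial.coeff_X, Polynomial.coeff_C]
    refine (degreeOf_sub_le _ _ _).trans (max_le ?_ ?_)
    · split_ifs
      · simpa using h₀ i
      · simp
    · split_ifs
      · exact h₁ i
      · simp
  · simp only [Polynomial.map_sub, Polynomial.map_mul, Polynomial.map_C, Polynomial.map_X,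
      Multiset.map_singleton, Multiset.prod_singleton, AlgHom.toRingHom_eq_coe, RingHom.coe_coe]
    rw [← hz, mul_sub, Polynomial.C_mul]

/-- The relation `T₀ t₀^B = T₁` bounds `B η(t₀)`. -/
theorem IsHt.box_le {η : κ → ℝ} (h : IsHt k η) {r : ℕ} (t : Fin (r + 1) → κ)
    (P T₀ T₁ : MvPolynomial (Fin (r + 1)) k) (p : Fin (r + 1) → ℕ) (B : ℕ)
    (hP : aeval t P = 0) (hne : aeval t T₀ ≠ 0) (hdvd : P ∣ T₀ * X 0 ^ B - T₁)
    (h₀ : ∀ i, degreeOf i T₀ ≤ p i) (h₁ : ∀ i, degreeOf i T₁ ≤ p i) :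
    (B : ℝ) * η (t 0) ≤ ∑ i, (p i : ℝ) * η (t i) := by
  rw [← h.pow]
  refine h.le t T₀ T₁ p h₀ h₁ hne ?_
  obtain ⟨R, hR⟩ := hdvd
  have h1 := congrArg (aeval t) hR
  rw [map_mul, hP, zero_mul, map_sub, map_mul, map_pow, aeval_X] at h1
  exact sub_eq_zero.1 h1

/-- `x^n` is a polynomial in `x` of degree `< n` for `n` the degree of the minimal polynomial. -/
theorem IsHt.alg {η : κ → ℝ} (h : IsHt k η) {x : κ} (hx : IsAlgebraic k x) : η x = 0 := by
  have hi : IsIntegral k x := hx.isIntegral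
  obtain ⟨n, hn⟩ : ∃ n, (minpoly k x).natDegree = n + 1 :=
    Nat.exists_eq_succ_of_ne_zero (minpoly.natDegree_pos hi).ne'
  have h1 : x ^ (n + 1) =
      ∑ i ∈ Finset.range (n + 1), algebraMap k κ (-(minpoly k x).coeff i) * x ^ i := by
    have h2 := minpoly.aeval k x
    have h3 : (minpoly k x).coeff (n + 1) = 1 := by
      rw [← hn]
      exact (minpoly.monic hi).coeff_natDegree
    rw [Polynomial.aeval_eq_sum_range, hn, Finset.sum_range_succ, h3, one_smul] at h2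
    rw [eq_neg_of_add_eq_zero_right h2, ← Finset.sum_neg_distrib]
    refine Finset.sum_congr rfl fun i _ => ?_
    rw [map_neg, Algebra.smul_def, neg_mul]
  have key := h.le (r := 1) (fun _ => x) 1
    (∑ i ∈ Finset.range (n + 1), C (-(minpoly k x).coeff i) * X 0 ^ i) (fun _ => n)
    (fun i => by simp) (fun i => ?_) (by simp) (z := x ^ (n + 1)) ?_
  · rw [h.pow] at key
    simp only [Finset.univ_unique, Finset.sum_singleton] at key
    push_cast at key
    exact le_antisymm (by linarith) (h.nonneg x)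
  · refine (degreeOf_sum_le _ _ _).trans (Finset.sup_le fun j hj => ?_)
    refine (degreeOf_C_mul_le _ _ _).trans ?_
    rw [Subsingleton.elim i 0, degreeOf_X_self_pow]
    exact Nat.lt_succ_iff.1 (Finset.mem_range.1 hj)
  · rw [map_one, one_mul, h1, map_sum]
    refine Finset.sum_congr rfl fun i _ => ?_
    rw [map_mul, map_pow, aeval_X, aeval_C]

theorem Cur0_half {η : κ → ℝ} (h : IsHt k η) (z x : κ) (P : MvPolynomial (Fin 2) k)
    (hP : ∀ T, aeval ![z, x] T = 0 ↔ P ∣ T) :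
    (degreeOf 0 P : ℝ) * η z ≤ degreeOf 1 P * η x := by
  have hz := h.nonneg z
  have hx := h.nonneg x
  rcases eq_or_ne (degreeOf 0 P) 0 with hγ | hγ
  · rw [hγ, Nat.cast_zero, zero_mul]
    positivity
  have key : ∀ N : ℕ, (N : ℝ) * ((degreeOf 0 P : ℝ) * η z - degreeOf 1 P * η x) ≤
      degreeOf 0 P * η z := by
    intro N
    obtain ⟨T₀, T₁, h0, h1, h2, h3, h4, h5⟩ := box_two P hγ N
    have hne : aeval ![z, x] T₀ ≠ 0 := by
      intro h6
      obtain ⟨R, hR⟩ := (hP T₀).1 h6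
      have hP0 : P ≠ 0 := fun h7 => h0 (by rw [hR, h7, zero_mul])
      have hR0 : R ≠ 0 := fun h7 => h0 (by rw [hR, h7, mul_zero])
      rw [hR, degreeOf_mul_eq hP0 hR0] at h1
      omega
    have h6 := h.box_le (r := 1) ![z, x] P T₀ T₁ ![degreeOf 0 P, N * degreeOf 1 P]
      (N * degreeOf 0 P) ((hP P).2 dvd_rfl) hne h5
      (Fin.forall_fin_two.2 ⟨h1.le, h3⟩) (Fin.forall_fin_two.2 ⟨h2.le, h4⟩)
    rw [Fin.sum_univ_two] at h6
    simp only [Matrix.cons_val_zero, Matrix.cons_val_one] at h6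
    push_cast at h6
    linarith
  by_contra hlt
  have hd : 0 < (degreeOf 0 P : ℝ) * η z - degreeOf 1 P * η x := by linarith [not_le.1 hlt]
  obtain ⟨N, hN⟩ := exists_nat_gt
    ((degreeOf 0 P : ℝ) * η z / ((degreeOf 0 P : ℝ) * η z - degreeOf 1 P * η x))
  rw [div_lt_iff₀ hd] at hN
  linarith [key N]

/-- `box_two` gives `(Nγ - γ) η z ≤ N α η x` for all `N` (`T₀` is not divisible by `P`), hence
`γ η z ≤ α η x` (trivial if `γ = 0`); swap the variables (`rename (Equiv.swap 0 1)`) for the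
other inequality. -/
theorem IsHt.curve {η : κ → ℝ} (h : IsHt k η) (z x : κ) (P : MvPolynomial (Fin 2) k)
    (hP0 : P ≠ 0) (hP : ∀ T, aeval ![z, x] T = 0 ↔ P ∣ T) :
    (degreeOf 0 P : ℝ) * η z = degreeOf 1 P * η x := by
  refine le_antisymm (Cur0_half h z x P hP) ?_
  have hrr : ∀ T : MvPolynomial (Fin 2) k,
      rename (Equiv.swap (0 : Fin 2) 1) (rename (Equiv.swap (0 : Fin 2) 1) T) = T := by
    intro T
    rw [rename_rename]
    have : (Equiv.swap (0 : Fin 2) 1) ∘ (Equiv.swap (0 : Fin 2) 1) = id := by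
      funext i
      simp
    rw [this, rename_id]
    rfl
  have key := Cur0_half h x z (rename (Equiv.swap (0 : Fin 2) 1) P) (fun T => by
    have h1 : aeval ![x, z] T = aeval ![z, x] (rename (Equiv.swap (0 : Fin 2) 1) T) := by
      rw [aeval_rename]
      congr 2
      funext i
      fin_cases i <;> simp
    rw [h1, hP]
    constructor
    · intro h2
      have h3 := map_dvd (rename (Equiv.swap (0 : Fin 2) 1) : _ →ₐ[k] _) h2
      rwa [hrr] at h3
    · intro h2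
      have h3 := map_dvd (rename (Equiv.swap (0 : Fin 2) 1) : _ →ₐ[k] _) h2
      rwa [hrr] at h3)
  have h0 := degreeOf_rename_of_injective (p := P) (Equiv.swap (0 : Fin 2) 1).injective 0
  have h1 := degreeOf_rename_of_injective (p := P) (Equiv.swap (0 : Fin 2) 1).injective 1
  rw [Equiv.swap_apply_left] at h0
  rw [Equiv.swap_apply_right] at h1
  rwa [h0, h1] at key

theorem rho_nonneg {η : κ → ℝ} (h : IsHt k η) (π : Place k Ω κ) (b : ι → Ω) :
    0 ≤ rho π η b :=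
  Finset.sum_nonneg fun _ _ => h.nonneg _

theorem exists_transcendental_of_rho_pos {η : κ → ℝ} (h : IsHt k η) (π : Place k Ω κ)
    (b : ι → Ω) (hb : 0 < rho π η b) :
    ∃ l, 0 < η (π.ev (b l)) ∧ Transcendental k (π.ev (b l)) := by
  have h1 : ∃ l, 0 < η (π.ev (b l)) := by
    by_contra h2
    push Not at h2
    exact absurd hb (not_lt.2 (Finset.sum_nonpos fun l _ => h2 l))
  obtain ⟨l, hl⟩ := h1
  exact ⟨l, hl, fun h2 => hl.ne' (h.alg h2)⟩

end Pool.Agent.H35S

namespace Pool.Agent.H35S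

open IntermediateField Filter Topology

universe u

variable {k Ω κ : Type u} [Field k] [Field Ω] [Field κ] [Algebra k Ω] [Algebra k κ]
variable {ι : Type} [Fintype ι]

open MvPolynomial

/-! Consequences of the height axioms; heights on curves are proportional to degrees. -/

theorem Cur_indep {x : κ} (hx : Transcendental k x) {f : Fin 1 → κ} (hf : f 0 = x) :
    AlgebraicIndependent k f := by
  rw [algebraicIndependent_unique_type_iff]
  exact hf ▸ hx

omit [Field κ] in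
theorem Cur_range {x : κ} {f : Fin 1 → κ} (hf : f 0 = x) : Set.range f = {x} := by
  rw [Set.range_unique]
  exact congrArg _ hf

theorem Cur_rel {x z : κ} (hx : Transcendental k x) (hz : IsAlgebraic k⟮x⟯ z) :
    ∃ P : MvPolynomial (Fin 2) k, P ≠ 0 ∧ (∀ T, aeval ![z, x] T = 0 ↔ P ∣ T) ∧
      degreeOf 0 P = relfinrank k⟮x⟯ (adjoin k (Set.range ![z, x])) ∧ degreeOf 0 P ≠ 0 := by
  have e : Set.range ![x] = {x} := Cur_range rfl
  obtain ⟨P, hP0, hP⟩ := exists_rel ![x] (Cur_indep hx rfl) z (by rw [e]; exact hz)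
  have hP' : ∀ T, aeval ![z, x] T = 0 ↔ P ∣ T := hP
  have h := rel_degree ![z, x] P hP0 hP' 0 (Cur_indep hx rfl)
  rw [Cur_range (x := x) rfl] at h
  exact ⟨P, hP0, hP', h⟩

theorem IsHt.curve_deg {η : κ → ℝ} (h : IsHt k η) (R : IntermediateField k κ) {x z : κ}
    (hxR : x ∈ R) (hzR : z ∈ R) (hx : Transcendental k x) (hfin : relfinrank k⟮x⟯ R ≠ 0) :
    (relfinrank k⟮x⟯ R : ℝ) * η z = relfinrank k⟮z⟯ R * η x := by
  have hxle : k⟮x⟯ ≤ R := adjoin_simple_le_iff.2 hxR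
  have hzle : k⟮z⟯ ≤ R := adjoin_simple_le_iff.2 hzR
  by_cases hz : IsAlgebraic k z
  · have h0 : relfinrank k⟮z⟯ R = 0 := by
      by_contra hne
      have h1 := isAlgebraic_of_relfinrank_ne_zero hzle hne hxR
      have := isAlgebraic_adjoin_simple hz.isIntegral
      exact hx (h1.restrictScalars k)
    rw [h0, h.alg hz]
    simp
  obtain ⟨P, hP0, hP, hd0, -⟩ := Cur_rel hx (isAlgebraic_of_relfinrank_ne_zero hxle hfin hzR)
  have hd1 := (rel_degree ![z, x] P hP0 hP 1 (Cur_indep hz rfl)).1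
  rw [Cur_range (x := z) rfl] at hd1
  have hc := h.curve z x P hP0 hP
  have hL : adjoin k (Set.range ![z, x]) ≤ R := by
    rw [adjoin_le_iff]
    rintro _ ⟨i, rfl⟩
    fin_cases i
    · exact hzR
    · exact hxR
  have hxL : k⟮x⟯ ≤ adjoin k (Set.range ![z, x]) :=
    adjoin_simple_le_iff.2 (subset_adjoin _ _ ⟨1, rfl⟩)
  have hzL : k⟮z⟯ ≤ adjoin k (Set.range ![z, x]) :=
    adjoin_simple_le_iff.2 (subset_adjoin _ _ ⟨0, rfl⟩)
  rw [← relfinrank_mul_relfinrank hxL hL, ← relfinrank_mul_relfinrank hzL hL, ← hd0, ← hd1]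
  push_cast
  linear_combination (relfinrank (adjoin k (Set.range ![z, x])) R : ℝ) * hc

/-- Heights are invariant under embeddings fixing a transcendental element. -/
theorem IsHt.hom {η : κ → ℝ} (h : IsHt k η) (R : IntermediateField k κ) (f : R →ₐ[k] κ)
    (x z : R) (hx : Transcendental k (x : κ)) (hf : f x = x)
    (hz : IsAlgebraic k⟮(x : κ)⟯ (z : κ)) : η (f z) = η z := by
  obtain ⟨P, hP0, hP, -, hd⟩ := Cur_rel hx hz
  have key : ∀ (g : R →ₐ[k] κ) (T : MvPolynomial (Fin 2) k),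
      aeval ![g z, g x] T = 0 ↔ aeval ![z, x] T = 0 := by
    intro g T
    have e : ![g z, g x] = fun i => g (![z, x] i) := by
      funext i
      fin_cases i <;> rfl
    rw [e, ← comp_aeval_apply, map_eq_zero]
  have hP' : ∀ T, aeval ![f z, (x : κ)] T = 0 ↔ P ∣ T := by
    intro T
    rw [← hP T, ← hf, key f T, hf]
    exact (key R.val T).symm
  have h1 := h.curve _ _ P hP0 hP
  have h2 := h.curve _ _ P hP0 hP'
  have hd' : (degreeOf 0 P : ℝ) ≠ 0 := Nat.cast_ne_zero.2 hd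
  exact mul_left_cancel₀ hd' (h2.trans h1.symm)

/-- Two heights on the same curve are proportional. -/
theorem IsHt.two {κ' : Type u} [Field κ'] [Algebra k κ'] {η : κ → ℝ} {η' : κ' → ℝ}
    (h : IsHt k η) (h' : IsHt k η') {z x : κ} {z' x' : κ'} (hx : Transcendental k x)
    (hz : IsAlgebraic k⟮x⟯ z)
    (hker : ∀ T : MvPolynomial (Fin 2) k, aeval ![z, x] T = 0 ↔ aeval ![z', x'] T = 0) :
    η z * η' x' = η x * η' z' := by
  obtain ⟨P, hP0, hP, -, hd⟩ := Cur_rel hx hz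
  have h1 := h.curve _ _ P hP0 hP
  have h2 := h'.curve z' x' P hP0 fun T => (hker T).symm.trans (hP T)
  have hd' : (degreeOf 0 P : ℝ) ≠ 0 := Nat.cast_ne_zero.2 hd
  refine mul_left_cancel₀ hd' ?_
  linear_combination η' x' * h1 - η x * h2

end Pool.Agent.H35S

namespace Pool.Agent.H35S

open IntermediateField Filter Topology

universe u

variable {k Ω κ : Type u} [Field k] [Field Ω] [Field κ] [Algebra k Ω] [Algebra k κ]
variable {ι : Type} [Fintype ι]

/-- The three-term inequality for functions. Plan: trivial if `x, y` are dependent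
(`pr_eq_zero`). Otherwise take `P, χ` from `pr_three`, `T₀, T₁` from `box_three`,
`τ = aeval ![z,x,y] T₀ ≠ 0`, and let `𝓔` be the union of the finite sets of `fin_lab` for
`c = z` and `T = x, y, τ⁻¹`. If `ev z` is not transcendental then `η (ev z) = 0`. Otherwise all of
`x, y, z, τ⁻¹` lie in `O` and `IsHt.box_le` gives `γ η z ≤ 4 (α η x + β η y)`. -/
theorem three_one [CharZero k] (htr : Algebra.trdeg k Ω = 2) {K : IntermediateField k Ω}
    (hK : Big K) (x y z : Ω) :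
    ∃ 𝓔 : Set (Set Ω), 𝓔.Finite ∧ (K : Set Ω) ∉ 𝓔 ∧
      ∀ (κ : Type u) [Field κ] [Algebra k κ] (π : Place k Ω κ) (η : κ → ℝ), IsHt k η →
        label π.O K ∉ 𝓔 →
        pr K x y * η (π.ev z) ≤ 4 * (pr K y z * η (π.ev x) + pr K x z * η (π.ev y)) := by
  by_cases hxy : AlgebraicIndependent k ![x, y]
  swap
  · refine ⟨∅, Set.finite_empty, Set.notMem_empty _, ?_⟩
    intro κ _ _ π η hη _
    rw [pr_eq_zero htr hK hxy, zero_mul]
    have h1 := mul_nonneg (pr_nonneg K y z) (hη.nonneg (π.ev x))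
    have h2 := mul_nonneg (pr_nonneg K x z) (hη.nonneg (π.ev y))
    linarith
  obtain ⟨P, χ, hP0, hP, hχ, hγ, e0, e1, e2, -⟩ := pr_three htr hK z hxy
  obtain ⟨T₀, T₁, hT0, d0, d0', d1, d1', d2, d2', hdvd⟩ := box_three P hγ
  have hτ : MvPolynomial.aeval ![z, x, y] T₀ ≠ 0 := by
    intro h
    obtain ⟨R, hR⟩ := (hP T₀).1 h
    have hR0 : R ≠ 0 := by
      rintro rfl
      exact hT0 (by simpa using hR)
    rw [hR, MvPolynomial.degreeOf_mul_eq hP0 hR0] at d0
    omega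
  have hKn : ∀ T : Ω, (K : Set Ω) ∉
      {F : Set Ω | ∃ w : ValuationSubring Ω, Tr k w z ∧ T ∉ w ∧ F = label w K} := by
    rintro T ⟨w, -, hT, hF⟩
    have hw : w = ⊤ := (label_eq_iff w hK.2).1 hF.symm
    exact hT (by rw [hw]; trivial)
  refine ⟨{F : Set Ω | ∃ w : ValuationSubring Ω, Tr k w z ∧ x ∉ w ∧ F = label w K} ∪
    ({F : Set Ω | ∃ w : ValuationSubring Ω, Tr k w z ∧ y ∉ w ∧ F = label w K} ∪
    {F : Set Ω | ∃ w : ValuationSubring Ω, Tr k w z ∧
      (MvPolynomial.aeval ![z, x, y] T₀)⁻¹ ∉ w ∧ F = label w K}),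
    (fin_lab htr hK z x).union ((fin_lab htr hK z y).union (fin_lab htr hK z _)), ?_, ?_⟩
  · rintro (h | h | h)
    · exact hKn _ h
    · exact hKn _ h
    · exact hKn _ h
  intro κ _ _ π η hη hlab
  have hx0 := hη.nonneg (π.ev x)
  have hy0 := hη.nonneg (π.ev y)
  by_cases hz : Transcendental k (π.ev z)
  swap
  · have hz' : IsAlgebraic k (π.ev z) := by
      by_contra h
      exact hz h
    rw [hη.alg hz', mul_zero]
    have h1 := mul_nonneg (pr_nonneg K y z) hx0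
    have h2 := mul_nonneg (pr_nonneg K x z) hy0
    linarith
  have hz0 : π.ev z ≠ 0 := by
    intro h
    rw [h] at hz
    exact hz isAlgebraic_zero
  have hzO : z ∈ π.O := (π.mem_of_ev_ne hz0).1
  have hTr : Tr k π.O z := (π.tr_iff z).2 ⟨hzO, hz⟩
  have hxO : x ∈ π.O := by
    by_contra h
    exact hlab (Or.inl ⟨π.O, hTr, h, rfl⟩)
  have hyO : y ∈ π.O := by
    by_contra h
    exact hlab (Or.inr (Or.inl ⟨π.O, hTr, h, rfl⟩))
  have hτO : (MvPolynomial.aeval ![z, x, y] T₀)⁻¹ ∈ π.O := by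
    by_contra h
    exact hlab (Or.inr (Or.inr ⟨π.O, hTr, h, rfl⟩))
  have hall : ∀ i, (![z, x, y] : Fin 3 → Ω) i ∈ π.O := by
    intro i
    fin_cases i
    · exact hzO
    · exact hxO
    · exact hyO
  have hPt : MvPolynomial.aeval (fun i => π.ev ((![z, x, y] : Fin 3 → Ω) i)) P = 0 := by
    rw [← π.ev_mvaeval hall, (hP P).2 dvd_rfl, π.ev_zero]
  have hTt : MvPolynomial.aeval (fun i => π.ev ((![z, x, y] : Fin 3 → Ω) i)) T₀ ≠ 0 := by
    rw [← π.ev_mvaeval hall]
    intro h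
    rcases (π.ev_eq_zero_iff (π.mvaeval_mem hall T₀)).1 h with h | h
    · exact hτ h
    · exact h hτO
  have hb := hη.box_le (fun i => π.ev ((![z, x, y] : Fin 3 → Ω) i)) P T₀ T₁
    ![MvPolynomial.degreeOf 0 P - 1, 4 * MvPolynomial.degreeOf 1 P, 4 * MvPolynomial.degreeOf 2 P]
    (2 * MvPolynomial.degreeOf 0 P - 1) hPt hTt hdvd
    (by
      intro i
      fin_cases i
      · show MvPolynomial.degreeOf 0 T₀ ≤ MvPolynomial.degreeOf 0 P - 1
        omega
      · exact d1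
      · exact d2)
    (by
      intro i
      fin_cases i
      · show MvPolynomial.degreeOf 0 T₁ ≤ MvPolynomial.degreeOf 0 P - 1
        omega
      · exact d1'
      · exact d2')
  rw [Fin.sum_univ_three] at hb
  have hb' : ((2 * MvPolynomial.degreeOf 0 P - 1 : ℕ) : ℝ) * η (π.ev z) ≤
      ((MvPolynomial.degreeOf 0 P - 1 : ℕ) : ℝ) * η (π.ev z) +
      ((4 * MvPolynomial.degreeOf 1 P : ℕ) : ℝ) * η (π.ev x) +
      ((4 * MvPolynomial.degreeOf 2 P : ℕ) : ℝ) * η (π.ev y) := hb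
  have c1 : ((2 * MvPolynomial.degreeOf 0 P - 1 : ℕ) : ℝ) =
      ((MvPolynomial.degreeOf 0 P - 1 : ℕ) : ℝ) + MvPolynomial.degreeOf 0 P := by
    rw [← Nat.cast_add]
    congr 1
    omega
  rw [c1] at hb'
  push_cast [-Nat.cast_sub] at hb'
  have hmain : (MvPolynomial.degreeOf 0 P : ℝ) * η (π.ev z) ≤
      4 * (MvPolynomial.degreeOf 1 P * η (π.ev x) + MvPolynomial.degreeOf 2 P * η (π.ev y)) := by
    linarith
  rw [e0, e1, e2]
  have := mul_le_mul_of_nonneg_left hmain hχ.le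
  linarith

/-- Sum of `three_one` over all triples of coordinates. -/
theorem three [CharZero k] (htr : Algebra.trdeg k Ω = 2) {K : IntermediateField k Ω}
    (hK : Big K) (b c e : ι → Ω) :
    ∃ 𝓔 : Set (Set Ω), 𝓔.Finite ∧ (K : Set Ω) ∉ 𝓔 ∧
      ∀ (κ : Type u) [Field κ] [Algebra k κ] (π : Place k Ω κ) (η : κ → ℝ), IsHt k η →
        label π.O K ∉ 𝓔 →
        prT K b c * rho π η e ≤ 4 * (prT K c e * rho π η b + prT K b e * rho π η c) := by
  choose 𝓔 hfin hK' hle using fun t : ι × ι × ι => three_one htr hK (b t.1) (c t.2.1) (e t.2.2)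
  refine ⟨⋃ t, 𝓔 t, Set.finite_iUnion hfin, ?_, ?_⟩
  · intro h
    obtain ⟨t, ht⟩ := Set.mem_iUnion.1 h
    exact hK' t ht
  intro κ _ _ π η hη hlab
  have h : ∀ l l' l'' : ι, pr K (b l) (c l') * η (π.ev (e l'')) ≤
      4 * (pr K (c l') (e l'') * η (π.ev (b l)) + pr K (b l) (e l'') * η (π.ev (c l'))) :=
    fun l l' l'' => hle (l, l', l'') κ π η hη fun hm => hlab (Set.mem_iUnion.2 ⟨_, hm⟩)
  have e0 : prT K b c * rho π η e =
      ∑ l, ∑ l', ∑ l'', pr K (b l) (c l') * η (π.ev (e l'')) := by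
    rw [prT, Finset.sum_mul]
    refine Finset.sum_congr rfl fun l _ => ?_
    rw [Finset.sum_mul]
    refine Finset.sum_congr rfl fun l' _ => ?_
    rw [rho, Finset.mul_sum]
  have e1 : prT K c e * rho π η b =
      ∑ l, ∑ l', ∑ l'', pr K (c l') (e l'') * η (π.ev (b l)) := by
    rw [rho, Finset.mul_sum]
    refine Finset.sum_congr rfl fun l _ => ?_
    simp only [prT, Finset.sum_mul]
  have e2 : prT K b e * rho π η c =
      ∑ l, ∑ l', ∑ l'', pr K (b l) (e l'') * η (π.ev (c l')) := by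
    rw [prT, Finset.sum_mul]
    refine Finset.sum_congr rfl fun l _ => ?_
    rw [rho, Finset.mul_sum]
    refine Finset.sum_congr rfl fun l' _ => ?_
    rw [Finset.sum_mul]
  rw [e0, e1, e2, ← Finset.sum_add_distrib, Finset.mul_sum]
  refine Finset.sum_le_sum fun l _ => ?_
  rw [← Finset.sum_add_distrib, Finset.mul_sum]
  refine Finset.sum_le_sum fun l' _ => ?_
  rw [← Finset.sum_add_distrib, Finset.mul_sum]
  exact Finset.sum_le_sum fun l'' _ => h l l' l''

/-- `three` for the triples `(fr 1, fr 1, fr 0)`, `(fr 0, fr 0, fr 1)`, `(fr 0, fr 2, fr 1)`,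
with `prT_fr`, `prT_symm` and `1 ≤ δ 0`. -/
theorem Sys.step [CharZero k] (S : Sys k Ω ι) :
    ∃ 𝓕 : Set (Set Ω), 𝓕.Finite ∧ (S.K : Set Ω) ∉ 𝓕 ∧
      ∀ (κ : Type u) [Field κ] [Algebra k κ] (π : Place k Ω κ) (η : κ → ℝ), IsHt k η →
        S.lab π.O ∉ 𝓕 →
        (S.D : ℝ) / (8 * S.δ 1) * rho π η (S.fr 0) ≤ rho π η (S.fr 1) ∧
        rho π η (S.fr 1) ≤ 8 * S.δ 1 * rho π η (S.fr 0) ∧
        S.δ 2 * rho π η (S.fr 1) ≤
          4 * S.δ 1 * (S.D * rho π η (S.fr 0) + rho π η (S.fr 2)) := by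
  obtain ⟨A, hA, hA', hAle⟩ := three S.trdeg S.big (S.fr 1) (S.fr 1) (S.fr 0)
  obtain ⟨B, hB, hB', hBle⟩ := three S.trdeg S.big (S.fr 0) (S.fr 0) (S.fr 1)
  obtain ⟨C, hC, hC', hCle⟩ := three S.trdeg S.big (S.fr 0) (S.fr 2) (S.fr 1)
  refine ⟨A ∪ (B ∪ C), hA.union (hB.union hC), ?_, ?_⟩
  · rintro (h | h | h)
    · exact hA' h
    · exact hB' h
    · exact hC' h
  intro κ _ _ π η hη hlab
  have h1 := hAle κ π η hη fun h => hlab (Or.inl h)
  have h2 := hBle κ π η hη fun h => hlab (Or.inr (Or.inl h))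
  have h3 := hCle κ π η hη fun h => hlab (Or.inr (Or.inr h))
  have p11 : prT S.K (S.fr 1) (S.fr 1) = S.D * S.δ 0 := by simpa using S.prT_fr 1 0
  have p01 : prT S.K (S.fr 0) (S.fr 1) = S.δ 1 := by simpa using S.prT_fr 0 1
  have p00 : prT S.K (S.fr 0) (S.fr 0) = S.δ 0 := by simpa using S.prT_fr 0 0
  have p02 : prT S.K (S.fr 0) (S.fr 2) = S.δ 2 := by simpa using S.prT_fr 0 2
  have p12 : prT S.K (S.fr 1) (S.fr 2) = S.D * S.δ 1 := by
    have := S.prT_fr 1 1
    norm_num at this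
    exact this
  have p10 : prT S.K (S.fr 1) (S.fr 0) = S.δ 1 := by rw [prT_symm, p01]
  have p21 : prT S.K (S.fr 2) (S.fr 1) = S.D * S.δ 1 := by rw [prT_symm, p12]
  rw [p11, p10] at h1
  rw [p00, p01] at h2
  rw [p02, p21, p01] at h3
  have r0 := rho_nonneg hη π (S.fr 0)
  have r1 := rho_nonneg hη π (S.fr 1)
  have d0 := S.one_le_δ 0
  have d1 := S.one_le_δ 1
  have hD : (0 : ℝ) ≤ S.D := Nat.cast_nonneg _
  refine ⟨?_, ?_, ?_⟩
  · rw [div_mul_eq_mul_div, div_le_iff₀ (by linarith)]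
    have := mul_le_mul_of_nonneg_left d0 (mul_nonneg hD r0)
    linarith
  · have := mul_le_mul_of_nonneg_right d0 r1
    linarith
  · linarith

/-- A fast step is followed by a very fast step. -/
theorem persist {D δ₁ δ₂ s Sg ρ₀ ρ₁ ρ₂ : ℝ} (hD : 0 ≤ D) (hδ : 1 ≤ δ₁) (hs : 0 < s)
    (hS : Sg ≤ δ₂ / (4 * δ₁) - D / s) (h0 : 0 ≤ ρ₀) (h : δ₂ * ρ₁ ≤ 4 * δ₁ * (D * ρ₀ + ρ₂))
    (hf : s * ρ₀ ≤ ρ₁) : Sg * ρ₁ ≤ ρ₂ := by
  have h1 : 0 ≤ ρ₁ := le_trans (mul_nonneg hs.le h0) hf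
  have h4 : 0 < 4 * δ₁ := by linarith
  have a1 : δ₂ / (4 * δ₁) * ρ₁ ≤ D * ρ₀ + ρ₂ := by
    rw [div_mul_eq_mul_div, div_le_iff₀ h4]
    linarith
  have a2 : D * ρ₀ ≤ D / s * ρ₁ := by
    rw [div_mul_eq_mul_div, le_div_iff₀ hs]
    have := mul_le_mul_of_nonneg_left hf hD
    linarith
  have a3 := mul_le_mul_of_nonneg_right hS h1
  linarith

end Pool.Agent.H35S

namespace Pool.Agent.H35S

open IntermediateField Filter Topology

universe u

variable {k Ω κ : Type u} [Field k] [Field Ω] [Field κ] [Algebra k Ω] [Algebra k κ]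
variable {ι : Type} [Fintype ι]

theorem Bez0_eval {r : ℕ} (t : Fin r → Ω) (z : Ω) (P : MvPolynomial (Fin (r + 1)) k) :
    ((MvPolynomial.finSuccEquiv k r P).map
      (MvPolynomial.aeval t : MvPolynomial (Fin r) k →ₐ[k] Ω).toRingHom).eval z =
      MvPolynomial.aeval (Fin.cons z t : Fin (r + 1) → Ω) P := by
  induction P using MvPolynomial.induction_on with
  | C a => simp [MvPolynomial.finSuccEquiv_apply]
  | add p q hp hq => rw [map_add, Polynomial.map_add, Polynomial.eval_add, hp, hq, map_add]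
  | mul_X p i hp =>
    rw [map_mul, Polynomial.map_mul, Polynomial.eval_mul, hp, map_mul]
    congr 1
    refine Fin.cases ?_ (fun j => ?_) i
    · simp [MvPolynomial.finSuccEquiv_X_zero]
    · simp [MvPolynomial.finSuccEquiv_X_succ]

open Classical in
/-- Bezout bound without exceptional set. Plan: `P, χ` from `pr_three`; let
`Q = (finSuccEquiv k 2 P).map (aeval ![x,y]) ∈ Ω[Z]`; its coefficients lie in `O`, and
`evP Q = (finSuccEquiv k 2 P).map (aeval ![ev x, ev y]) ≠ 0` by `rel_nonvan`. `Place.fact` and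
`IsHt.gel` (degrees `degreeOf 1 P`, `degreeOf 2 P`; `degreeOf_coeff_finSuccEquiv`) bound the sum of
`η (ev θ)` over all roots `θ` of `Q` (roots outside `O` contribute `η 0 = 0`). `Q` has
coefficients in `K` and kills `z`, so the roots of `minpoly K z` are among its roots. -/
theorem bez_one [IsAlgClosed Ω] (htr : Algebra.trdeg k Ω = 2) {K : IntermediateField k Ω}
    (hK : Big K) (π : Place k Ω κ) {η : κ → ℝ} (hη : IsHt k η) {x y : Ω} (hxK : x ∈ K)
    (hyK : y ∈ K) (hyO : y ∈ π.O) (hxy : AlgebraicIndependent k ![x, y])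
    (hx : Transcendental k (π.ev x)) (z : Ω) :
    ∑ θ ∈ ((minpoly K z).aroots Ω).toFinset, η (π.ev θ) ≤
      (minpoly K z).natDegree * (pr K y z * η (π.ev x) + pr K x z * η (π.ev y)) := by
  obtain ⟨P, χ, hP0, hP, -, -, -, h1, h2, h3⟩ := pr_three htr hK z hxy
  have hxO : x ∈ π.O := (π.mem_of_ev_ne fun e => hx (e ▸ isAlgebraic_zero)).1
  have hO : ∀ i, (![x, y] : Fin 2 → Ω) i ∈ π.O := fun i => by fin_cases i <;> assumption
  have hne := rel_nonvan hxy P hP0 hP hx (π.ev y)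
  have hz := Bez0_eval ![x, y] z P
  have hd := fun j i => MvPolynomial.degreeOf_coeff_finSuccEquiv P i j
  generalize MvPolynomial.finSuccEquiv k 2 P = F at hne hz hd
  set Q := F.map (MvPolynomial.aeval ![x, y] : MvPolynomial (Fin 2) k →ₐ[k] Ω).toRingHom with hQ
  have e1 : π.evP Q = F.map
      (MvPolynomial.aeval ![π.ev x, π.ev y] : MvPolynomial (Fin 2) k →ₐ[k] κ).toRingHom := by
    have e : (fun i => π.ev ((![x, y] : Fin 2 → Ω) i)) = ![π.ev x, π.ev y] := by
      ext i; fin_cases i <;> rfl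
    ext n
    rw [π.coeff_evP, hQ, Polynomial.coeff_map, Polynomial.coeff_map, ← e]
    exact π.ev_mvaeval hO _
  have hQ0 : Q ≠ 0 := fun e => hne (by
    rw [← e1, e]
    ext n
    rw [π.coeff_evP, Polynomial.coeff_zero, Polynomial.coeff_zero, π.ev_zero])
  obtain ⟨c, hc, hf⟩ := π.fact Q (fun n => by
    rw [hQ, Polynomial.coeff_map]; exact π.mvaeval_mem hO _) (e1 ▸ hne)
  have h4 := hη.gel 2 F (fun i => MvPolynomial.degreeOf i.succ P) hd _ c _ hc (e1.symm.trans hf)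
  let Q' := F.map (MvPolynomial.aeval ![(⟨x, hxK⟩ : K), ⟨y, hyK⟩] :
    MvPolynomial (Fin 2) k →ₐ[k] K).toRingHom
  have e2 : Q'.map (algebraMap K Ω) = Q := by
    rw [Polynomial.map_map]
    congr 1
    refine MvPolynomial.ringHom_ext (fun a => by simp) fun i => ?_
    fin_cases i <;> simp
  have e3 : minpoly K z ∣ Q' := minpoly.dvd K z (by
    rw [← Polynomial.eval_map_algebraMap, e2, hz]
    exact (hP P).2 dvd_rfl)
  have e4 : (((minpoly K z).aroots Ω).toFinset).val ≤ Q.roots := by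
    refine (Multiset.le_iff_subset (Finset.nodup _)).2 fun θ hθ => ?_
    have h5 := (Polynomial.mem_aroots.1 (Multiset.mem_toFinset.1 hθ)).2
    rw [Polynomial.mem_roots hQ0, Polynomial.IsRoot, ← e2, Polynomial.eval_map_algebraMap]
    exact Polynomial.aeval_eq_zero_of_dvd_aeval_eq_zero e3 h5
  obtain ⟨u, hu⟩ := Multiset.le_iff_exists_add.1 e4
  have e5 : (Q.roots.map fun θ => η (π.ev θ)).sum =
      (((Q.roots.filter (· ∈ π.O)).map π.ev).map η).sum := by
    conv_lhs => rw [← Multiset.filter_add_not (· ∈ π.O) Q.roots]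
    rw [Multiset.map_add, Multiset.sum_add, Multiset.map_map, add_eq_left.2]
    · rfl
    refine Multiset.sum_eq_zero fun a ha => ?_
    obtain ⟨θ, h5, rfl⟩ := Multiset.mem_map.1 ha
    rw [π.ev_out θ (Multiset.mem_filter.1 h5).2, hη.zero]
  have e6 : 0 ≤ (u.map fun θ => η (π.ev θ)).sum := Multiset.sum_nonneg fun a ha => by
    obtain ⟨θ, -, rfl⟩ := Multiset.mem_map.1 ha
    exact hη.nonneg _
  rw [← e5, hu, Multiset.map_add, Multiset.sum_add, Fin.sum_univ_two] at h4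
  have h5 : (0 : ℝ) ≤ MvPolynomial.degreeOf 1 P * η (π.ev x) +
      MvPolynomial.degreeOf 2 P * η (π.ev y) :=
    add_nonneg (mul_nonneg (Nat.cast_nonneg _) (hη.nonneg _))
      (mul_nonneg (Nat.cast_nonneg _) (hη.nonneg _))
  have h6 := mul_le_mul_of_nonneg_right (h3 hxK hyK) h5
  rw [h1, h2]
  refine le_trans ((le_add_of_nonneg_right e6).trans h4) (le_trans (le_of_eq ?_)
    (h6.trans (le_of_eq (by ring))))
  rw [one_mul]
  rfl

end Pool.Agent.H35S

namespace Pool.Agent.H35S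

open IntermediateField Filter Topology

universe u

variable {k Ω κ : Type u} [Field k] [Field Ω] [Field κ] [Algebra k Ω] [Algebra k κ]
variable {ι : Type} [Fintype ι]

open Classical in
theorem Bez_mem {K : IntermediateField k Ω} (hK : Big K) (z θ : Ω) :
    θ ∈ ((minpoly K z).aroots Ω).toFinset ↔ minpoly K θ = minpoly K z := by
  have := hK.2
  have hz : IsIntegral K z := Algebra.IsIntegral.isIntegral z
  rw [Multiset.mem_toFinset, Polynomial.mem_aroots]
  constructor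
  · rintro ⟨-, h⟩
    exact (minpoly.eq_of_irreducible_of_monic (minpoly.irreducible hz) h (minpoly.monic hz)).symm
  · intro h
    exact ⟨minpoly.ne_zero hz, by rw [← h]; exact minpoly.aeval K θ⟩

open Classical in
theorem Bez_card [CharZero k] [IsAlgClosed Ω] {K : IntermediateField k Ω} (hK : Big K) (z : Ω) :
    ((minpoly K z).aroots Ω).toFinset.card = (minpoly K z).natDegree := by
  have := hK.2
  have : CharZero K := algebraRat.charZero K
  have hz : IsIntegral K z := Algebra.IsIntegral.isIntegral z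
  rw [Multiset.toFinset_card_of_nodup, IsAlgClosed.card_aroots_eq_natDegree]
  exact Polynomial.nodup_roots (minpoly.irreducible hz).separable.map

theorem Bez_aut [IsAlgClosed Ω] {K : IntermediateField k Ω} (hK : Big K) {z θ : Ω}
    (h : minpoly K θ = minpoly K z) :
    ∃ Θ : Ω ≃ₐ[k] Ω, (∀ x ∈ K, Θ x = x) ∧ Θ z = θ := by
  have := hK.2
  have : IsAlgClosure K Ω := ⟨inferInstance, hK.2⟩
  obtain ⟨σ, hσ⟩ := minpoly.exists_algEquiv_of_root (K := K) (x := z) (y := θ)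
    (Algebra.IsAlgebraic.isAlgebraic θ) (by rw [h]; exact minpoly.aeval K z)
  exact ⟨σ.restrictScalars k, fun x hx => σ.commutes ⟨x, hx⟩, hσ⟩

open Classical in
/-- Averaging over Galois orbits. The conjugates of `z` under the automorphisms fixing `K` are
the roots of `minpoly K z` (`Ω` is normal over `K`: `minpoly.exists_algEquiv_of_root`,
restrict scalars), there are `natDegree` of them (characteristic zero), and the fibres of
`b ↦ b l` on `G` over two conjugate elements have the same cardinality. -/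
theorem average [CharZero k] [IsAlgClosed Ω] {K : IntermediateField k Ω} (hK : Big K)
    (G : Finset (ι → Ω))
    (hG : ∀ Θ : Ω ≃ₐ[k] Ω, (∀ x ∈ K, Θ x = x) → ∀ b ∈ G, (fun l => Θ (b l)) ∈ G) (l : ι)
    (f β : Ω → ℝ) (hβ : ∀ Θ : Ω ≃ₐ[k] Ω, (∀ x ∈ K, Θ x = x) → ∀ z, β (Θ z) = β z)
    (hf : ∀ z, ∑ θ ∈ ((minpoly K z).aroots Ω).toFinset, f θ ≤ (minpoly K z).natDegree * β z) :
    ∑ b ∈ G, f (b l) ≤ ∑ b ∈ G, β (b l) := by
  have := hK.2
  have hle : ∀ z θ : Ω, minpoly K θ = minpoly K z →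
      (G.filter fun b => b l = z).card ≤ (G.filter fun b => b l = θ).card := by
    intro z θ h
    obtain ⟨Θ, hΘ, rfl⟩ := Bez_aut hK h
    refine Finset.card_le_card_of_injOn (fun b l => Θ (b l)) (fun b hb => ?_)
      (fun b _ c _ hbc => ?_)
    · rw [Finset.mem_coe, Finset.mem_filter] at hb ⊢
      exact ⟨hG Θ hΘ b hb.1, congrArg Θ hb.2⟩
    · exact funext fun j => Θ.injective (congrFun hbc j)
  have hI : ∀ z ∈ G.image fun b => b l, ∀ θ : Ω, minpoly K θ = minpoly K z →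
      θ ∈ G.image fun b => b l := by
    intro z hz θ h
    obtain ⟨b, hb, rfl⟩ := Finset.mem_image.1 hz
    obtain ⟨Θ, hΘ, rfl⟩ := Bez_aut hK h
    exact Finset.mem_image.2 ⟨_, hG Θ hΘ b hb, rfl⟩
  have hd : ∀ z : Ω, (0 : ℝ) < (minpoly K z).natDegree := fun z =>
    Nat.cast_pos.2 (minpoly.natDegree_pos (Algebra.IsIntegral.isIntegral z))
  rw [Finset.sum_comp f fun b : ι → Ω => b l, Finset.sum_comp β fun b : ι → Ω => b l]
  simp only [nsmul_eq_mul]
  calc _ = ∑ θ ∈ G.image fun b => b l, ∑ _z ∈ ((minpoly K θ).aroots Ω).toFinset,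
        ((G.filter fun b => b l = θ).card : ℝ) / (minpoly K θ).natDegree * f θ := by
        refine Finset.sum_congr rfl fun θ _ => ?_
        rw [Finset.sum_const, Bez_card hK, nsmul_eq_mul]
        have := (hd θ).ne'
        field_simp
    _ = ∑ z ∈ G.image fun b => b l, ∑ θ ∈ ((minpoly K z).aroots Ω).toFinset,
        ((G.filter fun b => b l = θ).card : ℝ) / (minpoly K θ).natDegree * f θ := by
        refine Finset.sum_comm' fun θ z => ?_
        rw [Bez_mem hK, Bez_mem hK]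
        exact ⟨fun h => ⟨h.2.symm, hI θ h.1 z h.2⟩, fun h => ⟨hI z h.2 θ h.1, h.1.symm⟩⟩
    _ ≤ _ := by
        refine Finset.sum_le_sum fun z _ => ?_
        have h1 : ∀ θ ∈ ((minpoly K z).aroots Ω).toFinset,
            ((G.filter fun b => b l = θ).card : ℝ) / (minpoly K θ).natDegree * f θ =
            ((G.filter fun b => b l = z).card : ℝ) / (minpoly K z).natDegree * f θ := by
          intro θ hθ
          have h := (Bez_mem hK z θ).1 hθ
          rw [le_antisymm (hle θ z h.symm) (hle z θ h), h]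
        rw [Finset.sum_congr rfl h1, ← Finset.mul_sum]
        refine (mul_le_mul_of_nonneg_left (hf z) (by positivity)).trans_eq ?_
        have := (hd z).ne'
        field_simp

/-- Plan: `x = a l₀` with transcendental residue, `y = a l₁` independent from `x`
(`exists_indep` with `n = 0`, so `l₀ ≠ l₁`), `β z = pr K y z * η (ev x) + pr K x z * η (ev y)`
(invariant by `pr_map`, `chi_sib` with `n = 0`); `∑_l β (b l) ≤ prT K a b * rho a`. -/
theorem Sys.bez [CharZero k] [IsAlgClosed Ω] (S : Sys k Ω ι) (π : Place k Ω κ) {η : κ → ℝ}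
    (hη : IsHt k η) (hmem : ∀ l, S.a l ∈ π.O) (hpos : 0 < rho π η S.a) (G : Finset (ι → Ω))
    (hG : ∀ Θ : Ω ≃ₐ[k] Ω, (∀ x ∈ S.K, Θ x = x) → ∀ b ∈ G, (fun l => Θ (b l)) ∈ G)
    (R : ℝ) (hR : ∀ b ∈ G, prT S.K S.a b ≤ R) :
    ∑ b ∈ G, rho π η b ≤ G.card * R * rho π η S.a := by
  classical
  obtain ⟨l₀, -, hx⟩ := exists_transcendental_of_rho_pos hη π S.a hpos
  have hx' : Transcendental k (S.a l₀) := by
    rintro ⟨p, hp, h⟩
    exact hx ⟨p, hp, by rw [← π.ev_aeval (hmem l₀), h, π.ev_zero]⟩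
  obtain ⟨l₁, hxy⟩ := S.exists_indep hx' 0
  rw [S.fr_zero] at hxy
  have hne : l₀ ≠ l₁ := by
    rintro rfl
    exact absurd (hxy.injective (a₁ := 0) (a₂ := 1) rfl) (by decide)
  have hinv : ∀ Θ : Ω ≃ₐ[k] Ω, (∀ x ∈ S.K, Θ x = x) → ∀ l z,
      pr S.K (S.a l) (Θ z) = pr S.K (S.a l) z := by
    intro Θ hΘ l z
    have h := pr_map S.trdeg S.big Θ (S.a l) z
    rwa [S.chi_sib 0 Θ (by rwa [Nat.cast_zero, S.Kn_zero]), mul_one, hΘ _ (S.a_mem l)] at h
  have hav : ∀ l, ∑ b ∈ G, η (π.ev (b l)) ≤ ∑ b ∈ G, (pr S.K (S.a l₁) (b l) * η (π.ev (S.a l₀)) +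
      pr S.K (S.a l₀) (b l) * η (π.ev (S.a l₁))) := fun l =>
    average S.big G hG l (fun z => η (π.ev z))
      (fun z => pr S.K (S.a l₁) z * η (π.ev (S.a l₀)) + pr S.K (S.a l₀) z * η (π.ev (S.a l₁)))
      (fun Θ hΘ z => by rw [hinv Θ hΘ, hinv Θ hΘ])
      (fun z => bez_one S.trdeg S.big π hη (S.a_mem l₀) (S.a_mem l₁) (hmem l₁) hxy hx z)
  have hr : ∀ l, η (π.ev (S.a l)) ≤ rho π η S.a := fun l =>
    Finset.single_le_sum (f := fun l => η (π.ev (S.a l))) (fun j _ => hη.nonneg _)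
      (Finset.mem_univ l)
  calc ∑ b ∈ G, rho π η b = ∑ l, ∑ b ∈ G, η (π.ev (b l)) := Finset.sum_comm
    _ ≤ ∑ b ∈ G, ∑ l, (pr S.K (S.a l₁) (b l) * η (π.ev (S.a l₀)) +
        pr S.K (S.a l₀) (b l) * η (π.ev (S.a l₁))) :=
        (Finset.sum_le_sum fun l _ => hav l).trans_eq Finset.sum_comm
    _ ≤ ∑ _b ∈ G, R * rho π η S.a := by
        refine Finset.sum_le_sum fun b hb => ?_
        have hu : ∀ j, 0 ≤ ∑ l, pr S.K (S.a j) (b l) := fun j =>
          Finset.sum_nonneg fun l _ => pr_nonneg _ _ _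
        have h2 : ∑ l, pr S.K (S.a l₀) (b l) + ∑ l, pr S.K (S.a l₁) (b l) ≤ prT S.K S.a b := by
          rw [← Finset.sum_pair (f := fun j => ∑ l, pr S.K (S.a j) (b l)) hne]
          exact Finset.sum_le_sum_of_subset_of_nonneg (Finset.subset_univ _) fun j _ _ => hu j
        rw [Finset.sum_add_distrib, ← Finset.sum_mul, ← Finset.sum_mul]
        have h3 := mul_le_mul_of_nonneg_left (hr l₀) (hu l₁)
        have h4 := mul_le_mul_of_nonneg_left (hr l₁) (hu l₀)
        have h5 := mul_le_mul_of_nonneg_right (h2.trans (hR b hb)) hpos.le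
        linarith
    _ = _ := by rw [Finset.sum_const, nsmul_eq_mul, mul_assoc]

end Pool.Agent.H35S

namespace Pool.Agent.H35S

open IntermediateField Filter Topology

universe u

variable {k Ω κ : Type u} [Field k] [Field Ω] [Field κ] [Algebra k Ω] [Algebra k κ]
variable {ι : Type} [Fintype ι]

/-- Every root of a polynomial relation of the residue lifts to a conjugate. Plan: scale
`(minpoly L₀ θ).map (algebraMap L₀ Ω)` by `Place.scale`; its reduction `Q'` is nonzero, has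
coefficients in `res L₀` and kills `ev θ`; `Q'` splits with roots the residues of the conjugates
of `θ` in `O` (`Place.fact`); the minimal polynomial of `ev θ` over `res L₀` divides `Q'`.
Conjugates come from automorphisms (`Ω` is normal over `L₀`). -/
theorem Place.lift_root [IsAlgClosed Ω] (π : Place k Ω κ) {L₀ : IntermediateField k Ω}
    (hL₀ : Algebra.IsAlgebraic L₀ Ω) {θ : Ω} (hθ : θ ∈ π.O) :
    IsIntegral (π.res L₀) (π.ev θ) ∧
    ((minpoly (π.res L₀) (π.ev θ)).map (algebraMap (π.res L₀) κ)).Splits ∧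
    ∀ β : κ, Polynomial.aeval β (minpoly (π.res L₀) (π.ev θ)) = 0 →
      ∃ Γ : Ω ≃ₐ[k] Ω, (∀ x ∈ L₀, Γ x = x) ∧ Γ θ ∈ π.O ∧ π.ev (Γ θ) = β := by
  classical
  have halg : IsAlgebraic L₀ θ := hL₀.isAlgebraic θ
  have hP : (minpoly L₀ θ).map (algebraMap L₀ Ω) ≠ 0 :=
    Polynomial.map_ne_zero (minpoly.ne_zero halg.isIntegral)
  have hL : ∀ n, ((minpoly L₀ θ).map (algebraMap L₀ Ω)).coeff n ∈ L₀ := fun n => by
    rw [Polynomial.coeff_map]
    exact ((minpoly L₀ θ).coeff n).2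
  obtain ⟨c, hc, hc0, hO, hne⟩ := π.scale L₀ _ hP hL
  obtain ⟨c', hc', hf⟩ := π.fact _ hO hne
  have hl : π.evP (Polynomial.C c * (minpoly L₀ θ).map (algebraMap L₀ Ω)) ∈
      Polynomial.lifts (algebraMap (π.res L₀) κ) := by
    rw [Polynomial.lifts_iff_coeff_lifts]
    intro n
    rw [π.coeff_evP, Polynomial.coeff_C_mul]
    exact ⟨⟨_, π.ev_mem_res (mul_mem hc (hL n))⟩, rfl⟩
  obtain ⟨Q, hQ⟩ := (Polynomial.mem_lifts _).1 hl
  have hQ0 : Q ≠ 0 := fun e => hne (by rw [← hQ, e, Polynomial.map_zero])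
  have hr : Polynomial.aeval (π.ev θ) Q = 0 := by
    rw [← Polynomial.eval_map_algebraMap, hQ, ← π.ev_eval hO hθ, Polynomial.eval_mul,
      Polynomial.eval_map_algebraMap, minpoly.aeval, mul_zero, π.ev_zero]
  have hd := minpoly.dvd _ _ hr
  refine ⟨IsAlgebraic.isIntegral ⟨Q, hQ0, hr⟩, ?_, fun β hβ => ?_⟩
  · refine Polynomial.Splits.of_dvd ?_ (hQ ▸ hne) (Polynomial.map_dvd _ hd)
    rw [hQ, hf]
    refine (Polynomial.Splits.C _).mul (Polynomial.Splits.multisetProd fun f hf => ?_)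
    obtain ⟨b, -, rfl⟩ := Multiset.mem_map.1 hf
    exact Polynomial.Splits.X_sub_C b
  · have h1 : Polynomial.aeval β Q = 0 := Polynomial.aeval_eq_zero_of_dvd_aeval_eq_zero hd hβ
    rw [← Polynomial.eval_map_algebraMap, hQ, hf, Polynomial.eval_mul, Polynomial.eval_C,
      mul_eq_zero, Polynomial.eval_multiset_prod, Multiset.prod_eq_zero_iff] at h1
    obtain ⟨f, hf', e⟩ := Multiset.mem_map.1 (h1.resolve_left hc')
    obtain ⟨b, hb, rfl⟩ := Multiset.mem_map.1 hf'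
    obtain ⟨t, ht, rfl⟩ := Multiset.mem_map.1 hb
    obtain ⟨ht1, ht2⟩ := Multiset.mem_filter.1 ht
    have h2 : Polynomial.aeval t (minpoly L₀ θ) = 0 := by
      have := (Polynomial.mem_roots'.1 ht1).2
      rw [Polynomial.IsRoot.def, Polynomial.eval_mul, Polynomial.eval_C, mul_eq_zero,
        Polynomial.eval_map_algebraMap] at this
      exact this.resolve_left hc0
    have : IsAlgClosure L₀ Ω := ⟨inferInstance, hL₀⟩
    obtain ⟨σ, hσ⟩ := minpoly.exists_algEquiv_of_root' halg h2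
    refine ⟨σ.restrictScalars k, fun x hx => σ.commutes ⟨x, hx⟩, ?_, ?_⟩
    · exact (show σ θ ∈ π.O from hσ ▸ ht2)
    · show π.ev (σ θ) = β
      rw [hσ]
      rw [Polynomial.eval_sub, Polynomial.eval_X, Polynomial.eval_C, sub_eq_zero] at e
      exact e.symm

/-- Upper bound for the number of embeddings over a subfield. -/
theorem homs_le {R₀ R : IntermediateField k κ} (h : R₀ ≤ R) (hfin : relfinrank R₀ R ≠ 0) :
    {f : R →ₐ[k] κ | ∀ y : R, (y : κ) ∈ R₀ → f y = y}.Finite ∧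
    {f : R →ₐ[k] κ | ∀ y : R, (y : κ) ∈ R₀ → f y = y}.ncard ≤ relfinrank R₀ R := by
  rw [relfinrank_eq_finrank_of_le h] at hfin ⊢
  have : FiniteDimensional R₀ (extendScalars h) :=
    Module.finite_of_finrank_pos (Nat.pos_of_ne_zero hfin)
  let ψ : {f : R →ₐ[k] κ | ∀ y : R, (y : κ) ∈ R₀ → f y = y} → (extendScalars h →ₐ[R₀] κ) :=
    fun f =>
      { toFun := fun y => f.1 ⟨y.1, y.2⟩
        map_one' := map_one f.1
        map_mul' := fun x y => map_mul f.1 ⟨x.1, x.2⟩ ⟨y.1, y.2⟩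
        map_zero' := map_zero f.1
        map_add' := fun x y => map_add f.1 ⟨x.1, x.2⟩ ⟨y.1, y.2⟩
        commutes' := fun r => f.2 ⟨r.1, h r.2⟩ r.2 }
  have inj : Function.Injective ψ := fun f g e =>
    Subtype.ext (AlgHom.ext fun y => DFunLike.congr_fun e ⟨y.1, y.2⟩)
  exact ⟨Finite.of_injective ψ inj,
    (Nat.card_le_card_of_injective ψ inj).trans (card_algHom_le_finrank _ _ _)⟩

end Pool.Agent.H35S

namespace Pool.Agent.H35S

open IntermediateField Filter Topology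

universe u

variable {k Ω κ : Type u} [Field k] [Field Ω] [Field κ] [Algebra k Ω] [Algebra k κ]
variable {ι : Type} [Fintype ι]

theorem Lif_root {R₀ R : IntermediateField k κ} (h : R₀ ≤ R) (f : R →ₐ[k] κ)
    (hf : ∀ y : R, (y : κ) ∈ R₀ → f y = y) (y : R) (p : Polynomial R₀)
    (hp : Polynomial.aeval (y : κ) p = 0) : Polynomial.aeval (f y) p = 0 := by
  let i : R₀ →+* R := (inclusion h).toRingHom
  have h1 : R.val.toRingHom.comp i = algebraMap R₀ κ := RingHom.ext fun _ => rfl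
  have h2 : f.toRingHom.comp i = algebraMap R₀ κ := RingHom.ext fun c => hf (i c) c.2
  have hz : p.eval₂ i y = 0 := by
    apply Subtype.ext
    have := Polynomial.hom_eval₂ p i R.val.toRingHom y
    rw [h1] at this
    exact this.trans hp
  have := Polynomial.hom_eval₂ p i f.toRingHom y
  rw [h2, hz, map_zero] at this
  exact this.symm

/-- Residue embeddings lift to conjugations. Plan: `V = L ∩ O` is a `k`-subspace; for `Γ` fixing
`L₀` the set `V_Γ = {x ∈ V | Γ x ∈ O, ev (Γ x) = f (ev x)}` is a subspace depending only on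
`Γ|_L` (finitely many possibilities, as `L/L₀` is finite), and the `V_Γ` cover `V` by `lift_root`;
a vector space over an infinite field is not a finite union of proper subspaces
(`Subspace.biUnion_ne_univ_of_top_notMem` / `Submodule.iUnion_ssubset_of_forall_ne_top_of_card_lt`). -/
theorem Place.lift [CharZero k] [IsAlgClosed Ω] (π : Place k Ω κ) {L₀ L : IntermediateField k Ω}
    (hL₀ : Algebra.IsAlgebraic L₀ Ω) (h : L₀ ≤ L) (hfin : relfinrank L₀ L ≠ 0)
    (f : π.res L →ₐ[k] κ) (hf : ∀ y : π.res L, (y : κ) ∈ π.res L₀ → f y = y) :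
    ∃ Γ : Ω ≃ₐ[k] Ω, (∀ x ∈ L₀, Γ x = x) ∧
      ∀ (x : Ω) (hx : x ∈ L), x ∈ π.O → Γ x ∈ π.O ∧ π.ev (Γ x) = f ⟨π.ev x, π.ev_mem_res hx⟩ := by
  classical
  have : Infinite k := Infinite.of_injective _ (Nat.cast_injective (R := k))
  let V : Submodule k L :=
    { carrier := {x | (x : Ω) ∈ π.O}
      add_mem' := fun hx hy => π.O.add_mem _ _ hx hy
      zero_mem' := π.O.zero_mem
      smul_mem' := fun c _ hx => π.smul_mem c hx }
  let W : (L →ₐ[k] Ω) → Submodule k V := fun g =>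
    { carrier := {x | g x ∈ π.O ∧ π.ev (g x) = f ⟨π.ev x, π.ev_mem_res x.1.2⟩}
      add_mem' := by
        rintro x y ⟨hx, hx'⟩ ⟨hy, hy'⟩
        have e : g ((x + y : V) : L) = g x + g y := by rw [Submodule.coe_add, map_add]
        refine ⟨e ▸ π.O.add_mem _ _ hx hy, ?_⟩
        rw [e, π.ev_add _ _ hx hy, hx', hy', ← map_add]
        congr 1
        exact Subtype.ext (π.ev_add _ _ x.2 y.2).symm
      zero_mem' := by
        have e : g ((0 : V) : L) = 0 := map_zero g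
        refine ⟨e ▸ π.O.zero_mem, ?_⟩
        rw [e, π.ev_zero, ← map_zero f]
        congr 1
        exact Subtype.ext π.ev_zero.symm
      smul_mem' := by
        rintro c x ⟨hx, hx'⟩
        have e : g ((c • x : V) : L) = c • g x := by rw [Submodule.coe_smul, map_smul]
        refine ⟨e ▸ π.smul_mem c hx, ?_⟩
        rw [e, π.ev_smul c hx, hx', ← map_smul]
        congr 1
        exact Subtype.ext (π.ev_smul c x.2).symm }
  have hT := (homs_le (k := k) (κ := Ω) h hfin).1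
  let T : Set (L →ₐ[k] Ω) :=
    {g | ∃ Γ : Ω ≃ₐ[k] Ω, (∀ x ∈ L₀, Γ x = x) ∧ ∀ x : L, g x = Γ x}
  have hTfin : T.Finite := hT.subset (by
    rintro g ⟨Γ, hΓ, hg⟩ y hy
    rw [hg, hΓ _ hy])
  have hcov : ⋃ p ∈ hTfin.toFinset.image W, (p : Set V) = Set.univ := by
    refine Set.eq_univ_of_forall fun x => ?_
    obtain ⟨-, -, hl⟩ := π.lift_root hL₀ (θ := ((x : L) : Ω)) x.2
    obtain ⟨Γ, hΓ, h1, h2⟩ := hl (f ⟨π.ev x, π.ev_mem_res x.1.2⟩)
      (Lif_root (π.res_mono h) f hf _ _ (minpoly.aeval _ _))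
    refine Set.mem_iUnion₂.2 ⟨W ((Γ : Ω →ₐ[k] Ω).comp L.val), ?_, h1, h2⟩
    exact Finset.mem_image_of_mem _ (hTfin.mem_toFinset.2 ⟨Γ, hΓ, fun _ => rfl⟩)
  have htop : (⊤ : Submodule k V) ∈ hTfin.toFinset.image W := by
    by_contra hn
    exact Subspace.biUnion_ne_univ_of_top_notMem hn hcov
  obtain ⟨g, hg, hW⟩ := Finset.mem_image.1 htop
  obtain ⟨Γ, hΓ, hgΓ⟩ := hTfin.mem_toFinset.1 hg
  refine ⟨Γ, hΓ, fun x hx hO => ?_⟩
  have hm : (⟨⟨x, hx⟩, hO⟩ : V) ∈ W g := hW ▸ Submodule.mem_top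
  obtain ⟨h1, h2⟩ := hm
  rw [hgΓ] at h1 h2
  exact ⟨h1, h2⟩

/-- There are as many residue embeddings as the residue degree: primitive element (`res_fin`,
characteristic zero), whose minimal polynomial splits in `κ` by `lift_root`
(`IntermediateField.card_algHom_adjoin_integral` / `AlgHom.card_of_splits`). -/
theorem Place.homs [CharZero k] [IsAlgClosed Ω] (π : Place k Ω κ)
    {L₀ L : IntermediateField k Ω} (hL₀ : Algebra.IsAlgebraic L₀ Ω) (h : L₀ ≤ L)
    (hfin : relfinrank L₀ L ≠ 0) :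
    ∃ T : Finset (π.res L →ₐ[k] κ), T.card = relfinrank (π.res L₀) (π.res L) ∧
      ∀ f ∈ T, ∀ y : π.res L, (y : κ) ∈ π.res L₀ → f y = y := by
  classical
  have hle := π.res_mono h
  have hfin' := π.res_fin h hfin
  rw [relfinrank_eq_finrank_of_le hle] at hfin' ⊢
  have : FiniteDimensional (π.res L₀) (extendScalars hle) :=
    Module.finite_of_finrank_pos (Nat.pos_of_ne_zero hfin')
  have : CharZero (π.res L₀) :=
    charZero_of_injective_algebraMap (algebraMap k (π.res L₀)).injective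
  have hcard := AlgHom.card_of_splits (π.res L₀) (extendScalars hle) κ (fun x => by
    obtain ⟨θ, -, hθ, he⟩ := (π.mem_res L x).1 x.2
    rw [IntermediateField.minpoly_eq, ← he]
    exact (π.lift_root hL₀ hθ).2.1)
  let e : π.res L →ₐ[k] extendScalars hle :=
    { toFun := fun y => ⟨y.1, y.2⟩
      map_one' := rfl
      map_mul' := fun _ _ => rfl
      map_zero' := rfl
      map_add' := fun _ _ => rfl
      commutes' := fun _ => rfl }
  let F : (extendScalars hle →ₐ[π.res L₀] κ) → (π.res L →ₐ[k] κ) :=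
    fun g => (g.restrictScalars k).comp e
  have hF : Function.Injective F := fun g g' hg =>
    AlgHom.ext fun y => DFunLike.congr_fun hg ⟨y.1, y.2⟩
  refine ⟨Finset.univ.image F, ?_, ?_⟩
  · rw [Finset.card_image_of_injective _ hF, Finset.card_univ, hcard]
  · intro f hf y hy
    obtain ⟨g, -, rfl⟩ := Finset.mem_image.1 hf
    exact g.commutes ⟨y, hy⟩

end Pool.Agent.H35S

namespace Pool.Agent.H35S

open IntermediateField Filter Topology

universe u

variable {k Ω κ : Type u} [Field k] [Field Ω] [Field κ] [Algebra k Ω] [Algebra k κ]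
variable {ι : Type} [Fintype ι]

/-! Towers: heights are given by degrees. -/

variable {S : Sys k Ω ι} {π : Place k Ω κ} {η : κ → ℝ}

theorem Sys.R_anti (S : Sys k Ω ι) (π : Place k Ω κ) {i j : ℤ} (h : i ≤ j) :
    S.R π j ≤ S.R π i := π.res_mono (S.Kn_anti h)

theorem Sys.fr_pull (S : Sys k Ω ι) (π : Place k Ω κ) (η : κ → ℝ) (p i : ℤ) :
    rho (π.pull (S.Φ ^ p)) η (S.fr i) = rho π η (S.fr (p + i)) := by
  rw [rho_pull]
  congr 1
  funext l
  exact (S.fr_add p i l).symm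

theorem Sys.R_pull (S : Sys k Ω ι) (π : Place k Ω κ) (p i : ℤ) :
    S.R (π.pull (S.Φ ^ p)) i = S.R π (p + i) := by
  unfold Sys.R
  rw [Place.res_pull, S.Kn_map]

theorem Sys.El_pull (S : Sys k Ω ι) (π : Place k Ω κ) (p i : ℤ) :
    S.El (π.pull (S.Φ ^ p)) i = S.El π (p + i) := by
  unfold Sys.El
  rw [Place.pull_pull, ← zpow_add]

theorem Tow.pull (h : Tow S π η) (p : ℤ) : Tow S (π.pull (S.Φ ^ p)) η where
  ht := h.ht
  ne_top := π.pull_ne_top _ h.ne_top
  mem := fun i l => by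
    rw [Place.mem_pull, ← S.fr_add]
    exact h.mem _ _
  pos := fun i => by
    rw [S.fr_pull]
    exact h.pos _
  inj := fun i j hij => by
    rw [S.El_pull, S.El_pull] at hij
    have := h.inj hij
    omega

theorem TowA_exists (h : Tow S π η) (i : ℤ) :
    ∃ l, 0 < η (π.ev (S.fr i l)) ∧ Transcendental k (π.ev (S.fr i l)) ∧
      relfinrank k⟮π.ev (S.fr i l)⟯ (S.R π i) ≠ 0 := by
  obtain ⟨l, hl, ht⟩ := exists_transcendental_of_rho_pos h.ht π _ (h.pos i)
  exact ⟨l, hl, ht, Place.res_deg S.trdeg π h.ne_top (S.big_Kn i) (S.fr_mem i l) ht⟩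

theorem Tow.one_le_d (h : Tow S π η) (i : ℤ) : 1 ≤ S.d π i := by
  obtain ⟨l, -, -, hl⟩ := TowA_exists h i
  unfold Sys.d
  exact le_trans (Nat.one_le_iff_ne_zero.2 hl)
    (Finset.single_le_sum (f := fun l => relfinrank k⟮π.ev (S.fr i l)⟯ (S.R π i))
      (fun _ _ => Nat.zero_le _) (Finset.mem_univ l))

theorem Tow.relfinrank_ne_zero (h : Tow S π η) (i : ℤ) (M : ℕ) :
    relfinrank (S.R π (i + M)) (S.R π i) ≠ 0 := by
  have _ := h
  apply π.res_fin (S.Kn_anti (by omega))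
  rw [S.relfinrank_Kn]
  exact pow_ne_zero _ (Nat.one_le_iff_ne_zero.1 S.one_le_D)

/-- Plan: take `x₀ = ev (fr i l₀)` with `η x₀ > 0`, `n₀ = [R i : k(x₀)] ≠ 0` (`res_deg`); by
`curve_deg`, `n₀ ρ_i = d_i η x₀` and `n₀ ρ_{i+M} = t d_{i+M} η x₀` (tower law). -/
theorem Tow.ratio (h : Tow S π η) (i : ℤ) (M : ℕ) :
    rho π η (S.fr (i + M)) * S.d π i =
      relfinrank (S.R π (i + M)) (S.R π i) * S.d π (i + M) * rho π η (S.fr i) := by
  obtain ⟨l₀, -, ht, hn⟩ := TowA_exists h i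
  have hx : π.ev (S.fr i l₀) ∈ S.R π i := π.ev_mem_res (S.fr_mem i l₀)
  have hle : S.R π (i + M) ≤ S.R π i := S.R_anti π (by omega)
  have h1 : (relfinrank k⟮π.ev (S.fr i l₀)⟯ (S.R π i) : ℝ) * rho π η (S.fr i) =
      S.d π i * η (π.ev (S.fr i l₀)) := by
    unfold rho Sys.d
    rw [Finset.mul_sum, Nat.cast_sum, Finset.sum_mul]
    refine Finset.sum_congr rfl fun l _ => ?_
    exact h.ht.curve_deg _ hx (π.ev_mem_res (S.fr_mem i l)) ht hn
  have h2 : (relfinrank k⟮π.ev (S.fr i l₀)⟯ (S.R π i) : ℝ) * rho π η (S.fr (i + M)) =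
      relfinrank (S.R π (i + M)) (S.R π i) * S.d π (i + M) * η (π.ev (S.fr i l₀)) := by
    unfold rho Sys.d
    rw [Finset.mul_sum, Nat.cast_sum, Finset.mul_sum, Finset.sum_mul]
    refine Finset.sum_congr rfl fun l _ => ?_
    have hz : π.ev (S.fr (i + M) l) ∈ S.R π (i + M) := π.ev_mem_res (S.fr_mem _ l)
    rw [h.ht.curve_deg _ hx (hle hz) ht hn]
    have hle' : k⟮π.ev (S.fr (i + M) l)⟯ ≤ S.R π (i + M) := adjoin_simple_le_iff.2 hz
    rw [← relfinrank_mul_relfinrank hle' hle]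
    push_cast
    ring
  have hn' : (relfinrank k⟮π.ev (S.fr i l₀)⟯ (S.R π i) : ℝ) ≠ 0 := Nat.cast_ne_zero.2 hn
  apply mul_left_cancel₀ hn'
  linear_combination (S.d π i : ℝ) * h2 -
    (relfinrank (S.R π (i + M)) (S.R π i) : ℝ) * S.d π (i + M) * h1

theorem Tow.finite_mem (h : Tow S π η) {𝓔 : Set (Set Ω)} (h𝓔 : 𝓔.Finite) :
    {i : ℤ | S.El π i ∈ 𝓔}.Finite :=
  h𝓔.preimage h.inj.injOn

/-- A function has a pole along finitely many curves of the tower (`fin_lab` with `c = a l`). -/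
theorem Tow.finite_pole [CharZero k] (h : Tow S π η) (T : Ω) :
    {i : ℤ | (S.Φ ^ i) T ∉ π.O}.Finite := by
  have hfin := Set.finite_iUnion fun l : ι => fin_lab S.trdeg S.big (S.a l) T
  refine (h.finite_mem hfin).subset fun i hi => ?_
  obtain ⟨l, -, ht, -⟩ := TowA_exists h i
  refine Set.mem_iUnion.2 ⟨l, (π.pull (S.Φ ^ i)).O, ?_, ?_, rfl⟩
  · rw [Place.tr_iff, Place.mem_pull, Place.ev_pull]
    exact ⟨h.mem i l, ht⟩
  · rw [Place.mem_pull]
    exact hi

end Pool.Agent.H35S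

namespace Pool.Agent.H35S

open IntermediateField Filter Topology

universe u

variable {k Ω κ : Type u} [Field k] [Field Ω] [Field κ] [Algebra k Ω] [Algebra k κ]
variable {ι : Type} [Fintype ι]

variable {S : Sys k Ω ι} {π : Place k Ω κ} {η : κ → ℝ}

/-- Siblings along the tower. Plan: `Place.homs` and `Place.lift` for `L₀ = Kn M`, `L = K`;
different embeddings give different tuples (`eq_on_K`, `mem_res`); heights are preserved by
`IsHt.hom` (a residue of `fr M` is transcendental; `isAlgebraic_ev`). -/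
theorem Tow.sib [CharZero k] [IsAlgClosed Ω] (h : Tow S π η) (M : ℕ) :
    ∃ T : Finset (ι → Ω), (T : Set (ι → Ω)) ⊆ conj (S.Kn M) S.a ∧
      T.card = relfinrank (S.R π M) (S.R π 0) ∧ ∀ b ∈ T, rho π η b = rho π η S.a := by
  classical
  have hle : S.Kn M ≤ S.K := by
    rw [← S.Kn_zero]; exact S.Kn_anti (by omega)
  have hfin : relfinrank (S.Kn M) S.K ≠ 0 := (S.big_Kn M).relfinrank_ne_zero hle S.big.1
  obtain ⟨T, hT, hT'⟩ := π.homs (S.big_Kn M).2 hle hfin
  have hch : ∀ f ∈ T, ∃ Γ : Ω ≃ₐ[k] Ω, (∀ x ∈ S.Kn M, Γ x = x) ∧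
      ∀ (x : Ω) (hx : x ∈ S.K), x ∈ π.O →
        Γ x ∈ π.O ∧ π.ev (Γ x) = f ⟨π.ev x, π.ev_mem_res hx⟩ :=
    fun f hf => π.lift (S.big_Kn M).2 hle hfin f (hT' f hf)
  choose! G hG1 hG2 using hch
  have ha : ∀ l, S.a l ∈ π.O := fun l => by
    have := h.mem 0 l
    rwa [S.fr_zero] at this
  refine ⟨T.image fun f l => G f (S.a l), ?_, ?_, ?_⟩
  · intro b hb
    obtain ⟨f, hf, rfl⟩ := Finset.mem_image.1 (Finset.mem_coe.1 hb)
    exact ⟨G f, hG1 f hf, rfl⟩
  · rw [Finset.card_image_of_injOn, hT, Sys.R, Sys.R, S.Kn_zero]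
    intro f hf g hg hfg
    ext ⟨y, hy⟩
    obtain ⟨x, hx, hxO, rfl⟩ := (π.mem_res _ _).1 hy
    rw [← (hG2 f hf x hx hxO).2, ← (hG2 g hg x hx hxO).2,
      S.eq_on_K (fun l => congrFun hfg l) hx]
  · intro b hb
    obtain ⟨f, hf, rfl⟩ := Finset.mem_image.1 hb
    obtain ⟨l₀, -, hl₀⟩ := exists_transcendental_of_rho_pos h.ht π _ (h.pos M)
    refine Finset.sum_congr rfl fun l _ => ?_
    rw [(hG2 f hf _ (S.a_mem l) (ha l)).2]
    exact h.ht.hom (π.res S.K) f ⟨π.ev (S.fr M l₀), π.ev_mem_res (hle (S.fr_mem M l₀))⟩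
      ⟨π.ev (S.a l), π.ev_mem_res (S.a_mem l)⟩ hl₀
      (hT' f hf _ (π.ev_mem_res (S.fr_mem M l₀))) (π.isAlgebraic_ev S.trdeg h.ne_top hl₀ _)

theorem Low_pick (d : ℤ → ℕ) {B : Set ℤ} (hB : B.Finite) (c : ℤ) (M : ℕ) :
    ∃ p, p + M ≤ c ∧ p ∉ B ∧ d (p + M) ≤ d p := by
  obtain ⟨b, hb⟩ := hB.bddBelow
  by_contra hc
  push Not at hc
  have key : ∀ j : ℕ, d (min c (b - 1) - j * M) + j ≤ d (min c (b - 1)) := by
    intro j
    induction j with
    | zero => simp
    | succ j ih =>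
      have h0 : (0 : ℤ) ≤ j * M := by positivity
      have e : min c (b - 1) - ((j + 1 : ℕ) : ℤ) * M + M = min c (b - 1) - j * M := by
        push_cast; ring
      have h1 := hc (min c (b - 1) - ((j + 1 : ℕ) : ℤ) * M) (by rw [e]; omega)
        (fun hm => by have := hb hm; omega)
      rw [e] at h1
      omega
  have := key (d (min c (b - 1)) + 1)
  omega

theorem Low_grow {ρ : ℤ → ℝ} {Sg : ℝ} (hS : 0 < Sg) {i₁ : ℤ}
    (hfast : ∀ i ≤ i₁, Sg * ρ i ≤ ρ (i + 1)) (p : ℤ) (M : ℕ) (hp : p + M ≤ i₁ + 1) :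
    Sg ^ M * ρ p ≤ ρ (p + M) := by
  induction M with
  | zero => simp
  | succ M ih =>
    have h1 := ih (by omega)
    have h2 := hfast (p + M) (by omega)
    have e : p + ((M + 1 : ℕ) : ℤ) = p + M + 1 := by push_cast; ring
    rw [e, pow_succ', mul_assoc]
    exact (mul_le_mul_of_nonneg_left h1 hS.le).trans h2

/-- Many close siblings. Plan: let `𝓔` be the union over `b ∈ conj (Kn M) a` (finite) of the
exceptional sets of `three` for `(a, b, fr M)`. Choose `p` with `p + M ≤ i₁ + 1`, `El p ∉ 𝓔` and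
`d (p + M) ≤ d p` (along `p₀ - jM` the naturals `d` cannot decrease forever; for `M = 0` trivial).
Then `Sg^M ρ_p ≤ ρ_{p+M}`, so `Sg^M ≤ t` by `Tow.ratio`; apply `Tow.sib` to the pulled-back tower:
for `b ∈ T`, `prT a b * ρ_{p+M} ≤ 8 δ_M ρ_p` (`prT_sib`). -/
theorem Tow.low [CharZero k] [IsAlgClosed Ω] (h : Tow S π η) {Sg : ℝ} (hS : 0 < Sg) (i₁ : ℤ)
    (hfast : ∀ i ≤ i₁, Sg * rho π η (S.fr i) ≤ rho π η (S.fr (i + 1))) (M : ℕ) :
    Sg ^ M ≤ ({b | b ∈ conj (S.Kn M) S.a ∧ prT S.K S.a b ≤ 8 * S.δ M / Sg ^ M}.ncard : ℝ) := by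
  classical
  choose Ex hE1 hE2 hE3 using fun b : ι → Ω => three.{u} S.trdeg S.big S.a b (S.fr M)
  have hfin : (⋃ b ∈ conj (S.Kn M) S.a, Ex b).Finite :=
    (S.conj_finite M).biUnion fun b _ => hE1 b
  obtain ⟨p, hp1, hp2, hp3⟩ := Low_pick (S.d π) (h.finite_mem hfin) (i₁ + 1) M
  have hg := Low_grow (ρ := fun i => rho π η (S.fr i)) hS hfast p M hp1
  have hr := h.ratio p M
  have hρ := h.pos p
  have hd : (1 : ℝ) ≤ S.d π p := by exact_mod_cast h.one_le_d p
  have hp4 : (S.d π (p + M) : ℝ) ≤ S.d π p := by exact_mod_cast hp3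
  have hSM : 0 < Sg ^ M := pow_pos hS M
  have ht : Sg ^ M ≤ (relfinrank (S.R π (p + M)) (S.R π p) : ℝ) := by
    have a1 : Sg ^ M * rho π η (S.fr p) * S.d π p ≤
        relfinrank (S.R π (p + M)) (S.R π p) * S.d π p * rho π η (S.fr p) := by
      calc _ ≤ rho π η (S.fr (p + M)) * S.d π p := by gcongr
        _ = _ := hr
        _ ≤ _ := by gcongr
    have a2 : 0 < rho π η (S.fr p) * S.d π p := by positivity
    refine le_of_mul_le_mul_right ?_ a2
    linarith
  obtain ⟨T, hT1, hT2, hT3⟩ := (h.pull p).sib M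
  rw [S.R_pull, S.R_pull, add_zero] at hT2
  refine ht.trans ?_
  rw [← hT2, ← Set.ncard_coe_finset]
  refine Nat.cast_le.2 (Set.ncard_le_ncard (fun b hb => ⟨hT1 hb, ?_⟩)
    ((S.conj_finite M).subset fun b hb => hb.1))
  have hb1 := hT1 hb
  have h3 := hE3 b κ (π.pull (S.Φ ^ p)) η h.ht fun hm =>
    hp2 (Set.mem_biUnion hb1 hm)
  have e0 : rho (π.pull (S.Φ ^ p)) η S.a = rho π η (S.fr p) := by
    have := S.fr_pull π η p 0
    rwa [S.fr_zero, add_zero] at this
  rw [hT3 b hb, e0, S.fr_pull] at h3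
  obtain ⟨Γ, hΓ, rfl⟩ := hb1
  rw [S.prT_sib M Γ hΓ, ← Sys.δ] at h3
  rw [le_div_iff₀ hSM]
  have hn := prT_nonneg S.K S.a fun l => Γ (S.a l)
  have a1 := mul_le_mul_of_nonneg_left hg hn
  refine le_of_mul_le_mul_right ?_ hρ
  linarith

end Pool.Agent.H35S

namespace Pool.Agent.H35S

open IntermediateField Filter Topology

universe u

variable {k Ω κ : Type u} [Field k] [Field Ω] [Field κ] [Algebra k Ω] [Algebra k κ]
variable {ι : Type} [Fintype ι]

variable {S : Sys k Ω ι} {π : Place k Ω κ} {η : κ → ℝ}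

theorem Unr0_prim [CharZero k] {L K : IntermediateField k Ω} (h : L ≤ K)
    (hfin : relfinrank L K ≠ 0) : ∃ θ : Ω, ∀ x, x ∈ K ↔ x ∈ L⟮θ⟯ := by
  have : CharZero L := algebraRat.charZero L
  rw [relfinrank_eq_finrank_of_le h] at hfin
  have : FiniteDimensional L (extendScalars h) := Module.finite_of_finrank_pos (by omega)
  obtain ⟨α, hα⟩ := Field.exists_primitive_element L (extendScalars h)
  have h1 : L⟮(α : Ω)⟯ = extendScalars h := by
    simpa only [lift_adjoin_simple, IntermediateField.lift_top] using congrArg lift hα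
  exact ⟨α, fun x => by rw [h1, mem_extendScalars]⟩

theorem Unr0_agree {L : IntermediateField k Ω} {θ : Ω} {Ψ₁ Ψ₂ : Ω ≃ₐ[k] Ω}
    (hL : ∀ x ∈ L, Ψ₁ x = Ψ₂ x) (hθ : Ψ₁ θ = Ψ₂ θ) {x : Ω} (hx : x ∈ L⟮θ⟯) : Ψ₁ x = Ψ₂ x := by
  induction hx using adjoin_induction with
  | mem x hx => rw [Set.mem_singleton_iff.1 hx, hθ]
  | algebraMap x => exact hL x x.2
  | add x y _ _ hx hy => rw [map_add, map_add, hx, hy]
  | inv x _ hx => rw [map_inv₀, map_inv₀, hx]
  | mul x y _ _ hx hy => rw [map_mul, map_mul, hx, hy]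

theorem Unr0_wd (π : Place k Ω κ) {K : IntermediateField k Ω} (Γ : Ω ≃ₐ[k] Ω)
    (h : ∀ x ∈ K, Γ x ∈ π.O ↔ x ∈ π.O) {x y : Ω} (hx : x ∈ K) (hy : y ∈ K) (hxO : x ∈ π.O)
    (hyO : y ∈ π.O) (hxy : π.ev x = π.ev y) : π.ev (Γ x) = π.ev (Γ y) := by
  rw [← sub_eq_zero, ← π.ev_sub hxO hyO, π.ev_eq_zero_iff (sub_mem hxO hyO)] at hxy
  rw [← sub_eq_zero, ← π.ev_sub ((h x hx).2 hxO) ((h y hy).2 hyO), ← map_sub]
  rcases hxy with h0 | h0
  · rw [h0, map_zero, π.ev_zero]
  · refine π.ev_max _ ?_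
    rw [← map_inv₀, h _ (inv_mem (sub_mem hx hy))]
    exact h0

/-- Outside finitely many poles the extension `K / ΦK` is unramified. Plan: `θ` a primitive
element of `K` over `Kn 1`, `Q` its minimal polynomial in `Ω[X]`, `Q = (X - θ) Q₁`,
`Q₁(θ) ≠ 0`; `𝓣` consists of `θ`, the coefficients of `Q₁` and `Q₁(θ)⁻¹`. If `Ψ₁ θ ≠ Ψ₂ θ` then
`(Ψ₁ Q₁)(Ψ₂ θ) = 0`, and reducing gives `ev (Ψ₁ (Q₁(θ))) = 0` (`Place.ev_eval`), although it is a
unit. Automorphisms agreeing on `Kn 1` and `θ` agree on `K`. -/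
theorem Sys.unram [CharZero k] (S : Sys k Ω ι) :
    ∃ (θ : Ω) (𝓣 : Set Ω), 𝓣.Finite ∧ θ ∈ 𝓣 ∧ 𝓣 ⊆ S.K ∧
      ∀ (κ : Type u) [Field κ] [Algebra k κ] (π : Place k Ω κ) (Ψ₁ Ψ₂ : Ω ≃ₐ[k] Ω),
        (∀ x ∈ S.Kn 1, Ψ₁ x = Ψ₂ x) → (∀ T ∈ 𝓣, Ψ₁ T ∈ π.O ∧ Ψ₂ T ∈ π.O) →
        π.ev (Ψ₁ θ) = π.ev (Ψ₂ θ) → ∀ x ∈ S.K, Ψ₁ x = Ψ₂ x := by
  classical
  have hle : S.Kn 1 ≤ S.K := by
    rw [← S.Kn_zero]; exact S.Kn_anti zero_le_one
  obtain ⟨θ, hθ⟩ := Unr0_prim hle ((S.big_Kn 1).relfinrank_ne_zero hle S.big.1)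
  have : CharZero (S.Kn 1) := algebraRat.charZero _
  have := (S.big_Kn 1).2
  have hint : IsIntegral (S.Kn 1) θ := Algebra.IsIntegral.isIntegral θ
  set Q := minpolyDiv (S.Kn 1) θ with hQ
  have hθK : θ ∈ S.K := (hθ θ).2 (mem_adjoin_simple_self _ θ)
  have hQK : ∀ n, Q.coeff n ∈ S.K := fun n =>
    (hθ _).2 (algebra_adjoin_le_adjoin _ _ (coeff_minpolyDiv_mem_adjoin θ n))
  have hev : Q.eval θ ∈ S.K := by
    rw [Polynomial.eval_eq_sum_range]
    exact sum_mem fun n _ => mul_mem (hQK n) (_root_.pow_mem hθK n)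
  have hne : Q.eval θ ≠ 0 := by
    rw [hQ, eval_minpolyDiv_self]
    exact (minpoly.irreducible hint).separable.aeval_derivative_ne_zero (minpoly.aeval _ _)
  refine ⟨θ, insert θ (insert (Q.eval θ)⁻¹ (Q.coeffs : Set Ω)),
    ((Finset.finite_toSet _).insert _).insert _, Set.mem_insert _ _, ?_, ?_⟩
  · rintro x (rfl | rfl | hx)
    · exact hθK
    · exact inv_mem hev
    · obtain ⟨n, -, rfl⟩ := Polynomial.mem_coeffs_iff.1 hx
      exact hQK n
  intro κ _ _ π Ψ₁ Ψ₂ hL hT hres x hx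
  refine Unr0_agree hL ?_ ((hθ x).1 hx)
  by_contra hΨ
  have hc : ∀ n, (Q.map (Ψ₁ : Ω →+* Ω)).coeff n ∈ π.O := by
    intro n
    rw [Polynomial.coeff_map]
    by_cases h0 : Q.coeff n = 0
    · rw [h0, map_zero]; exact zero_mem _
    · exact (hT _ (Or.inr (Or.inr (Polynomial.coeff_mem_coeffs h0)))).1
  have h1 : (Q.map (Ψ₁ : Ω →+* Ω)).eval (Ψ₂ θ) = 0 := by
    have e1 : (Ψ₁ : Ω →+* Ω).comp (algebraMap (S.Kn 1) Ω) =
        (Ψ₂ : Ω →+* Ω).comp (algebraMap (S.Kn 1) Ω) := RingHom.ext fun y => hL y y.2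
    rw [Polynomial.eval_map, hQ, eval₂_minpolyDiv_of_eval₂_eq_zero]
    · exact if_neg hΨ
    rw [e1, ← Polynomial.eval₂_map]
    refine (Polynomial.eval₂_hom (Ψ₂ : Ω →+* Ω) θ).trans ?_
    rw [Polynomial.eval_map_algebraMap, minpoly.aeval, map_zero]
  have h2 : (Q.map (Ψ₁ : Ω →+* Ω)).eval (Ψ₁ θ) = Ψ₁ (Q.eval θ) := by
    rw [Polynomial.eval_map]; exact Polynomial.eval₂_hom (Ψ₁ : Ω →+* Ω) θ
  have hθO := hT θ (Set.mem_insert _ _)
  have h3 : π.ev (Ψ₁ (Q.eval θ)) = 0 := by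
    rw [← h2, π.ev_eval hc hθO.1, hres, ← π.ev_eval hc hθO.2, h1, π.ev_zero]
  rcases (π.ev_eq_zero_iff (h2 ▸ π.eval_mem hc hθO.1)).1 h3 with h4 | h4
  · exact hne ((map_eq_zero Ψ₁).1 h4)
  · rw [← map_inv₀] at h4
    exact h4 (hT _ (Or.inr (Or.inl rfl))).1

/-- A sibling with the label of the tower induces a residue embedding. -/
theorem Sys.res_hom (S : Sys k Ω ι) (π : Place k Ω κ) (Γ : Ω ≃ₐ[k] Ω)
    (h : S.lab (π.pull Γ).O = S.lab π.O) :
    ∃ f : π.res S.K →ₐ[k] κ, ∀ (x : Ω) (hx : x ∈ S.K),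
      f ⟨π.ev x, π.ev_mem_res hx⟩ = π.ev (Γ x) := by
  have hO : ∀ x ∈ S.K, Γ x ∈ π.O ↔ x ∈ π.O := by
    intro x hx
    have h1 : x ∈ S.lab (π.pull Γ).O ↔ x ∈ S.lab π.O := by rw [h]
    exact ⟨fun h2 => (h1.1 ⟨hx, h2⟩).2, fun h2 => (h1.2 ⟨hx, h2⟩).2⟩
  choose g hgK hgO hg using fun y : π.res S.K => (π.mem_res S.K y).1 y.2
  have key : ∀ (y : π.res S.K) (x : Ω), x ∈ S.K → x ∈ π.O → π.ev x = y →
      π.ev (Γ (g y)) = π.ev (Γ x) := fun y x hx hxO hxy =>
    Unr0_wd π Γ hO (hgK y) hx (hgO y) hxO ((hg y).trans hxy.symm)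
  have hΓ : ∀ y, Γ (g y) ∈ π.O := fun y => (hO _ (hgK y)).2 (hgO y)
  refine ⟨{ toFun := fun y => π.ev (Γ (g y))
            map_one' := ?_
            map_mul' := fun y z => ?_
            map_zero' := ?_
            map_add' := fun y z => ?_
            commutes' := fun c => ?_ }, fun x hx => ?_⟩
  · rw [key 1 1 (one_mem _) (one_mem _) π.ev_one, map_one, π.ev_one]
  · rw [key (y * z) (g y * g z) (mul_mem (hgK y) (hgK z)) (mul_mem (hgO y) (hgO z))
      (by rw [π.ev_mul _ _ (hgO y) (hgO z), hg, hg]; rfl), map_mul, π.ev_mul _ _ (hΓ y) (hΓ z)]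
  · rw [key 0 0 (zero_mem _) (zero_mem _) π.ev_zero, map_zero, π.ev_zero]
  · rw [key (y + z) (g y + g z) (add_mem (hgK y) (hgK z)) (add_mem (hgO y) (hgO z))
      (by rw [π.ev_add _ _ (hgO y) (hgO z), hg, hg]; rfl), map_add, π.ev_add _ _ (hΓ y) (hΓ z)]
  · rw [key (algebraMap k _ c) (algebraMap k Ω c) (S.K.algebraMap_mem c) (π.alg_mem c)
      (π.ev_alg c), AlgEquiv.commutes, π.ev_alg]
  · show π.ev (Γ (g _)) = _
    by_cases hxO : x ∈ π.O
    · exact key _ x hx hxO rfl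
    · rw [key _ 0 (zero_mem _) (zero_mem _) (π.ev_zero.trans (π.ev_out x hxO).symm), map_zero,
        π.ev_zero, π.ev_out _ fun h2 => hxO ((hO x hx).1 h2)]

end Pool.Agent.H35S

namespace Pool.Agent.H35S

open IntermediateField Filter Topology

universe u

variable {k Ω κ : Type u} [Field k] [Field Ω] [Field κ] [Algebra k Ω] [Algebra k κ]
variable {ι : Type} [Fintype ι]

variable {S : Sys k Ω ι} {π : Place k Ω κ} {η : κ → ℝ}

/-- Two siblings with the label of the place and the same residue embedding agree on `K`. -/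
theorem Unr_agree (S : Sys k Ω ι) (p : Place k Ω κ) {θ : Ω} {𝓣 : Set Ω} (hθ : θ ∈ 𝓣)
    (hK : 𝓣 ⊆ S.K)
    (hu : ∀ Ψ₁ Ψ₂ : Ω ≃ₐ[k] Ω, (∀ x ∈ S.Kn 1, Ψ₁ x = Ψ₂ x) →
      (∀ T ∈ 𝓣, Ψ₁ T ∈ p.O ∧ Ψ₂ T ∈ p.O) → p.ev (Ψ₁ θ) = p.ev (Ψ₂ θ) →
      ∀ x ∈ S.K, Ψ₁ x = Ψ₂ x)
    (hp : ∀ j : ℕ, ∀ T ∈ 𝓣, (S.Φ ^ (j : ℤ)) T ∈ p.O)
    {Γ₁ Γ₂ : Ω ≃ₐ[k] Ω} (h₁ : S.lab (p.pull Γ₁).O = S.lab p.O)
    (h₂ : S.lab (p.pull Γ₂).O = S.lab p.O)
    (hev : ∀ x ∈ S.K, p.ev (Γ₁ x) = p.ev (Γ₂ x)) (i : ℕ)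
    (hi : ∀ x ∈ S.Kn i, Γ₁ x = Γ₂ x) : ∀ x ∈ S.K, Γ₁ x = Γ₂ x := by
  have key : ∀ Γ : Ω ≃ₐ[k] Ω, S.lab (p.pull Γ).O = S.lab p.O → ∀ x ∈ S.K, x ∈ p.O →
      Γ x ∈ p.O := by
    intro Γ hΓ x hx hxO
    have h1 : x ∈ S.lab p.O := ⟨hx, hxO⟩
    rw [← hΓ] at h1
    exact (p.mem_pull Γ x).1 h1.2
  induction i with
  | zero =>
    intro x hx
    apply hi
    rw [Nat.cast_zero, S.Kn_zero]
    exact hx
  | succ j ih =>
    apply ih
    intro x hx
    obtain ⟨y, hy, rfl⟩ := (S.mem_Kn _ _).1 hx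
    have hj : (0 : ℤ) ≤ (j : ℤ) := Int.natCast_nonneg j
    have := hu (Γ₁ * S.Φ ^ (j : ℤ)) (Γ₂ * S.Φ ^ (j : ℤ)) ?_ ?_ ?_ y hy
    · simpa only [AlgEquiv.mul_apply] using this
    · intro z hz
      obtain ⟨w, hw, rfl⟩ := (S.mem_Kn _ _).1 hz
      simp only [AlgEquiv.mul_apply]
      apply hi
      refine (S.mem_Kn _ _).2 ⟨w, hw, ?_⟩
      rw [Nat.cast_succ, zpow_add, AlgEquiv.mul_apply]
    · intro T hT
      simp only [AlgEquiv.mul_apply]
      have hm : (S.Φ ^ (j : ℤ)) T ∈ S.K := S.pow_mem hj (hK hT)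
      exact ⟨key Γ₁ h₁ _ hm (hp j T hT), key Γ₂ h₂ _ hm (hp j T hT)⟩
    · simp only [AlgEquiv.mul_apply]
      exact hev _ (S.pow_mem hj (hK hθ))

/-- The counting bound at one place. -/
theorem Unr_count (S : Sys k Ω ι) (p : Place k Ω κ) {θ : Ω} {𝓣 : Set Ω} (hθ : θ ∈ 𝓣)
    (hK : 𝓣 ⊆ S.K)
    (hu : ∀ Ψ₁ Ψ₂ : Ω ≃ₐ[k] Ω, (∀ x ∈ S.Kn 1, Ψ₁ x = Ψ₂ x) →
      (∀ T ∈ 𝓣, Ψ₁ T ∈ p.O ∧ Ψ₂ T ∈ p.O) → p.ev (Ψ₁ θ) = p.ev (Ψ₂ θ) →
      ∀ x ∈ S.K, Ψ₁ x = Ψ₂ x)
    (hp : ∀ j : ℕ, ∀ T ∈ 𝓣, (S.Φ ^ (j : ℤ)) T ∈ p.O) (i : ℕ)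
    (hfin : relfinrank (p.res (S.Kn i)) (p.res S.K) ≠ 0) :
    {b : ι → Ω | ∃ Γ : Ω ≃ₐ[k] Ω, (∀ x ∈ S.Kn i, Γ x = x) ∧ b = (fun l => Γ (S.a l)) ∧
      S.lab (p.pull Γ).O = S.lab p.O}.ncard ≤ relfinrank (p.res (S.Kn i)) (p.res S.K) := by
  classical
  have hle : S.Kn i ≤ S.K := by
    rw [← S.Kn_zero]
    exact S.Kn_anti (Int.natCast_nonneg i)
  obtain ⟨hF, hN⟩ := homs_le (p.res_mono hle) hfin
  refine le_trans ?_ hN
  have hex : ∀ b : ι → Ω, ∃ f : p.res S.K →ₐ[k] κ,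
      (∃ Γ : Ω ≃ₐ[k] Ω, (∀ x ∈ S.Kn i, Γ x = x) ∧ b = (fun l => Γ (S.a l)) ∧
        S.lab (p.pull Γ).O = S.lab p.O) →
      ∃ Γ : Ω ≃ₐ[k] Ω, (∀ x ∈ S.Kn i, Γ x = x) ∧ b = (fun l => Γ (S.a l)) ∧
        S.lab (p.pull Γ).O = S.lab p.O ∧
        ∀ (x : Ω) (hx : x ∈ S.K), f ⟨p.ev x, p.ev_mem_res hx⟩ = p.ev (Γ x) := by
    intro b
    by_cases hb : ∃ Γ : Ω ≃ₐ[k] Ω, (∀ x ∈ S.Kn i, Γ x = x) ∧ b = (fun l => Γ (S.a l)) ∧
        S.lab (p.pull Γ).O = S.lab p.O
    · obtain ⟨Γ, h1, h2, h3⟩ := hb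
      obtain ⟨f, hf⟩ := S.res_hom p Γ h3
      exact ⟨f, fun _ => ⟨Γ, h1, h2, h3, hf⟩⟩
    · exact ⟨(p.res S.K).val, fun h => absurd h hb⟩
  choose F hFb using hex
  refine Set.ncard_le_ncard_of_injOn F ?_ ?_ hF
  · intro b hb y hy
    obtain ⟨Γ, h1, -, -, h4⟩ := hFb b hb
    obtain ⟨x, hx, -, hxy⟩ := (p.mem_res _ _).1 hy
    have hy' : y = ⟨p.ev x, p.ev_mem_res (hle hx)⟩ := Subtype.ext hxy.symm
    rw [hy', h4 x (hle hx), h1 x hx]
  · intro b hb c hc hbc
    obtain ⟨Γ₁, a1, a2, a3, a4⟩ := hFb b hb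
    obtain ⟨Γ₂, b1, b2, b3, b4⟩ := hFb c hc
    have hag := Unr_agree S p hθ hK hu hp a3 b3
      (fun x hx => by rw [← a4 x hx, ← b4 x hx, hbc]) i
      (fun x hx => by rw [a1 x hx, b1 x hx])
    rw [a2, b2]
    funext l
    exact hag _ (S.a_mem l)

/-- Plan: by `finite_pole` choose `q₀` with `Φ^q T ∈ O` for `q ≥ q₀`, `T ∈ 𝓣`. Replace `π` by
`π' = π.pull (Φ^q)`. Send `b = Γ a` to the embedding of `res_hom`; it fixes `R (q+i)`. It is
injective: if `Γ₁, Γ₂` induce the same embedding, downward induction on `j = i, ..., 0` shows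
that they agree on `Kn j` (`unram` for `Ψ = Γ * Φ^j`; `Φ^j T ∈ K ∩ O'`, hence `Γ Φ^j T ∈ O'`).
Conclude by `homs_le`. -/
theorem Tow.up [CharZero k] (h : Tow S π η) :
    ∃ q₀ : ℤ, ∀ q, q₀ ≤ q → ∀ i : ℕ,
      (S.pass π q i 0).ncard ≤ relfinrank (S.R π (q + i)) (S.R π q) := by
  obtain ⟨θ, 𝓣, hfin, hθ, hK, hu⟩ := S.unram
  have hB : (⋃ T ∈ 𝓣, {i : ℤ | (S.Φ ^ i) T ∉ π.O}).Finite :=
    hfin.biUnion fun T _ => h.finite_pole T
  obtain ⟨m, hm⟩ := hB.bddAbove
  refine ⟨m + 1, fun q hq i => ?_⟩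
  have hp : ∀ j : ℕ, ∀ T ∈ 𝓣, (S.Φ ^ (j : ℤ)) T ∈ (π.pull (S.Φ ^ q)).O := by
    intro j T hT
    rw [π.mem_pull, ← AlgEquiv.mul_apply, ← zpow_add]
    by_contra hn
    have : q + j ≤ m := hm (Set.mem_biUnion hT hn)
    omega
  have e1 : (π.pull (S.Φ ^ q)).res (S.Kn i) = S.R π (q + i) := S.R_pull π q i
  have e0 : (π.pull (S.Φ ^ q)).res S.K = S.R π q := by
    have := S.R_pull π q 0
    rw [add_zero] at this
    rw [← this, Sys.R, S.Kn_zero]
  have hc := Unr_count S (π.pull (S.Φ ^ q)) hθ hK (hu κ _) hp i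
    (by rw [e1, e0]; exact h.relfinrank_ne_zero q i)
  rw [e1, e0] at hc
  refine le_trans (le_of_eq ?_) hc
  congr 1
  ext b
  simp only [Sys.pass, Sys.El, Place.pull_pull, Nat.cast_zero, sub_zero, zpow_zero, mul_one]

end Pool.Agent.H35S

namespace Pool.Agent.H35S

open IntermediateField Filter Topology

universe u

variable {k Ω κ : Type u} [Field k] [Field Ω] [Field κ] [Algebra k Ω] [Algebra k κ]
variable {ι : Type} [Fintype ι]

theorem Sys.pass_subset (S : Sys k Ω ι) (π : Place k Ω κ) (q : ℤ) (n j : ℕ) :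
    S.pass π q n j ⊆ conj (S.Kn n) S.a := by
  rintro b ⟨Γ, h1, h2, -⟩
  exact ⟨Γ, h1, h2⟩

/-- Plan: send `b = Γ a` to `b' = Γ' a`, `Γ' = Φ^{-j} Γ Φ^j`, which lies in `pass q i 0`
(choose `Γ` for each `b`; `b'` is determined by `Γ` on `K`). Two elements `Γ₁ a, Γ₂ a` of a fibre
have `Γ₁⁻¹ Γ₂` fixing `Kn j`, so `Γ₂ a ↦ Γ₁⁻¹ Γ₂ a` embeds the fibre into `conj (Kn j) a`, which has
at most `D^j` elements. -/
theorem Sys.pass_card (S : Sys k Ω ι) (π : Place k Ω κ) (q : ℤ) (i j : ℕ) :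
    (S.pass π q (i + j) j).ncard ≤ S.D ^ j * (S.pass π q i 0).ncard := by
  classical
  have hA : (S.pass π q (i + j) j).Finite := (S.conj_finite (i + j)).subset (S.pass_subset π q _ _)
  have hB : (S.pass π q i 0).Finite := (S.conj_finite i).subset (S.pass_subset π q _ _)
  have hch : ∀ b ∈ S.pass π q (i + j) j, ∃ Γ : Ω ≃ₐ[k] Ω,
      (∀ x ∈ S.Kn ((i + j : ℕ) : ℤ), Γ x = x) ∧ b = (fun l => Γ (S.a l)) ∧
      S.lab (π.pull (S.Φ ^ (q - j) * Γ * S.Φ ^ (j : ℤ))).O = S.El π q := fun b hb => hb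
  choose! G hG1 hG2 hG3 using hch
  rw [Set.ncard_eq_toFinset_card _ hA, Set.ncard_eq_toFinset_card _ hB]
  refine Finset.card_le_mul_card_image_of_maps_to
    (f := fun b l => (S.Φ ^ (-(j : ℤ)) * G b * S.Φ ^ (j : ℤ)) (S.a l)) ?_ _ ?_
  · intro b hb
    rw [Set.Finite.mem_toFinset] at hb ⊢
    refine ⟨S.Φ ^ (-(j : ℤ)) * G b * S.Φ ^ (j : ℤ), fun x hx => ?_, rfl, ?_⟩
    · have h1 : (S.Φ ^ (j : ℤ)) x ∈ S.Kn ((i + j : ℕ) : ℤ) := by
        rw [Nat.cast_add, add_comm, ← S.Kn_map]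
        exact ⟨x, hx, rfl⟩
      rw [AlgEquiv.mul_apply, AlgEquiv.mul_apply, hG1 b hb _ h1, ← AlgEquiv.mul_apply,
        ← zpow_add, neg_add_cancel, zpow_zero, AlgEquiv.one_apply]
    · rw [← hG3 b hb]
      congr 3
      rw [Nat.cast_zero, sub_zero, zpow_zero, mul_one, ← mul_assoc, ← mul_assoc, ← zpow_add,
        sub_eq_add_neg]
  · intro b' _
    rcases Finset.eq_empty_or_nonempty (hA.toFinset.filter fun b =>
      (fun l => (S.Φ ^ (-(j : ℤ)) * G b * S.Φ ^ (j : ℤ)) (S.a l)) = b') with h0 | ⟨b₁, hb₁⟩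
    · rw [h0]; exact Nat.zero_le _
    refine le_trans ?_ (S.conj_card j)
    rw [Set.ncard_eq_toFinset_card _ (S.conj_finite j)]
    refine Finset.card_le_card_of_injOn (fun b l => (G b₁)⁻¹ (b l)) ?_ ?_
    · intro b hb
      simp only [Finset.coe_filter, Set.Finite.mem_toFinset, Set.mem_ofPred_eq,
        Finset.mem_filter] at hb hb₁
      simp only [Set.Finite.coe_toFinset]
      refine ⟨(G b₁)⁻¹ * G b, fun x hx => ?_, ?_⟩
      · obtain ⟨y, hy, rfl⟩ := (S.mem_Kn j x).1 hx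
        have h1 := S.eq_on_K (fun l => congrFun (hb.2.trans hb₁.2.symm) l) hy
        simp only [AlgEquiv.mul_apply] at h1
        have h2 := (S.Φ ^ (-(j : ℤ))).injective h1
        rw [AlgEquiv.mul_apply, h2, ← AlgEquiv.mul_apply, inv_mul_cancel, AlgEquiv.one_apply]
      · funext l
        rw [AlgEquiv.mul_apply]
        exact congrArg _ (congrFun (hG2 b hb.1) l)
    · intro b _ b2 _ h
      funext l
      exact ((G b₁)⁻¹).injective (congrFun h l)

theorem Upp_one {Λ : Type*} (f : Λ → Λ) (E : ℤ → Λ) (hE : Function.Injective E)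
    (hf : ∀ i, f (E i) = E (i + 1)) (e : Λ) :
    ∃ m : ℤ, ∀ q, m ≤ q → ∀ n i : ℕ, f^[n] e = E (q + i) → i ≤ n ∧ f^[n - i] e = E q := by
  classical
  have hit : ∀ (t : ℕ) (m : ℤ), f^[t] (E m) = E (m + t) := by
    intro t m
    induction t with
    | zero => simp
    | succ t ih => rw [Function.iterate_succ_apply', ih, hf]; push_cast; rw [add_assoc]
  by_cases h : ∃ n : ℕ, ∃ m : ℤ, f^[n] e = E m
  · obtain ⟨m, hm⟩ := Nat.find_spec h
    refine ⟨m, fun q hq n i hn => ?_⟩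
    have h1 : Nat.find h ≤ n := Nat.find_min' h ⟨_, hn⟩
    obtain ⟨t, ht⟩ := Nat.exists_eq_add_of_le' h1
    have h2 : f^[n] e = E (m + t) := by rw [ht, Function.iterate_add_apply, hm, hit]
    have h3 := hE (hn.symm.trans h2)
    refine ⟨by omega, ?_⟩
    have h4 : n - i = (q - m).toNat + Nat.find h := by omega
    rw [h4, Function.iterate_add_apply, hm, hit]
    congr 1
    omega
  · exact ⟨0, fun q _ n i hn => absurd ⟨n, _, hn⟩ h⟩

/-- Forward orbits of finitely many labels merge into the tower before a fixed time. -/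
theorem merge {Λ : Type*} (f : Λ → Λ) (E : ℤ → Λ) (hE : Function.Injective E)
    (hf : ∀ i, f (E i) = E (i + 1)) (F : Set Λ) (hF : F.Finite) (i₀ : ℤ) :
    ∃ q : ℤ, i₀ ≤ q ∧ (∀ i, q ≤ i → E i ∉ F) ∧
      ∀ e ∈ F, ∀ n i : ℕ, f^[n] e = E (q + i) → i ≤ n ∧ f^[n - i] e = E q := by
  choose m hm using Upp_one f E hE hf
  obtain ⟨c, hc⟩ := (hF.image m).bddAbove
  obtain ⟨c', hc'⟩ := (hF.preimage hE.injOn).bddAbove
  refine ⟨max i₀ (max c (c' + 1)), le_max_left _ _, fun i hi hiF => ?_, fun e he => hm e _ ?_⟩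
  · have h1 : i ≤ c' := hc' hiF
    omega
  · have h1 : m e ≤ c := hc ⟨e, he, rfl⟩
    omega

end Pool.Agent.H35S

namespace Pool.Agent.H35S

open IntermediateField Filter Topology

universe u

variable {k Ω κ : Type u} [Field k] [Field Ω] [Field κ] [Algebra k Ω] [Algebra k κ]
variable {ι : Type} [Fintype ι]

variable {S : Sys k Ω ι} {π : Place k Ω κ} {η : κ → ℝ}

theorem Key0_lab_iter (S : Sys k Ω ι) (π : Place k Ω κ) (Ψ : Ω ≃ₐ[k] Ω) (m n : ℕ) :
    S.next^[n] (S.lab (π.pull (Ψ * S.Φ ^ (m : ℤ))).O) =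
      S.lab (π.pull (Ψ * S.Φ ^ ((m + n : ℕ) : ℤ))).O := by
  induction n with
  | zero => simp
  | succ n ih =>
    rw [Function.iterate_succ_apply', ih, ← S.lab_pull_mul]
    have e : Ψ * S.Φ ^ ((m + n : ℕ) : ℤ) * S.Φ = Ψ * S.Φ ^ ((m + (n + 1) : ℕ) : ℤ) := by
      rw [mul_assoc, ← zpow_add_one]
      congr 2
    rw [e]

theorem Key0_rho_shift (S : Sys k Ω ι) (π : Place k Ω κ) (η : κ → ℝ) (Ψ : Ω ≃ₐ[k] Ω)
    (m t : ℤ) :
    rho (π.pull (Ψ * S.Φ ^ m)) η (S.fr t) = rho (π.pull Ψ) η (S.fr (m + t)) := by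
  rw [rho_pull, rho_pull]
  congr 1
  funext l
  rw [AlgEquiv.mul_apply, S.fr_add]

theorem Key0_seq {s Sg : ℝ} (hs : 0 < s) (hsS : s < Sg) (ρ : ℕ → ℝ) (h0 : ∀ m, 0 ≤ ρ m) (M : ℕ)
    (hM : 1 ≤ M) (hst : ∀ m < M, s * ρ m ≤ ρ (m + 1) → Sg * ρ (m + 1) ≤ ρ (m + 2))
    (hslow : ρ (M + 1) < s * ρ M) : ρ M < s ^ M * ρ 0 := by
  have hall : ∀ t m, m + t = M → ρ (m + 1) < s * ρ m := by
    intro t
    induction t with
    | zero => intro m hm; simp at hm; subst hm; exact hslow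
    | succ t ih =>
      intro m hm
      by_contra hc
      push Not at hc
      have h1 := hst m (by omega) hc
      have h2 := ih (m + 1) (by omega)
      have h3 := h0 (m + 1)
      nlinarith
  have hind : ∀ m, 1 ≤ m → m ≤ M → ρ m < s ^ m * ρ 0 := by
    intro m hm
    induction m, hm using Nat.le_induction with
    | base => intro _; simpa using hall M 0 (by omega)
    | succ m hm ih =>
      intro hle
      have h1 := ih (by omega)
      have h2 := hall (M - m) m (by omega)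
      calc ρ (m + 1) < s * ρ m := h2
        _ ≤ s * (s ^ m * ρ 0) := by gcongr
        _ = s ^ (m + 1) * ρ 0 := by ring
  exact hind M hM le_rfl

/-- A sibling either runs through the tower at position `q` or all its steps are slow.
Plan: `Ψ = Φ^(q-j) * Γ`, `ρ'_m = rho (π.pull (Ψ * Φ^m)) η a`; `ρ'_m = ρ_{q-j+m}` for `m ≥ i+j`
and the label at `m = i+j` is `El (q+i)`. If some label `lab (π.pull (Ψ * Φ^m))`, `m < i+j`, lies
in `𝓕`, then `hmerge` (with `lab_pull_mul`) puts `b` in `pass`. Otherwise a fast step would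
persist (`hstep`, `hsS`) up to the step `q+i`, which is slow; so all steps are slow. -/
theorem sib_dichotomy (S : Sys k Ω ι) (π : Place k Ω κ) {η : κ → ℝ} (hη : IsHt k η)
    {s Sg : ℝ} (hs : 0 < s) (hsS : s < Sg) (𝓕 : Set (Set Ω))
    (hstep : ∀ π' : Place k Ω κ, S.lab π'.O ∉ 𝓕 →
      s * rho π' η (S.fr 0) ≤ rho π' η (S.fr 1) → Sg * rho π' η (S.fr 1) ≤ rho π' η (S.fr 2))
    (q : ℤ) (i j : ℕ) (hij : 1 ≤ i + j)
    (hmerge : ∀ e ∈ 𝓕, ∀ n : ℕ, S.next^[n] e = S.El π (q + i) →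
      i ≤ n ∧ S.next^[n - i] e = S.El π q)
    (hslow : rho π η (S.fr (q + i + 1)) < s * rho π η (S.fr (q + i)))
    {b : ι → Ω} (hb : b ∈ conj (S.Kn (i + j : ℕ)) S.a) :
    b ∈ S.pass π q (i + j) j ∨
      rho π η (S.fr (q + i)) < s ^ (i + j) * rho (π.pull (S.Φ ^ (q - j))) η b := by
  obtain ⟨Γ, hΓ, rfl⟩ := hb
  set Ψ : Ω ≃ₐ[k] Ω := S.Φ ^ (q - j) * Γ with hΨ
  have hfix : ∀ (m : ℕ), i + j ≤ m → ∀ x ∈ S.K,
      (Ψ * S.Φ ^ (m : ℤ)) x = (S.Φ ^ (q - j + m)) x := by
    intro m hm x hx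
    have hx' : (S.Φ ^ (m : ℤ)) x ∈ S.Kn (i + j : ℕ) :=
      S.Kn_anti (by exact_mod_cast hm) ((S.mem_Kn m _).2 ⟨x, hx, rfl⟩)
    rw [hΨ, AlgEquiv.mul_apply, AlgEquiv.mul_apply, hΓ _ hx', zpow_add, AlgEquiv.mul_apply]
  by_cases hex : ∃ m < i + j, S.lab (π.pull (Ψ * S.Φ ^ (m : ℤ))).O ∈ 𝓕
  · left
    obtain ⟨m, hm, hmem⟩ := hex
    have h1 : S.next^[i + j - m] (S.lab (π.pull (Ψ * S.Φ ^ (m : ℤ))).O) = S.El π (q + i) := by
      rw [Key0_lab_iter, show m + (i + j - m) = i + j by omega]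
      rw [S.lab_congr π (hfix (i + j) le_rfl)]
      unfold Sys.El
      congr 4
      push_cast; ring
    obtain ⟨h2, h3⟩ := hmerge _ hmem _ h1
    rw [Key0_lab_iter, show m + (i + j - m - i) = j by omega] at h3
    exact ⟨Γ, hΓ, rfl, h3⟩
  · right
    push Not at hex
    let ρ : ℕ → ℝ := fun m => rho (π.pull Ψ) η (S.fr m)
    have hρ : ∀ m : ℕ, i + j ≤ m → ρ m = rho π η (S.fr (q - j + m)) := by
      intro m hm
      show rho (π.pull Ψ) η (S.fr m) = _
      rw [rho_pull]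
      congr 1
      funext l
      have := hfix m hm (S.a l) (S.a_mem l)
      rw [AlgEquiv.mul_apply] at this
      exact this
    have hmain := Key0_seq hs hsS ρ (fun m => rho_nonneg hη _ _) (i + j) hij (by
      intro m hm hf
      have := hstep _ (hex m hm)
      rw [Key0_rho_shift, Key0_rho_shift, Key0_rho_shift] at this
      have e1 : ((m : ℤ) + 0) = (m : ℕ) := by simp
      have e2 : ((m : ℤ) + 1) = ((m + 1 : ℕ) : ℤ) := by push_cast; ring
      have e3 : ((m : ℤ) + 2) = ((m + 2 : ℕ) : ℤ) := by push_cast; ring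
      rw [e1, e2, e3] at this
      exact this hf) (by
      rw [hρ _ (by omega), hρ _ le_rfl]
      have e1 : q - j + ((i + j + 1 : ℕ) : ℤ) = q + i + 1 := by push_cast; ring
      have e2 : q - j + ((i + j : ℕ) : ℤ) = q + i := by push_cast; ring
      rw [e1, e2]; exact hslow)
    rw [hρ _ le_rfl] at hmain
    have e2 : q - j + ((i + j : ℕ) : ℤ) = q + i := by push_cast; ring
    rw [e2] at hmain
    have e3 : ρ 0 = rho (π.pull (S.Φ ^ (q - j))) η (fun l => Γ (S.a l)) := by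
      show rho (π.pull Ψ) η (S.fr ((0 : ℕ) : ℤ)) = _
      rw [rho_pull, rho_pull, Nat.cast_zero, S.fr_zero]
      rfl
    rw [← e3]; exact hmain

end Pool.Agent.H35S

namespace Pool.Agent.H35S

open IntermediateField Filter Topology

universe u

variable {k Ω κ : Type u} [Field k] [Field Ω] [Field κ] [Algebra k Ω] [Algebra k κ]
variable {ι : Type} [Fintype ι]

variable {S : Sys k Ω ι} {π : Place k Ω κ} {η : κ → ℝ}

theorem Key_back (ρ : ℤ → ℝ) (hpos : ∀ i, 0 < ρ i) {Sg : ℝ} (hS : 0 < Sg) (i₁ q : ℤ)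
    (hfast : ∀ i ≤ i₁, Sg * ρ i ≤ ρ (i + 1)) :
    ∃ c₁ : ℝ, 0 < c₁ ∧ ∀ j : ℕ, c₁ * (Sg ^ j * ρ (q - j)) ≤ ρ q := by
  set g : ℕ → ℝ := fun j => Sg ^ j * ρ (q - j) with hg
  have hgpos : ∀ j, 0 < g j := fun j => mul_pos (pow_pos hS _) (hpos _)
  set j₀ := (q - i₁).toNat with hj₀
  set M := ∑ j ∈ Finset.range (j₀ + 1), g j with hM
  have hle : ∀ j, g j ≤ M := by
    intro j
    induction j with
    | zero =>
      exact Finset.single_le_sum (f := g) (fun j _ => (hgpos j).le) (by simp)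
    | succ j ih =>
      by_cases hj : j + 1 ≤ j₀
      · exact Finset.single_le_sum (f := g) (fun j _ => (hgpos j).le)
          (Finset.mem_range.2 (by omega))
      · refine le_trans ?_ ih
        have h1 := hfast (q - (j + 1 : ℕ)) (by push_cast; omega)
        have e : q - ((j + 1 : ℕ) : ℤ) + 1 = q - j := by push_cast; ring
        rw [e] at h1
        show Sg ^ (j + 1) * ρ (q - (j + 1 : ℕ)) ≤ Sg ^ j * ρ (q - j)
        rw [pow_succ, mul_assoc]
        exact mul_le_mul_of_nonneg_left h1 (pow_pos hS _).le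
  have hMpos : 0 < M := lt_of_lt_of_le (hgpos 0) (hle 0)
  refine ⟨ρ q / M, div_pos (hpos q) hMpos, fun j => ?_⟩
  have := hle j
  calc ρ q / M * g j ≤ ρ q / M * M := by
        exact mul_le_mul_of_nonneg_left this (div_pos (hpos q) hMpos).le
    _ = ρ q := by field_simp

theorem Key_fwd (ρ : ℤ → ℝ) {s : ℝ} (hs : 0 ≤ s) (q : ℤ)
    (h : ∀ i, q ≤ i → ρ (i + 1) ≤ s * ρ i) (i : ℕ) : ρ (q + i) ≤ s ^ i * ρ q := by
  induction i with
  | zero => simp
  | succ i ih =>
    have h1 := h (q + i) (by omega)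
    have e : q + ((i + 1 : ℕ) : ℤ) = q + i + 1 := by push_cast; ring
    rw [e, pow_succ]
    nlinarith [mul_le_mul_of_nonneg_left ih hs]

theorem Key_fwd' (ρ : ℤ → ℝ) {s : ℝ} (hs : 0 ≤ s) (q : ℤ)
    (h : ∀ i, q ≤ i → s * ρ i ≤ ρ (i + 1)) (i : ℕ) : s ^ i * ρ q ≤ ρ (q + i) := by
  induction i with
  | zero => simp
  | succ i ih =>
    have h1 := h (q + i) (by omega)
    have e : q + ((i + 1 : ℕ) : ℤ) = q + i + 1 := by push_cast; ring
    rw [e, pow_succ]
    nlinarith [mul_le_mul_of_nonneg_left ih hs]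

theorem Key_half {α : Type*} (G : Finset α) (f : α → ℝ) (hf : ∀ b, 0 ≤ f b) {A : ℝ} (hA : 0 < A)
    (hsum : ∑ b ∈ G, f b ≤ G.card * A) (P : Set α) (hP : P.Finite)
    (h : ∀ b ∈ G, b ∈ P ∨ 2 * A < f b) : (G.card : ℝ) ≤ 2 * P.ncard := by
  classical
  set G₁ := G.filter (fun b => b ∈ P) with hG₁
  set G₂ := G.filter (fun b => ¬ b ∈ P) with hG₂
  have hcard : G₁.card + G₂.card = G.card := Finset.card_filter_add_card_filter_not _
  have h1 : G₁.card ≤ P.ncard := by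
    rw [← Set.ncard_coe_finset]
    refine Set.ncard_le_ncard (fun b hb => ?_) hP
    exact (Finset.mem_filter.1 hb).2
  have h2 : (G₂.card : ℝ) * (2 * A) ≤ ∑ b ∈ G₂, f b := by
    have := Finset.card_nsmul_le_sum G₂ f (2 * A) (fun b hb => by
      have hb' := Finset.mem_filter.1 hb
      exact ((h b hb'.1).resolve_left hb'.2).le)
    simpa [nsmul_eq_mul] using this
  have h3 : ∑ b ∈ G₂, f b ≤ ∑ b ∈ G, f b :=
    Finset.sum_le_sum_of_subset_of_nonneg (Finset.filter_subset _ _) (fun b _ _ => hf b)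
  have h4 : (G₂.card : ℝ) * 2 ≤ G.card := by
    have : (G₂.card : ℝ) * 2 * A ≤ G.card * A := by linarith
    exact le_of_mul_le_mul_right this hA
  have h5 : (G₁.card : ℝ) + G₂.card = G.card := by exact_mod_cast hcard
  have h6 : (G₁.card : ℝ) ≤ P.ncard := by exact_mod_cast h1
  linarith

theorem Key_num {s Sg b₀ c₁ d δ ρp ρq ρi ρb : ℝ} {i j : ℕ} (hs : 0 < s) (hS : 0 < Sg)
    (hb₀ : 0 ≤ b₀) (hd : 0 < d) (hρp : 0 < ρp)
    (hnum : 16 * δ < c₁ / d * Sg ^ (i + j) * (b₀ / s) ^ i * (Sg / s) ^ j)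
    (h1 : c₁ * (Sg ^ j * ρp) ≤ ρq) (h2 : b₀ ^ i * ρq ≤ d * ρi) (h3 : ρi < s ^ (i + j) * ρb) :
    2 * (8 * δ / Sg ^ (i + j) * ρp) < ρb := by
  have hSM : 0 < Sg ^ (i + j) := pow_pos hS _
  have hsM : 0 < s ^ (i + j) := pow_pos hs _
  have hbi : 0 ≤ b₀ ^ i := pow_nonneg hb₀ _
  have e1 : c₁ / d * Sg ^ (i + j) * (b₀ / s) ^ i * (Sg / s) ^ j =
      Sg ^ (i + j) * (c₁ * b₀ ^ i * Sg ^ j / (d * s ^ (i + j))) := by
    rw [div_pow, div_pow, pow_add s]
    field_simp
  rw [e1] at hnum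
  have h4 : 16 * δ / Sg ^ (i + j) < c₁ * b₀ ^ i * Sg ^ j / (d * s ^ (i + j)) := by
    rw [div_lt_iff₀ hSM]; linarith
  have h5 : c₁ * b₀ ^ i * Sg ^ j / (d * s ^ (i + j)) * ρp < ρb := by
    rw [div_mul_eq_mul_div, div_lt_iff₀ (mul_pos hd hsM)]
    have h6 : b₀ ^ i * (c₁ * (Sg ^ j * ρp)) ≤ b₀ ^ i * ρq := mul_le_mul_of_nonneg_left h1 hbi
    have h7 : d * ρi < d * (s ^ (i + j) * ρb) := mul_lt_mul_of_pos_left h3 hd
    nlinarith
  have h8 := mul_lt_mul_of_pos_right h4 hρp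
  have e2 : 2 * (8 * δ / Sg ^ (i + j) * ρp) = 16 * δ / Sg ^ (i + j) * ρp := by ring
  rw [e2]; linarith

/-- No tower is very fast in the past and slow in the future.
Plan: `𝓕` from `Sys.step` (+ `persist`), `q₀` from `Tow.up`, `q ≥ max i₀ q₀` from `merge`.
There is `c₁ > 0` with `c₁ Sg^j ρ_{q-j} ≤ ρ_q` for all `j` (finitely many steps between `i₁` and
`q`). With `b₀ = max 1 (D / (8 δ 1))`: `b₀^i ρ_q ≤ d_q ρ_{q+i}` (`Tow.ratio` gives `ρ_q ≤ d_q ρ_{q+i}`,
`step` gives the other case) and `t' = [R q : R (q+i)] ≤ d_q s^i`. Take `i, j` from `NumCond` with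
`c = c₁ / d_q`, `d = d_q`; `M = i+j`, `R = 8 δ_M / Sg^M`, `G` the set of `Tow.low` (finite, invariant
under automorphisms fixing `K` by `prT_map`, `chi_sib`). By `Sys.bez` for `π.pull (Φ^(q-j))` at most
half of `G` has height `> 2 R ρ_{q-j}`; by `sib_dichotomy` the rest lies in `pass`, which has at
most `D^j d_q s^i` elements (`pass_card`, `Tow.up`). So `Sg^M / 2 ≤ D^j d_q s^i`. -/
theorem Tow.key [CharZero k] [IsAlgClosed Ω] (h : Tow S π η) {s Sg : ℝ} (hs : 0 < s)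
    (hsS : s < Sg) (hS : Sg ≤ S.δ 2 / (4 * S.δ 1) - S.D / s) (hnum : NumCond S.D S.δ s Sg)
    (i₁ i₀ : ℤ) (hfast : ∀ i ≤ i₁, Sg * rho π η (S.fr i) ≤ rho π η (S.fr (i + 1)))
    (hslow : ∀ i, i₀ ≤ i → rho π η (S.fr (i + 1)) < s * rho π η (S.fr i)) : False := by
  classical
  obtain ⟨𝓕, h𝓕, -, hstep⟩ := S.step
  obtain ⟨q₀, hup⟩ := h.up
  obtain ⟨q, hq, hqF, hmerge⟩ := merge S.next (S.El π) h.inj (fun i => (S.El_succ π i).symm) 𝓕 h𝓕
    (max i₀ q₀)
  have hq₀ : q₀ ≤ q := le_trans (le_max_right _ _) hq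
  have hi₀ : i₀ ≤ q := le_trans (le_max_left _ _) hq
  set ρ : ℤ → ℝ := fun i => rho π η (S.fr i) with hρ
  have hSg : 0 < Sg := hs.trans hsS
  have hδ₁ := S.one_le_δ 1
  have hD0 : (0 : ℝ) ≤ S.D := Nat.cast_nonneg _
  obtain ⟨c₁, hc₁, hback⟩ := Key_back ρ h.pos hSg i₁ q hfast
  have hdq : (1 : ℝ) ≤ S.d π q := by exact_mod_cast h.one_le_d q
  have hdq0 : (0 : ℝ) < S.d π q := by linarith
  obtain ⟨i, j, hij, hnum1, hnum2⟩ := hnum (c₁ / S.d π q) (S.d π q) (div_pos hc₁ hdq0) hdq0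
  -- forward bounds
  have hf1 : ρ (q + i) ≤ s ^ i * ρ q :=
    Key_fwd ρ hs.le q (fun m hm => (hslow m (hi₀.trans hm)).le) i
  have hratio := h.ratio q i
  have hd2 : (1 : ℝ) ≤ S.d π (q + i) := by exact_mod_cast h.one_le_d (q + i)
  have ht1 : (1 : ℝ) ≤ relfinrank (S.R π (q + i)) (S.R π q) := by
    exact_mod_cast Nat.one_le_iff_ne_zero.2 (h.relfinrank_ne_zero q i)
  have hρq : 0 < ρ q := h.pos q
  have hρi : 0 < ρ (q + i) := h.pos _
  change ρ (q + i) * _ = _ * _ * ρ q at hratio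
  set t : ℝ := (relfinrank (S.R π (q + i)) (S.R π q) : ℝ) with ht
  have htρ : t * ρ q ≤ ρ (q + i) * S.d π q := by
    rw [hratio]
    have : t * ρ q * 1 ≤ t * ρ q * S.d π (q + i) :=
      mul_le_mul_of_nonneg_left hd2 (mul_nonneg (by linarith) hρq.le)
    linarith
  have ht2 : t ≤ S.d π q * s ^ i := by
    have : t * ρ q ≤ (S.d π q * s ^ i) * ρ q := by nlinarith
    exact le_of_mul_le_mul_right this hρq
  have hb0 : 0 ≤ (S.D : ℝ) / (8 * S.δ 1) := by positivity
  have hf2 : (max 1 ((S.D : ℝ) / (8 * S.δ 1))) ^ i * ρ q ≤ S.d π q * ρ (q + i) := by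
    rcases le_total 1 ((S.D : ℝ) / (8 * S.δ 1)) with hc | hc
    · rw [max_eq_right hc]
      have := Key_fwd' ρ hb0 q (fun m hm => by
        have h1 := (hstep κ (π.pull (S.Φ ^ m)) η h.ht (hqF m hm)).1
        rw [S.fr_pull, S.fr_pull, add_zero] at h1
        exact h1) i
      nlinarith
    · rw [max_eq_left hc, one_pow, one_mul]
      nlinarith
  -- the set of close siblings
  set M := i + j with hM
  set R : ℝ := 8 * S.δ M / Sg ^ M with hR
  have hRpos : 0 < R := by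
    have := S.one_le_δ M
    positivity
  have hGfin : {b | b ∈ conj (S.Kn M) S.a ∧ prT S.K S.a b ≤ R}.Finite :=
    (S.conj_finite M).subset (fun b hb => hb.1)
  have hlow := h.low hSg i₁ hfast M
  set G := hGfin.toFinset with hG
  have hGcard : Sg ^ M ≤ G.card := by
    rw [hG, ← Set.ncard_eq_toFinset_card _ hGfin]; exact hlow
  have hKn : S.Kn M ≤ S.K := by
    rw [← S.Kn_zero]; exact S.Kn_anti (by positivity)
  have hinv : ∀ Θ : Ω ≃ₐ[k] Ω, (∀ x ∈ S.K, Θ x = x) → ∀ b ∈ G, (fun l => Θ (b l)) ∈ G := by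
    intro Θ hΘ b hb
    rw [hG, Set.Finite.mem_toFinset] at hb ⊢
    obtain ⟨⟨Γ, hΓ, rfl⟩, hb2⟩ := hb
    refine ⟨⟨Θ * Γ, fun x hx => ?_, rfl⟩, ?_⟩
    · rw [AlgEquiv.mul_apply, hΓ x hx, hΘ x (hKn hx)]
    · have h1 := prT_map S.trdeg S.big Θ S.a (fun l => Γ (S.a l))
      rw [S.chi_sib 0 Θ (by rw [Nat.cast_zero, S.Kn_zero]; exact hΘ), mul_one] at h1
      have h2 : (fun l => Θ (S.a l)) = S.a := funext fun l => hΘ _ (S.a_mem l)
      rw [h2] at h1
      rw [h1]; exact hb2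
  set π' := π.pull (S.Φ ^ (q - j)) with hπ'
  have hT' : Tow S π' η := h.pull _
  have hρp : rho π' η S.a = ρ (q - j) := by
    rw [← S.fr_zero, hπ', S.fr_pull, add_zero]
  have hbez := S.bez π' h.ht (fun l => by simpa [S.fr_zero] using hT'.mem 0 l)
    (by rw [hρp]; exact h.pos _) G hinv R (fun b hb => by
      rw [hG, Set.Finite.mem_toFinset] at hb; exact hb.2)
  rw [hρp, mul_assoc] at hbez
  have hpassfin : (S.pass π q M j).Finite := (S.conj_finite M).subset (S.pass_subset π q M j)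
  have hhalf := Key_half G (fun b => rho π' η b) (fun b => rho_nonneg h.ht _ _)
    (mul_pos hRpos (h.pos (q - j))) hbez (S.pass π q M j) hpassfin (fun b hb => by
      rw [hG, Set.Finite.mem_toFinset] at hb
      have hd := sib_dichotomy S π h.ht hs hsS 𝓕 (fun π'' hπ'' hf =>
        persist hD0 hδ₁ hs hS (rho_nonneg h.ht _ _) (hstep κ π'' η h.ht hπ'').2.2 hf)
        q i j hij (fun e he n hn => hmerge e he n i hn) (hslow _ (by omega)) hb.1
      refine hd.imp id (fun h3 => ?_)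
      exact Key_num hs hSg (le_trans zero_le_one (le_max_left _ _)) hdq0 (h.pos _) hnum1
        (hback j) hf2 h3)
  have hc1 : ((S.pass π q M j).ncard : ℝ) ≤ (S.D : ℝ) ^ j * (S.pass π q i 0).ncard := by
    exact_mod_cast S.pass_card π q i j
  have hc2 : ((S.pass π q i 0).ncard : ℝ) ≤ t := by
    rw [ht]; exact_mod_cast hup q hq₀ i
  have hDj : 0 ≤ (S.D : ℝ) ^ j := by positivity
  have hc3 : (S.D : ℝ) ^ j * (S.pass π q i 0).ncard ≤ (S.D : ℝ) ^ j * (S.d π q * s ^ i) :=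
    mul_le_mul_of_nonneg_left (hc2.trans ht2) hDj
  nlinarith

end Pool.Agent.H35S
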