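import Pool.Agent.MP_195eb9_ag.Srf.A

namespace Pool.Agent.H35S

open IntermediateField Filter Topology

universe u

/-! From limits along ultrafilters to growth rates. -/

theorem sh_le {U : Ultrafilter ℤ} (hU : (U : Filter ℤ) ≤ atTop) (i : ℤ) :
    (sh U i : Filter ℤ) ≤ atTop :=
  (tendsto_atTop_add_const_right atTop i tendsto_id).mono_left hU

theorem sh_sh (U : Ultrafilter ℤ) (i j : ℤ) : sh (sh U i) j = sh U (i + j) := by
  unfold sh
  rw [Ultrafilter.map_map]
  congr 1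
  funext n
  exact add_assoc n i j

theorem sh_zero (U : Ultrafilter ℤ) : sh U 0 = U := by
  unfold sh
  simp only [add_zero]
  exact Ultrafilter.map_id' U

/-- A property holding along every ultrafilter at infinity holds eventually
(`Ultrafilter.of (atTop ⊓ 𝓟 _)`, `Filter.frequently_iff_neBot`). -/
theorem eventually_of_ultrafilter {p : ℤ → Prop}
    (h : ∀ U : Ultrafilter ℤ, (U : Filter ℤ) ≤ atTop → ∀ᶠ n in (U : Filter ℤ), p n) :
    ∀ᶠ n in atTop, p n := by
  by_contra hc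
  have := frequently_iff_neBot.1 (not_eventually.1 hc)
  obtain ⟨U, hU⟩ := Ultrafilter.exists_le (atTop ⊓ 𝓟 {n : ℤ | ¬ p n})
  have h1 := h U (hU.trans inf_le_left)
  have h2 : ∀ᶠ n in (U : Filter ℤ), ¬ p n := le_principal_iff.1 (hU.trans inf_le_right)
  obtain ⟨n, h3, h4⟩ := (h1.and h2).exists
  exact h4 h3

variable {H : ℤ → ℝ} {r : Ultrafilter ℤ → ℝ}

theorem tendsto_window (hH : ∀ᶠ n in atTop, 0 < H n)
    (hr : ∀ U : Ultrafilter ℤ, (U : Filter ℤ) ≤ atTop →
      0 < r U ∧ Tendsto (fun n => H (n + 1) / H n) U (𝓝 (r U)))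
    {U : Ultrafilter ℤ} (hU : (U : Filter ℤ) ≤ atTop) (W : ℕ) :
    Tendsto (fun n => H (n + W) / H n) U (𝓝 (∏ i ∈ Finset.range W, r (sh U i))) := by
  induction W with
  | zero =>
    rw [Finset.prod_range_zero]
    refine tendsto_const_nhds.congr' ((hH.filter_mono hU).mono fun n hn => ?_)
    simp [hn.ne']
  | succ W ih =>
    rw [Finset.prod_range_succ]
    have h1 : Tendsto (fun n => H (n + W + 1) / H (n + W)) U (𝓝 (r (sh U W))) :=
      (hr (sh U W) (sh_le hU W)).2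
    have h2 : ∀ᶠ n in (U : Filter ℤ), 0 < H (n + W) := hH.filter_mono (sh_le hU W)
    refine (ih.mul h1).congr' (h2.mono fun n hn => ?_)
    have := hn.ne'
    simp only [Nat.cast_add, Nat.cast_one, add_assoc]
    rw [mul_comm, div_mul_div_cancel₀ this]

theorem DiA0_bdd {f : ℤ → ℝ}
    (h : ∀ U : Ultrafilter ℤ, (U : Filter ℤ) ≤ atTop → ∃ x, Tendsto f U (𝓝 x)) :
    ∃ C : ℝ, ∀ᶠ n in atTop, f n ≤ C := by
  by_contra hc
  have : NeBot (atTop ⊓ comap f atTop) := by
    rw [inf_neBot_iff]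
    rintro s hs s' ⟨t, ht, hts⟩
    obtain ⟨a, ha⟩ := mem_atTop_sets.1 ht
    obtain ⟨n, h1, h2⟩ := ((not_eventually.1 fun h' => hc ⟨a, h'⟩).and_eventually hs).exists
    exact ⟨n, h2, hts (ha _ (not_le.1 h1).le)⟩
  obtain ⟨U, hU⟩ := Ultrafilter.exists_le (atTop ⊓ comap f atTop)
  obtain ⟨x, hx⟩ := h U (hU.trans inf_le_left)
  exact not_tendsto_atTop_of_tendsto_nhds hx (tendsto_iff_comap.2 (hU.trans inf_le_right))

/-- If the ratios were unbounded, an ultrafilter finer than `atTop ⊓ comap ratio atTop`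
(respectively `comap ratio (𝓝 0)`) would contradict `hr`. -/
theorem ratio_bound (hH : ∀ᶠ n in atTop, 0 < H n)
    (hr : ∀ U : Ultrafilter ℤ, (U : Filter ℤ) ≤ atTop →
      0 < r U ∧ Tendsto (fun n => H (n + 1) / H n) U (𝓝 (r U))) :
    ∃ C : ℝ, 1 ≤ C ∧ (∀ᶠ n in atTop, H (n + 1) ≤ C * H n ∧ H n ≤ C * H (n + 1)) ∧
      ∀ U : Ultrafilter ℤ, (U : Filter ℤ) ≤ atTop → C⁻¹ ≤ r U ∧ r U ≤ C := by
  obtain ⟨A, hA⟩ := DiA0_bdd fun U hU => ⟨_, (hr U hU).2⟩
  obtain ⟨B, hB⟩ := DiA0_bdd fun U hU => ⟨_, (hr U hU).2.inv₀ (hr U hU).1.ne'⟩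
  have h1 : (1 : ℝ) ≤ max (max A B) 1 := le_max_right _ _
  have h2 : A ≤ max (max A B) 1 := (le_max_left _ _).trans (le_max_left _ _)
  have h3 : B ≤ max (max A B) 1 := (le_max_right _ _).trans (le_max_left _ _)
  have hH' : ∀ᶠ n in atTop, 0 < H (n + 1) :=
    (tendsto_atTop_add_const_right atTop 1 tendsto_id).eventually hH
  refine ⟨_, h1, ?_, fun U hU => ⟨?_, ?_⟩⟩
  · filter_upwards [hH, hH', hA, hB] with n a b c d
    rw [inv_div] at d
    exact ⟨(div_le_iff₀ a).1 (c.trans h2), (div_le_iff₀ b).1 (d.trans h3)⟩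
  · rw [inv_le_comm₀ (zero_lt_one.trans_le h1) (hr U hU).1]
    exact (le_of_tendsto ((hr U hU).2.inv₀ (hr U hU).1.ne') (hB.filter_mono hU)).trans h3
  · exact (le_of_tendsto (hr U hU).2 (hA.filter_mono hU)).trans h2

/-- At most `|F|` exceptional times. -/
theorem exc_card {Λ : Type*} {E : Ultrafilter ℤ → Λ} {F : Set Λ} (hF : F.Finite)
    {U : Ultrafilter ℤ}
    (h3 : ∀ i j : ℤ, E (sh U i) ∈ F → E (sh U i) = E (sh U j) → i = j) :
    {i : ℤ | E (sh U i) ∈ F}.Finite ∧ {i : ℤ | E (sh U i) ∈ F}.ncard ≤ F.ncard := by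
  have h1 : Set.InjOn (fun i => E (sh U i)) {i : ℤ | E (sh U i) ∈ F} :=
    fun i hi j _ e => h3 i j hi e
  exact ⟨Set.Finite.of_injOn (f := fun i => E (sh U i)) (fun _ hi => hi) h1 hF,
    Set.ncard_le_ncard_of_injOn _ (fun _ hi => hi) h1 hF⟩

end Pool.Agent.H35S

namespace Pool.Agent.H35S

open IntermediateField Filter Topology

universe u

/-! From limits along ultrafilters to growth rates. -/

variable {H : ℤ → ℝ} {r : Ultrafilter ℤ → ℝ}

/-- A sequence that does not increase along steps of length `W` is bounded by a value taken in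
the first window. -/
theorem DiA_window {g : ℕ → ℝ} {N W : ℕ} (hW : 1 ≤ W) (h : ∀ n, N ≤ n → g (n + W) ≤ g n) :
    ∃ m, N ≤ m ∧ ∀ n, N ≤ n → g n ≤ g m := by
  obtain ⟨m, hm, hmax⟩ := Finset.exists_max_image (Finset.Ico N (N + W)) g
    ⟨N, Finset.mem_Ico.2 ⟨le_rfl, by omega⟩⟩
  refine ⟨m, (Finset.mem_Ico.1 hm).1, fun n => ?_⟩
  induction n using Nat.strong_induction_on with
  | _ n ih =>
    intro hn
    by_cases hlt : n < N + W
    · exact hmax n (Finset.mem_Ico.2 ⟨hn, hlt⟩)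
    · have e : n = (n - W) + W := by omega
      have h1 := h (n - W) (by omega)
      rw [← e] at h1
      exact h1.trans (ih (n - W) (by omega) (by omega))

theorem DiA_small {x A : ℝ} (hx0 : 0 ≤ x) (hx : x < 1) :
    ∀ᶠ n : ℕ in atTop, A * x ^ n < 1 := by
  have h := (tendsto_pow_atTop_nhds_zero_of_lt_one hx0 hx).const_mul A
  rw [mul_zero] at h
  exact h.eventually (gt_mem_nhds one_pos)

theorem DiA_small' {x A : ℝ} (hx0 : 0 ≤ x) (hx : x < 1) (hA : 0 < A) :
    ∀ᶠ n : ℕ in atTop, x ^ n < A :=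
  (tendsto_pow_atTop_nhds_zero_of_lt_one hx0 hx).eventually (gt_mem_nhds hA)

theorem DiA_nat {p : ℤ → Prop} (h : ∀ᶠ n in atTop, p n) : ∃ N : ℕ, ∀ n : ℕ, N ≤ n → p n := by
  obtain ⟨N, hN⟩ := eventually_atTop.1 h
  exact ⟨N.toNat, fun n hn => hN n (by omega)⟩

/-- Given `β' > β` take `W` with `2 c β^W ≤ β''^W`, `β < β'' < β'`; eventually
`H (n + W) ≤ β''^W H n`; iterate along each residue class. -/
theorem ub_of_window (hH : ∀ᶠ n in atTop, 0 < H n)
    (hr : ∀ U : Ultrafilter ℤ, (U : Filter ℤ) ≤ atTop →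
      0 < r U ∧ Tendsto (fun n => H (n + 1) / H n) U (𝓝 (r U)))
    {β c : ℝ} (hβ : 0 < β)
    (h : ∀ U : Ultrafilter ℤ, (U : Filter ℤ) ≤ atTop → ∀ W : ℕ,
      ∏ i ∈ Finset.range W, r (sh U i) ≤ c * β ^ W) : UB (fun n : ℕ => H n) β := by
  intro β' hβ'
  obtain ⟨b, hb1, hb2⟩ := exists_between hβ'
  have hb : 0 < b := hβ.trans hb1
  have hb' : 0 < β' := hb.trans hb2
  obtain ⟨W, hW1, hW⟩ := ((DiA_small (A := c) (div_nonneg hβ.le hb.le)
    ((div_lt_one hb).2 hb1)).and (eventually_ge_atTop 1)).exists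
  have hW2 : c * β ^ W < b ^ W := by
    rw [div_pow, ← mul_div_assoc, div_lt_one (pow_pos hb W)] at hW1
    exact hW1
  have hev : ∀ᶠ n : ℤ in atTop, H (n + W) / H n < b ^ W :=
    eventually_of_ultrafilter fun U hU =>
      (tendsto_window hH hr hU W).eventually (gt_mem_nhds ((h U hU W).trans_lt hW2))
  obtain ⟨N, hN⟩ := DiA_nat (hH.and hev)
  obtain ⟨m, -, hm⟩ := DiA_window (g := fun n : ℕ => H n / b ^ n) (N := N) hW (fun n hn => by
    obtain ⟨h1, h2⟩ := hN n hn
    rw [div_lt_iff₀ h1] at h2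
    rw [div_le_div_iff₀ (pow_pos hb _) (pow_pos hb _), pow_add]
    push_cast
    have := pow_pos hb n
    nlinarith)
  filter_upwards [eventually_ge_atTop N, DiA_small (A := H m / b ^ m) (div_nonneg hb.le hb'.le)
    ((div_lt_one hb').2 hb2)] with n hn h1
  have h2 := hm n hn
  rw [div_pow, ← mul_div_assoc, div_lt_one (pow_pos hb' n)] at h1
  rw [div_le_iff₀ (pow_pos hb n)] at h2
  exact h2.trans h1.le

theorem lb_of_window (hH : ∀ᶠ n in atTop, 0 < H n)
    (hr : ∀ U : Ultrafilter ℤ, (U : Filter ℤ) ≤ atTop →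
      0 < r U ∧ Tendsto (fun n => H (n + 1) / H n) U (𝓝 (r U)))
    {β c : ℝ} (hc : 0 < c)
    (h : ∀ U : Ultrafilter ℤ, (U : Filter ℤ) ≤ atTop → ∀ W : ℕ,
      c * β ^ W ≤ ∏ i ∈ Finset.range W, r (sh U i)) : LB (fun n : ℕ => H n) β := by
  intro β' hb' hβ'
  obtain ⟨b, hb1, hb2⟩ := exists_between hβ'
  have hb : 0 < b := hb'.trans hb1
  have hβ : 0 < β := hb.trans hb2
  obtain ⟨W, hW1, hW⟩ := ((DiA_small' (div_nonneg hb.le hβ.le)
    ((div_lt_one hβ).2 hb2) hc).and (eventually_ge_atTop 1)).exists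
  have hW2 : b ^ W < c * β ^ W := by
    rw [div_pow, div_lt_iff₀ (pow_pos hβ W)] at hW1
    exact hW1
  have hev : ∀ᶠ n : ℤ in atTop, b ^ W < H (n + W) / H n :=
    eventually_of_ultrafilter fun U hU =>
      (tendsto_window hH hr hU W).eventually (lt_mem_nhds (hW2.trans_le (h U hU W)))
  obtain ⟨N, hN⟩ := DiA_nat (hH.and hev)
  obtain ⟨m, hmN, hm⟩ := DiA_window (g := fun n : ℕ => -(H n / b ^ n)) (N := N) hW
    (fun n hn => by
      obtain ⟨h1, h2⟩ := hN n hn
      rw [lt_div_iff₀ h1] at h2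
      rw [neg_le_neg_iff, div_le_div_iff₀ (pow_pos hb _) (pow_pos hb _), pow_add]
      push_cast
      have := pow_pos hb n
      nlinarith)
  have hA : 0 < H m / b ^ m := div_pos (hN m hmN).1 (pow_pos hb m)
  filter_upwards [eventually_ge_atTop N, DiA_small' (div_nonneg hb'.le hb.le)
    ((div_lt_one hb).2 hb1) hA] with n hn h1
  have h2 := hm n hn
  rw [neg_le_neg_iff] at h2
  have h3 := h1.trans_le h2
  rw [div_pow, div_lt_div_iff_of_pos_right (pow_pos hb n)] at h3
  exact h3.le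

/-- Each window has at most `|F|` exceptional factors, which lie in `[C⁻¹, C]`. -/
theorem bounds {Λ : Type*} {E : Ultrafilter ℤ → Λ} {F : Set Λ} (hF : F.Finite)
    (hH : ∀ᶠ n in atTop, 0 < H n)
    (hr : ∀ U : Ultrafilter ℤ, (U : Filter ℤ) ≤ atTop →
      0 < r U ∧ Tendsto (fun n => H (n + 1) / H n) U (𝓝 (r U)))
    {s₀ S₁ : ℝ} (hs₀ : 0 < s₀) (hS₁ : 0 < S₁)
    (h2 : ∀ U : Ultrafilter ℤ, (U : Filter ℤ) ≤ atTop → E U ∉ F → s₀ ≤ r U ∧ r U ≤ S₁)
    (h3 : ∀ U : Ultrafilter ℤ, (U : Filter ℤ) ≤ atTop →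
      ∀ i j : ℤ, E (sh U i) ∈ F → E (sh U i) = E (sh U j) → i = j) :
    LB (fun n : ℕ => H n) s₀ ∧ UB (fun n : ℕ => H n) S₁ := by
  classical
  obtain ⟨C, hC, -, hCr⟩ := ratio_bound hH hr
  have hC0 : 0 < C := one_pos.trans_le hC
  have hcard : ∀ U : Ultrafilter ℤ, (U : Filter ℤ) ≤ atTop → ∀ W : ℕ,
      ((Finset.range W).filter fun i : ℕ => E (sh U i) ∈ F).card ≤ hF.toFinset.card := by
    intro U hU W
    refine Finset.card_le_card_of_injOn (fun i : ℕ => E (sh U i)) ?_ ?_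
    · intro i hi
      simp only [Finset.coe_filter, Set.mem_ofPred_eq] at hi
      simpa using hi.2
    · intro i hi j _ hij
      simp only [Finset.coe_filter, Set.mem_ofPred_eq] at hi
      exact_mod_cast h3 U hU i j hi.2 hij
  have hprod : ∀ (U : Ultrafilter ℤ) (W : ℕ) (a M : ℝ),
      ∏ i ∈ Finset.range W, (a * if E (sh U (i : ℕ)) ∈ F then M else 1) =
        M ^ ((Finset.range W).filter fun i : ℕ => E (sh U i) ∈ F).card * a ^ W := by
    intro U W a M
    rw [Finset.prod_mul_distrib, Finset.prod_const, Finset.card_range, Finset.prod_ite,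
      Finset.prod_const, Finset.prod_const_one, mul_one, mul_comm]
  constructor
  · have hμ0 : 0 < min 1 (C⁻¹ / s₀) := lt_min one_pos (div_pos (inv_pos.2 hC0) hs₀)
    refine lb_of_window hH hr (c := min 1 (C⁻¹ / s₀) ^ hF.toFinset.card) (pow_pos hμ0 _)
      fun U hU W => ?_
    calc min 1 (C⁻¹ / s₀) ^ hF.toFinset.card * s₀ ^ W
        ≤ min 1 (C⁻¹ / s₀) ^ ((Finset.range W).filter fun i : ℕ => E (sh U i) ∈ F).card *
          s₀ ^ W :=
          mul_le_mul_of_nonneg_right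
            (pow_le_pow_of_le_one hμ0.le (min_le_left _ _) (hcard U hU W)) (pow_pos hs₀ W).le
      _ = _ := (hprod U W s₀ _).symm
      _ ≤ _ := by
          refine Finset.prod_le_prod (fun i _ => ?_) fun i _ => ?_
          · split_ifs
            · exact mul_nonneg hs₀.le hμ0.le
            · simpa using hs₀.le
          · split_ifs with hi
            · calc s₀ * min 1 (C⁻¹ / s₀) ≤ s₀ * (C⁻¹ / s₀) :=
                    mul_le_mul_of_nonneg_left (min_le_right _ _) hs₀.le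
                _ = C⁻¹ := by field_simp
                _ ≤ _ := (hCr _ (sh_le hU i)).1
            · simpa using (h2 _ (sh_le hU i) hi).1
  · have hM1 : 1 ≤ max 1 (C / S₁) := le_max_left _ _
    refine ub_of_window hH hr (c := max 1 (C / S₁) ^ hF.toFinset.card) hS₁ fun U hU W => ?_
    calc ∏ i ∈ Finset.range W, r (sh U i)
        ≤ ∏ i ∈ Finset.range W, (S₁ * if E (sh U (i : ℕ)) ∈ F then max 1 (C / S₁) else 1) := by
          refine Finset.prod_le_prod (fun i _ => (hr _ (sh_le hU i)).1.le) fun i _ => ?_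
          split_ifs with hi
          · calc r (sh U i) ≤ C := (hCr _ (sh_le hU i)).2
              _ = S₁ * (C / S₁) := by field_simp
              _ ≤ _ := mul_le_mul_of_nonneg_left (le_max_right _ _) hS₁.le
          · simpa using (h2 _ (sh_le hU i) hi).2
      _ = _ := hprod U W S₁ _
      _ ≤ _ := mul_le_mul_of_nonneg_right (pow_le_pow_right₀ hM1 (hcard U hU W))
          (pow_pos hS₁ W).le

end Pool.Agent.H35S

namespace Pool.Agent.H35S

open IntermediateField Filter Topology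

universe u

variable {H : ℤ → ℝ} {r : Ultrafilter ℤ → ℝ}

theorem DiB_exc {Λ : Type*} {E : Ultrafilter ℤ → Λ} {F : Set Λ} (hF : F.Finite)
    {U : Ultrafilter ℤ}
    (h3 : ∀ i j : ℤ, E (sh U i) ∈ F → E (sh U i) = E (sh U j) → i = j) :
    ∃ M : ℕ, ∀ i : ℤ, ((M : ℤ) ≤ i ∨ i ≤ -(M : ℤ)) → E (sh U i) ∉ F := by
  have hfin := (exc_card hF h3).1
  obtain ⟨a, ha⟩ := hfin.bddAbove
  obtain ⟨b, hb⟩ := hfin.bddBelow
  refine ⟨a.natAbs + b.natAbs + 1, fun i hi hm => ?_⟩
  have h1 : i ≤ a := ha hm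
  have h2 : b ≤ i := hb hm
  omega

theorem DiB_bind_le (V : Ultrafilter ℕ) {W : ℕ → Ultrafilter ℤ}
    (hW : ∀ L, (W L : Filter ℤ) ≤ atTop) : (V.bind W : Filter ℤ) ≤ atTop := by
  intro t ht
  have : t ∈ Filter.bind (V : Filter ℕ) fun L => (W L : Filter ℤ) :=
    Filter.mem_bind'.2 (Filter.univ_mem' fun L => hW L ht)
  exact this

theorem DiB_limit
    (hr : ∀ U : Ultrafilter ℤ, (U : Filter ℤ) ≤ atTop →
      0 < r U ∧ Tendsto (fun n => H (n + 1) / H n) U (𝓝 (r U)))
    (V : Ultrafilter ℕ) {W : ℕ → Ultrafilter ℤ} (hW : ∀ L, (W L : Filter ℤ) ≤ atTop) {s : ℝ}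
    (j : ℤ) (h : ∀ᶠ L in (V : Filter ℕ), s ≤ r (sh (W L) j)) : s ≤ r (sh (V.bind W) j) := by
  by_contra hlt
  obtain ⟨s', h1, h2⟩ := exists_between (not_le.1 hlt)
  have h3 := (hr _ (sh_le (DiB_bind_le V hW) j)).2.eventually (gt_mem_nhds h1)
  have h4 : {n : ℤ | H (n + j + 1) / H (n + j) < s'} ∈
      Filter.bind (V : Filter ℕ) fun L => (W L : Filter ℤ) := h3
  have h5 : ∀ᶠ L in (V : Filter ℕ),
      {n : ℤ | H (n + j + 1) / H (n + j) < s'} ∈ (W L : Filter ℤ) := Filter.mem_bind'.1 h4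
  obtain ⟨L, hL1, hL2⟩ := (h.and h5).exists
  have h6 : ∀ᶠ n in (sh (W L) j : Filter ℤ), H (n + 1) / H n < s' := hL2
  have h7 := le_of_tendsto (hr _ (sh_le (hW L) j)).2 (h6.mono fun n hn => hn.le)
  linarith

/-- After a long fast run all steps outside a bounded window are very fast.
Plan: call `e ∈ F` good if some (by `h4` every) `U` with `E U = e` has `Sg ≤ r (sh U i)` for all
`i ≥ K_e`. If `e = E U` is not good then (finitely many exceptional times, `exc_card`, `h2`) all large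
steps are slow. For such `e` there is `L_e` such that no `U` with `E U = e` has `s ≤ r (sh U (-i))`
for `1 ≤ i ≤ L_e`: otherwise take `W L`, `V = Ultrafilter.of atTop`, `U = V.bind W`; `E U = e` (`h6`),
`s ≤ r (sh U (-i))` for all `i ≥ 1` (limits), so all very negative steps are very fast (`h2`),
contradicting `h5`. Take `L₀ = 1 + max L_e`, `K₀ = max K_e`, `i₀` the first step `≥ 0` that is not
very fast; `E (sh U (i₀ - 1)) ∈ F` is good. -/
theorem run_bound {Λ : Type*} {E : Ultrafilter ℤ → Λ} {F : Set Λ} (hF : F.Finite)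
    (hr : ∀ U : Ultrafilter ℤ, (U : Filter ℤ) ≤ atTop →
      0 < r U ∧ Tendsto (fun n => H (n + 1) / H n) U (𝓝 (r U)))
    {s Sg : ℝ} (hsS : s < Sg)
    (h2 : ∀ U : Ultrafilter ℤ, (U : Filter ℤ) ≤ atTop → E U ∉ F → s ≤ r U → Sg ≤ r (sh U 1))
    (h3 : ∀ U : Ultrafilter ℤ, (U : Filter ℤ) ≤ atTop →
      ∀ i j : ℤ, E (sh U i) ∈ F → E (sh U i) = E (sh U j) → i = j)
    (h4 : ∀ U U' : Ultrafilter ℤ, (U : Filter ℤ) ≤ atTop → (U' : Filter ℤ) ≤ atTop → E U ∈ F →
      E U = E U' → ∀ i : ℕ, r (sh U i) = r (sh U' i))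
    (h5 : ∀ U : Ultrafilter ℤ, (U : Filter ℤ) ≤ atTop → E U ∈ F → ∀ i₁ i₀ : ℤ,
      (∀ i ≤ i₁, Sg ≤ r (sh U i)) → (∀ i, i₀ ≤ i → r (sh U i) < s) → False)
    (h6 : ∀ (V : Ultrafilter ℕ) (W : ℕ → Ultrafilter ℤ) (e : Λ), (∀ L, E (W L) = e) →
      E (V.bind W) = e) :
    ∃ L₀ K₀ : ℕ, 1 ≤ L₀ ∧ ∀ U : Ultrafilter ℤ, (U : Filter ℤ) ≤ atTop →
      (∀ i : ℕ, 1 ≤ i → i ≤ L₀ → s ≤ r (sh U (-(i : ℤ)))) →
      ∃ i₀ : ℕ, ∀ i : ℕ, (i < i₀ ∨ i₀ + K₀ ≤ i) → Sg ≤ r (sh U i) := by
  have step : ∀ U : Ultrafilter ℤ, (U : Filter ℤ) ≤ atTop → ∀ i : ℤ, E (sh U i) ∉ F →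
      s ≤ r (sh U i) → Sg ≤ r (sh U (i + 1)) := by
    intro U hU i hi hs
    have := h2 _ (sh_le hU i) hi hs
    rwa [sh_sh] at this
  have key : ∀ e : Λ, ∃ L K : ℕ, ∀ U : Ultrafilter ℤ, (U : Filter ℤ) ≤ atTop → E U = e → e ∈ F →
      (∀ i : ℕ, 1 ≤ i → i ≤ L → s ≤ r (sh U (-(i : ℤ)))) →
      ∀ i : ℕ, K ≤ i → Sg ≤ r (sh U i) := by
    intro e
    by_cases hex : ∃ U : Ultrafilter ℤ, (U : Filter ℤ) ≤ atTop ∧ E U = e ∧ e ∈ F
    swap
    · exact ⟨0, 0, fun U hU h1 h2 => absurd ⟨U, hU, h1, h2⟩ hex⟩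
    obtain ⟨U₀, hU₀, hE₀, he⟩ := hex
    obtain ⟨M, hM⟩ := DiB_exc hF (h3 U₀ hU₀)
    by_cases hfast : ∃ j : ℕ, M ≤ j ∧ s ≤ r (sh U₀ j)
    · obtain ⟨j, hj, hs⟩ := hfast
      have h7 : ∀ n : ℕ, Sg ≤ r (sh U₀ ((j : ℤ) + n + 1)) := by
        intro n
        induction n with
        | zero => simpa using step U₀ hU₀ j (hM _ (Or.inl (by omega))) hs
        | succ n ih =>
          have := step U₀ hU₀ _ (hM _ (Or.inl (by omega))) (hsS.le.trans ih)
          push_cast
          rwa [← add_assoc]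
      refine ⟨0, j + 1, fun U hU hE _ _ i hi => ?_⟩
      rw [← h4 U₀ U hU₀ hU (hE₀ ▸ he) (hE₀.trans hE.symm) i]
      have := h7 (i - (j + 1))
      have e1 : (j : ℤ) + ((i - (j + 1) : ℕ) : ℤ) + 1 = i := by omega
      rwa [e1] at this
    · by_contra hcon
      have h8 : ∀ L : ℕ, ∃ U : Ultrafilter ℤ, (U : Filter ℤ) ≤ atTop ∧ E U = e ∧
          ∀ i : ℕ, 1 ≤ i → i ≤ L → s ≤ r (sh U (-(i : ℤ))) := by
        intro L
        by_contra h9
        exact hcon ⟨L, 0, fun U hU h1 _ h => absurd ⟨U, hU, h1, h⟩ h9⟩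
      choose W hW1 hW2 hW3 using h8
      let V : Ultrafilter ℕ := Ultrafilter.of atTop
      have hV : (V : Filter ℕ) ≤ atTop := Ultrafilter.of_le _
      have hU := DiB_bind_le V hW1
      have hE := h6 V W e hW2
      obtain ⟨M', hM'⟩ := DiB_exc hF (h3 _ hU)
      refine h5 _ hU (hE ▸ he) (-(M' : ℤ)) M (fun i hi => ?_) (fun i hi => ?_)
      · have h10 : s ≤ r (sh (V.bind W) (i - 1)) := by
          refine DiB_limit hr V hW1 _ (hV ?_)
          filter_upwards [eventually_ge_atTop (1 - i).toNat] with L hL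
          have := hW3 L (1 - i).toNat (by omega) hL
          have e1 : -(((1 - i).toNat : ℕ) : ℤ) = i - 1 := by omega
          rwa [e1] at this
        have := step _ hU _ (hM' _ (Or.inr (by omega))) h10
        rwa [sub_add_cancel] at this
      · obtain ⟨j, rfl⟩ := Int.eq_ofNat_of_zero_le (show 0 ≤ i by omega)
        rw [← h4 U₀ _ hU₀ hU (hE₀ ▸ he) (hE₀.trans hE.symm) j]
        by_contra h11
        exact hfast ⟨j, by omega, not_lt.1 h11⟩
  choose L K hLK using key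
  obtain ⟨L₁, hL₁⟩ := (hF.image L).bddAbove
  obtain ⟨K₁, hK₁⟩ := (hF.image K).bddAbove
  refine ⟨L₁ + 1, K₁, by omega, fun U hU hrun => ?_⟩
  by_cases hall : ∃ i : ℕ, ¬ Sg ≤ r (sh U i)
  swap
  · exact ⟨0, fun i _ => not_not.1 fun h => hall ⟨i, h⟩⟩
  classical
  have hb : ∀ i < Nat.find hall, Sg ≤ r (sh U i) := fun i hi => not_not.1 (Nat.find_min hall hi)
  have hback : ∀ i : ℤ, i < Nat.find hall → -((L₁ : ℤ) + 1) ≤ i → s ≤ r (sh U i) := by
    intro i h1 h2
    by_cases hi : 0 ≤ i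
    · obtain ⟨j, rfl⟩ := Int.eq_ofNat_of_zero_le hi
      exact hsS.le.trans (hb j (by omega))
    · have := hrun (-i).toNat (by omega) (by omega)
      have e1 : -(((-i).toNat : ℕ) : ℤ) = i := by omega
      rwa [e1] at this
  have hF' : E (sh U ((Nat.find hall : ℤ) - 1)) ∈ F := by
    by_contra hn
    have := step U hU _ hn (hback _ (by omega) (by omega))
    rw [sub_add_cancel] at this
    exact Nat.find_spec hall this
  have hl : L (E (sh U ((Nat.find hall : ℤ) - 1))) ≤ L₁ := hL₁ ⟨_, hF', rfl⟩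
  have hk : K (E (sh U ((Nat.find hall : ℤ) - 1))) ≤ K₁ := hK₁ ⟨_, hF', rfl⟩
  refine ⟨Nat.find hall, fun i hi => ?_⟩
  rcases hi with hi | hi
  · exact hb i hi
  · have := hLK _ _ (sh_le hU ((Nat.find hall : ℤ) - 1)) rfl hF' (fun j h1 h2 => by
      rw [sh_sh]
      exact hback _ (by omega) (by omega)) (i + 1 - Nat.find hall) (by omega)
    rw [sh_sh] at this
    have e1 : (Nat.find hall : ℤ) - 1 + ((i + 1 - Nat.find hall : ℕ) : ℤ) = i := by omega
    rwa [e1] at this

end Pool.Agent.H35S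

namespace Pool.Agent.H35S

open IntermediateField Filter Topology

universe u

variable {H : ℤ → ℝ} {r : Ultrafilter ℤ → ℝ}

theorem DiC0_shift (hH : ∀ᶠ n in atTop, 0 < H n)
    (hr : ∀ U : Ultrafilter ℤ, (U : Filter ℤ) ≤ atTop →
      0 < r U ∧ Tendsto (fun n => H (n + 1) / H n) U (𝓝 (r U)))
    {U : Ultrafilter ℤ} (hU : (U : Filter ℤ) ≤ atTop) (j : ℤ) :
    (∀ᶠ n in (U : Filter ℤ), 0 < H (n + j)) ∧
      Tendsto (fun n => H (n + j + 1) / H (n + j)) U (𝓝 (r (sh U j))) :=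
  ⟨sh_le hU j hH, (hr _ (sh_le hU j)).2⟩

theorem DiC0_prod {f : ℕ → ℝ} {Sg m : ℝ} (hS : 0 < Sg) (hm : 0 < m) (hm1 : m ≤ 1) {i₀ K₀ : ℕ}
    (h1 : ∀ i, m * Sg ≤ f i) (h2 : ∀ i, (i < i₀ ∨ i₀ + K₀ ≤ i) → Sg ≤ f i) (W : ℕ) :
    m ^ K₀ * Sg ^ W ≤ ∏ i ∈ Finset.range W, f i := by
  have key : ∀ W : ℕ, m ^ (min K₀ (W - i₀)) * Sg ^ W ≤ ∏ i ∈ Finset.range W, f i := by
    intro W
    induction W with
    | zero => simp
    | succ W ih =>
      have h0 : 0 ≤ m ^ (min K₀ (W - i₀)) * Sg ^ W := by positivity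
      rw [Finset.prod_range_succ]
      by_cases h : W < i₀ ∨ i₀ + K₀ ≤ W
      · rw [show min K₀ (W + 1 - i₀) = min K₀ (W - i₀) by omega, pow_succ, ← mul_assoc]
        exact mul_le_mul ih (h2 W h) hS.le (h0.trans ih)
      · rw [show min K₀ (W + 1 - i₀) = min K₀ (W - i₀) + 1 by omega]
        refine le_trans (le_of_eq ?_) (mul_le_mul ih (h1 W) (by positivity) (h0.trans ih))
        ring
  exact le_trans (mul_le_mul_of_nonneg_right
    (pow_le_pow_of_le_one hm.le hm1 (min_le_left _ _)) (by positivity)) (key W)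

theorem DiC0_iter {G : ℤ → Prop} {b C : ℝ} (hb : 0 < b) (hC : 1 ≤ C) {D : ℕ} {n₀ : ℤ}
    (hpos : ∀ n, n₀ ≤ n → 0 < H n) (hrat : ∀ n, n₀ ≤ n → H n ≤ C * H (n + 1))
    (hstep : ∀ n, n₀ ≤ n → G n → ∃ W : ℕ, 1 ≤ W ∧ W ≤ D ∧ G (n + W) ∧ b ^ W * H n ≤ H (n + W))
    (h0 : G n₀) (t : ℕ) : b ^ t * H n₀ ≤ (max 1 b * C) ^ D * H (n₀ + t) := by
  have h1 : ∀ t : ℕ, ∃ g : ℕ, g ≤ t ∧ t ≤ g + D ∧ G (n₀ + g) ∧ b ^ g * H n₀ ≤ H (n₀ + g) := by
    intro t
    induction t with
    | zero => exact ⟨0, le_rfl, Nat.zero_le _, by simpa using h0, by simp⟩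
    | succ t ih =>
      obtain ⟨g, g1, g2, g3, g4⟩ := ih
      by_cases h : t + 1 ≤ g + D
      · exact ⟨g, by omega, h, g3, g4⟩
      · obtain ⟨W, w1, w2, w3, w4⟩ := hstep _ (by omega) g3
        refine ⟨g + W, by omega, by omega, by rwa [Nat.cast_add, ← add_assoc], ?_⟩
        rw [Nat.cast_add, ← add_assoc, pow_add, mul_comm (b ^ g), mul_assoc]
        exact (mul_le_mul_of_nonneg_left g4 (by positivity)).trans w4
  have h2 : ∀ (n : ℤ), n₀ ≤ n → ∀ d : ℕ, H n ≤ C ^ d * H (n + d) := by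
    intro n hn d
    induction d with
    | zero => simp
    | succ d ih =>
      rw [pow_succ, mul_assoc, Nat.cast_succ, ← add_assoc]
      exact ih.trans (mul_le_mul_of_nonneg_left (hrat _ (by omega)) (by positivity))
  obtain ⟨g, g1, g2, -, g4⟩ := h1 t
  obtain ⟨d, rfl⟩ := Nat.exists_eq_add_of_le g1
  have h3 := h2 (n₀ + g) (by omega) d
  have h4 : 0 < H (n₀ + (g + d : ℕ)) := hpos _ (by omega)
  rw [add_assoc, ← Nat.cast_add] at h3
  have h5 : (b * C) ^ d ≤ (max 1 b * C) ^ D :=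
    (pow_le_pow_left₀ (by positivity) (by gcongr; exact le_max_right _ _) d).trans
      (pow_le_pow_right₀ (one_le_mul_of_one_le_of_one_le (le_max_left _ _) hC) (by omega))
  calc b ^ (g + d) * H n₀ = b ^ d * (b ^ g * H n₀) := by ring
    _ ≤ b ^ d * (C ^ d * H (n₀ + (g + d : ℕ))) :=
        mul_le_mul_of_nonneg_left (g4.trans h3) (by positivity)
    _ = (b * C) ^ d * H (n₀ + (g + d : ℕ)) := by ring
    _ ≤ _ := mul_le_mul_of_nonneg_right h5 h4.le

/-- Long fast runs infinitely often force the growth rate `Sg`.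
Plan: `Good n` := `S' H (n-i) ≤ H (n-i+1)` for `1 ≤ i ≤ L₀`. Fix `β' < β'' < Sg` and `W` large. Claim
(by `eventually_of_ultrafilter`, `tendsto_window`, `ratio_bound`): eventually `Good n` implies that
for some `W' ∈ [W, W + K₀ + L₀]`, `Good (n + W')` and `β''^W' H n ≤ H (n + W')` (along `U` take
`W' = W` if the window `[i₀, i₀+K₀)` misses `[W - L₀, W)`, else `W' = i₀ + K₀ + L₀`; the product of the
ratios is at least `Sg^(W'-K₀) C^(-K₀)`). Iterate from a good `n₀` and interpolate with the ratio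
bound. -/
theorem lb_of_runs (hH : ∀ᶠ n in atTop, 0 < H n)
    (hr : ∀ U : Ultrafilter ℤ, (U : Filter ℤ) ≤ atTop →
      0 < r U ∧ Tendsto (fun n => H (n + 1) / H n) U (𝓝 (r U)))
    {s S' Sg : ℝ} (hs : 0 < s) (hsS : s ≤ S') (hS : S' < Sg) {L₀ K₀ : ℕ}
    (hQ : ∀ U : Ultrafilter ℤ, (U : Filter ℤ) ≤ atTop →
      (∀ i : ℕ, 1 ≤ i → i ≤ L₀ → s ≤ r (sh U (-(i : ℤ)))) →
      ∃ i₀ : ℕ, ∀ i : ℕ, (i < i₀ ∨ i₀ + K₀ ≤ i) → Sg ≤ r (sh U i))
    (hgood : ∃ᶠ n in atTop, ∀ i : ℕ, 1 ≤ i → i ≤ L₀ → S' * H (n - i) ≤ H (n - i + 1)) :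
    LB (fun n : ℕ => H n) Sg := by
  intro β' hβ' hβ
  obtain ⟨b, hb1, hb2⟩ := exists_between hβ
  have hb : 0 < b := hβ'.trans hb1
  have hSg : 0 < Sg := hb.trans hb2
  obtain ⟨C, hC, hrat, hCr⟩ := ratio_bound hH hr
  have hC0 : 0 < C := by linarith
  obtain ⟨m, hm, hm1, hm2⟩ : ∃ m : ℝ, 0 < m ∧ m ≤ 1 ∧ m * Sg ≤ C⁻¹ :=
    ⟨min 1 (C⁻¹ / Sg), by positivity, min_le_left _ _, (le_div_iff₀ hSg).1 (min_le_right _ _)⟩
  obtain ⟨W₀, hW₀⟩ := eventually_atTop.1
    ((tendsto_pow_atTop_nhds_zero_of_lt_one (div_pos hb hSg).le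
      ((div_lt_one hSg).2 hb2)).eventually (gt_mem_nhds (pow_pos hm K₀)))
  obtain ⟨W, hW1, hW2, hW3⟩ : ∃ W : ℕ, 1 ≤ W ∧ L₀ ≤ W ∧ W₀ ≤ W :=
    ⟨W₀ + L₀ + 1, by omega, by omega, by omega⟩
  obtain ⟨G, hG⟩ : ∃ G : ℤ → Prop, ∀ n, G n ↔
    ∀ i : ℕ, 1 ≤ i → i ≤ L₀ → S' * H (n - i) ≤ H (n - i + 1) := ⟨_, fun _ => Iff.rfl⟩
  have hstep : ∀ᶠ n in atTop, G n → ∃ W' : ℕ, 1 ≤ W' ∧ W' ≤ W + K₀ + L₀ ∧ G (n + W') ∧
      b ^ W' * H n ≤ H (n + W') := by
    refine eventually_of_ultrafilter fun U hU => ?_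
    by_cases hGU : ∀ᶠ n in (U : Filter ℤ), G n
    swap
    · exact (Ultrafilter.eventually_not.2 hGU).mono fun n h1 h2 => absurd h2 h1
    obtain ⟨i₀, hi₀⟩ := hQ U hU fun i h1 h2 => by
      obtain ⟨h3, h4⟩ := DiC0_shift hH hr hU (-(i : ℤ))
      refine hsS.trans (ge_of_tendsto h4 ?_)
      filter_upwards [h3, hGU] with n h5 h6
      rw [le_div_iff₀ h5, ← sub_eq_add_neg]
      exact (hG n).1 h6 i h1 h2
    obtain ⟨W', w1, w2, w3⟩ : ∃ W' : ℕ, W ≤ W' ∧ W' ≤ W + K₀ + L₀ ∧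
        ∀ i, 1 ≤ i → i ≤ L₀ → (W' - i < i₀ ∨ i₀ + K₀ ≤ W' - i) := by
      by_cases h : i₀ + K₀ + L₀ ≤ W ∨ W ≤ i₀
      · exact ⟨W, le_rfl, by omega, fun i h1 h2 => by omega⟩
      · exact ⟨i₀ + K₀ + L₀, by omega, by omega, fun i h1 h2 => by omega⟩
    have h1 : ∀ᶠ n in (U : Filter ℤ), ∀ i ∈ Finset.Icc 1 L₀,
        S' * H (n + W' - i) ≤ H (n + W' - i + 1) := by
      rw [Filter.eventually_all_finset]
      intro i hi
      obtain ⟨i1, i2⟩ := Finset.mem_Icc.1 hi
      obtain ⟨h3, h4⟩ := DiC0_shift hH hr hU ((W' - i : ℕ) : ℤ)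
      filter_upwards [h3, h4.eventually (lt_mem_nhds (hS.trans_le (hi₀ _ (w3 i i1 i2))))]
        with n h5 h6
      rw [lt_div_iff₀ h5, Nat.cast_sub (by omega), ← add_sub_assoc] at h6
      exact h6.le
    have h2 : b ^ W' < ∏ i ∈ Finset.range W', r (sh U i) := by
      refine lt_of_lt_of_le ?_ (DiC0_prod (f := fun i : ℕ => r (sh U i)) hSg hm hm1
        (fun i => hm2.trans (hCr _ (sh_le hU _)).1) hi₀ W')
      have h3 := hW₀ W' (by omega)
      rwa [div_pow, div_lt_iff₀ (by positivity)] at h3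
    filter_upwards [h1, (tendsto_window hH hr hU W').eventually (lt_mem_nhds h2), hU hH]
      with n h3 h4 h5 _
    exact ⟨W', by omega, w2, (hG _).2 fun i i1 i2 => h3 i (Finset.mem_Icc.2 ⟨i1, i2⟩),
      ((lt_div_iff₀ h5).1 h4).le⟩
  obtain ⟨N, hN⟩ := eventually_atTop.1 (hH.and (hrat.and hstep))
  obtain ⟨n₀, h0, h1, h2⟩ := (hgood.and_eventually
    ((eventually_ge_atTop N).and (eventually_ge_atTop 0))).exists
  lift n₀ to ℕ using h2
  have key := DiC0_iter (H := H) (G := G) hb hC (fun n hn => (hN n (h1.trans hn)).1)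
    (fun n hn => (hN n (h1.trans hn)).2.1.2) (fun n hn => (hN n (h1.trans hn)).2.2)
    ((hG _).2 h0)
  have hH0 : 0 < H n₀ := (hN _ h1).1
  generalize hA : (max 1 b * C) ^ (W + K₀ + L₀) = A at key
  have hA0 : 0 < A := by rw [← hA]; positivity
  obtain ⟨T, hT⟩ := eventually_atTop.1
    ((tendsto_pow_atTop_nhds_zero_of_lt_one (div_pos hβ' hb).le
      ((div_lt_one hb).2 hb1)).eventually
        (gt_mem_nhds (show 0 < H n₀ / (A * β' ^ n₀) by positivity)))
  filter_upwards [eventually_ge_atTop (n₀ + T)] with n hn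
  obtain ⟨t, rfl⟩ : ∃ t, n = n₀ + t := ⟨n - n₀, by omega⟩
  have h3 := hT t (by omega)
  rw [div_pow, div_lt_div_iff₀ (by positivity) (by positivity)] at h3
  have h4 := key t
  rw [Nat.cast_add, pow_add]
  refine le_of_mul_le_mul_left ?_ hA0
  nlinarith

end Pool.Agent.H35S

namespace Pool.Agent.H35S

open IntermediateField Filter Topology

universe u

variable {H : ℤ → ℝ} {r : Ultrafilter ℤ → ℝ}

/-- Without long fast runs the growth rate is at most `s`.
Plan: no `U` has `L₀` consecutive very fast steps. So after a fast step `i` an exceptional time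
occurs in `[i, i + L₀]`; every window has at most `|F| (L₀ + 1)` fast steps; `ub_of_window`. -/
theorem ub_of_no_runs {Λ : Type*} {E : Ultrafilter ℤ → Λ} {F : Set Λ} (hF : F.Finite)
    (hH : ∀ᶠ n in atTop, 0 < H n)
    (hr : ∀ U : Ultrafilter ℤ, (U : Filter ℤ) ≤ atTop →
      0 < r U ∧ Tendsto (fun n => H (n + 1) / H n) U (𝓝 (r U)))
    {s S' Sg : ℝ} (hs : 0 < s) (hsS : s ≤ S') (hS : S' < Sg)
    (h2 : ∀ U : Ultrafilter ℤ, (U : Filter ℤ) ≤ atTop → E U ∉ F → s ≤ r U → Sg ≤ r (sh U 1))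
    (h3 : ∀ U : Ultrafilter ℤ, (U : Filter ℤ) ≤ atTop →
      ∀ i j : ℤ, E (sh U i) ∈ F → E (sh U i) = E (sh U j) → i = j)
    {L₀ : ℕ}
    (hbad : ∀ᶠ n in atTop, ¬ ∀ i : ℕ, 1 ≤ i → i ≤ L₀ → S' * H (n - i) ≤ H (n - i + 1)) :
    UB (fun n : ℕ => H n) s := by
  classical
  have hA : ∀ U : Ultrafilter ℤ, (U : Filter ℤ) ≤ atTop →
      ¬ ∀ i : ℕ, 1 ≤ i → i ≤ L₀ → Sg ≤ r (sh U (-(i : ℤ))) := by
    intro U hU hall
    have h1 : ∀ i ∈ Finset.Icc 1 L₀, ∀ᶠ n in (U : Filter ℤ),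
        S' * H (n - (i : ℕ)) ≤ H (n - (i : ℕ) + 1) := by
      intro i hi
      rw [Finset.mem_Icc] at hi
      have hle := sh_le hU (-(i : ℤ))
      have a1 := (hr _ hle).2.eventually (lt_mem_nhds (hS.trans_le (hall i hi.1 hi.2)))
      have a2 : ∀ᶠ n in (sh U (-(i : ℤ)) : Filter ℤ), S' * H n ≤ H (n + 1) := by
        filter_upwards [a1, hH.filter_mono hle] with n b1 b2
        exact ((lt_div_iff₀ b2).1 b1).le
      have a3 : ∀ᶠ n in (U : Filter ℤ), S' * H (n + -(i : ℤ)) ≤ H (n + -(i : ℤ) + 1) := a2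
      simpa only [sub_eq_add_neg] using a3
    obtain ⟨n, b1, b2⟩ := (((Filter.eventually_all_finset _).2 h1).and
      (hbad.filter_mono hU)).exists
    exact b2 fun i c1 c2 => b1 i (Finset.mem_Icc.2 ⟨c1, c2⟩)
  have hB : ∀ U : Ultrafilter ℤ, (U : Filter ℤ) ≤ atTop → ∀ i : ℤ, s ≤ r (sh U i) →
      ∃ t : ℕ, t < L₀ ∧ E (sh U (i + t)) ∈ F := by
    intro U hU i hi
    by_contra hno
    push Not at hno
    have h1 : ∀ t : ℕ, t < L₀ → Sg ≤ r (sh U (i + t + 1)) := by
      intro t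
      induction t with
      | zero =>
        intro h0
        have := h2 _ (sh_le hU _) (hno 0 h0) (by simpa using hi)
        rwa [sh_sh] at this
      | succ t ih =>
        intro h0
        have := h2 _ (sh_le hU _) (hno (t + 1) h0) (by
          push_cast
          rw [← add_assoc]
          linarith [ih (by omega)])
        rwa [sh_sh] at this
    refine hA (sh U (i + L₀ + 1)) (sh_le hU _) fun j j1 j2 => ?_
    rw [sh_sh]
    have := h1 (L₀ - j) (by omega)
    rwa [Nat.cast_sub j2, show i + ((L₀ : ℤ) - j) + 1 = i + L₀ + 1 + -(j : ℤ) by ring] at this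
  obtain ⟨C, -, -, hC⟩ := ratio_bound hH hr
  have hM : (1 : ℝ) ≤ max 1 (C / s) := le_max_left _ _
  refine ub_of_window hH hr hs (c := (max 1 (C / s)) ^ (F.ncard * L₀)) fun U hU W => ?_
  obtain ⟨hfin, hcard⟩ := exc_card hF (h3 U hU)
  have h1 : ((Finset.range W).filter fun i : ℕ => s ≤ r (sh U i)).card ≤ F.ncard * L₀ := by
    have a1 : ((Finset.range W).filter fun i : ℕ => s ≤ r (sh U i)) ⊆
        (hfin.toFinset ×ˢ Finset.range L₀).image fun z : ℤ × ℕ => (z.1 - z.2).toNat := by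
      intro i hi
      obtain ⟨t, t1, t2⟩ := hB U hU i (Finset.mem_filter.1 hi).2
      refine Finset.mem_image.2 ⟨((i : ℤ) + t, t), Finset.mem_product.2
        ⟨hfin.mem_toFinset.2 t2, Finset.mem_range.2 t1⟩, ?_⟩
      simp
    refine (Finset.card_le_card a1).trans (Finset.card_image_le.trans ?_)
    rw [Finset.card_product, Finset.card_range, ← Set.ncard_eq_toFinset_card _ hfin]
    exact Nat.mul_le_mul_right _ hcard
  calc ∏ i ∈ Finset.range W, r (sh U i)
      ≤ ∏ i ∈ Finset.range W, (if s ≤ r (sh U (i : ℕ)) then max 1 (C / s) else 1) * s := by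
        refine Finset.prod_le_prod (fun i _ => (hr _ (sh_le hU _)).1.le) fun i _ => ?_
        split_ifs with h
        · exact (hC _ (sh_le hU _)).2.trans ((div_le_iff₀ hs).1 (le_max_right _ _))
        · rw [one_mul]
          exact (not_le.1 h).le
    _ = (max 1 (C / s)) ^ ((Finset.range W).filter fun i : ℕ => s ≤ r (sh U i)).card * s ^ W := by
        rw [Finset.prod_mul_distrib, Finset.prod_const, Finset.card_range, Finset.prod_ite,
          Finset.prod_const, Finset.prod_const_one, mul_one]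
    _ ≤ _ := mul_le_mul_of_nonneg_right (pow_le_pow_right₀ hM h1) (by positivity)

end Pool.Agent.H35S

namespace Pool.Agent.H35S

open IntermediateField Filter Topology

universe u

/-- Take `lo`, `hi` the `liminf` and `limsup` of `(max 1 (H n)) ^ (1/n)` (bounded by the ratio
bound), or `exp` of those of `log (H n) / n`. For `n = m q + t`, `t < m`,
`C^(-m) H (m q) ≤ H n ≤ C^m H (m q)`. -/
theorem grow (H : ℕ → ℝ) {C : ℝ} (hC : 1 ≤ C) (h1 : ∀ᶠ n in atTop, 1 ≤ H n)
    (hr : ∀ᶠ n in atTop, H (n + 1) ≤ C * H n ∧ H n ≤ C * H (n + 1)) :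
    ∃ lo hi : ℝ, 1 ≤ lo ∧ lo ≤ hi ∧
      (∀ m : ℕ, 1 ≤ m → ∀ β, UB (fun n => H (m * n)) β → hi ^ m ≤ β) ∧
      (∀ m : ℕ, 1 ≤ m → ∀ β, LB (fun n => H (m * n)) β → β ≤ lo ^ m) ∧
      (lo = hi → Tendsto (fun n : ℕ => (max 1 (H n)) ^ (1 / (n : ℝ))) atTop (𝓝 lo)) := by
  obtain ⟨N, hN⟩ := eventually_atTop.1 (h1.and hr)
  have hc : 0 ≤ Real.log C := Real.log_nonneg hC
  have st : ∀ n, N ≤ n → ∀ t : ℕ, Real.log (H (n + t)) ≤ Real.log (H n) + Real.log C * t ∧
      Real.log (H n) ≤ Real.log (H (n + t)) + Real.log C * t := fun n hn t => by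
    induction t with
    | zero => simp
    | succ t ih =>
      obtain ⟨a1, a2, a3⟩ := hN (n + t) (by omega)
      have a4 := (hN (n + t + 1) (by omega)).1
      have b2 := Real.log_le_log (by linarith) a2
      have b3 := Real.log_le_log (by linarith) a3
      rw [Real.log_mul (by linarith) (by linarith)] at b2 b3
      rw [← add_assoc]
      push_cast
      constructor <;> linarith [ih.1, ih.2]
  let u : ℕ → ℝ := fun n => Real.log (H n) / n
  have u0 : ∀ᶠ n in atTop, 0 ≤ u n :=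
    h1.mono fun n hn => div_nonneg (Real.log_nonneg hn) n.cast_nonneg
  have u1 : ∀ᶠ n in atTop, u n ≤ Real.log (H N) + Real.log C := by
    filter_upwards [eventually_ge_atTop (N + 1)] with n hn
    obtain ⟨t, rfl⟩ := Nat.exists_eq_add_of_le (show N ≤ n by omega)
    have h2 : (1 : ℝ) ≤ (N + t : ℕ) := by exact_mod_cast (by omega : 1 ≤ N + t)
    have h3 : (t : ℝ) ≤ (N + t : ℕ) := by exact_mod_cast Nat.le_add_left t N
    have h4 := Real.log_nonneg (hN N le_rfl).1
    rw [div_le_iff₀ (by linarith)]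
    nlinarith [(st N le_rfl t).1]
  have bl : IsBoundedUnder (· ≥ ·) atTop u := isBoundedUnder_of_eventually_ge u0
  have bu : IsBoundedUnder (· ≤ ·) atTop u := isBoundedUnder_of_eventually_le u1
  have l0 : 0 ≤ liminf u atTop := le_liminf_of_le bu.isCoboundedUnder_ge u0
  have sm : ∀ a ε : ℝ, 0 < ε → ∀ᶠ n : ℕ in atTop, a ≤ ε * n := fun a ε hε =>
    (tendsto_natCast_atTop_atTop.const_mul_atTop hε).eventually_ge_atTop a
  have dv : ∀ m : ℕ, 1 ≤ m → ∀ᶠ n : ℕ in atTop, 1 ≤ n / m ∧ N ≤ m * (n / m) := fun m hm => by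
    filter_upwards [(Nat.tendsto_div_const_atTop (by omega : m ≠ 0)).eventually_ge_atTop (N + 1)]
      with n hn
    exact ⟨by omega, by nlinarith⟩
  refine ⟨Real.exp (liminf u atTop), Real.exp (limsup u atTop), Real.one_le_exp l0,
    Real.exp_le_exp.2 (liminf_le_limsup bu bl), fun m hm β hβ => ?_, fun m hm β hβ => ?_,
    fun h => ?_⟩
  · by_contra hcon
    have hm' : (0 : ℝ) < m := by exact_mod_cast hm
    obtain ⟨β', b1, b2⟩ := exists_between (max_lt (not_le.1 hcon) (pow_pos (Real.exp_pos _) m))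
    obtain ⟨b3, b4⟩ := max_lt_iff.1 b1
    rw [← Real.exp_nat_mul, ← Real.log_lt_iff_lt_exp b4, ← div_lt_iff₀' hm'] at b2
    obtain ⟨y, y1, y2⟩ := exists_between b2
    refine y2.not_ge (limsup_le_of_le bl.isCoboundedUnder_le ?_)
    filter_upwards [(Nat.tendsto_div_const_atTop (by omega : m ≠ 0)).eventually (hβ β' b3),
      dv m hm, sm (Real.log C * m) _ (sub_pos.2 y1), eventually_ge_atTop 1] with n c1 c2 c3 c4
    have c5 := (hN _ c2.2).1
    have c6 := Real.log_le_log (by linarith) c1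
    have c7 := (st _ c2.2 (n % m)).1
    rw [Real.log_pow] at c6
    rw [Nat.div_add_mod] at c7
    have d1 : ((n % m : ℕ) : ℝ) ≤ m := by exact_mod_cast (Nat.mod_lt n hm).le
    have d2 : (m : ℝ) * (n / m : ℕ) ≤ n := by exact_mod_cast Nat.mul_div_le n m
    have d3 : (1 : ℝ) ≤ (n / m : ℕ) := by exact_mod_cast c2.1
    have d4 : 0 ≤ Real.log β' := by nlinarith [Real.log_nonneg c5]
    have d5 : ((n / m : ℕ) : ℝ) * Real.log β' ≤ Real.log β' / m * n := by
      rw [div_mul_eq_mul_div, le_div_iff₀ hm']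
      nlinarith
    rw [div_le_iff₀ (by exact_mod_cast c4)]
    nlinarith
  · by_contra hcon
    have hm' : (0 : ℝ) < m := by exact_mod_cast hm
    obtain ⟨β', b1, b2⟩ := exists_between (not_le.1 hcon)
    have b4 : 0 < β' := (pow_pos (Real.exp_pos _) m).trans b1
    rw [← Real.exp_nat_mul, ← Real.lt_log_iff_exp_lt b4, ← lt_div_iff₀' hm'] at b1
    obtain ⟨y, y1, y2⟩ := exists_between b1
    have d4 : 0 ≤ Real.log β' := by
      have := (lt_div_iff₀ hm').1 (l0.trans_lt b1)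
      linarith
    refine y1.not_ge (le_liminf_of_le bu.isCoboundedUnder_ge ?_)
    filter_upwards [(Nat.tendsto_div_const_atTop (by omega : m ≠ 0)).eventually (hβ β' b4 b2),
      dv m hm, sm (Real.log β' + Real.log C * m) _ (sub_pos.2 y2), eventually_ge_atTop 1]
      with n c1 c2 c3 c4
    have c6 := Real.log_le_log (pow_pos b4 _) c1
    have c7 := (st _ c2.2 (n % m)).2
    rw [Real.log_pow] at c6
    rw [Nat.div_add_mod] at c7
    have d1 : ((n % m : ℕ) : ℝ) ≤ m := by exact_mod_cast (Nat.mod_lt n hm).le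
    have d2 : (n : ℝ) ≤ m * ((n / m : ℕ) + 1) := by exact_mod_cast (Nat.lt_mul_div_succ n hm).le
    have d5 : Real.log β' / m * n ≤ ((n / m : ℕ) + 1) * Real.log β' := by
      rw [div_mul_eq_mul_div, div_le_iff₀ hm']
      nlinarith
    rw [le_div_iff₀ (by exact_mod_cast c4)]
    nlinarith
  · refine ((Real.continuous_exp.tendsto _).comp (tendsto_of_liminf_eq_limsup rfl
      (Real.exp_injective h).symm bu bl)).congr' (h1.mono fun n hn => ?_)
    simp only [Function.comp, u]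
    rw [max_eq_right hn, Real.rpow_def_of_pos (by linarith), mul_one_div]

end Pool.Agent.H35S

namespace Pool.Agent.H35S

open IntermediateField Filter Topology

universe u

theorem Gro_small {u : ℕ → ℝ} {K : ℝ} (h : ∀ᶠ n in atTop, |u n| ≤ K) :
    Tendsto (fun n : ℕ => u n / n) atTop (𝓝 0) := by
  refine squeeze_zero_norm' ?_ (tendsto_const_div_atTop_nhds_zero_nat K)
  filter_upwards [h] with n hn
  rw [Real.norm_eq_abs, abs_div, Nat.abs_cast]
  exact div_le_div_of_nonneg_right hn (Nat.cast_nonneg n)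

theorem Gro_exp (x : ℝ) (n : ℕ) :
    (max 1 x) ^ (1 / (n : ℝ)) = Real.exp (Real.log (max 1 x) / n) := by
  rw [Real.rpow_def_of_pos (lt_of_lt_of_le one_pos (le_max_left _ _)), mul_one_div]

theorem Gro_log {x y C : ℝ} (hx : 0 < x) (hy : 0 < y) (hC : 0 < C) (h1 : x ≤ C * y)
    (h2 : y ≤ C * x) : |Real.log x - Real.log y| ≤ Real.log C := by
  have a := Real.log_le_log hx h1
  have b := Real.log_le_log hy h2
  rw [Real.log_mul hC.ne' hy.ne'] at a
  rw [Real.log_mul hC.ne' hx.ne'] at b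
  rw [abs_le]
  constructor <;> linarith

/-- Convergence of the ratios along a progression. -/
theorem grow_prog (H : ℕ → ℝ) {C : ℝ} (hC : 1 ≤ C) (h1 : ∀ᶠ n in atTop, 1 ≤ H n)
    (hr : ∀ᶠ n in atTop, H (n + 1) ≤ C * H n ∧ H n ≤ C * H (n + 1)) (n₀ e : ℕ) (he : 1 ≤ e)
    (ρ : ℝ) (hρ : Tendsto (fun j : ℕ => H (n₀ + e * (j + 1)) / H (n₀ + e * j)) atTop (𝓝 ρ)) :
    ∃ α : ℝ, Tendsto (fun n : ℕ => (max 1 (H n)) ^ (1 / (n : ℝ))) atTop (𝓝 α) := by
  obtain ⟨N, hN⟩ := eventually_atTop.1 (h1.and hr)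
  have hp : ∀ n, N ≤ n → 0 < H n := fun n hn => lt_of_lt_of_le one_pos (hN n hn).1
  have hL := Real.log_nonneg hC
  have key : ∀ m, N ≤ m → ∀ t : ℕ,
      |Real.log (H (m + t)) - Real.log (H m)| ≤ t * Real.log C := by
    intro m hm t
    induction t with
    | zero => simp
    | succ t ih =>
      have a := Gro_log (hp (m + t + 1) (by omega)) (hp (m + t) (by omega)) (by linarith)
        (hN (m + t) (by omega)).2.1 (hN (m + t) (by omega)).2.2
      have b := abs_sub_le (Real.log (H (m + t + 1))) (Real.log (H (m + t))) (Real.log (H m))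
      rw [← add_assoc]
      push_cast
      linarith
  have hge : ∀ j, N ≤ j → N ≤ n₀ + e * j := fun j hj =>
    hj.trans ((Nat.le_mul_of_pos_left j he).trans (Nat.le_add_left _ _))
  have hd : ∀ j, N ≤ j → Real.log (H (n₀ + e * (j + 1)) / H (n₀ + e * j)) =
      Real.log (H (n₀ + e * (j + 1))) - Real.log (H (n₀ + e * j)) := fun j hj =>
    Real.log_div (hp _ (hge _ (by omega))).ne' (hp _ (hge _ hj)).ne'
  have hρ0 : 0 < ρ := by
    refine lt_of_lt_of_le (Real.exp_pos (-(e * Real.log C))) (ge_of_tendsto hρ ?_)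
    filter_upwards [eventually_ge_atTop N] with j hj
    rw [← Real.le_log_iff_exp_le (div_pos (hp _ (hge _ (by omega))) (hp _ (hge _ hj))), hd j hj,
      mul_add, mul_one, ← add_assoc]
    exact (abs_le.1 (key _ (hge j hj) e)).1
  let a : ℕ → ℝ := fun j => Real.log (H (n₀ + e * j))
  have t1 : Tendsto (fun j => a (j + 1) - a j) atTop (𝓝 (Real.log ρ)) := by
    refine (hρ.log hρ0.ne').congr' ?_
    filter_upwards [eventually_ge_atTop N] with j hj
    exact hd j hj
  have t2 : Tendsto (fun j : ℕ => a j / j) atTop (𝓝 (Real.log ρ)) := by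
    have := t1.cesaro.add (tendsto_const_div_atTop_nhds_zero_nat (a 0))
    rw [add_zero] at this
    refine this.congr fun j => ?_
    rw [Finset.sum_range_sub]
    ring
  let J : ℕ → ℕ := fun n => (n - n₀) / e
  have tJ : Tendsto J atTop atTop :=
    (Nat.tendsto_div_const_atTop (by omega)).comp (tendsto_sub_atTop_nat n₀)
  have hJ : ∀ n, n₀ ≤ n → n = n₀ + e * J n + (n - n₀) % e := fun n hn => by
    have := Nat.div_add_mod (n - n₀) e
    simp only [J]
    omega
  have hm : ∀ n, (((n - n₀) % e : ℕ) : ℝ) ≤ e := fun n => by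
    exact_mod_cast (Nat.mod_lt _ (by omega)).le
  have t3 : Tendsto (fun n : ℕ => ((n₀ : ℝ) + ((n - n₀) % e : ℕ)) / n) atTop (𝓝 0) := by
    refine Gro_small (K := n₀ + e) (Eventually.of_forall fun n => ?_)
    rw [abs_of_nonneg (by positivity)]
    linarith [hm n]
  have t4 : Tendsto (fun n : ℕ => (Real.log (H n) - a (J n)) / n) atTop (𝓝 0) := by
    refine Gro_small (K := e * Real.log C) ?_
    filter_upwards [eventually_ge_atTop n₀, tJ.eventually_ge_atTop N] with n hn hn'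
    have := key _ (hge _ hn') ((n - n₀) % e)
    rw [← hJ n hn] at this
    exact this.trans (mul_le_mul_of_nonneg_right (hm n) hL)
  have t5 := (((t2.comp tJ).mul (t3.const_sub 1)).div_const (e : ℝ)).add t4
  refine ⟨_, (Real.continuous_exp.tendsto _ |>.comp t5).congr' ?_⟩
  filter_upwards [eventually_ge_atTop n₀, tJ.eventually_ge_atTop 1, eventually_ge_atTop N,
    eventually_ge_atTop 1] with n hn hn' hn'' hn1
  rw [Gro_exp, max_eq_right (hN n hn'').1]
  simp only [Function.comp]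
  congr 1
  have e1 : (n : ℝ) = n₀ + e * (J n : ℕ) + ((n - n₀) % e : ℕ) := by exact_mod_cast hJ n hn
  have e2 : (0 : ℝ) < (J n : ℕ) := by exact_mod_cast hn'
  have e3 : (0 : ℝ) < e := by exact_mod_cast he
  have e4 : (0 : ℝ) < n := by exact_mod_cast hn1
  have e5 : 1 - ((n₀ : ℝ) + ((n - n₀) % e : ℕ)) / n = e * (J n : ℕ) / n := by
    rw [eq_div_iff e4.ne', sub_mul, div_mul_cancel₀ _ e4.ne']
    linarith
  rw [e5]
  field_simp
  ring

theorem tendsto_of_comparable {H H' : ℕ → ℝ} {c α : ℝ}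
    (h : ∀ n, H n ≤ c * max 1 (H' n) ∧ H' n ≤ c * max 1 (H n))
    (hα : Tendsto (fun n : ℕ => (max 1 (H n)) ^ (1 / (n : ℝ))) atTop (𝓝 α)) :
    Tendsto (fun n : ℕ => (max 1 (H' n)) ^ (1 / (n : ℝ))) atTop (𝓝 α) := by
  have k : ∀ x y : ℝ, x ≤ c * max 1 y → max 1 x ≤ max 1 c * max 1 y := fun x y hx =>
    max_le (one_le_mul_of_one_le_of_one_le (le_max_left _ _) (le_max_left _ _))
      (hx.trans (mul_le_mul_of_nonneg_right (le_max_right _ _)
        (zero_le_one.trans (le_max_left _ _))))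
  have p : ∀ x : ℝ, 0 < max 1 x := fun x => lt_of_lt_of_le one_pos (le_max_left _ _)
  have t1 : Tendsto (fun n : ℕ => (Real.log (max 1 (H' n)) - Real.log (max 1 (H n))) / n) atTop
      (𝓝 0) :=
    Gro_small (Eventually.of_forall fun n =>
      Gro_log (p _) (p _) (p c) (k _ _ (h n).2) (k _ _ (h n).1))
  have t2 := hα.mul ((Real.continuous_exp.tendsto _).comp t1)
  rw [Real.exp_zero, mul_one] at t2
  refine t2.congr fun n => ?_
  simp only [Function.comp]
  rw [Gro_exp, Gro_exp, ← Real.exp_add]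
  congr 1
  ring

theorem tendsto_of_bounded {H : ℕ → ℝ} {c : ℝ} (h : ∀ n, H n ≤ c) :
    Tendsto (fun n : ℕ => (max 1 (H n)) ^ (1 / (n : ℝ))) atTop (𝓝 1) := by
  refine tendsto_of_comparable (H := fun _ => 0) (c := max 1 c) (fun n => ⟨by positivity, ?_⟩) ?_
  · rw [max_eq_left zero_le_one, mul_one]
    exact (h n).trans (le_max_right _ _)
  · simp

end Pool.Agent.H35S

namespace Pool.Agent.H35S

open IntermediateField Filter Topology

universe u

theorem Num0_big (K g : ℝ) (hg : 0 < g) :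
    ∀ᶠ u : ℕ in atTop, K < Real.exp (g * 2 ^ u) := by
  have h1 : Tendsto (fun u : ℕ => (2 : ℝ) ^ u) atTop atTop :=
    tendsto_pow_atTop_atTop_of_one_lt (by norm_num)
  exact (Real.tendsto_exp_atTop.comp (h1.const_mul_atTop hg)).eventually_gt_atTop K

theorem Num0_cond (δ : ℕ → ℝ) {D ℓ v g e : ℝ} (t r : ℕ) (hD : 1 ≤ D)
    (hl : ℓ = v + g) (hg : 0 < g) (he : 0 < e) (hDv : D ≤ Real.exp (ℓ + v))
    (heR : 34 * e * 2 ^ r ≤ g) (hR : 4 * ℓ ≤ g * 2 ^ r)
    (hmax : Real.exp ((v - 2 * e) * 2 ^ t) ≤ max 1 (D ^ (2 ^ t) / (8 * δ (2 ^ t))))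
    (hup : ∀ᶠ t : ℕ in atTop, δ (2 ^ t) ≤ Real.exp ((ℓ + e) * 2 ^ t)) :
    NumCond (D ^ (2 ^ t)) (fun n => δ (2 ^ t * n)) (Real.exp ((v + 8 * e) * 2 ^ t))
      (Real.exp ((ℓ - 4 * e) * 2 ^ t)) := by
  intro c d hc hd
  have hup' : ∀ᶠ u : ℕ in atTop, δ (2 ^ (u + (t + r))) ≤ Real.exp ((ℓ + e) * 2 ^ (u + (t + r))) :=
    (tendsto_add_atTop_nat (t + r)).eventually hup
  obtain ⟨u, ⟨hu1, hu2⟩, hu3⟩ := ((hup'.and (Num0_big (16 / c) (g / 4) (by positivity))).and
    (Num0_big (2 * d) (g / 4) (by positivity))).exists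
  obtain ⟨R, hRdef⟩ : ∃ R : ℕ, 2 ^ r = R + 1 := ⟨2 ^ r - 1, by
    have : 0 < 2 ^ r := by positivity
    omega⟩
  have hRr : (2 : ℝ) ^ r = (R : ℝ) + 1 := by exact_mod_cast hRdef
  have hR0 : (0 : ℝ) ≤ R := by positivity
  have hsum : R * 2 ^ u + 2 ^ u = 2 ^ r * 2 ^ u := by rw [hRdef]; ring
  have hm1 : (1 : ℝ) ≤ 2 ^ t := one_le_pow₀ (by norm_num)
  have hJ : (0 : ℝ) < 2 ^ u := by positivity
  have hmul : 2 ^ t * (R * 2 ^ u + 2 ^ u) = 2 ^ (u + (t + r)) := by rw [hsum]; ring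
  have hmulR : (2 : ℝ) ^ (u + (t + r)) = 2 ^ t * (((R : ℝ) + 1) * 2 ^ u) := by
    rw [← hRr]; ring
  rw [hRr] at heR hR
  set m : ℝ := 2 ^ t with hm
  set J : ℝ := 2 ^ u with hJdef
  have hmJ : J ≤ m * J := le_mul_of_one_le_left hJ.le hm1
  have heR0 : 0 ≤ e * R := mul_nonneg he.le hR0
  have hgR0 : 0 ≤ g * R := mul_nonneg hg.le hR0
  have heRR : 34 * e * R ≤ g * R := mul_le_mul_of_nonneg_right (by linarith) hR0
  refine ⟨R * 2 ^ u, 2 ^ u, ?_, ?_, ?_⟩
  · have : 0 < 2 ^ u := by positivity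
    omega
  · simp only [mul_one]
    rw [hmul]
    have h1 : Real.exp ((v - 2 * e) * m) / Real.exp ((v + 8 * e) * m) ≤
        max 1 (D ^ (2 ^ t) / (8 * δ (2 ^ t))) / Real.exp ((v + 8 * e) * m) :=
      div_le_div_of_nonneg_right hmax (Real.exp_pos _).le
    have h2 := pow_le_pow_left₀ (by positivity) h1 (R * 2 ^ u)
    have h3 : c * Real.exp ((ℓ - 4 * e) * m) ^ (R * 2 ^ u + 2 ^ u) *
        (Real.exp ((v - 2 * e) * m) / Real.exp ((v + 8 * e) * m)) ^ (R * 2 ^ u) *
        (Real.exp ((ℓ - 4 * e) * m) / Real.exp ((v + 8 * e) * m)) ^ (2 ^ u) =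
        c * (Real.exp ((ℓ + e) * (m * ((R + 1) * J))) *
          Real.exp (m * J * (g - 15 * e * R - 17 * e))) := by
      rw [← Real.exp_sub, ← Real.exp_sub, ← Real.exp_nat_mul, ← Real.exp_nat_mul,
        ← Real.exp_nat_mul, mul_assoc, mul_assoc, ← Real.exp_add, ← Real.exp_add,
        ← Real.exp_add]
      congr 2
      push_cast
      rw [← hJdef, hl]; ring
    have h4 : g / 4 * J ≤ m * J * (g - 15 * e * R - 17 * e) := by
      have a1 : g / 4 ≤ g - 15 * e * R - 17 * e := by linarith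
      have a2 : g / 4 * J ≤ g / 4 * (m * J) := by gcongr
      have a3 : g / 4 * (m * J) ≤ (g - 15 * e * R - 17 * e) * (m * J) := by gcongr
      linarith
    have h5 : 16 < c * Real.exp (m * J * (g - 15 * e * R - 17 * e)) := by
      have a1 := lt_of_lt_of_le hu2 (Real.exp_le_exp.2 h4)
      rw [div_lt_iff₀ hc] at a1
      linarith
    rw [hmulR] at hu1
    have hE := Real.exp_pos ((ℓ + e) * (m * ((R + 1) * J)))
    calc 16 * δ (2 ^ (u + (t + r))) ≤ 16 * Real.exp ((ℓ + e) * (m * ((R + 1) * J))) := by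
          linarith
      _ < c * (Real.exp ((ℓ + e) * (m * ((R + 1) * J))) *
          Real.exp (m * J * (g - 15 * e * R - 17 * e))) := by
          have := mul_lt_mul_of_pos_right h5 hE
          linarith
      _ = _ := h3.symm
      _ ≤ _ := by gcongr
  · have h1 : (D ^ (2 ^ t)) ^ (2 ^ u) ≤ Real.exp ((ℓ + v) * (m * J)) := by
      rw [← pow_mul]
      have := pow_le_pow_left₀ (by linarith) hDv (2 ^ t * 2 ^ u)
      rw [← Real.exp_nat_mul] at this
      refine this.trans (le_of_eq ?_)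
      congr 1
      push_cast
      ring
    have h3 : Real.exp ((ℓ - 4 * e) * m) ^ (R * 2 ^ u + 2 ^ u) =
        Real.exp (m * J * ((g - 12 * e) * (R + 1) - ℓ + 8 * e)) *
          Real.exp ((ℓ + v) * (m * J)) * Real.exp ((v + 8 * e) * m) ^ (R * 2 ^ u) := by
      rw [← Real.exp_nat_mul, ← Real.exp_nat_mul, ← Real.exp_add, ← Real.exp_add]
      congr 1
      push_cast
      rw [← hJdef, hl]; ring
    have h4 : g / 4 * J ≤ m * J * ((g - 12 * e) * (R + 1) - ℓ + 8 * e) := by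
      have a1 : g / 4 ≤ (g - 12 * e) * (R + 1) - ℓ + 8 * e := by linarith
      have a2 : g / 4 * J ≤ g / 4 * (m * J) := by gcongr
      have a3 : g / 4 * (m * J) ≤ ((g - 12 * e) * (R + 1) - ℓ + 8 * e) * (m * J) := by gcongr
      linarith
    have h5 := lt_of_lt_of_le hu3 (Real.exp_le_exp.2 h4)
    rw [h3]
    have hp : 0 < Real.exp ((v + 8 * e) * m) ^ (R * 2 ^ u) := by positivity
    refine mul_lt_mul_of_pos_right ?_ hp
    calc 2 * d * (D ^ (2 ^ t)) ^ (2 ^ u) ≤ 2 * d * Real.exp ((ℓ + v) * (m * J)) := by gcongr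
      _ < _ := mul_lt_mul_of_pos_right h5 (Real.exp_pos _)

/-- Choice of parameters. Let `v = max 0 (log D - ℓ)`, `g = ℓ - v > 0`. Choose `r` with
`2^(-r) (v + g) < g / 4`, then `e₂ ≤ e₀` much smaller than `g 2^(-r)`, `e = e₂ / 8`, `m = 2^t` large with
`δ (2m) ≥ exp ((ℓ - e) 2m)`, `δ m ≤ exp ((ℓ + e) m)`, `exp (e m) ≥ 8`; `s = exp ((v + e₂) m)`,
`Sg = exp ((ℓ - 4e) m)`. For `NumCond` take `M = 2^t'` large, `j = M / 2^r`, `i = M - j`, and use
`max 1 (D^m / (8 δ m)) ≥ exp ((v - 2e) m)`, `δ (m M) ≤ exp ((ℓ + e) m M)`, `D ≤ exp (ℓ + v)`. -/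
theorem exists_params (δ : ℕ → ℝ) {D ℓ : ℝ} (hD : 1 ≤ D) (hδ : ∀ n, 1 ≤ δ n)
    (hup : ∀ ε > 0, ∀ᶠ t : ℕ in atTop, δ (2 ^ t) ≤ Real.exp ((ℓ + ε) * 2 ^ t))
    (hlo : ∀ ε > 0, ∃ᶠ t : ℕ in atTop, Real.exp ((ℓ - ε) * 2 ^ t) ≤ δ (2 ^ t))
    (hg : max 0 (Real.log D - ℓ) < ℓ) {e₀ : ℝ} (he₀ : 0 < e₀) :
    ∃ (m : ℕ) (s Sg : ℝ), 1 ≤ m ∧ 0 < s ∧ s < Sg ∧
      s ≤ Real.exp ((max 0 (Real.log D - ℓ) + e₀) * m) ∧ Real.exp ((ℓ - e₀) * m) ≤ Sg ∧
      Sg ≤ δ (2 * m) / (4 * δ m) - D ^ m / s ∧ NumCond (D ^ m) (fun n => δ (m * n)) s Sg := by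
  set v := max 0 (Real.log D - ℓ) with hv
  have hv0 : 0 ≤ v := le_max_left _ _
  have hv1 : Real.log D - ℓ ≤ v := le_max_right _ _
  obtain ⟨g, hgdef⟩ : ∃ g, g = ℓ - v := ⟨_, rfl⟩
  have hg0 : 0 < g := by linarith
  have hl : ℓ = v + g := by linarith
  have hD0 : 0 < D := by linarith
  have hDv : D ≤ Real.exp (ℓ + v) := by
    rw [← Real.exp_log hD0]; exact Real.exp_le_exp.2 (by linarith)
  obtain ⟨r, hr⟩ := pow_unbounded_of_one_lt (4 * ℓ / g) (by norm_num : (1 : ℝ) < 2)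
  rw [div_lt_iff₀ hg0] at hr
  have hr1 : (1 : ℝ) ≤ 2 ^ r := one_le_pow₀ (by norm_num)
  obtain ⟨e, he, he1, he2⟩ : ∃ e : ℝ, 0 < e ∧ 8 * e ≤ e₀ ∧ 34 * e * 2 ^ r ≤ g := by
    refine ⟨min (e₀ / 8) (g / (34 * 2 ^ r)), by positivity, ?_, ?_⟩
    · have := min_le_left (e₀ / 8) (g / (34 * 2 ^ r)); linarith
    · have := min_le_right (e₀ / 8) (g / (34 * 2 ^ r))
      rw [le_div_iff₀ (by positivity)] at this
      linarith
  have heg : 34 * e ≤ g := by
    have := mul_le_mul_of_nonneg_left hr1 (by positivity : (0 : ℝ) ≤ 34 * e)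
    linarith
  have hA : ∀ᶠ t : ℕ in atTop, δ (2 ^ t) ≤ Real.exp ((ℓ + e) * 2 ^ t) ∧
      8 < Real.exp (e * 2 ^ t) := (hup e he).and (Num0_big 8 e he)
  obtain ⟨T, hT⟩ := eventually_atTop.1 hA
  obtain ⟨t', ht', hlo'⟩ := frequently_atTop.1 (hlo e he) (T + 1)
  obtain ⟨t, rfl⟩ : ∃ t, t' = t + 1 := ⟨t' - 1, by omega⟩
  obtain ⟨hu, h8⟩ := hT t (by omega)
  have hm0 : (0 : ℝ) < 2 ^ t := by positivity
  have hcast : ((2 ^ t : ℕ) : ℝ) = 2 ^ t := by push_cast; ring
  have hδm := hδ (2 ^ t)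
  have hDm : D ^ (2 ^ t) ≤ Real.exp ((ℓ + v) * 2 ^ t) := by
    have := pow_le_pow_left₀ hD0.le hDv (2 ^ t)
    rw [← Real.exp_nat_mul, hcast, mul_comm] at this
    exact this
  refine ⟨2 ^ t, Real.exp ((v + 8 * e) * 2 ^ t), Real.exp ((ℓ - 4 * e) * 2 ^ t),
    Nat.one_le_two_pow, Real.exp_pos _, ?_, ?_, ?_, ?_, ?_⟩
  · exact Real.exp_lt_exp.2 (mul_lt_mul_of_pos_right (by linarith) hm0)
  · rw [hcast]; exact Real.exp_le_exp.2 (mul_le_mul_of_nonneg_right (by linarith) hm0.le)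
  · rw [hcast]; exact Real.exp_le_exp.2 (mul_le_mul_of_nonneg_right (by linarith) hm0.le)
  · have h2 : 2 * 2 ^ t = 2 ^ (t + 1) := by ring
    rw [h2]
    have a1 : D ^ (2 ^ t) / Real.exp ((v + 8 * e) * 2 ^ t) ≤ Real.exp ((ℓ - 4 * e) * 2 ^ t) := by
      rw [div_le_iff₀ (Real.exp_pos _), ← Real.exp_add]
      refine hDm.trans (Real.exp_le_exp.2 ?_)
      have := mul_pos he hm0
      linarith
    have a2 : 2 * Real.exp ((ℓ - 4 * e) * 2 ^ t) ≤ δ (2 ^ (t + 1)) / (4 * δ (2 ^ t)) := by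
      rw [le_div_iff₀ (by positivity)]
      refine le_trans ?_ hlo'
      have b1 : Real.exp ((ℓ - e) * 2 ^ (t + 1)) = Real.exp ((ℓ - 4 * e) * 2 ^ t) *
          (Real.exp (e * 2 ^ t) * Real.exp ((ℓ + e) * 2 ^ t)) := by
        rw [← Real.exp_add, ← Real.exp_add]; congr 1; ring
      rw [b1]
      have b2 : 8 * δ (2 ^ t) ≤ Real.exp (e * 2 ^ t) * Real.exp ((ℓ + e) * 2 ^ t) :=
        mul_le_mul h8.le hu (by linarith) (Real.exp_pos _).le
      have b3 := mul_le_mul_of_nonneg_left b2 (Real.exp_pos ((ℓ - 4 * e) * 2 ^ t)).le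
      linarith
    linarith
  · refine Num0_cond δ t r hD hl hg0 he hDv he2 (by linarith) ?_ (hup e he)
    rcases le_total (Real.log D - ℓ) 0 with h | h
    · have : v = 0 := max_eq_left h
      refine le_trans ?_ (le_max_left _ _)
      rw [this]
      exact Real.exp_le_one_iff.2 (by have := mul_pos he hm0; linarith)
    · have hv2 : v = Real.log D - ℓ := max_eq_right h
      refine le_trans ?_ (le_max_right _ _)
      rw [le_div_iff₀ (by positivity)]
      have b0 : D ^ (2 ^ t) = Real.exp ((ℓ + v) * 2 ^ t) := by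
        rw [hv2, show ℓ + (Real.log D - ℓ) = Real.log D by ring, mul_comm, ← hcast,
          Real.exp_nat_mul, Real.exp_log hD0]
      have b1 : Real.exp ((ℓ + v) * 2 ^ t) = Real.exp ((v - 2 * e) * 2 ^ t) *
          (Real.exp (e * 2 ^ t) * Real.exp ((ℓ + e) * 2 ^ t)) := by
        rw [← Real.exp_add, ← Real.exp_add]; congr 1; ring
      have b2 : 8 * δ (2 ^ t) ≤ Real.exp (e * 2 ^ t) * Real.exp ((ℓ + e) * 2 ^ t) :=
        mul_le_mul h8.le hu (by linarith) (Real.exp_pos _).le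
      rw [b0, b1]
      exact mul_le_mul_of_nonneg_left b2 (Real.exp_pos _).le

end Pool.Agent.H35S

namespace Pool.Agent.H35S

open IntermediateField Filter Topology

universe u

/-- The upper growth rate along powers of two: `ℓ = limsup log (δ (2^k)) / 2^k` is finite since
`δ (2^(k+1)) ≤ 8 δ (2^k) (D C)^(2^k)`. -/
theorem exists_rate (δ : ℕ → ℝ) {D C : ℝ} (hD : 1 ≤ D) (hC : 1 ≤ C) (hδ : ∀ n, 1 ≤ δ n)
    (hrec : ∀ m : ℕ, 1 ≤ m → δ (2 * m) ≤ 4 * δ m * (D ^ m + 1) * C ^ m) :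
    ∃ ℓ : ℝ, 0 ≤ ℓ ∧ (∀ ε > 0, ∀ᶠ t : ℕ in atTop, δ (2 ^ t) ≤ Real.exp ((ℓ + ε) * 2 ^ t)) ∧
      ∀ ε > 0, ∃ᶠ t : ℕ in atTop, Real.exp ((ℓ - ε) * 2 ^ t) ≤ δ (2 ^ t) := by
  let a : ℕ → ℝ := fun t => Real.log (δ (2 ^ t)) / 2 ^ t
  have a0 : ∀ t, 0 ≤ a t := fun t => div_nonneg (Real.log_nonneg (hδ _)) (by positivity)
  obtain ⟨E, E1, E2⟩ : ∃ E : ℝ, δ 1 ≤ E ∧ 8 * D * C ≤ E := ⟨max _ _, le_max_left _ _, le_max_right _ _⟩
  have E0 : 0 < E := lt_of_lt_of_le (by positivity) E2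
  have key : ∀ t : ℕ, δ (2 ^ t) ≤ E ^ 2 ^ t := fun t => by
    induction t with
    | zero => simpa using E1
    | succ t ih =>
      have m1 : 1 ≤ 2 ^ t := Nat.one_le_two_pow
      have h1 := hrec _ m1
      rw [pow_succ', two_mul (2 ^ t), pow_add, ← two_mul]
      generalize 2 ^ t = m at *
      have h2 : (1 : ℝ) ≤ D ^ m := one_le_pow₀ hD
      have h3 : (8 : ℝ) ≤ 8 ^ m := le_self_pow₀ (by norm_num) (by omega)
      have h4 := hδ m
      calc _ ≤ _ := h1
        _ ≤ 4 * E ^ m * (D ^ m + D ^ m) * C ^ m := by gcongr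
        _ = E ^ m * (8 * D ^ m * C ^ m) := by ring
        _ ≤ E ^ m * (8 ^ m * D ^ m * C ^ m) := by gcongr
        _ ≤ _ := by rw [← mul_pow, ← mul_pow]; gcongr
  have a1 : ∀ t, a t ≤ Real.log E := fun t => by
    have := Real.log_le_log (by linarith [hδ (2 ^ t)]) (key t)
    rw [Real.log_pow] at this
    rw [div_le_iff₀' (by positivity)]
    exact_mod_cast this
  have b1 : IsBoundedUnder (· ≤ ·) atTop a := isBoundedUnder_of ⟨_, a1⟩
  have b2 : IsCoboundedUnder (· ≤ ·) atTop a := isCoboundedUnder_le_of_le atTop a0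
  refine ⟨limsup a atTop, le_limsup_of_frequently_le (.of_forall a0) b1, fun ε hε => ?_,
    fun ε hε => ?_⟩
  · filter_upwards [eventually_lt_of_limsup_lt (lt_add_of_pos_right _ hε) b1] with t ht
    rw [div_lt_iff₀ (by positivity)] at ht
    exact (Real.log_le_iff_le_exp (by linarith [hδ (2 ^ t)])).1 ht.le
  · refine (frequently_lt_of_lt_limsup b2 (sub_lt_self _ hε)).mono fun t ht => ?_
    rw [lt_div_iff₀ (by positivity)] at ht
    exact (Real.le_log_iff_exp_le (by linarith [hδ (2 ^ t)])).1 ht.le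

theorem Num_le {x ℓ : ℝ} (h : ∀ ε > 0, ∀ᶠ t : ℕ in atTop,
    Real.exp (x * 2 ^ t) ≤ 8 * Real.exp ((ℓ + ε) * 2 ^ t)) : x ≤ ℓ := by
  by_contra hc
  have he : 0 < (x - ℓ) / 2 := by linarith
  obtain ⟨t, h1, h2⟩ := ((h _ he).and (((tendsto_pow_atTop_atTop_of_one_lt
    (one_lt_two (α := ℝ))).const_mul_atTop he).eventually_ge_atTop 8)).exists
  have h3 := Real.add_one_le_exp ((x - ℓ) / 2 * 2 ^ t)
  have h4 : x * 2 ^ t = (x - ℓ) / 2 * 2 ^ t + (ℓ + (x - ℓ) / 2) * 2 ^ t := by ring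
  rw [h4, Real.exp_add] at h1
  have := le_of_mul_le_mul_right h1 (Real.exp_pos _)
  linarith

/-- With `ℓ` from `exists_rate`: `h1` gives `hi ≤ exp ℓ`, `h2` gives `exp v ≤ lo`. If `lo < hi`
take `e₀` with `exp (v + e₀) < hi`, `lo < exp (ℓ - e₀)` in `exists_params`. -/
theorem numer (δ : ℕ → ℝ) {D C lo hi : ℝ} (hD : 1 ≤ D) (hC : 1 ≤ C) (hδ : ∀ n, 1 ≤ δ n)
    (hrec : ∀ m : ℕ, 1 ≤ m → δ (2 * m) ≤ 4 * δ m * (D ^ m + 1) * C ^ m)
    (hlo : 1 ≤ lo) (hle : lo ≤ hi)
    (h1 : ∀ m : ℕ, 1 ≤ m → hi ^ m ≤ 8 * δ m)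
    (h2 : ∀ m : ℕ, 1 ≤ m → D ^ m / (8 * δ m) ≤ lo ^ m)
    (h3 : ∀ m : ℕ, 1 ≤ m → ∀ s Sg : ℝ, 0 < s → s < Sg →
      Sg ≤ δ (2 * m) / (4 * δ m) - D ^ m / s → NumCond (D ^ m) (fun n => δ (m * n)) s Sg →
      hi ^ m ≤ s ∨ Sg ≤ lo ^ m) : lo = hi := by
  by_contra hne
  obtain ⟨ℓ, -, hup, hdn⟩ := exists_rate δ hD hC hδ hrec
  have p : ∀ x : ℝ, 1 ≤ x → ∀ m : ℕ, Real.exp (Real.log x * m) = x ^ m := fun x hx m => by
    rw [mul_comm, Real.exp_nat_mul, Real.exp_log (by linarith)]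
  have l0 : 0 ≤ Real.log lo := Real.log_nonneg hlo
  have l1 : Real.log lo < Real.log hi := Real.log_lt_log (by linarith) (lt_of_le_of_ne hle hne)
  have l2 : Real.log hi ≤ ℓ := Num_le fun ε hε => by
    filter_upwards [hup ε hε] with t ht
    have := p hi (hlo.trans hle) (2 ^ t)
    push_cast at this
    linarith [h1 (2 ^ t) Nat.one_le_two_pow]
  have l3 : Real.log D - Real.log lo ≤ ℓ := Num_le fun ε hε => by
    filter_upwards [hup ε hε] with t ht
    have e1 := p D hD (2 ^ t)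
    have e2 := p lo hlo (2 ^ t)
    push_cast at e1 e2
    have h4 := h2 (2 ^ t) Nat.one_le_two_pow
    rw [div_le_iff₀ (by linarith [hδ (2 ^ t)])] at h4
    rw [sub_mul, Real.exp_sub, e1, e2, div_le_iff₀' (by positivity)]
    exact h4.trans (by gcongr)
  have l4 : max 0 (Real.log D - ℓ) ≤ Real.log lo := max_le l0 (by linarith)
  obtain ⟨m, s, Sg, m1, s0, s1, s2, s3, s4, s5⟩ := exists_params δ hD hδ hup hdn (by linarith)
    (e₀ := (Real.log hi - Real.log lo) / 2) (by linarith)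
  have m0 : (0 : ℝ) < m := by exact_mod_cast m1
  rcases h3 m m1 s Sg s0 s1 s4 s5 with h | h
  · have := h.trans s2
    rw [← p hi (hlo.trans hle), Real.exp_le_exp] at this
    linarith [le_of_mul_le_mul_right this m0]
  · have := s3.trans h
    rw [← p lo hlo, Real.exp_le_exp] at this
    linarith [le_of_mul_le_mul_right this m0]

end Pool.Agent.H35S

namespace Pool.Agent.H35S

open IntermediateField Filter Topology

universe u

open Height NumberField

theorem HtA_prod {K : Type*} [Field K] [NumberField K] (g : InfinitePlace K → ℝ) :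
    ∏ w : InfinitePlace K, g w ^ w.mult = ∏ φ : K →+* ℂ, g (InfinitePlace.mk φ) := by
  classical
  rw [← Finset.prod_fiberwise Finset.univ InfinitePlace.mk (fun φ => g (InfinitePlace.mk φ))]
  refine Finset.prod_congr rfl fun w _ => ?_
  rw [Finset.prod_congr rfl fun φ hφ => by rw [(Finset.mem_filter.1 hφ).2], Finset.prod_const,
    InfinitePlace.card_filter_mk_eq]

open Classical in
theorem HtA_card (F F' : Type*) [Field F] [NumberField F] [Field F'] [NumberField F']
    [Algebra F F'] (ψ : F →+* ℂ) :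
    (Finset.univ.filter fun φ : F' →+* ℂ => φ.comp (algebraMap F F') = ψ).card
      = Module.finrank F F' := by
  let _ := ψ.toAlgebra
  rw [← AlgHom.card F F' ℂ, ← Fintype.card_subtype]
  refine Fintype.card_congr
    { toFun := fun φ => { φ.1 with commutes' := fun c => RingHom.congr_fun φ.2 c }
      invFun := fun σ => ⟨σ.toRingHom, RingHom.ext fun c => σ.commutes c⟩
      left_inv := fun φ => rfl
      right_inv := fun σ => rfl }

theorem HtA_emb (F F' : Type*) [Field F] [NumberField F] [Field F'] [NumberField F']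
    [Algebra F F'] (g : (F →+* ℂ) → ℝ) :
    ∏ φ : F' →+* ℂ, g (φ.comp (algebraMap F F')) = (∏ ψ : F →+* ℂ, g ψ) ^ Module.finrank F F' := by
  classical
  rw [← Finset.prod_fiberwise Finset.univ (fun φ : F' →+* ℂ => φ.comp (algebraMap F F'))
    (fun φ => g (φ.comp (algebraMap F F'))), ← Finset.prod_pow]
  refine Finset.prod_congr rfl fun ψ _ => ?_
  rw [Finset.prod_congr rfl fun φ hφ => by rw [(Finset.mem_filter.1 hφ).2], Finset.prod_const]
  congr 1
  convert HtA_card F F' ψ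

theorem HtA_mul (F F' : Type*) [Field F] [NumberField F] [Field F'] [NumberField F']
    [Algebra F F'] {ι : Type*} [Finite ι] {x : ι → 𝓞 F} (hx : x ≠ 0) :
    mulHeight (fun i => algebraMap F F' (x i)) =
      mulHeight (fun i => (x i : F)) ^ Module.finrank F F' := by
  obtain ⟨i0, hi0⟩ := Function.ne_iff.1 hx
  have hi1 : (x i0 : F) ≠ 0 := by exact_mod_cast hi0
  have hi2 : algebraMap F F' (x i0) ≠ 0 := by simpa using hi1
  let y : ι → 𝓞 F' := fun i => algebraMap (𝓞 F) (𝓞 F') (x i)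
  have hy : ∀ i, (y i : F') = algebraMap F F' (x i) := fun i => rfl
  have hy0 : y ≠ 0 := Function.ne_iff.2 ⟨i0, fun h => hi2 (by rw [← hy, h]; rfl)⟩
  rw [NumberField.mulHeight_eq (Function.ne_iff.2 ⟨i0, hi2⟩),
    NumberField.mulHeight_eq (Function.ne_iff.2 ⟨i0, hi1⟩), mul_pow]
  congr 1
  · rw [HtA_prod (fun v => ⨆ i, v (algebraMap F F' (x i))), HtA_prod (fun v => ⨆ i, v (x i : F)),
      ← HtA_emb F F']
    rfl
  · have h1 := absNorm_mul_finprod_finitePlace_eq_one hx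
    have h2 := absNorm_mul_finprod_finitePlace_eq_one hy0
    have h3 : Ideal.span (Set.range y) = (Ideal.span (Set.range x)).map
        (algebraMap (𝓞 F) (𝓞 F')) := by
      rw [Ideal.map_span, ← Set.range_comp]
      rfl
    rw [h3, Ideal.absNorm_algebraMap, ← IsFractionRing.finrank_eq (𝓞 F) F (𝓞 F') F',
      Nat.cast_pow] at h2
    simp only [hy] at h2
    rw [eq_inv_of_mul_eq_one_right h1, eq_inv_of_mul_eq_one_right h2, inv_pow]

/-- Invariance of the height under finite extension. Plan: write `x = a / b` with `a, b ∈ 𝓞 F`,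
`logHeight₁_div_eq_logHeight`, `NumberField.mulHeight_eq`. Finite part:
`absNorm_mul_finprod_finitePlace_eq_one` and `absNorm (I.map _) = absNorm I ^ [F' : F]`
(`Ideal.absNorm_algebraMap` / `Ideal.relNorm_algebraMap`, `Ideal.absNorm_relNorm`). Infinite part:
`∏_w g(w)^mult = ∏_{φ : F' →+* ℂ} g(mk φ)` (`InfinitePlace.prod_eq_abs_norm` shows the technique,
`card_filter_mk_eq`) and every embedding of `F` has `[F' : F]` extensions. -/
theorem logHeight₁_algebraMap (F F' : Type*) [Field F] [NumberField F] [Field F'] [NumberField F']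
    [Algebra F F'] (x : F) :
    logHeight₁ (algebraMap F F' x) = Module.finrank F F' * logHeight₁ x := by
  obtain ⟨a, b, hb, rfl⟩ := IsFractionRing.div_surjective (A := 𝓞 F) x
  have h := HtA_mul F F' (x := ![a, b])
    (Function.ne_iff.2 ⟨1, by simpa using nonZeroDivisors.ne_zero hb⟩)
  have e1 : (fun i => algebraMap F F' ((![a, b] : Fin 2 → 𝓞 F) i)) =
      ![algebraMap F F' (algebraMap (𝓞 F) F a), algebraMap F F' (algebraMap (𝓞 F) F b)] := by
    funext i
    fin_cases i <;> rfl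
  have e2 : (fun i => (((![a, b] : Fin 2 → 𝓞 F) i : 𝓞 F) : F)) =
      ![algebraMap (𝓞 F) F a, algebraMap (𝓞 F) F b] := by
    funext i
    fin_cases i <;> rfl
  rw [e1, e2] at h
  rw [map_div₀, logHeight₁_eq_log_mulHeight₁, logHeight₁_eq_log_mulHeight₁,
    mulHeight₁_div_eq_mulHeight, mulHeight₁_div_eq_mulHeight, h, Real.log_pow]

theorem HtA_hom {F F' : Type*} [Field F] [NumberField F] [Field F'] [NumberField F']
    (g : F →+* F') (x : F) :
    logHeight₁ (g x) / Module.finrank ℚ F' = logHeight₁ x / Module.finrank ℚ F := by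
  let _ := g.toAlgebra
  have h1 := logHeight₁_algebraMap F F' x
  have h2 := Module.finrank_mul_finrank ℚ F F'
  have h3 : (Module.finrank F F' : ℝ) ≠ 0 := by
    have : 0 < Module.finrank F F' := Module.finrank_pos
    positivity
  have h4 : (Module.finrank ℚ F : ℝ) ≠ 0 := by
    have : 0 < Module.finrank ℚ F := Module.finrank_pos
    positivity
  rw [show g x = algebraMap F F' x from rfl, h1, ← h2]
  push_cast
  field_simp

/-- The absolute height is the normalised height in any number field (apply the previous theorem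
to `ℚ⟮f x⟯ → F`, or compare both with `ℚ⟮x⟯ ⊆ F`). -/
theorem absLogHeight₁_map {F Q : Type*} [Field F] [NumberField F] [Field Q] [CharZero Q]
    (f : F →+* Q) (x : F) :
    absLogHeight₁ (f x) = logHeight₁ x / Module.finrank ℚ F := by
  have hx : IsIntegral ℚ x := .of_finite ℚ x
  have hfx : IsIntegral ℚ (f x) := hx.map f.toRatAlgHom
  have : FiniteDimensional ℚ ℚ⟮f x⟯ := adjoin.finiteDimensional hfx
  have : NumberField ℚ⟮f x⟯ := {}
  let e : ℚ⟮f x⟯ ≃ₐ[ℚ] ℚ⟮x⟯ := (adjoinRootEquivAdjoin ℚ hfx).symm.trans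
    ((AdjoinRoot.algEquivOfEq ℚ _ _ (minpoly.algHom_eq f.toRatAlgHom f.injective x)).trans
      (adjoinRootEquivAdjoin ℚ hx))
  have he : e (AdjoinSimple.gen ℚ (f x)) = AdjoinSimple.gen ℚ x := by
    have h1 := adjoinRootEquivAdjoin_symm_apply_gen ℚ hfx
    have h2 := AdjoinRoot.algEquivOfEq_root (R := ℚ) _ _
      (minpoly.algHom_eq f.toRatAlgHom f.injective x)
    exact (congrArg (adjoinRootEquivAdjoin ℚ hx) ((congrArg _ h1).trans h2)).trans
      (adjoinRootEquivAdjoin_apply_root ℚ hx)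
  have h := HtA_hom ((algebraMap ℚ⟮x⟯ F).comp (e : ℚ⟮f x⟯ →+* ℚ⟮x⟯)) (AdjoinSimple.gen ℚ (f x))
  rw [RingHom.comp_apply, RingHom.coe_coe, he, AdjoinSimple.algebraMap_gen] at h
  rw [h, absLogHeight₁, absMulHeight₁, dif_pos hfx, Real.log_rpow (mulHeight₁_pos _),
    logHeight₁_eq_log_mulHeight₁, div_eq_inv_mul]

end Pool.Agent.H35S

namespace Pool.Agent.H35S

open IntermediateField Filter Topology

universe u

open Height Polynomial

theorem HtB0_step {F : Type*} [Field F] (v : AbsoluteValue F ℝ) (c : ℕ → ℝ) (hc0 : c 0 = 0)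
    (hmono : Monotone c)
    (H : ∀ (x y : F) (M : ℝ) (t : ℕ), 0 ≤ M → v x ≤ M → v y ≤ c t * M → v (x + y) ≤ c (t + 1) * M)
    (Q : F[X]) (n : ℕ) (hQ : Q.natDegree ≤ n) (b : F) (M : ℝ) (hM0 : 0 ≤ M)
    (hM : ∀ i ≤ n + 1, v (((X - C b) * Q).coeff i) ≤ M) (j : ℕ) (hj : j ≤ n) :
    max (v b) 1 * v (Q.coeff j) ≤ c (n + 1) * M := by
  have hs : ∀ i, ((X - C b) * Q).coeff (i + 1) = Q.coeff i - b * Q.coeff (i + 1) := by
    intro i
    rw [sub_mul, coeff_sub, coeff_X_mul, coeff_C_mul]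
  have h0 : ((X - C b) * Q).coeff 0 = -(b * Q.coeff 0) := by
    rw [sub_mul, coeff_sub, coeff_X_mul_zero, coeff_C_mul, zero_sub]
  rcases le_total (v b) 1 with hb | hb
  · rw [max_eq_right hb, one_mul]
    have key : ∀ t i, i + t = n + 1 → v (Q.coeff i) ≤ c t * M := by
      intro t
      induction t with
      | zero =>
        intro i hi
        rw [coeff_eq_zero_of_natDegree_lt (by omega), v.map_zero, hc0, zero_mul]
      | succ t ih =>
        intro i hi
        have e : Q.coeff i = ((X - C b) * Q).coeff (i + 1) + b * Q.coeff (i + 1) := by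
          rw [hs]; ring
        rw [e]
        refine H _ _ M t hM0 (hM _ (by omega)) ?_
        rw [v.map_mul]
        calc v b * v (Q.coeff (i + 1)) ≤ 1 * v (Q.coeff (i + 1)) :=
              mul_le_mul_of_nonneg_right hb (v.nonneg _)
          _ ≤ c t * M := by rw [one_mul]; exact ih (i + 1) (by omega)
    exact (key (n + 1 - j) j (by omega)).trans
      (mul_le_mul_of_nonneg_right (hmono (by omega)) hM0)
  · rw [max_eq_left hb, ← v.map_mul]
    have key : ∀ i, i ≤ n → v (b * Q.coeff i) ≤ c (i + 1) * M := by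
      intro i
      induction i with
      | zero =>
        intro _
        have e : b * Q.coeff 0 = -((X - C b) * Q).coeff 0 + 0 := by rw [h0]; ring
        rw [e]
        refine H _ _ M 0 hM0 ?_ ?_
        · rw [v.map_neg]; exact hM _ (by omega)
        · rw [v.map_zero, hc0, zero_mul]
      | succ i ih =>
        intro hi
        have e : b * Q.coeff (i + 1) = -((X - C b) * Q).coeff (i + 1) + Q.coeff i := by
          rw [hs]; ring
        rw [e]
        refine H _ _ M (i + 1) hM0 ?_ ?_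
        · rw [v.map_neg]; exact hM _ (by omega)
        · refine le_trans ?_ (ih (by omega))
          rw [v.map_mul]
          exact le_mul_of_one_le_left (v.nonneg _) hb
    exact (key j hj).trans (mul_le_mul_of_nonneg_right (hmono (by omega)) hM0)

theorem HtB0_gen {F : Type*} [Field F] (v : AbsoluteValue F ℝ) (c : ℕ → ℝ) (hc0 : c 0 = 0)
    (hmono : Monotone c)
    (H : ∀ (x y : F) (M : ℝ) (t : ℕ), 0 ≤ M → v x ≤ M → v y ≤ c t * M → v (x + y) ≤ c (t + 1) * M)
    (s : Multiset F) :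
    ∃ j ≤ s.card, (s.map fun b => max (v b) 1).prod ≤
      (∏ i ∈ Finset.range s.card, c (i + 1)) * v (((s.map fun b => X - C b).prod).coeff j) := by
  have hcn : ∀ t, 0 ≤ c t := fun t => hc0 ▸ hmono (Nat.zero_le t)
  induction s using Multiset.induction_on with
  | empty => exact ⟨0, le_rfl, by simp⟩
  | cons b s ih =>
    obtain ⟨j, hj, ih⟩ := ih
    simp only [Multiset.map_cons, Multiset.prod_cons, Multiset.card_cons]
    set Q : F[X] := (s.map fun b => X - C b).prod with hQ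
    have hdeg : Q.natDegree ≤ s.card := by
      rw [hQ, natDegree_multiset_prod_X_sub_C_eq_card]
    obtain ⟨j0, hj0, hmax⟩ := Finset.exists_max_image (Finset.range (s.card + 2))
      (fun i => v (((X - C b) * Q).coeff i)) ⟨0, by simp⟩
    refine ⟨j0, by have := Finset.mem_range.1 hj0; omega, ?_⟩
    have h1 := HtB0_step v c hc0 hmono H Q s.card hdeg b _ (v.nonneg _)
      (fun i hi => hmax i (Finset.mem_range.2 (by omega))) j hj
    have hA : 0 ≤ ∏ i ∈ Finset.range s.card, c (i + 1) := Finset.prod_nonneg fun i _ => hcn _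
    have hb : 0 ≤ max (v b) 1 := le_trans zero_le_one (le_max_right _ _)
    rw [Finset.prod_range_succ]
    calc max (v b) 1 * (s.map fun b => max (v b) 1).prod
        ≤ max (v b) 1 * ((∏ i ∈ Finset.range s.card, c (i + 1)) * v (Q.coeff j)) :=
          mul_le_mul_of_nonneg_left ih hb
      _ = (∏ i ∈ Finset.range s.card, c (i + 1)) * (max (v b) 1 * v (Q.coeff j)) := by ring
      _ ≤ (∏ i ∈ Finset.range s.card, c (i + 1)) *
            (c (s.card + 1) * v (((X - C b) * Q).coeff j0)) := mul_le_mul_of_nonneg_left h1 hA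
      _ = _ := by ring

/-- Local Gelfond inequality. Induction on `s`: for `P = (X - b) Q`, if `v b ≤ 1` then
`q_j = ∑_{i > j} p_i b^{i-j-1}`, if `v b > 1` then `b q_j = -∑_{i ≤ j} p_i b^{i-j}`. -/
theorem gelfond_arch {F : Type*} [Field F] (v : AbsoluteValue F ℝ) (s : Multiset F) :
    ∃ j ≤ s.card, (s.map fun b => max (v b) 1).prod ≤
      (s.card.factorial : ℝ) * v (((s.map fun b => X - C b).prod).coeff j) := by
  obtain ⟨j, hj, h⟩ := HtB0_gen v (fun t => (t : ℝ)) (by simp) Nat.mono_cast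
    (fun x y M t _ hx hy => by
      have := v.add_le x y
      push_cast
      linarith) s
  refine ⟨j, hj, ?_⟩
  rw [← Finset.prod_range_add_one_eq_factorial]
  push_cast at h ⊢
  exact h

theorem gelfond_nonarch {F : Type*} [Field F] (v : AbsoluteValue F ℝ) (hv : IsNonarchimedean v)
    (s : Multiset F) :
    ∃ j ≤ s.card, (s.map fun b => max (v b) 1).prod ≤
      v (((s.map fun b => X - C b).prod).coeff j) := by
  obtain ⟨j, hj, h⟩ := HtB0_gen v (fun t => if t = 0 then 0 else 1) (by simp)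
    (fun a b hab => by
      dsimp only
      split_ifs with h1 h2 h2
      · exact le_rfl
      · exact zero_le_one
      · omega
      · exact le_rfl)
    (fun x y M t hM hx hy => by
      have h1 : v (x + y) ≤ max (v x) (v y) := hv x y
      have h2 : v y ≤ M := by
        refine hy.trans ?_
        split_ifs
        · rw [zero_mul]; exact hM
        · rw [one_mul]
      simp only [Nat.succ_ne_zero, if_false, one_mul]
      exact h1.trans (max_le hx h2)) s
  refine ⟨j, hj, ?_⟩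
  simpa using h

theorem HtB0_fin_max {F : Type*} [Field F] [AdmissibleAbsValues F] (x : F) :
    (fun v : AdmissibleAbsValues.nonarchAbsVal (K := F) => max (v.val x) 1).HasFiniteMulSupport := by
  rcases eq_or_ne x 0 with rfl | hx
  · simp [Function.HasFiniteMulSupport]
  · refine (AdmissibleAbsValues.hasFiniteMulSupport hx).subset ?_
    intro v hv h1
    apply hv
    have h1' : v.val x = 1 := h1
    show max (v.val x) 1 = 1
    rw [h1', max_self]

theorem HtB0_fin_prod {F : Type*} [Field F] [AdmissibleAbsValues F] (s : Multiset F) :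
    (fun v : AdmissibleAbsValues.nonarchAbsVal (K := F) =>
      (s.map fun b => max (v.val b) 1).prod).HasFiniteMulSupport := by
  induction s using Multiset.induction_on with
  | empty => simp [Function.HasFiniteMulSupport]
  | cons b s ih =>
    simp only [Multiset.map_cons, Multiset.prod_cons]
    exact (HtB0_fin_max b).mul ih

theorem HtB0_fin_iSup {F : Type*} [Field F] [AdmissibleAbsValues F] {ι : Type*} [Fintype ι]
    {x : ι → F} (hx : x ≠ 0) :
    (fun v : AdmissibleAbsValues.nonarchAbsVal (K := F) =>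
      ⨆ i, v.val (x i)).HasFiniteMulSupport := by
  classical
  obtain ⟨i0, hi0⟩ : ∃ j, x j ≠ 0 := Function.ne_iff.mp hx
  have : Nonempty ι := ⟨i0⟩
  have hfin : (⋃ i ∈ {i | x i ≠ 0}, Function.mulSupport
      (fun v : AdmissibleAbsValues.nonarchAbsVal (K := F) => v.val (x i))).Finite :=
    (Set.toFinite _).biUnion fun i hi => AdmissibleAbsValues.hasFiniteMulSupport hi
  refine hfin.subset fun v hv => ?_
  by_contra hcon
  apply hv
  simp only [Set.mem_iUnion, Set.mem_ofPred_eq, Function.mem_mulSupport, not_exists,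
    not_not] at hcon
  refine le_antisymm (ciSup_le fun j => ?_) (Finite.le_ciSup_of_le i0 (hcon i0 hi0).ge)
  rcases eq_or_ne (x j) 0 with h | h
  · rw [h, v.val.map_zero]; exact zero_le_one
  · exact (hcon j h).le

theorem HtB0_prod {F : Type*} [Field F] [AdmissibleAbsValues F] (s : Multiset F) :
    (s.map mulHeight₁).prod =
      ((AdmissibleAbsValues.archAbsVal (K := F)).map
          fun v => (s.map fun b => max (v b) 1).prod).prod *
        ∏ᶠ v : AdmissibleAbsValues.nonarchAbsVal (K := F), (s.map fun b => max (v.val b) 1).prod := by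
  induction s using Multiset.induction_on with
  | empty => simp
  | cons b s ih =>
    simp only [Multiset.map_cons, Multiset.prod_cons]
    rw [ih, mulHeight₁_eq, Multiset.prod_map_mul,
      finprod_mul_distrib (HtB0_fin_max b) (HtB0_fin_prod s), mul_mul_mul_comm]

theorem HtB0_log {F : Type*} [Field F] [AdmissibleAbsValues F] (s : Multiset F) :
    (s.map logHeight₁).sum = Real.log (s.map mulHeight₁).prod ∧ 0 < (s.map mulHeight₁).prod := by
  induction s using Multiset.induction_on with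
  | empty => simp
  | cons b s ih =>
    simp only [Multiset.map_cons, Multiset.prod_cons, Multiset.sum_cons]
    refine ⟨?_, mul_pos (mulHeight₁_pos b) ih.2⟩
    rw [Real.log_mul (mulHeight₁_pos b).ne' ih.2.ne', ih.1, logHeight₁_eq_log_mulHeight₁]

/-- Global Gelfond inequality (`mulHeight₁_eq`, `mulHeight_eq`, `logHeight_smul_eq_logHeight`;
compare with the proof of `mulHeight₁_sum_le` in Mathlib). -/
theorem gelfond {F : Type*} [Field F] [AdmissibleAbsValues F] (c : F) (hc : c ≠ 0)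
    (s : Multiset F) (n : ℕ) (hn : s.card ≤ n) :
    (s.map logHeight₁).sum ≤
      logHeight (fun j : Fin (n + 1) => (C c * (s.map fun b => X - C b).prod).coeff j) +
        totalWeight F * Real.log (n.factorial : ℝ) := by
  classical
  set Q : F[X] := (s.map fun b => X - C b).prod with hQ
  set x : Fin (n + 1) → F := fun j => Q.coeff j with hx
  have e : (fun j : Fin (n + 1) => (C c * Q).coeff j) = c • x := by
    funext j
    simp [hx, coeff_C_mul]
  rw [e, logHeight_smul_eq_logHeight _ hc]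
  have hmonic : Q.Monic := monic_multiset_prod_of_monic _ _ fun b _ => monic_X_sub_C b
  have hdeg : Q.natDegree = s.card := by rw [hQ, natDegree_multiset_prod_X_sub_C_eq_card]
  have hx0 : x ≠ 0 := by
    intro h
    have h1 := congrFun h ⟨s.card, by omega⟩
    have h2 : Q.coeff s.card = 1 := by rw [← hdeg]; exact hmonic.coeff_natDegree
    simp only [hx, Pi.zero_apply] at h1
    rw [h2] at h1
    exact one_ne_zero h1
  have hsup : ∀ (v : AbsoluteValue F ℝ) (j : ℕ), j ≤ s.card → v (Q.coeff j) ≤ ⨆ i, v (x i) :=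
    fun v j hj => Finite.le_ciSup_of_le (⟨j, by omega⟩ : Fin (n + 1)) le_rfl
  have hnn : ∀ v : AbsoluteValue F ℝ, 0 ≤ (s.map fun b => max (v b) 1).prod := fun v =>
    Multiset.prod_map_nonneg fun b _ => le_trans zero_le_one (le_max_right _ _)
  have hfac : (0 : ℝ) < n.factorial := by exact_mod_cast n.factorial_pos
  have main : (s.map mulHeight₁).prod ≤ mulHeight x * (n.factorial : ℝ) ^ totalWeight F := by
    rw [HtB0_prod, mulHeight_eq hx0, mul_right_comm]
    refine mul_le_mul ?_ ?_ (finprod_nonneg fun v => hnn v.val) ?_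
    · rw [totalWeight, ← Multiset.prod_replicate, ← Multiset.map_const, ← Multiset.prod_map_mul]
      refine Multiset.prod_map_le_prod_map₀ _ _ (fun v _ => hnn v) fun v _ => ?_
      obtain ⟨j, hj, h⟩ := gelfond_arch v s
      refine h.trans ?_
      rw [mul_comm]
      refine mul_le_mul (hsup v j hj) ?_ (by positivity)
        (Real.iSup_nonneg fun i => v.nonneg _)
      rw [Function.const_apply]
      exact_mod_cast Nat.factorial_le hn
    · refine finprod_le_finprod (HtB0_fin_prod s) (fun v => hnn v.val) (HtB0_fin_iSup hx0)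
        fun v => ?_
      obtain ⟨j, hj, h⟩ := gelfond_nonarch v.val
        (AdmissibleAbsValues.isNonarchimedean _ v.prop) s
      exact h.trans (hsup v.val j hj)
    · exact mul_nonneg (Multiset.prod_map_nonneg fun v _ => Real.iSup_nonneg fun i => v.nonneg _)
        (by positivity)
  rw [(HtB0_log s).1, logHeight_eq_log_mulHeight, ← Real.log_pow,
    ← Real.log_mul (mulHeight_pos x).ne' (by positivity)]
  exact Real.log_le_log (HtB0_log s).2 main

end Pool.Agent.H35S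

namespace Pool.Agent.H35S

open IntermediateField Filter Topology

universe u

open Height Polynomial

/-- The projective height is at most the sum of the heights of the coordinates
(`logHeight_fun_prod_eq` for the tuples `![z i, 1]` and `logHeight_comp_le`, or locally). -/
theorem logHeight_le_sum {F : Type*} [Field F] [AdmissibleAbsValues F] {α : Type*} [Fintype α]
    (z : α → F) : logHeight z ≤ ∑ i, logHeight₁ (z i) := by
  classical
  have h := logHeight_fun_prod_eq (x := fun a : α => ![z a, 1]) fun a => by simp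
  have e : z = (fun I : α → Fin 2 => ∏ a, ![z a, 1] (I a)) ∘
      fun i a => if a = i then 0 else 1 := by
    funext i
    simp only [Function.comp]
    rw [Finset.prod_eq_single i (fun a _ ha => by simp [ha]) (by simp)]
    simp
  simp only [logHeight₁_eq_logHeight]
  rw [← h]
  conv_lhs => rw [e]
  exact logHeight_comp_le _ _

/-- Monomials in a box (local bound `v (∏ xᵢ^eᵢ) ≤ ∏ max (v xᵢ) 1 ^ pᵢ`, or Segre). -/
theorem logHeight_monomials_le {F : Type*} [Field F] [AdmissibleAbsValues F] {r : ℕ}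
    (x : Fin r → F) (p : Fin r → ℕ) :
    logHeight (fun e : (i : Fin r) → Fin (p i + 1) => ∏ i, x i ^ (e i : ℕ)) ≤
      ∑ i, (p i : ℝ) * logHeight₁ (x i) := by
  classical
  have h := logHeight_fun_prod_eq (x := fun a : Σ i : Fin r, Fin (p i) => ![x a.1, 1])
    fun a => by simp
  have e : (fun e : (i : Fin r) → Fin (p i + 1) => ∏ i, x i ^ (e i : ℕ)) =
      (fun I : (Σ i : Fin r, Fin (p i)) → Fin 2 => ∏ a, ![x a.1, 1] (I a)) ∘
        fun e a => if (a.2 : ℕ) < e a.1 then 0 else 1 := by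
    funext e
    simp only [Function.comp]
    rw [Fintype.prod_sigma]
    refine Finset.prod_congr rfl fun i _ => ?_
    have h1 : ∀ j : Fin (p i), ![x i, 1] (if (j : ℕ) < e i then 0 else 1) =
        if (j : ℕ) < e i then x i else 1 := fun j => by split_ifs <;> rfl
    simp only [h1]
    rw [Finset.prod_ite, Finset.prod_const_one, mul_one, Finset.prod_const,
      Fin.card_filter_val_lt, min_eq_right (Nat.lt_succ_iff.1 (e i).2)]
  rw [e]
  refine (logHeight_comp_le _ _).trans (le_of_eq ?_)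
  rw [h, Fintype.sum_sigma]
  simp [logHeight₁_eq_logHeight]

end Pool.Agent.H35S

namespace Pool.Agent.H35S

open IntermediateField Filter Topology

universe u

open Height NumberField

theorem HtC_field (k : Type u) {Q : Type u} [Field k] [NumberField k] [Field Q] [Algebra k Q]
    [Algebra.IsAlgebraic k Q] {T : Set Q} (hT : T.Finite) : NumberField (adjoin k T) := by
  have := hT.to_subtype
  have : FiniteDimensional k (adjoin k T) :=
    finiteDimensional_adjoin fun x _ => (Algebra.IsAlgebraic.isAlgebraic x).isIntegral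
  exact NumberField.of_module_finite k _

theorem HtC_box {k F : Type*} [Field k] [Field F] [Algebra k F] {r : ℕ}
    (q : MvPolynomial (Fin r) k) (p : Fin r → ℕ) (hq : ∀ i, MvPolynomial.degreeOf i q ≤ p i)
    (x : Fin r → F) :
    MvPolynomial.aeval x q = ∑ e : (i : Fin r) → Fin (p i + 1),
      algebraMap k F (q.coeff (Finsupp.equivFunOnFinite.symm fun i => (e i : ℕ))) *
        ∏ i, x i ^ (e i : ℕ) := by
  classical
  set φ : ((i : Fin r) → Fin (p i + 1)) → (Fin r →₀ ℕ) :=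
    fun e => Finsupp.equivFunOnFinite.symm fun i => (e i : ℕ) with hφ
  have hinj : Function.Injective φ := by
    intro e e' h
    funext i
    exact Fin.ext (congrFun (Finsupp.equivFunOnFinite.symm.injective h) i)
  rw [MvPolynomial.aeval_def, MvPolynomial.eval₂_eq']
  have h1 : q.support ⊆ Finset.univ.image φ := by
    intro d hd
    refine Finset.mem_image.2 ⟨fun i => ⟨d i, Nat.lt_succ_of_le
      ((MvPolynomial.monomial_le_degreeOf i hd).trans (hq i))⟩, Finset.mem_univ _, ?_⟩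
    ext i
    simp [hφ]
  rw [Finset.sum_subset h1 fun d _ hd => by
    rw [MvPolynomial.notMem_support_iff.1 hd, map_zero, zero_mul],
    Finset.sum_image hinj.injOn]
  rfl

theorem HtC_core (k : Type u) [Field k] [NumberField k] {r : ℕ}
    (P : Polynomial (MvPolynomial (Fin r) k)) (p : Fin r → ℕ)
    (hP : ∀ j i, MvPolynomial.degreeOf i (P.coeff j) ≤ p i) : ∃ C : ℝ,
    ∀ (F : Type u) [Field F] [NumberField F] [Algebra k F] (x : Fin r → F) (c : F)
      (s : Multiset F), c ≠ 0 →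
      P.map (MvPolynomial.aeval x : MvPolynomial (Fin r) k →ₐ[k] F).toRingHom =
        Polynomial.C c * (s.map fun b => Polynomial.X - Polynomial.C b).prod →
      (s.map logHeight₁).sum ≤ ∑ i, (p i : ℝ) * logHeight₁ (x i) + Module.finrank ℚ F * C := by
  set A : Fin (P.natDegree + 1) × ((i : Fin r) → Fin (p i + 1)) → k := fun z =>
    (P.coeff z.1).coeff (Finsupp.equivFunOnFinite.symm fun i => (z.2 i : ℕ)) with hA
  refine ⟨Real.log (Nat.card ((i : Fin r) → Fin (p i + 1))) + ∑ z, logHeight₁ (A z) +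
    Real.log (P.natDegree.factorial : ℝ), fun F _ _ _ x c s hc h => ?_⟩
  have hn : s.card ≤ P.natDegree := by
    rw [← Polynomial.natDegree_multiset_prod_X_sub_C_eq_card s,
      ← Polynomial.natDegree_C_mul hc, ← h]
    exact Polynomial.natDegree_map_le
  have h1 := gelfond c hc s _ hn
  have h2 : (fun j : Fin (P.natDegree + 1) =>
      (Polynomial.C c * (s.map fun b => Polynomial.X - Polynomial.C b).prod).coeff j) =
      fun j => ∑ e : (i : Fin r) → Fin (p i + 1),
        algebraMap k F (A (j, e)) * ∏ i, x i ^ (e i : ℕ) := by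
    funext j
    rw [← h, Polynomial.coeff_map]
    exact HtC_box _ p (hP j) x
  have h3 := logHeight_linearMap_apply_le (fun z => algebraMap k F (A z))
    (fun e : (i : Fin r) → Fin (p i + 1) => ∏ i, x i ^ (e i : ℕ))
  have h4 := logHeight_monomials_le x p
  have h5 := logHeight_le_sum fun z => algebraMap k F (A z)
  have h6 : ∑ z, logHeight₁ (algebraMap k F (A z)) ≤
      Module.finrank ℚ F * ∑ z, logHeight₁ (A z) := by
    rw [Finset.mul_sum]
    refine Finset.sum_le_sum fun z _ => ?_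
    rw [logHeight₁_algebraMap]
    refine mul_le_mul_of_nonneg_right ?_ (zero_le_logHeight₁ _)
    rw [← Module.finrank_mul_finrank ℚ k F]
    exact_mod_cast Nat.le_mul_of_pos_left _ Module.finrank_pos
  rw [h2] at h1
  rw [totalWeight_eq_finrank] at h1 h3
  linarith

/-- The absolute height on an algebraic extension of a number field. Plan for `gel`: given
`x, c, s`, let `F = k(x, c, s)`, a number field; transfer the identity to `F`; `card s ≤ natDegree P`;
`gelfond`; the coefficient vector is a linear image of the monomial vector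
(`logHeight_linearMap_apply_le`, `logHeight_monomials_le`), and the height of the matrix is at most
the sum of the heights of its entries (`logHeight_le_sum`), which lie in `k`; divide by
`finrank ℚ F = totalWeight F` (`absLogHeight₁_map`). -/
theorem isAHt_abs (k Q : Type u) [Field k] [NumberField k] [Field Q] [CharZero Q] [Algebra k Q]
    [Algebra.IsAlgebraic k Q] : IsAHt k (absLogHeight₁ : Q → ℝ) := by
  refine ⟨fun x => ?_, fun x n => ?_, fun r P p hP => ?_⟩
  · have := HtC_field k (Set.finite_singleton x)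
    have h := absLogHeight₁_map (algebraMap k⟮x⟯ Q) (AdjoinSimple.gen k x)
    rw [AdjoinSimple.algebraMap_gen] at h
    rw [h]
    exact div_nonneg (zero_le_logHeight₁ _) (Nat.cast_nonneg _)
  · have := HtC_field k (Set.finite_singleton x)
    have h := absLogHeight₁_map (algebraMap k⟮x⟯ Q) (AdjoinSimple.gen k x)
    have h' := absLogHeight₁_map (algebraMap k⟮x⟯ Q) (AdjoinSimple.gen k x ^ n)
    rw [map_pow, logHeight₁_pow] at h'
    rw [AdjoinSimple.algebraMap_gen] at h h'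
    rw [h, h', mul_div_assoc]
  · obtain ⟨C, hC⟩ := HtC_core k P p hP
    refine ⟨C, fun x c s hc h => ?_⟩
    have hT : (insert c (Set.range x ∪ {b | b ∈ s})).Finite :=
      ((Set.finite_range x).union s.finite_toSet).insert c
    have := HtC_field k hT
    have hsub := subset_adjoin k (insert c (Set.range x ∪ {b | b ∈ s}))
    generalize adjoin k (insert c (Set.range x ∪ {b | b ∈ s})) = F at this hsub
    have hc' : c ∈ F := hsub (Set.mem_insert _ _)
    have hx' : ∀ i, x i ∈ F := fun i => hsub (Set.mem_insert_of_mem _ (Or.inl ⟨i, rfl⟩))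
    have hs' : ∀ b ∈ s, b ∈ F := fun b hb => hsub (Set.mem_insert_of_mem _ (Or.inr hb))
    clear hsub hT
    lift c to F using hc'
    lift x to Fin r → F using hx'
    lift s to Multiset F using hs'
    have h1 := hC F x c s (fun h0 => hc (by rw [h0]; rfl)) (by
      apply Polynomial.map_injective (algebraMap F Q) (algebraMap F Q).injective
      rw [Polynomial.map_map, Polynomial.map_mul, Polynomial.map_multiset_prod, Multiset.map_map]
      rw [Multiset.map_map] at h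
      convert h using 2
      · ext <;> simp
      · simp
      · simp)
    have hd : (0 : ℝ) < Module.finrank ℚ F := by exact_mod_cast Module.finrank_pos
    have h2 : ∀ b : F, absLogHeight₁ (b : Q) = logHeight₁ b / Module.finrank ℚ F := fun b =>
      absLogHeight₁_map (algebraMap F Q) b
    rw [Multiset.map_map]
    simp only [Function.comp_def, h2, div_eq_mul_inv, Multiset.sum_map_mul_right, ← mul_assoc,
      ← Finset.sum_mul]
    rw [← div_eq_mul_inv, ← div_eq_mul_inv, div_add' _ _ _ hd.ne', div_le_div_iff_of_pos_right hd]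
    linarith

/-- Northcott: an injective sequence of points leaves every set of bounded height
(`NumberField.finite_setOfPred_logHeight₁_le`). -/
theorem tendsto_sum_logHeight₁ {k : Type u} [Field k] [NumberField k] {ι : Type} [Fintype ι]
    (y : ℕ → ι → k) (hy : Function.Injective y) :
    Tendsto (fun n => ∑ l, logHeight₁ (y n l)) atTop atTop := by
  rw [← Nat.cofinite_eq_atTop]
  refine tendsto_atTop.2 fun B => ?_
  have h1 : (Set.univ.pi fun _ : ι => {x : k | logHeight₁ x ≤ B}).Finite :=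
    Set.Finite.pi fun _ => finite_setOfPred_logHeight₁_le k B
  refine (h1.preimage hy.injOn).subset fun n hn l _ => ?_
  have h2 : ∑ l, logHeight₁ (y n l) < B := not_le.1 hn
  exact (Finset.single_le_sum (f := fun l => logHeight₁ (y n l))
    (fun _ _ => zero_le_logHeight₁ _) (Finset.mem_univ l)).trans h2.le

end Pool.Agent.H35S
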