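import Pool.Agent.MP_195eb9_ag.Srf.B
import Pool.Agent.MP_195eb9_ag.Srf.C

namespace Pool.Agent.H35S

open IntermediateField Filter Topology

universe u

variable {k Ω κ : Type u} [Field k] [Field Ω] [Field κ] [Algebra k Ω] [Algebra k κ]
variable {ι : Type} [Fintype ι]

variable {Q : Type u} [Field Q] [Algebra k Q]

/-- The limit place with values in the ultrapower (`Filter.Germ`, a field for an ultrafilter:
`Filter.Germ.instField`; use `(Germ.coeRingHom _ |>.comp (Pi.constRingHom ..)).comp (algebraMap k Q)`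
or an existing instance for the `k`-algebra structure `alg`). -/
theorem Orb.germ_place {S : Sys k Ω ι} (o : Orb S Q) (U : Ultrafilter ℤ) :
    ∃ (alg : Algebra k (Germ (U : Filter ℤ) Q))
      (π : @Place k Ω (Germ (U : Filter ℤ) Q) _ _ _ _ alg),
      (∀ c : k, @algebraMap k (Germ (U : Filter ℤ) Q) _ _ alg c =
        ((fun _ => algebraMap k Q c : ℤ → Q) : Germ (U : Filter ℤ) Q)) ∧
      (∀ x, x ∈ π.O ↔ ∀ᶠ n in (U : Filter ℤ), (S.Φ ^ n) x ∈ o.pl.O) ∧
      ∀ x, π.ev x = ((fun n => o.pl.ev ((S.Φ ^ n) x) : ℤ → Q) : Germ (U : Filter ℤ) Q) := by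
  let alg : Algebra k (Germ (U : Filter ℤ) Q) :=
    (((Germ.coeRingHom (U : Filter ℤ)).comp (Pi.constRingHom ℤ Q)).comp
      (algebraMap k Q)).toAlgebra
  let O : ValuationSubring Ω :=
    { carrier := {x | ∀ᶠ n in (U : Filter ℤ), (S.Φ ^ n) x ∈ o.pl.O}
      mul_mem' := fun ha hb => (ha.and hb).mono fun n hn => by
        rw [map_mul]; exact mul_mem hn.1 hn.2
      one_mem' := Eventually.of_forall fun n => by rw [map_one]; exact one_mem _
      add_mem' := fun ha hb => (ha.and hb).mono fun n hn => by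
        rw [map_add]; exact add_mem hn.1 hn.2
      zero_mem' := Eventually.of_forall fun n => by rw [map_zero]; exact zero_mem _
      neg_mem' := fun ha => ha.mono fun n hn => by rw [map_neg]; exact neg_mem hn
      mem_or_inv_mem' := fun x => Ultrafilter.eventually_or.1 (Eventually.of_forall fun n => by
        rw [map_inv₀]; exact o.pl.O.mem_or_inv_mem _) }
  refine ⟨alg,
    { O := O
      ev := fun x => ((fun n => o.pl.ev ((S.Φ ^ n) x) : ℤ → Q) : Germ (U : Filter ℤ) Q)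
      ev_out := fun x hx => ?_
      alg_mem := fun c => Eventually.of_forall fun n => ?_
      ev_alg := fun c => ?_
      ev_add := fun x y hx hy => ?_
      ev_mul := fun x y hx hy => ?_
      ev_max := fun x hx => ?_ }, fun c => rfl, fun x => Iff.rfl, fun x => rfl⟩
  · exact Germ.coe_eq.2 ((Ultrafilter.eventually_not.2 hx).mono fun n hn => o.pl.ev_out _ hn)
  · rw [AlgEquiv.commutes]; exact o.pl.alg_mem c
  · refine Germ.coe_eq.2 (Eventually.of_forall fun n => ?_)
    show o.pl.ev _ = algebraMap k Q c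
    rw [AlgEquiv.commutes]; exact o.pl.ev_alg c
  · refine Germ.coe_eq.2 ((Eventually.and hx hy).mono fun n hn => ?_)
    show o.pl.ev _ = o.pl.ev _ + o.pl.ev _
    rw [map_add]; exact o.pl.ev_add _ _ hn.1 hn.2
  · refine Germ.coe_eq.2 ((Eventually.and hx hy).mono fun n hn => ?_)
    show o.pl.ev _ = o.pl.ev _ * o.pl.ev _
    rw [map_mul]; exact o.pl.ev_mul _ _ hn.1 hn.2
  · refine Germ.coe_eq.2 ((Ultrafilter.eventually_not.2 hx).mono fun n hn => o.pl.ev_max _ ?_)
    rwa [map_inv₀] at hn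

theorem IsAHt.zero {h : Q → ℝ} (hh : IsAHt k h) : h 0 = 0 := by
  have := hh.pow 0 2
  rw [zero_pow two_ne_zero, Nat.cast_two] at this
  linarith

/-- A root of a nonzero specialisation has bounded height (split the specialised polynomial). -/
theorem IsAHt.root_le [IsAlgClosed Q] {h : Q → ℝ} (hh : IsAHt k h) {r : ℕ}
    (P : Polynomial (MvPolynomial (Fin r) k)) :
    ∃ C : ℝ, 0 ≤ C ∧ ∀ (x : Fin r → Q) (z : Q),
      P.map (MvPolynomial.aeval x : MvPolynomial (Fin r) k →ₐ[k] Q).toRingHom ≠ 0 →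
      (P.map (MvPolynomial.aeval x : MvPolynomial (Fin r) k →ₐ[k] Q).toRingHom).eval z = 0 →
      h z ≤ C * (1 + ∑ i, h (x i)) := by
  classical
  let p : Fin r → ℕ := fun i => P.support.sup fun j => MvPolynomial.degreeOf i (P.coeff j)
  obtain ⟨C, hC⟩ := hh.gel r P p fun j i => by
    by_cases hj : j ∈ P.support
    · exact Finset.le_sup (f := fun j => MvPolynomial.degreeOf i (P.coeff j)) hj
    · rw [Polynomial.notMem_support_iff.1 hj, MvPolynomial.degreeOf_zero]; exact Nat.zero_le _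
  have hp : (0 : ℝ) ≤ ∑ i, (p i : ℝ) := Finset.sum_nonneg fun i _ => Nat.cast_nonneg _
  refine ⟨|C| + ∑ i, (p i : ℝ), by positivity, fun x z hne hz => ?_⟩
  have h1 := hC x _ _ (Polynomial.leadingCoeff_ne_zero.2 hne)
    (IsAlgClosed.splits _).eq_prod_roots
  have h2 := Multiset.single_le_sum (fun y hy => by
    obtain ⟨w, -, rfl⟩ := Multiset.mem_map.1 hy
    exact hh.nonneg w) _ (Multiset.mem_map_of_mem h ((Polynomial.mem_roots hne).2 hz))
  have hx : 0 ≤ ∑ i, h (x i) := Finset.sum_nonneg fun i _ => hh.nonneg _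
  have h3 : ∑ i, (p i : ℝ) * h (x i) ≤ (∑ i, (p i : ℝ)) * ∑ i, h (x i) := by
    rw [Finset.sum_mul]
    exact Finset.sum_le_sum fun i _ => mul_le_mul_of_nonneg_left
      (Finset.single_le_sum (f := fun i => h (x i)) (fun i _ => hh.nonneg _) (Finset.mem_univ i))
      (Nat.cast_nonneg _)
  nlinarith [le_abs_self C, mul_nonneg (abs_nonneg C) hx]

end Pool.Agent.H35S

namespace Pool.Agent.H35S

open IntermediateField Filter Topology

universe u

variable {k Ω κ : Type u} [Field k] [Field Ω] [Field κ] [Algebra k Ω] [Algebra k κ]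
variable {ι : Type} [Fintype ι]

variable {Q : Type u} [Field Q] [Algebra k Q]

theorem Ult_clear {σ : Type} (g : σ → κ) (z : κ)
    (hz : IsAlgebraic (adjoin k (Set.range g)) z) :
    ∃ P : Polynomial (MvPolynomial σ k),
      P.map (MvPolynomial.aeval g : MvPolynomial σ k →ₐ[k] κ).toRingHom ≠ 0 ∧
      P.eval₂ (MvPolynomial.aeval g : MvPolynomial σ k →ₐ[k] κ).toRingHom z = 0 := by
  rw [IntermediateField.isAlgebraic_adjoin_iff] at hz
  obtain ⟨p, hp0, hp⟩ := hz
  have hl : p.map (algebraMap (Algebra.adjoin k (Set.range g)) κ) ∈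
      Polynomial.lifts (MvPolynomial.aeval g : MvPolynomial σ k →ₐ[k] κ).toRingHom := by
    rw [Polynomial.lifts_iff_coeff_lifts]
    intro n
    rw [Polynomial.coeff_map]
    have h := (p.coeff n).2
    have h2 : ((p.coeff n : Algebra.adjoin k (Set.range g)) : κ) ∈
        (MvPolynomial.aeval g : MvPolynomial σ k →ₐ[k] κ).range := by
      rw [← Algebra.adjoin_range_eq_range_aeval]; exact h
    obtain ⟨q, hq⟩ := h2
    exact ⟨q, hq⟩
  obtain ⟨P, hP⟩ := (Polynomial.mem_lifts _).1 hl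
  refine ⟨P, ?_, ?_⟩
  · rw [hP]
    exact (Polynomial.map_ne_zero_iff Subtype.val_injective).2 hp0
  · rw [← Polynomial.eval_map, hP, Polynomial.eval_map, ← Polynomial.aeval_def]
    exact hp

theorem Ult_gen [IsAlgClosed Q] {h : Q → ℝ} (hh : IsAHt k h) (U : Ultrafilter ℤ)
    [Algebra k (Germ (U : Filter ℤ) Q)]
    (halg : ∀ c : k, algebraMap k (Germ (U : Filter ℤ) Q) c =
      ((fun _ => algebraMap k Q c : ℤ → Q) : Germ (U : Filter ℤ) Q))
    {r : ℕ} (y : ℤ → Fin r → Q) (z : ℤ → Q)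
    (hz : IsAlgebraic (adjoin k (Set.range fun l =>
      ((fun n => y n l : ℤ → Q) : Germ (U : Filter ℤ) Q))) (z : Germ (U : Filter ℤ) Q)) :
    ∃ C : ℝ, 0 ≤ C ∧ ∀ᶠ n in (U : Filter ℤ), h (z n) ≤ C * (1 + ∑ l, h (y n l)) := by
  obtain ⟨P, hP0, hP⟩ := Ult_clear _ _ hz
  obtain ⟨C, hC, hle⟩ := hh.root_le P
  refine ⟨C, hC, ?_⟩
  let ρ : (ℤ → Q) →+* Germ (U : Filter ℤ) Q := Germ.coeRingHom _
  let F : MvPolynomial (Fin r) k →+* (ℤ → Q) :=
    RingHom.pi fun n => (MvPolynomial.aeval (y n) : MvPolynomial (Fin r) k →ₐ[k] Q).toRingHom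
  have hFn : ∀ q n, F q n = MvPolynomial.aeval (y n) q := fun q n => rfl
  have hF : (MvPolynomial.aeval (fun l => ((fun n => y n l : ℤ → Q) : Germ (U : Filter ℤ) Q)) :
      MvPolynomial (Fin r) k →ₐ[k] Germ (U : Filter ℤ) Q).toRingHom = ρ.comp F := by
    apply MvPolynomial.ringHom_ext
    · intro c
      have h1 : F (MvPolynomial.C c) = fun _ => algebraMap k Q c := by
        funext n; simp [hFn]
      rw [RingHom.comp_apply, h1]
      simpa [ρ] using halg c
    · intro l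
      have h1 : F (MvPolynomial.X l) = fun n => y n l := by
        funext n; simp [hFn]
      rw [RingHom.comp_apply, h1]
      simp [ρ]
  rw [hF] at hP0 hP
  obtain ⟨j, hj⟩ : ∃ j, ρ (F (P.coeff j)) ≠ 0 := by
    by_contra hcon
    push Not at hcon
    apply hP0
    ext j
    simpa using hcon j
  have hj' : ∀ᶠ n in (U : Filter ℤ), F (P.coeff j) n ≠ 0 := by
    apply Ultrafilter.eventually_not.2
    intro hev
    apply hj
    exact Germ.coe_eq.2 hev
  have hP' : ∀ᶠ n in (U : Filter ℤ), (P.eval₂ F z) n = 0 := by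
    have h1 : ρ (P.eval₂ F z) = 0 := by
      rw [Polynomial.hom_eval₂]; exact hP
    exact Germ.coe_eq.1 h1
  filter_upwards [hj', hP'] with n hn1 hn2
  apply hle (y n) (z n)
  · intro h0
    apply hn1
    have := congrArg (fun p => Polynomial.coeff p j) h0
    simpa [hFn] using this
  · rw [Polynomial.eval_map]
    have h1 := Polynomial.hom_eval₂ P F (Pi.evalRingHom (fun _ : ℤ => Q) n) z
    exact h1.symm.trans hn2

/-- Normalised heights of all functions are bounded along the ultrafilter. Plan: take `π` from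
`germ_place`. The `a l` lie in `π.O` (`o.mem`). Some `ev (a l)` is transcendental: otherwise
`y n l` is a root of a fixed polynomial for `U`-most `n`, so `H` is bounded on a set of `U`,
contradicting `o.tends`. Hence (`isAlgebraic_ev`, `isAlgebraic_ev_top`) `ev x` is algebraic over
`k(ev a)`; clear denominators, reindex `ι ≃ Fin r` and use `root_le` for `U`-most `n`. -/
theorem Orb.bounded [IsAlgClosed Q] {S : Sys k Ω ι} (o : Orb S Q) (U : Ultrafilter ℤ)
    (hU : (U : Filter ℤ) ≤ atTop) (x : Ω) :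
    ∃ C : ℝ, ∀ᶠ n in (U : Filter ℤ), o.h (o.pl.ev ((S.Φ ^ n) x)) ≤ C * o.H n := by
  obtain ⟨alg, π, halg, -, hev⟩ := o.germ_place U
  have htend : Tendsto o.H (U : Filter ℤ) atTop := o.tends.mono_left hU
  have hH : ∀ n, o.H n = ∑ l, o.h (o.pl.ev ((S.Φ ^ n) (S.a l))) := fun n => rfl
  have key : IsAlgebraic (adjoin k (Set.range fun l => π.ev (S.a l))) (π.ev x) := by
    by_cases htop : π.O = ⊤
    · exact π.isAlgebraic_ev_top htop S.a S.alg x
    by_cases htr : ∃ l, Transcendental k (π.ev (S.a l))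
    · obtain ⟨l, hl⟩ := htr
      have h1 := π.isAlgebraic_ev S.trdeg htop hl x
      have hle : k⟮π.ev (S.a l)⟯ ≤ adjoin k (Set.range fun l => π.ev (S.a l)) :=
        adjoin.mono _ _ _ (Set.singleton_subset_iff.2 ⟨l, rfl⟩)
      exact IsAlgebraic.tower_top_of_subalgebra_le (A := k⟮π.ev (S.a l)⟯.toSubalgebra)
        (B := (adjoin k (Set.range fun l => π.ev (S.a l))).toSubalgebra) hle h1
    · exfalso
      have hb : ∀ l, ∃ C : ℝ, ∀ᶠ n in (U : Filter ℤ),
          o.h (o.pl.ev ((S.Φ ^ n) (S.a l))) ≤ C := by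
        intro l
        have h1 : IsAlgebraic k (π.ev (S.a l)) := by
          by_contra hc
          exact htr ⟨l, hc⟩
        rw [hev] at h1
        obtain ⟨C, -, hC⟩ := Ult_gen o.ht U halg (r := 0) (fun _ => Fin.elim0)
          (fun n => o.pl.ev ((S.Φ ^ n) (S.a l))) (h1.tower_top _)
        exact ⟨C, by simpa using hC⟩
      choose C hC using hb
      have h2 : ∀ᶠ n in (U : Filter ℤ), ∀ l, o.h (o.pl.ev ((S.Φ ^ n) (S.a l))) ≤ C l :=
        eventually_all.2 hC
      obtain ⟨n, hn1, hn2⟩ := (h2.and (htend.eventually_gt_atTop (∑ l, C l))).exists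
      rw [hH] at hn2
      exact absurd (Finset.sum_le_sum fun l _ => hn1 l) (not_le.2 hn2)
  let e := Fintype.equivFin ι
  have hr : (Set.range fun l => π.ev (S.a l)) = Set.range fun i =>
      ((fun n => o.pl.ev ((S.Φ ^ n) (S.a (e.symm i))) : ℤ → Q) : Germ (U : Filter ℤ) Q) := by
    ext w
    constructor
    · rintro ⟨l, rfl⟩
      exact ⟨e l, by simp [hev]⟩
    · rintro ⟨i, rfl⟩
      exact ⟨e.symm i, by simp [hev]⟩
  rw [hr, hev] at key
  obtain ⟨C, hC0, hC⟩ := Ult_gen o.ht U halg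
    (fun n i => o.pl.ev ((S.Φ ^ n) (S.a (e.symm i)))) (fun n => o.pl.ev ((S.Φ ^ n) x)) key
  refine ⟨2 * C, ?_⟩
  filter_upwards [hC, htend.eventually_ge_atTop 1] with n hn1 hn2
  have h3 : ∑ i, o.h (o.pl.ev ((S.Φ ^ n) (S.a (e.symm i)))) = o.H n := by
    rw [hH]
    exact Equiv.sum_comp e.symm fun l => o.h (o.pl.ev ((S.Φ ^ n) (S.a l)))
  rw [h3] at hn1
  nlinarith

end Pool.Agent.H35S

namespace Pool.Agent.H35S

open IntermediateField Filter Topology

universe u

variable {k Ω κ : Type u} [Field k] [Field Ω] [Field κ] [Algebra k Ω] [Algebra k κ]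
variable {ι : Type} [Fintype ι]

variable {Q : Type u} [Field Q] [Algebra k Q]

/-- Corestriction of a place to its residue field. -/
noncomputable def Ult2_core (π : Place k Ω κ) : Place k Ω (π.res ⊤) where
  O := π.O
  ev := fun x => ⟨π.ev x, π.ev_mem_res mem_top⟩
  ev_out := fun x hx => Subtype.ext (π.ev_out x hx)
  alg_mem := π.alg_mem
  ev_alg := fun c => Subtype.ext (π.ev_alg c)
  ev_add := fun x y hx hy => Subtype.ext (π.ev_add x y hx hy)
  ev_mul := fun x y hx hy => Subtype.ext (π.ev_mul x y hx hy)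
  ev_max := fun x hx => Subtype.ext (π.ev_max x hx)

omit [Algebra k Q] in
theorem Ult2_poly {G : Type u} [Field G] (F : Filter ℤ) (φ : (ℤ → Q) →+* G)
    (hφ : ∀ u, φ u = 0 → ∀ᶠ n in F, u n = 0) {A B : Polynomial (ℤ → Q)}
    (h : A.map φ = B.map φ) :
    ∀ᶠ n in F, A.map (Pi.evalRingHom (fun _ => Q) n) = B.map (Pi.evalRingHom (fun _ => Q) n) := by
  have h1 : (A - B).map φ = 0 := by rw [Polynomial.map_sub, h, sub_self]
  have h2 : ∀ᶠ n in F, ∀ j ∈ (A - B).support, (A - B).coeff j n = 0 := by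
    rw [eventually_all_finset]
    intro j _
    apply hφ
    rw [← Polynomial.coeff_map, h1, Polynomial.coeff_zero]
  filter_upwards [h2] with n hn
  rw [← sub_eq_zero, ← Polynomial.map_sub]
  ext j
  rw [Polynomial.coeff_map, Polynomial.coeff_zero]
  by_cases hj : j ∈ (A - B).support
  · exact hn j hj
  · rw [Polynomial.notMem_support_iff.1 hj, map_zero]

theorem Ult2_ht {G : Type u} [Field G] [Algebra k G] {h : Q → ℝ} (hh : IsAHt k h) (H : ℤ → ℝ)
    (U : Ultrafilter ℤ) (hH : Tendsto H U atTop) (φ : (ℤ → Q) →+* G)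
    (hφ : ∀ u, φ u = 0 ↔ ∀ᶠ n in (U : Filter ℤ), u n = 0)
    (hφa : ∀ c : k, algebraMap k G c = φ fun _ => algebraMap k Q c)
    (R : IntermediateField k G) (rep : R → ℤ → Q) (hrep : ∀ g, φ (rep g) = g) (η : R → ℝ)
    (hη : ∀ (g : R) (u : ℤ → Q), φ u = g → Tendsto (fun n => h (u n) / H n) U (𝓝 (η g))) :
    IsHt k η := by
  have hpos : ∀ᶠ n in (U : Filter ℤ), 0 < H n := hH.eventually_gt_atTop 0
  refine ⟨fun g => ?_, fun g m => ?_, fun r P p hp x c s hc hP => ?_⟩
  · refine ge_of_tendsto (hη g _ (hrep g)) ?_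
    filter_upwards [hpos] with n hn
    exact div_nonneg (hh.nonneg _) hn.le
  · have h1 := hη (g ^ m) (rep g ^ m) (by rw [map_pow, hrep]; rfl)
    have h2 := (hη g _ (hrep g)).const_mul (m : ℝ)
    refine tendsto_nhds_unique h1 (h2.congr fun n => ?_)
    rw [Pi.pow_apply, hh.pow, mul_div_assoc]
  · obtain ⟨C, hC⟩ := hh.gel r P p hp
    have e1 : φ.comp (MvPolynomial.aeval fun i => rep (x i) :
        MvPolynomial (Fin r) k →ₐ[k] (ℤ → Q)).toRingHom =
        (R.val : R →+* G).comp (MvPolynomial.aeval x : MvPolynomial (Fin r) k →ₐ[k] R).toRingHom := by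
      refine MvPolynomial.ringHom_ext (fun a => ?_) (fun i => ?_)
      · simp only [RingHom.comp_apply, AlgHom.toRingHom_eq_coe, RingHom.coe_coe,
          MvPolynomial.aeval_C, AlgHom.commutes]
        exact (hφa a).symm
      · simp only [RingHom.comp_apply, AlgHom.toRingHom_eq_coe, RingHom.coe_coe,
          MvPolynomial.aeval_X]
        exact hrep _
    have e2 : (P.map (MvPolynomial.aeval fun i => rep (x i) :
        MvPolynomial (Fin r) k →ₐ[k] (ℤ → Q)).toRingHom).map φ =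
        (Polynomial.C (rep c) * (s.map fun b => Polynomial.X - Polynomial.C (rep b)).prod).map φ := by
      rw [Polynomial.map_map, e1, ← Polynomial.map_map, hP]
      simp only [Polynomial.map_mul, Polynomial.map_multiset_prod, Multiset.map_map,
        Function.comp_def, Polynomial.map_sub, Polynomial.map_X, Polynomial.map_C, hrep]
      rfl
    have h3 := Ult2_poly (U : Filter ℤ) φ (fun u => (hφ u).1) e2
    have h4 : ∀ᶠ n in (U : Filter ℤ), rep c n ≠ 0 := by
      rw [Ultrafilter.eventually_not, ← hφ, hrep]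
      exact fun h0 => hc (Subtype.ext h0)
    have h5 : ∀ᶠ n in (U : Filter ℤ), (s.map fun b => h (rep b n) / H n).sum ≤
        ∑ i, (p i : ℝ) * (h (rep (x i) n) / H n) + C / H n := by
      filter_upwards [h3, h4, hpos] with n h3 h4 hn
      have e3 : (Pi.evalRingHom (fun _ => Q) n).comp (MvPolynomial.aeval fun i => rep (x i) :
          MvPolynomial (Fin r) k →ₐ[k] (ℤ → Q)).toRingHom =
          (MvPolynomial.aeval fun i => rep (x i) n : MvPolynomial (Fin r) k →ₐ[k] Q).toRingHom := by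
        refine MvPolynomial.ringHom_ext (fun a => ?_) (fun i => ?_) <;> simp
      have h6 := hC (fun i => rep (x i) n) (rep c n) (s.map fun b => rep b n) h4 (by
        rw [← e3, ← Polynomial.map_map, h3]
        simp only [Polynomial.map_mul, Polynomial.map_multiset_prod, Multiset.map_map,
          Function.comp_def, Polynomial.map_sub, Polynomial.map_X, Polynomial.map_C,
          Pi.evalRingHom_apply])
      rw [Multiset.map_map] at h6
      have h7 := div_le_div_of_nonneg_right h6 hn.le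
      rw [add_div, Finset.sum_div, div_eq_mul_inv, ← Multiset.sum_map_mul_right] at h7
      simpa only [Function.comp_def, mul_div_assoc, ← div_eq_mul_inv] using h7
    have h8 : Tendsto (fun n => (s.map fun b => h (rep b n) / H n).sum) U (𝓝 (s.map η).sum) :=
      tendsto_multiset_sum s fun b _ => hη b _ (hrep b)
    have h9 : Tendsto (fun n => ∑ i, (p i : ℝ) * (h (rep (x i) n) / H n) + C / H n) U
        (𝓝 (∑ i, (p i : ℝ) * η (x i) + 0)) :=
      (tendsto_finsetSum _ fun i _ => (hη _ _ (hrep (x i))).const_mul _).add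
        (hH.const_div_atTop C)
    rw [add_zero] at h9
    exact le_of_tendsto_of_tendsto h8 h9 h5

/-- The limit height structure. -/
theorem Orb.ult [IsAlgClosed Q] {S : Sys k Ω ι} (o : Orb S Q) (U : Ultrafilter ℤ)
    (hU : (U : Filter ℤ) ≤ atTop) :
    ∃ (κ : Type u) (_ : Field κ) (_ : Algebra k κ) (π : Place k Ω κ) (η : κ → ℝ), IsHt k η ∧
      (∀ x, x ∈ π.O ↔ ∀ᶠ n in (U : Filter ℤ), (S.Φ ^ n) x ∈ o.pl.O) ∧
      (∀ x, π.ev x = 0 ↔ ∀ᶠ n in (U : Filter ℤ), o.pl.ev ((S.Φ ^ n) x) = 0) ∧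
      ∀ x, Tendsto (fun n => o.h (o.pl.ev ((S.Φ ^ n) x)) / o.H n) U (𝓝 (η (π.ev x))) := by
  obtain ⟨alg, π, halg, hO, hev⟩ := o.germ_place U
  have hH : Tendsto o.H U atTop := o.tends.mono_left hU
  have hpos : ∀ᶠ n in (U : Filter ℤ), 0 < o.H n := hH.eventually_gt_atTop 0
  have hφ : ∀ u : ℤ → Q, Germ.coeRingHom (U : Filter ℤ) u = 0 ↔
      ∀ᶠ n in (U : Filter ℤ), u n = 0 := fun u => Germ.coe_eq (g := 0)
  have hrep : ∀ g : π.res ⊤, ∃ u : ℤ → Q, Germ.coeRingHom (U : Filter ℤ) u = g := fun g =>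
    Germ.inductionOn (g : Germ (U : Filter ℤ) Q) fun u => ⟨u, rfl⟩
  have hη : ∀ g : π.res ⊤, ∃ r : ℝ, ∀ u : ℤ → Q, Germ.coeRingHom (U : Filter ℤ) u = g →
      Tendsto (fun n => o.h (u n) / o.H n) U (𝓝 r) := by
    intro g
    obtain ⟨x, -, -, hx⟩ := (π.mem_res ⊤ g).1 g.2
    obtain ⟨C, hC⟩ := o.bounded U hU x
    obtain ⟨r, -, hr⟩ := (isCompact_Icc (a := (0 : ℝ)) (b := C)).ultrafilter_le_nhds
      (U.map fun n => o.h (o.pl.ev ((S.Φ ^ n) x)) / o.H n) (by
        rw [le_principal_iff, Ultrafilter.mem_coe, Ultrafilter.mem_map]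
        change ∀ᶠ n in (U : Filter ℤ), _ ∈ Set.Icc (0 : ℝ) C
        filter_upwards [hC, hpos] with n h1 h2
        exact ⟨div_nonneg (o.ht.nonneg _) h2.le, (div_le_iff₀ h2).2 h1⟩)
    refine ⟨r, fun u hu => Tendsto.congr' ?_ hr⟩
    have h1 : (fun n => o.pl.ev ((S.Φ ^ n) x)) =ᶠ[(U : Filter ℤ)] u :=
      Germ.coe_eq.1 ((hev x).symm.trans (hx.trans hu.symm))
    filter_upwards [h1] with n hn
    rw [← hn]
  choose rep hrep using hrep
  choose η hη using hη
  refine ⟨π.res ⊤, inferInstance, inferInstance, Ult2_core π, η,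
    Ult2_ht o.ht o.H U hH _ hφ halg _ rep hrep η hη, hO, fun x => ?_, fun x => ?_⟩
  · rw [← hφ, Subtype.ext_iff]
    exact Eq.congr_left (hev x)
  · exact hη _ _ (hev x).symm

end Pool.Agent.H35S

namespace Pool.Agent.H35S

open IntermediateField Filter Topology

universe u

variable {k Ω κ : Type u} [Field k] [Field Ω] [Field κ] [Algebra k Ω] [Algebra k κ]
variable {ι : Type} [Fintype ι]

variable {Q : Type u} [Field Q] [Algebra k Q] {S : Sys k Ω ι}

theorem Orb.H_pos (o : Orb S Q) : ∀ᶠ n in atTop, 1 ≤ o.H n := o.tends.eventually_ge_atTop 1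

theorem Orb.E_bind (o : Orb S Q) (V : Ultrafilter ℕ) (W : ℕ → Ultrafilter ℤ) (e : Set Ω)
    (h : ∀ L, o.E (W L) = e) : o.E (V.bind W) = e := by
  ext x
  constructor
  · rintro ⟨h1, h2⟩
    obtain ⟨L, hL⟩ := (eventually_bind.1 h2).exists
    rw [← h L]; exact ⟨h1, hL⟩
  · intro hx
    have h1 : ∀ L, x ∈ o.E (W L) := fun L => by rw [h L]; exact hx
    exact ⟨(h1 0).1, eventually_bind.2 (Eventually.of_forall fun L => (h1 L).2)⟩

theorem Ult30_sum (o : Orb S Q) {U : Filter ℤ} {π : Place k Ω κ} {η : κ → ℝ}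
    (h : ∀ x, Tendsto (fun n => o.h (o.pl.ev ((S.Φ ^ n) x)) / o.H n) U (𝓝 (η (π.ev x))))
    (i : ℤ) : Tendsto (fun n => o.H (n + i) / o.H n) U (𝓝 (rho π η (S.fr i))) := by
  refine (tendsto_finsetSum Finset.univ fun l _ => h (S.fr i l)).congr fun n => ?_
  rw [← Finset.sum_div]
  simp only [Orb.H, rho, Sys.fr, zpow_add, AlgEquiv.mul_apply]

/-- `ult` summed over the coordinates gives `H (n + i) / H n → ρ_i` along `U`. -/
theorem Orb.ult_sum [IsAlgClosed Q] (o : Orb S Q) (U : Ultrafilter ℤ)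
    (hU : (U : Filter ℤ) ≤ atTop) (i : ℤ) :
    ∃ ρ : ℝ, Tendsto (fun n => o.H (n + i) / o.H n) U (𝓝 ρ) := by
  obtain ⟨κ, _, _, π, η, -, -, -, h⟩ := o.ult U hU
  exact ⟨_, Ult30_sum o h i⟩

/-- The profile of an ultrafilter. Positivity of `ρ_i`: `ult_sum` for `sh U i` and `-i` shows that
`H n / H (n + i)` converges along `U`, and the product of the two limits is `1`. -/
theorem Orb.profile [IsAlgClosed Q] (o : Orb S Q) (U : Ultrafilter ℤ)
    (hU : (U : Filter ℤ) ≤ atTop) :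
    ∃ (κ : Type u) (_ : Field κ) (_ : Algebra k κ) (π : Place k Ω κ) (η : κ → ℝ), IsHt k η ∧
      (∀ i, S.El π i = o.E (sh U i)) ∧ S.lab π.O = o.E U ∧
      (∀ x, π.ev x = 0 ↔ ∀ᶠ n in (U : Filter ℤ), o.pl.ev ((S.Φ ^ n) x) = 0) ∧
      (∀ (i : ℤ) l, S.fr i l ∈ π.O) ∧ rho π η (S.fr 0) = 1 ∧ (∀ i : ℤ, 0 < rho π η (S.fr i)) ∧
      (∀ i : ℤ, Tendsto (fun n => o.H (n + i) / o.H n) U (𝓝 (rho π η (S.fr i)))) ∧
      ∀ i : ℤ, Tendsto (fun n => o.H (n + 1) / o.H n) (sh U i)
        (𝓝 (rho π η (S.fr (i + 1)) / rho π η (S.fr i))) := by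
  obtain ⟨κ, _, _, π, η, h1, h2, h3, h4⟩ := o.ult U hU
  have h5 := Ult30_sum o h4
  have hp : ∀ i : ℤ, ∀ᶠ n in (U : Filter ℤ), o.H (n + i) ≠ 0 := fun i =>
    (eventually_map.1 (o.H_pos.filter_mono (sh_le hU i))).mono fun n hn =>
      (zero_lt_one.trans_le hn).ne'
  have hp0 : ∀ᶠ n in (U : Filter ℤ), o.H n ≠ 0 := by simpa using hp 0
  have h6 : ∀ i : ℤ, 0 < rho π η (S.fr i) := fun i => by
    obtain ⟨ρ, hρ⟩ := o.ult_sum (sh U i) (sh_le hU i) (-i)
    have h7 : Tendsto (fun n => o.H (n + i + -i) / o.H (n + i)) U (𝓝 ρ) := hρ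
    have h8 : rho π η (S.fr i) * ρ = 1 :=
      tendsto_nhds_unique ((h5 i).mul h7) (tendsto_const_nhds.congr' (((hp i).and hp0).mono
        fun n hn => by
          have := hn.1
          have := hn.2
          simp only [add_neg_cancel_right]
          field_simp))
    exact lt_of_le_of_ne (Finset.sum_nonneg fun l _ => h1.nonneg _)
      (left_ne_zero_of_mul_eq_one h8).symm
  refine ⟨κ, inferInstance, inferInstance, π, η, h1, fun i => ?_, ?_, h3, fun i l => ?_, ?_, h6,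
    h5, fun i => ?_⟩
  · ext x
    refine and_congr_right fun _ => ?_
    rw [Place.mem_pull, h2]
    simp only [sh, Ultrafilter.coe_map, eventually_map, zpow_add, AlgEquiv.mul_apply]
  · ext x
    exact and_congr_right fun _ => h2 x
  · rw [h2]
    refine ((eventually_ge_atTop (-i)).filter_mono hU).mono fun n hn => ?_
    have := o.mem (n + i).toNat l
    rw [Int.toNat_of_nonneg (by omega)] at this
    simpa only [Sys.fr, zpow_add, AlgEquiv.mul_apply] using this
  · exact tendsto_nhds_unique (h5 0) (tendsto_const_nhds.congr' (hp0.mono fun n hn => by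
      simp only [add_zero, div_self hn]))
  · refine (((h5 (i + 1)).div (h5 i) (h6 i).ne').congr' (hp0.mono fun n hn => ?_) :
      Tendsto (fun n => o.H (n + i + 1) / o.H (n + i)) U _)
    simp only [Pi.div_apply, add_assoc]
    rw [div_div_div_cancel_right₀ hn]

end Pool.Agent.H35S

namespace Pool.Agent.H35S

open IntermediateField Filter Topology

universe u

variable {k Ω κ : Type u} [Field k] [Field Ω] [Field κ] [Algebra k Ω] [Algebra k κ]
variable {ι : Type} [Fintype ι]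

variable {Q : Type u} [Field Q] [Algebra k Q] {S : Sys k Ω ι}

/-- Heights are determined by the kernel of the reduction on a subalgebra containing the
generators. Plan: `x = a l₀` with `η (ev x) > 0`; `ev' x` is transcendental too; `IsHt.two` (with
`isAlgebraic_ev`) gives `η (ev z) η' (ev' x) = η (ev x) η' (ev' z)` for `z ∈ B`; summing over
`z = a l` gives `η' (ev' x) = η (ev x)`. -/
theorem Sys.ht_eq (S : Sys k Ω ι) {κ' : Type u} [Field κ'] [Algebra k κ'] (π : Place k Ω κ)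
    (π' : Place k Ω κ') {η : κ → ℝ} {η' : κ' → ℝ} (hη : IsHt k η) (hη' : IsHt k η')
    (hπ : π.O ≠ ⊤) (B : Subalgebra k Ω) (ha : ∀ l, S.a l ∈ B)
    (hB : ∀ z ∈ B, z ∈ π.O ∧ z ∈ π'.O ∧ (π.ev z = 0 ↔ π'.ev z = 0))
    (h1 : rho π η S.a = 1) (h1' : rho π' η' S.a = 1) {z : Ω} (hz : z ∈ B) :
    η (π.ev z) = η' (π'.ev z) := by
  obtain ⟨l₀, hpos, htr⟩ := exists_transcendental_of_rho_pos hη π S.a (by rw [h1]; exact one_pos)
  have key : ∀ z ∈ B, η (π.ev z) * η' (π'.ev (S.a l₀)) = η (π.ev (S.a l₀)) * η' (π'.ev z) := by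
    intro z hz
    refine hη.two hη' htr (π.isAlgebraic_ev S.trdeg hπ htr z) fun T => ?_
    have hm : ∀ i, (![z, S.a l₀] : Fin 2 → Ω) i ∈ B := fun i => by
      fin_cases i
      · exact hz
      · exact ha l₀
    have hT : MvPolynomial.aeval ![z, S.a l₀] T ∈ B := by
      induction T using MvPolynomial.induction_on with
      | C c => simp
      | add p q hp hq => rw [map_add]; exact add_mem hp hq
      | mul_X p i hp => rw [map_mul, MvPolynomial.aeval_X]; exact mul_mem hp (hm i)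
    have e1 := π.ev_mvaeval (fun i => (hB _ (hm i)).1) T
    have e2 := π'.ev_mvaeval (fun i => (hB _ (hm i)).2.1) T
    have f1 : (fun i => π.ev ((![z, S.a l₀] : Fin 2 → Ω) i)) = ![π.ev z, π.ev (S.a l₀)] := by
      funext i; fin_cases i <;> rfl
    have f2 : (fun i => π'.ev ((![z, S.a l₀] : Fin 2 → Ω) i)) = ![π'.ev z, π'.ev (S.a l₀)] := by
      funext i; fin_cases i <;> rfl
    rw [← f1, ← f2, ← e1, ← e2]
    exact (hB _ hT).2.2
  have h2 : η' (π'.ev (S.a l₀)) = η (π.ev (S.a l₀)) := by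
    have := Finset.sum_congr rfl fun l (_ : l ∈ Finset.univ) => key _ (ha l)
    rw [← Finset.sum_mul, ← Finset.mul_sum] at this
    unfold rho at h1 h1'
    rwa [h1, h1', one_mul, mul_one] at this
  have h3 := key z hz
  rw [h2, mul_comm] at h3
  exact mul_left_cancel₀ hpos.ne' h3

/-- The orbit of the iterate. -/
theorem Orb.exists_pow (o : Orb S Q) {m : ℕ} (hm : 1 ≤ m) :
    ∃ o' : Orb (S.pow m) Q, (∀ n, o'.H n = o.H (m * n)) ∧ (o.NP → o'.NP) := by
  have hm' : (0 : ℤ) < m := by exact_mod_cast hm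
  have ht : Tendsto (fun n : ℤ => (m : ℤ) * n) atTop atTop :=
    tendsto_atTop_mono' atTop (by
      filter_upwards [eventually_ge_atTop (0 : ℤ)] with n hn
      exact le_mul_of_one_le_left hn hm') tendsto_id
  let o' : Orb (S.pow m) Q :=
    { pl := o.pl
      h := o.h
      ht := o.ht
      mem := fun n l => by
        rw [Sys.pow_fr, ← Nat.cast_mul]
        exact o.mem _ l
      tends := by
        simp only [Sys.pow_fr]
        exact o.tends.comp ht }
  have hE : ∀ (U : Ultrafilter ℤ) (i : ℤ),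
      o'.E (sh U i) = o.E (sh (U.map fun n => (m : ℤ) * n) (m * i)) := fun U i => by
    ext x
    simp only [Orb.E, sh, Set.mem_ofPred_eq, Ultrafilter.coe_map, eventually_map, Sys.pow_K,
      Sys.pow_Φ, mul_add]
    rfl
  refine ⟨o', fun n => by simp only [Orb.H, Sys.pow_fr]; rfl, fun hNP U hU hne i j hij => ?_⟩
  have h0 := hE U 0
  rw [mul_zero, sh_zero, sh_zero] at h0
  rw [hE, hE] at hij
  refine mul_left_cancel₀ hm'.ne' (hNP _ ?_ ?_ _ _ hij)
  · exact (Filter.map_mono hU).trans ht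
  · rwa [← h0, ← Sys.pow_K S m]

end Pool.Agent.H35S

namespace Pool.Agent.H35S

open IntermediateField Filter Topology

universe u

variable {k Ω κ : Type u} [Field k] [Field Ω] [Field κ] [Algebra k Ω] [Algebra k κ]
variable {ι : Type} [Fintype ι]

variable {Q : Type u} [Field Q] [Algebra k Q] {S : Sys k Ω ι}

theorem Orb.exists_r [IsAlgClosed Q] (o : Orb S Q) :
    ∃ r : Ultrafilter ℤ → ℝ, ∀ U : Ultrafilter ℤ, (U : Filter ℤ) ≤ atTop →
      0 < r U ∧ Tendsto (fun n => o.H (n + 1) / o.H n) U (𝓝 (r U)) := by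
  have key : ∀ U : Ultrafilter ℤ, ∃ t : ℝ, (U : Filter ℤ) ≤ atTop →
      0 < t ∧ Tendsto (fun n => o.H (n + 1) / o.H n) U (𝓝 t) := by
    intro U
    by_cases hU : (U : Filter ℤ) ≤ atTop
    · obtain ⟨κ, _, _, π, η, -, -, -, -, -, -, hpos, hlim, -⟩ := o.profile U hU
      exact ⟨_, fun _ => ⟨hpos 1, hlim 1⟩⟩
    · exact ⟨0, fun h => absurd h hU⟩
  choose r hr using key
  exact ⟨r, hr⟩

theorem SysT0_pos (o : Orb S Q) : ∀ᶠ n in atTop, 0 < o.H n :=
  o.H_pos.mono fun _ h => lt_of_lt_of_le one_pos h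

theorem SysT0_inj (o : Orb S Q) (hNP : o.NP) {F : Set (Set Ω)} (hK : (S.K : Set Ω) ∉ F)
    (U : Ultrafilter ℤ) (hU : (U : Filter ℤ) ≤ atTop) (i j : ℤ) (hi : o.E (sh U i) ∈ F)
    (hij : o.E (sh U i) = o.E (sh U j)) : i = j := by
  have hne : o.E (sh U i) ≠ (S.K : Set Ω) := fun h => hK (h ▸ hi)
  have h := hNP (sh U i) (sh_le hU i) hne 0 (j - i) (by
    rw [sh_zero, sh_sh, show i + (j - i) = j by ring]; exact hij)
  omega

theorem Orb.ratio [IsAlgClosed Q] (o : Orb S Q) :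
    ∃ C : ℝ, 1 ≤ C ∧ ∀ᶠ n in atTop, o.H (n + 1) ≤ C * o.H n ∧ o.H n ≤ C * o.H (n + 1) := by
  obtain ⟨r, hr⟩ := o.exists_r
  obtain ⟨C, hC, h, -⟩ := ratio_bound (SysT0_pos o) hr
  exact ⟨C, hC, h⟩

/-- `bounds` with `E = o.E`, `F = 𝓕` from `Sys.step`, `profile`. -/
theorem Orb.sys_bounds [CharZero k] [IsAlgClosed Q] (o : Orb S Q) (hNP : o.NP) :
    LB (fun n : ℕ => o.H n) (S.D / (8 * S.δ 1)) ∧ UB (fun n : ℕ => o.H n) (8 * S.δ 1) := by
  obtain ⟨r, hr⟩ := o.exists_r
  obtain ⟨F, hF, hK, hstep⟩ := S.step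
  have hδ : (0 : ℝ) < S.δ 1 := lt_of_lt_of_le one_pos (S.one_le_δ 1)
  have hD : (0 : ℝ) < S.D := by exact_mod_cast S.one_le_D
  refine bounds (E := o.E) hF (SysT0_pos o) hr (by positivity) (by positivity) ?_
    (fun U hU i j => SysT0_inj o hNP hK U hU i j)
  intro U hU hE
  obtain ⟨κ, _, _, π, η, hη, -, hlab, -, -, h0, -, hlim, -⟩ := o.profile U hU
  obtain ⟨h1, h2, -⟩ := hstep κ π η hη (hlab ▸ hE)
  have he : r U = rho π η (S.fr 1) := tendsto_nhds_unique (hr U hU).2 (hlim 1)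
  rw [h0, mul_one] at h1 h2
  rw [he]
  exact ⟨h1, h2⟩

/-- Take any `U` and a non-exceptional shift (`exc_card`); use the third inequality of `step`. -/
theorem Orb.sys_rec [CharZero k] [IsAlgClosed Q] (o : Orb S Q) (hNP : o.NP) {C : ℝ} (hC : 1 ≤ C)
    (hr : ∀ᶠ n in atTop, o.H (n + 1) ≤ C * o.H n ∧ o.H n ≤ C * o.H (n + 1)) :
    S.δ 2 ≤ 4 * S.δ 1 * (S.D + 1) * C := by
  obtain ⟨F, hF, hK, hstep⟩ := S.step
  have hU₀ : ((Ultrafilter.of (atTop : Filter ℤ) : Ultrafilter ℤ) : Filter ℤ) ≤ atTop :=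
    Ultrafilter.of_le _
  obtain ⟨hfin, -⟩ := exc_card (E := o.E) hF (U := Ultrafilter.of (atTop : Filter ℤ))
    (fun i j => SysT0_inj o hNP hK _ hU₀ i j)
  obtain ⟨i, hi⟩ := hfin.exists_notMem
  have hU := sh_le hU₀ i
  obtain ⟨κ, _, _, π, η, hη, -, hlab, -, -, h0, hpos, hlim, -⟩ := o.profile _ hU
  obtain ⟨-, -, h3⟩ := hstep κ π η hη (hlab ▸ hi)
  have hp := (SysT0_pos o).filter_mono hU
  have ha : 1 ≤ C * rho π η (S.fr 1) := by
    refine ge_of_tendsto ((hlim 1).const_mul C) ?_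
    filter_upwards [hp, hr.filter_mono hU] with n hn h
    rw [← mul_div_assoc, le_div_iff₀ hn, one_mul]
    exact h.2
  have hb : rho π η (S.fr 2) ≤ C * rho π η (S.fr 1) := by
    refine le_of_tendsto_of_tendsto (hlim 2) ((hlim 1).const_mul C) ?_
    have hr' : ∀ᶠ n in atTop, o.H (n + 1 + 1) ≤ C * o.H (n + 1) :=
      (tendsto_atTop_add_const_right atTop (1 : ℤ) tendsto_id).eventually
        (hr.mono fun _ h => h.1)
    filter_upwards [hp, hr'.filter_mono hU] with n hn h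
    rw [← mul_div_assoc, show n + 2 = n + 1 + 1 by ring]
    exact div_le_div_of_nonneg_right h hn.le
  have hδ : (0 : ℝ) < S.δ 1 := lt_of_lt_of_le one_pos (S.one_le_δ 1)
  have hD : (0 : ℝ) ≤ S.D := Nat.cast_nonneg _
  have h1 := hpos 1
  rw [h0, mul_one] at h3
  refine le_of_mul_le_mul_right ?_ h1
  refine h3.trans ?_
  have hc : (S.D : ℝ) + rho π η (S.fr 2) ≤ (S.D + 1) * C * rho π η (S.fr 1) := by
    nlinarith [mul_le_mul_of_nonneg_left ha hD]
  calc 4 * S.δ 1 * (S.D + rho π η (S.fr 2))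
      ≤ 4 * S.δ 1 * ((S.D + 1) * C * rho π η (S.fr 1)) :=
        mul_le_mul_of_nonneg_left hc (by positivity)
    _ = 4 * S.δ 1 * (S.D + 1) * C * rho π η (S.fr 1) := by ring

end Pool.Agent.H35S

namespace Pool.Agent.H35S

open IntermediateField Filter Topology

universe u

variable {k Ω κ : Type u} [Field k] [Field Ω] [Field κ] [Algebra k Ω] [Algebra k κ]
variable {ι : Type} [Fintype ι]

variable {Q : Type u} [Field Q] [Algebra k Q] {S : Sys k Ω ι}

theorem SysT_profile [IsAlgClosed Q] (o : Orb S Q) {r : Ultrafilter ℤ → ℝ}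
    (hr : ∀ U : Ultrafilter ℤ, (U : Filter ℤ) ≤ atTop →
      0 < r U ∧ Tendsto (fun n => o.H (n + 1) / o.H n) U (𝓝 (r U)))
    (U : Ultrafilter ℤ) (hU : (U : Filter ℤ) ≤ atTop) :
    ∃ (κ : Type u) (_ : Field κ) (_ : Algebra k κ) (π : Place k Ω κ) (η : κ → ℝ), IsHt k η ∧
      (∀ i, S.El π i = o.E (sh U i)) ∧ S.lab π.O = o.E U ∧
      (∀ (i : ℤ) l, S.fr i l ∈ π.O) ∧ rho π η S.a = 1 ∧ (∀ i : ℤ, 0 < rho π η (S.fr i)) ∧
      ∀ i : ℤ, r (sh U i) = rho π η (S.fr (i + 1)) / rho π η (S.fr i) := by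
  obtain ⟨κ, _, _, π, η, h1, h2, h3, -, h5, h6, h7, -, h9⟩ := o.profile U hU
  exact ⟨κ, _, _, π, η, h1, h2, h3, h5, S.fr_zero ▸ h6, h7,
    fun i => tendsto_nhds_unique (hr _ (sh_le hU i)).2 (h9 i)⟩

omit [Fintype ι] in
theorem SysT_ne_top (π : Place k Ω κ) (h : S.lab π.O ≠ (S.K : Set Ω)) : π.O ≠ ⊤ :=
  fun h' => h ((label_eq_iff π.O S.alg).2 h')

theorem SysT_rho_eq {κ' : Type u} [Field κ'] [Algebra k κ'] (π : Place k Ω κ)
    (π' : Place k Ω κ') {η : κ → ℝ} {η' : κ' → ℝ} (hη : IsHt k η) (hη' : IsHt k η')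
    (hπ : π.O ≠ ⊤) (hl : S.lab π.O = S.lab π'.O) (hm : ∀ (i : ℤ) l, S.fr i l ∈ π.O)
    (h1 : rho π η S.a = 1) (h1' : rho π' η' S.a = 1) {i : ℤ} (hi : 0 ≤ i) :
    rho π η (S.fr i) = rho π' η' (S.fr i) := by
  have hO : ∀ z ∈ S.K, z ∈ π.O ↔ z ∈ π'.O := fun z hz =>
    ⟨fun h => (show z ∈ S.lab π'.O from hl ▸ ⟨hz, h⟩).2,
      fun h => (show z ∈ S.lab π.O from hl ▸ ⟨hz, h⟩).2⟩
  let B : Subalgebra k Ω :=
    { carrier := {z | z ∈ S.K ∧ z ∈ π.O}
      mul_mem' := fun hx hy => ⟨mul_mem hx.1 hy.1, mul_mem hx.2 hy.2⟩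
      add_mem' := fun hx hy => ⟨add_mem hx.1 hy.1, add_mem hx.2 hy.2⟩
      algebraMap_mem' := fun c => ⟨S.K.algebraMap_mem c, π.alg_mem c⟩ }
  refine Finset.sum_congr rfl fun l _ => S.ht_eq π π' hη hη' hπ B
    (fun l => ⟨S.a_mem l, S.fr_zero ▸ hm 0 l⟩) (fun z hz => ?_) h1 h1'
    ⟨S.pow_mem hi (S.a_mem l), hm i l⟩
  have h2 := (hO z hz.1).1 hz.2
  exact ⟨hz.2, h2, by rw [π.ev_eq_zero_iff hz.2, π'.ev_eq_zero_iff h2, hO _ (inv_mem hz.1)]⟩

/-- `run_bound`, `lb_of_runs`, `ub_of_no_runs` (with `S' = s`). `h2`: `step`, `persist`;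
`h3`: `NP` (labels in `𝓕` are not `K`; `sh_sh`); `h4`: `ht_eq` with `B = K ∩ O`; `h5`: `Tow.key`;
`h6`: `E_bind`. -/
theorem Orb.sys_dich [CharZero k] [IsAlgClosed Ω] [IsAlgClosed Q] (o : Orb S Q) (hNP : o.NP)
    {s Sg : ℝ} (hs : 0 < s) (hsS : s < Sg) (hS : Sg ≤ S.δ 2 / (4 * S.δ 1) - S.D / s)
    (hnum : NumCond S.D S.δ s Sg) :
    UB (fun n : ℕ => o.H n) s ∨ LB (fun n : ℕ => o.H n) Sg := by
  obtain ⟨𝓕, hF, hK, hstep⟩ := S.step
  obtain ⟨r, hr⟩ := o.exists_r
  have hH : ∀ᶠ n in atTop, 0 < o.H n := o.H_pos.mono fun n hn => one_pos.trans_le hn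
  have hne : ∀ U, o.E U ∈ 𝓕 → o.E U ≠ (S.K : Set Ω) := fun U h h' => hK (h' ▸ h)
  have h2 : ∀ U : Ultrafilter ℤ, (U : Filter ℤ) ≤ atTop → o.E U ∉ 𝓕 → s ≤ r U →
      Sg ≤ r (sh U 1) := by
    intro U hU hE hsU
    obtain ⟨κ, _, _, π, η, h1, -, h3, -, -, h7, h8⟩ := SysT_profile o hr U hU
    have h0 := h8 0
    rw [sh_zero, zero_add] at h0
    rw [h0, le_div_iff₀ (h7 0)] at hsU
    rw [h8 1, le_div_iff₀ (h7 1)]
    exact persist (Nat.cast_nonneg _) (S.one_le_δ 1) hs hS (h7 0).le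
      (hstep κ π η h1 (h3 ▸ hE)).2.2 hsU
  have h3 : ∀ U : Ultrafilter ℤ, (U : Filter ℤ) ≤ atTop →
      ∀ i j : ℤ, o.E (sh U i) ∈ 𝓕 → o.E (sh U i) = o.E (sh U j) → i = j := by
    intro U hU i j hi hij
    have := hNP _ (sh_le hU i) (hne _ hi) 0 (j - i) (by rw [sh_zero, sh_sh, add_sub_cancel, hij])
    omega
  obtain ⟨L₀, K₀, -, hQ⟩ := run_bound (H := o.H) (E := o.E) hF hr hsS h2 h3
    (fun U U' hU hU' hE hEE i => by
      obtain ⟨κ, _, _, π, η, h1, -, h3, h5, h6, -, h8⟩ := SysT_profile o hr U hU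
      obtain ⟨κ', _, _, π', η', h1', -, h3', -, h6', -, h8'⟩ := SysT_profile o hr U' hU'
      have key := fun (j : ℤ) (hj : 0 ≤ j) => SysT_rho_eq π π' h1 h1'
        (SysT_ne_top π (h3 ▸ hne U hE)) (h3.trans (hEE.trans h3'.symm)) h5 h6 h6' hj
      rw [h8, h8', key i (by omega), key (i + 1) (by omega)])
    (fun U hU hE i₁ i₀ hf hsl => by
      obtain ⟨κ, _, _, π, η, h1, h2, h3, h5, -, h7, h8⟩ := SysT_profile o hr U hU
      refine Tow.key (S := S) (π := π) ⟨h1, SysT_ne_top π (h3 ▸ hne U hE), h5, h7,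
        fun i j hij => hNP U hU (hne U hE) i j (by rw [← h2, ← h2, hij])⟩ hs hsS hS hnum i₁ i₀
        (fun i hi => ?_) fun i hi => ?_
      · rw [← le_div_iff₀ (h7 i), ← h8]
        exact hf i hi
      · rw [← div_lt_iff₀ (h7 i), ← h8]
        exact hsl i hi)
    o.E_bind
  by_cases hgood : ∃ᶠ n in atTop, ∀ i : ℕ, 1 ≤ i → i ≤ L₀ → s * o.H (n - i) ≤ o.H (n - i + 1)
  · exact Or.inr (lb_of_runs hH hr hs le_rfl hsS hQ hgood)
  · exact Or.inl (ub_of_no_runs hF hH hr hs le_rfl hsS h2 h3 (not_frequently.1 hgood))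

end Pool.Agent.H35S

namespace Pool.Agent.H35S

open IntermediateField Filter Topology

universe u

variable {k Ω κ : Type u} [Field k] [Field Ω] [Field κ] [Algebra k Ω] [Algebra k κ]
variable {ι : Type} [Fintype ι]

open MvPolynomial

variable {Q : Type u} [Field Q] [Algebra k Q] {S : Sys k Ω ι}

omit [Fintype ι] in
theorem Per0_map (Ψ : Ω ≃ₐ[k] Ω) (a : ι → Ω) (f : MvPolynomial ι k) :
    Ψ (aeval a f) = aeval (fun l => Ψ (a l)) f :=
  (MvPolynomial.comp_aeval_apply (f := a) (Ψ : Ω →ₐ[k] Ω) f)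

omit [Fintype ι] in
theorem Per0_succ (S : Sys k Ω ι) (m n : ℕ) (x : Ω) :
    (S.Φ ^ ((m + n : ℕ) : ℤ)) x = (S.Φ ^ (m : ℤ)) ((S.Φ ^ (n : ℤ)) x) := by
  rw [Nat.cast_add, zpow_add, AlgEquiv.mul_apply]

theorem Orb.ev_aeval (o : Orb S Q) (n : ℕ) (f : MvPolynomial ι k) :
    (S.Φ ^ (n : ℤ)) (aeval S.a f) ∈ o.pl.O ∧
      o.pl.ev ((S.Φ ^ (n : ℤ)) (aeval S.a f)) = aeval (o.y n) f := by
  rw [Per0_map]
  exact ⟨o.pl.mvaeval_mem (o.mem n) f, o.pl.ev_mvaeval (o.mem n) f⟩

/-- functions that are regular at the `n`-th point -/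
def Per0_B (o : Orb S Q) (n : ℕ) (x : Ω) : Prop :=
  ∃ u v : MvPolynomial ι k, aeval (o.y n) v ≠ 0 ∧ x * aeval S.a v = aeval S.a u

theorem Per0_aeval (o : Orb S Q) (n : ℕ) {x : ι → Ω} (hx : ∀ l, Per0_B o n (x l))
    (f : MvPolynomial ι k) : Per0_B o n (aeval x f) := by
  induction f using MvPolynomial.induction_on with
  | C c => exact ⟨C c, 1, by simp, by simp⟩
  | add p q hp hq =>
    obtain ⟨u, v, hv, h⟩ := hp
    obtain ⟨u', v', hv', h'⟩ := hq
    refine ⟨u * v' + u' * v, v * v', by rw [map_mul]; exact mul_ne_zero hv hv', ?_⟩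
    simp only [map_add, map_mul]
    rw [← h, ← h']
    ring
  | mul_X p l hp =>
    obtain ⟨u, v, hv, h⟩ := hp
    obtain ⟨u', v', hv', h'⟩ := hx l
    refine ⟨u * u', v * v', by rw [map_mul]; exact mul_ne_zero hv hv', ?_⟩
    simp only [map_mul, aeval_X]
    rw [← h, ← h']
    ring

theorem Per0_ev (o : Orb S Q) (n : ℕ) {x : Ω} {u v : MvPolynomial ι k}
    (hv : aeval (o.y n) v ≠ 0) (h : x * aeval S.a v = aeval S.a u) :
    o.pl.ev ((S.Φ ^ (n : ℤ)) x) * aeval (o.y n) v = aeval (o.y n) u := by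
  obtain ⟨hu1, hu2⟩ := o.ev_aeval n u
  obtain ⟨hv1, hv2⟩ := o.ev_aeval n v
  have h' := congrArg (S.Φ ^ (n : ℤ)) h
  rw [map_mul] at h'
  have hne : o.pl.ev ((S.Φ ^ (n : ℤ)) (aeval S.a v)) ≠ 0 := by rwa [hv2]
  have h0 : (S.Φ ^ (n : ℤ)) (aeval S.a v) ≠ 0 := fun h0 => hne (by rw [h0, o.pl.ev_zero])
  have hx : (S.Φ ^ (n : ℤ)) x ∈ o.pl.O := by
    rw [(eq_mul_inv_iff_mul_eq₀ h0).2 h']
    exact mul_mem hu1 (o.pl.mem_of_ev_ne hne).2
  rw [← hu2, ← hv2, ← h', o.pl.ev_mul _ _ hx hv1]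

theorem Per0_step (o : Orb S Q) (hreg : o.Reg) (n : ℕ) {x : Ω} (hx : Per0_B o (n + 1) x) :
    Per0_B o n (S.Φ x) := by
  obtain ⟨u, v, hv, h⟩ := hx
  obtain ⟨u₁, v₁, hv₁, h₁⟩ := Per0_aeval o n (hreg n) v
  obtain ⟨u₂, v₂, hv₂, h₂⟩ := Per0_aeval o n (hreg n) u
  rw [← Per0_map] at h₁ h₂
  have e := Per0_ev o n hv₁ h₁
  have e' := (o.ev_aeval (n + 1) v).2
  rw [Per0_succ, Nat.cast_one, zpow_one] at e'
  have hu₁ : aeval (o.y n) u₁ ≠ 0 := by
    rw [← e, e']
    exact mul_ne_zero hv hv₁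
  refine ⟨u₂ * v₁, u₁ * v₂, by rw [map_mul]; exact mul_ne_zero hu₁ hv₂, ?_⟩
  have h' := congrArg S.Φ h
  rw [map_mul] at h'
  rw [map_mul, map_mul, ← h₁, ← h₂, ← h']
  ring

/-- Iterated regularity. Plan: `B n = {x | ∃ u v, aeval (y n) v ≠ 0 ∧ x * v(a) = u(a)}` is a
subalgebra; an element `x = u(a)/v(a)` of it with `ev (Φ^n x) ≠ 0` has its inverse in `B n`;
`Φ (B (n+1)) ⊆ B n`. -/
theorem Orb.reg_iter (o : Orb S Q) (hreg : o.Reg) (e n : ℕ) (f : MvPolynomial ι k) :
    ∃ u v : MvPolynomial ι k, aeval (o.y n) v ≠ 0 ∧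
      (S.Φ ^ (e : ℤ)) (aeval S.a f) * aeval S.a v = aeval S.a u := by
  induction e generalizing n with
  | zero => exact ⟨f, 1, by simp, by simp⟩
  | succ e ih =>
    have := Per0_step o hreg n (ih (n + 1))
    rw [add_comm e 1, Per0_succ, Nat.cast_one, zpow_one]
    exact this

/-- The orbit enters the periodic curve and stays there. Plan: `𝔮 = {f | π.ev (f(a)) = 0}` is a
finitely generated ideal, so some `y n₀` is a zero of `𝔮`. If `f ∈ 𝔮` then `π.ev (Φ^e f(a)) = 0`
(vanishing is read off from the label: `ev_eq_zero_iff`); write `Φ^e f(a) v(a) = u(a)`; `u ∈ 𝔮`. -/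
theorem Orb.per_curve (o : Orb S Q) (hreg : o.Reg) (U : Ultrafilter ℤ)
    (hU : (U : Filter ℤ) ≤ atTop) (π : Place k Ω κ) (e : ℕ) (hper : S.El π e = S.El π 0)
    (hmem : ∀ (i : ℤ) l, S.fr i l ∈ π.O)
    (hev : ∀ x, π.ev x = 0 ↔ ∀ᶠ n in (U : Filter ℤ), o.pl.ev ((S.Φ ^ n) x) = 0) :
    ∃ n₀ : ℕ, ∀ (j : ℕ) (f : MvPolynomial ι k), π.ev (aeval S.a f) = 0 →
      aeval (o.y (n₀ + e * j : ℕ)) f = 0 := by
  have ha : ∀ l, S.a l ∈ π.O := fun l => by simpa [Sys.fr] using hmem 0 l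
  obtain ⟨s, hs⟩ := IsNoetherian.noetherian (R := MvPolynomial ι k)
    (RingHom.ker (aeval (R := k) fun l => π.ev (S.a l)))
  have hq : ∀ f : MvPolynomial ι k, π.ev (aeval S.a f) = 0 ↔
      f ∈ Submodule.span (MvPolynomial ι k) (s : Set (MvPolynomial ι k)) := fun f => by
    rw [hs, RingHom.mem_ker, π.ev_mvaeval ha]
  have h1 : ∀ᶠ n in (U : Filter ℤ), ∀ g ∈ s, o.pl.ev ((S.Φ ^ n) (aeval S.a g)) = 0 :=
    (eventually_all_finset s).2 fun g hg => (hev _).1 ((hq g).2 (Submodule.subset_span hg))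
  obtain ⟨n, hn, hn0⟩ := (h1.and (hU (eventually_ge_atTop 0))).exists
  obtain ⟨n₀, rfl⟩ := Int.eq_ofNat_of_zero_le hn0
  refine ⟨n₀, fun j => ?_⟩
  induction j with
  | zero =>
    intro f hf
    have : Submodule.span (MvPolynomial ι k) (s : Set (MvPolynomial ι k)) ≤
        RingHom.ker (aeval (R := k) (o.y n₀)) := by
      refine Submodule.span_le.2 fun g hg => ?_
      rw [SetLike.mem_coe, RingHom.mem_ker, ← (o.ev_aeval n₀ g).2]
      exact hn g hg
    simpa using this ((hq f).1 hf)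
  | succ j ih =>
    intro f hf
    have hK : aeval S.a f ∈ S.K := by
      refine algebra_adjoin_le_adjoin k _ ?_
      rw [Algebra.adjoin_range_eq_range_aeval]
      exact ⟨f, rfl⟩
    have hO : (S.Φ ^ (e : ℤ)) (aeval S.a f) ∈ π.O := by
      rw [Per0_map]
      exact π.mvaeval_mem (hmem e) f
    have hz : π.ev ((S.Φ ^ (e : ℤ)) (aeval S.a f)) = 0 := by
      rcases (π.ev_eq_zero_iff (π.mvaeval_mem ha f)).1 hf with h | h
      · rw [h, map_zero, π.ev_zero]
      · refine π.ev_max _ fun h' => h ?_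
        have h2 : (aeval S.a f)⁻¹ ∈ S.El π e :=
          ⟨inv_mem hK, (π.mem_pull _ _).2 (by rwa [map_inv₀])⟩
        rw [hper] at h2
        simpa using (π.mem_pull _ _).1 h2.2
    obtain ⟨u, v, hv, h⟩ := o.reg_iter hreg e (n₀ + e * j) f
    have hu : π.ev (aeval S.a u) = 0 := by
      rw [← h, π.ev_mul _ _ hO (π.mvaeval_mem ha v), hz, zero_mul]
    have e1 := Per0_ev o _ hv h
    rw [ih u hu, ← Per0_succ, (o.ev_aeval _ f).2] at e1
    rw [Nat.mul_succ, ← add_assoc]
    exact (mul_eq_zero.1 e1).resolve_right hv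

end Pool.Agent.H35S

namespace Pool.Agent.H35S

open IntermediateField Filter Topology

universe u

variable {k Ω κ : Type u} [Field k] [Field Ω] [Field κ] [Algebra k Ω] [Algebra k κ]
variable {ι : Type} [Fintype ι]

open MvPolynomial

variable {Q : Type u} [Field Q] [Algebra k Q] {S : Sys k Ω ι}

theorem Per_aux {κ' : Type u} [Field κ'] [Algebra k κ'] {σ : Type} (x : σ → κ) (x' : σ → κ')
    (l : σ) (hl : Transcendental k (x' l))
    (h : ∀ f : MvPolynomial σ k, aeval x f = 0 → aeval x' f = 0) :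
    Transcendental k (x l) ∧ ∀ f : MvPolynomial σ k, IsAlgebraic k⟮x l⟯ (aeval x f) →
      aeval x' f = 0 → aeval x f = 0 := by
  have key : ∀ p : Polynomial k, aeval x (Polynomial.aeval (X l : MvPolynomial σ k) p) =
      Polynomial.aeval (x l) p := fun p => by
    rw [← Polynomial.aeval_algHom_apply, aeval_X]
  have key' : ∀ p : Polynomial k, aeval x' (Polynomial.aeval (X l : MvPolynomial σ k) p) =
      Polynomial.aeval (x' l) p := fun p => by
    rw [← Polynomial.aeval_algHom_apply, aeval_X]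
  refine ⟨?_, fun f halg hf => ?_⟩
  · rintro ⟨p, hp, hp0⟩
    refine hl ⟨p, hp, ?_⟩
    rw [← key']
    apply h
    rw [key, hp0]
  · by_contra hz
    rw [IntermediateField.isAlgebraic_adjoin_iff] at halg
    obtain ⟨t, ht, r, hr, hrt⟩ :=
      halg.exists_nonzero_eq_adjoin_mul (mem_nonZeroDivisors_of_ne_zero hz)
    have hR : ∀ r : Algebra.adjoin k {x l}, ∃ p : Polynomial k,
        Polynomial.aeval (x l) p = (r : κ) := by
      rintro ⟨r, hr⟩
      rw [Algebra.adjoin_singleton_eq_range_aeval] at hr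
      obtain ⟨p, hp⟩ := hr
      exact ⟨p, hp⟩
    have ht' : ∃ g : MvPolynomial σ k, aeval x g = t := by
      clear hrt
      induction ht using Algebra.adjoin_induction with
      | mem y hy =>
        rw [Set.mem_singleton_iff] at hy
        exact ⟨f, hy.symm⟩
      | algebraMap r =>
        obtain ⟨p, hp⟩ := hR r
        exact ⟨_, (key p).trans hp⟩
      | add y z _ _ hy hz =>
        obtain ⟨g₁, rfl⟩ := hy
        obtain ⟨g₂, rfl⟩ := hz
        exact ⟨g₁ + g₂, map_add _ _ _⟩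
      | mul y z _ _ hy hz =>
        obtain ⟨g₁, rfl⟩ := hy
        obtain ⟨g₂, rfl⟩ := hz
        exact ⟨g₁ * g₂, map_mul _ _ _⟩
    obtain ⟨g, rfl⟩ := ht'
    obtain ⟨p, hp⟩ := hR r
    have h1 : aeval x (f * g - Polynomial.aeval (X l : MvPolynomial σ k) p) = 0 := by
      rw [map_sub, map_mul, key, hp, hrt]
      exact sub_self _
    have h2 := h _ h1
    rw [map_sub, map_mul, key', hf, zero_mul, zero_sub, neg_eq_zero] at h2
    have hp0 : p = 0 := by
      by_contra hp0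
      exact hl ⟨p, hp0, h2⟩
    apply hr
    apply Subtype.ext
    rw [← hp, hp0, map_zero]
    rfl

/-- A specialisation of a curve that is not a point is the curve. Plan: let `l` have `ev' (a l)`
transcendental; then so is `ev (a l)`. If `ev f(a) ≠ 0`, take a relation
`∑ cᵢ(ev (a l)) (ev f(a))^i = 0` with `c₀ ≠ 0` (`isAlgebraic_ev`), i.e. a polynomial `g` with
`ev g(a) = 0`; then `ev' g(a) = 0`, and `ev' f(a) = 0` gives `c₀(ev' (a l)) = 0`. -/
theorem Sys.ker_eq (S : Sys k Ω ι) {κ' : Type u} [Field κ'] [Algebra k κ'] (π : Place k Ω κ)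
    (π' : Place k Ω κ') (hπ : π.O ≠ ⊤) (ha : ∀ l, S.a l ∈ π.O) (ha' : ∀ l, S.a l ∈ π'.O)
    (htr : ∃ l, Transcendental k (π'.ev (S.a l)))
    (h : ∀ f : MvPolynomial ι k, π.ev (aeval S.a f) = 0 → π'.ev (aeval S.a f) = 0)
    (f : MvPolynomial ι k) (hf : π'.ev (aeval S.a f) = 0) : π.ev (aeval S.a f) = 0 := by
  obtain ⟨l, hl⟩ := htr
  simp only [π.ev_mvaeval ha, π'.ev_mvaeval ha'] at h hf
  obtain ⟨h1, h2⟩ := Per_aux (fun l => π.ev (S.a l)) (fun l => π'.ev (S.a l)) l hl h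
  have h3 := Place.isAlgebraic_ev S.trdeg π hπ h1 (aeval S.a f)
  rw [π.ev_mvaeval ha] at h3 ⊢
  exact h2 f h3 hf

theorem Per_frac (S : Sys k Ω ι) (π : Place k Ω κ) (ha : ∀ l, S.a l ∈ π.O)
    {u v : MvPolynomial ι k} {z : Ω} (hv : π.ev (aeval S.a v) ≠ 0)
    (hz : z * aeval S.a v = aeval S.a u) :
    z ∈ π.O ∧ (π.ev z = 0 ↔ π.ev (aeval S.a u) = 0) := by
  have hv0 : aeval S.a v ≠ 0 := by
    intro h0
    apply hv
    rw [h0, π.ev_zero]
  have hz' : z = aeval S.a u * (aeval S.a v)⁻¹ := by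
    rw [← hz, mul_inv_cancel_right₀ hv0]
  have hzO : z ∈ π.O := by
    rw [hz']
    exact π.O.mul_mem _ _ (π.mvaeval_mem ha u) (π.mem_of_ev_ne hv).2
  refine ⟨hzO, ?_⟩
  rw [← hz, π.ev_mul _ _ hzO (π.mvaeval_mem ha v), mul_eq_zero]
  exact ⟨Or.inl, fun h => h.resolve_right hv⟩

theorem Per_sub (S : Sys k Ω ι) (π : Place k Ω κ) (ha : ∀ l, S.a l ∈ π.O) :
    ∃ B : Subalgebra k Ω, ∀ z, z ∈ B ↔ ∃ u v : MvPolynomial ι k,
      π.ev (aeval S.a v) ≠ 0 ∧ z * aeval S.a v = aeval S.a u := by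
  have hm : ∀ v v' : MvPolynomial ι k, π.ev (aeval S.a v) ≠ 0 → π.ev (aeval S.a v') ≠ 0 →
      π.ev (aeval S.a (v * v')) ≠ 0 := by
    intro v v' hv hv'
    rw [map_mul, π.ev_mul _ _ (π.mvaeval_mem ha v) (π.mvaeval_mem ha v')]
    exact mul_ne_zero hv hv'
  refine ⟨{ carrier := {z | ∃ u v : MvPolynomial ι k,
              π.ev (aeval S.a v) ≠ 0 ∧ z * aeval S.a v = aeval S.a u}
            mul_mem' := ?_
            add_mem' := ?_
            algebraMap_mem' := ?_ }, fun z => Iff.rfl⟩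
  · rintro y z ⟨u, v, hv, hy⟩ ⟨u', v', hv', hz⟩
    refine ⟨u * u', v * v', hm _ _ hv hv', ?_⟩
    rw [map_mul, map_mul, ← hy, ← hz]
    ring
  · rintro y z ⟨u, v, hv, hy⟩ ⟨u', v', hv', hz⟩
    refine ⟨u * v' + u' * v, v * v', hm _ _ hv hv', ?_⟩
    rw [map_add, map_mul, map_mul, map_mul, ← hy, ← hz]
    ring
  · intro c
    refine ⟨C c, 1, ?_, by simp⟩
    rw [map_one, π.ev_one]
    exact one_ne_zero

theorem Per_shift [IsAlgClosed Q] (o : Orb S Q) (hNP : ¬ o.NP) :
    ∃ (U : Ultrafilter ℤ) (e : ℕ), (U : Filter ℤ) ≤ atTop ∧ 1 ≤ e ∧ o.E U ≠ (S.K : Set Ω) ∧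
      o.E (sh U e) = o.E U := by
  unfold Orb.NP at hNP
  push Not at hNP
  obtain ⟨U, hU, hK, i, j, hij, hne⟩ := hNP
  wlog hlt : i < j generalizing i j
  · exact this j i hij.symm hne.symm (by omega)
  obtain ⟨κ, _, _, π, η, -, hEl, hlab, -⟩ := o.profile U hU
  have hπ : π.O ≠ ⊤ := by
    intro h
    apply hK
    rw [← hlab]
    exact (label_eq_iff π.O S.alg).2 h
  refine ⟨sh U i, (j - i).toNat, sh_le hU i, by omega, ?_, ?_⟩
  · rw [← hEl]
    intro h
    exact π.pull_ne_top _ hπ ((label_eq_iff _ S.alg).1 h)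
  · rw [sh_sh, hij]
    congr 2
    omega

/-- Plan: from `¬ NP` get `U` and `e ≥ 1` with `E (sh U e) = E U ≠ K` (replace `U` by a shift; its
place is still nontrivial). For an ultrafilter `V ≤ atTop` on `ℕ` let `U' = V.map (n₀ + e ·)`;
`ker_eq` and `ht_eq` with `B = {x | ∃ u v, π.ev v(a) ≠ 0 ∧ x v(a) = u(a)}`, which contains
`fr e l` by `reg_iter` at `n₀`, give `ρ_e(U') = ρ_e(U)`; `Filter.tendsto_iff_ultrafilter`. -/
theorem Orb.per [IsAlgClosed Q] (o : Orb S Q) (hreg : o.Reg) (hNP : ¬ o.NP) :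
    ∃ (n₀ e : ℕ) (ρ : ℝ), 1 ≤ e ∧
      Tendsto (fun j : ℕ => o.H (n₀ + e * (j + 1) : ℕ) / o.H (n₀ + e * j : ℕ)) atTop (𝓝 ρ) := by
  obtain ⟨U, e, hU, he, hK, hE⟩ := Per_shift o hNP
  obtain ⟨κ, _, _, π, η, hη, hEl, hlab, hev, hmem, h1, -, -, -⟩ := o.profile U hU
  have hπ : π.O ≠ ⊤ := by
    intro h
    apply hK
    rw [← hlab]
    exact (label_eq_iff π.O S.alg).2 h
  have hper : S.El π e = S.El π 0 := by rw [hEl, hEl, sh_zero, hE]
  obtain ⟨n₀, hn₀⟩ := o.per_curve hreg U hU π e hper hmem hev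
  have ha : ∀ l, S.a l ∈ π.O := fun l => by
    have := hmem 0 l
    rwa [S.fr_zero] at this
  rw [S.fr_zero] at h1
  refine ⟨n₀, e, rho π η (S.fr e), he, ?_⟩
  rw [tendsto_iff_ultrafilter]
  intro V hV
  have hU' : ((V.map fun j : ℕ => ((n₀ + e * j : ℕ) : ℤ) : Ultrafilter ℤ) : Filter ℤ) ≤ atTop := by
    rw [Ultrafilter.coe_map]
    refine Tendsto.mono_left ?_ hV
    refine tendsto_natCast_atTop_atTop.comp ?_
    refine tendsto_atTop_mono (fun j => ?_) tendsto_id
    have : j ≤ e * j := Nat.le_mul_of_pos_left j he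
    simp only [id]
    omega
  obtain ⟨κ', _, _, π', η', hη', -, -, hev', hmem', h1', -, hlim, -⟩ := o.profile _ hU'
  have ha' : ∀ l, S.a l ∈ π'.O := fun l => by
    have := hmem' 0 l
    rwa [S.fr_zero] at this
  rw [S.fr_zero] at h1'
  have hk : ∀ f : MvPolynomial ι k, π.ev (aeval S.a f) = 0 → π'.ev (aeval S.a f) = 0 := by
    intro f hf
    rw [hev', Ultrafilter.coe_map, eventually_map]
    refine Eventually.of_forall fun j => ?_
    rw [(o.ev_aeval _ f).2]
    exact hn₀ j f hf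
  have htr : ∃ l, Transcendental k (π'.ev (S.a l)) := by
    obtain ⟨l, -, hl⟩ := exists_transcendental_of_rho_pos hη' π' S.a (by rw [h1']; exact one_pos)
    exact ⟨l, hl⟩
  have hk' := S.ker_eq π π' hπ ha ha' htr hk
  obtain ⟨B, hB⟩ := Per_sub S π ha
  have haB : ∀ l, S.a l ∈ B := fun l => by
    rw [hB]
    refine ⟨X l, 1, ?_, by simp⟩
    rw [map_one, π.ev_one]
    exact one_ne_zero
  have hBB : ∀ z ∈ B, z ∈ π.O ∧ z ∈ π'.O ∧ (π.ev z = 0 ↔ π'.ev z = 0) := by
    intro z hz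
    obtain ⟨u, v, hv, hz⟩ := (hB z).1 hz
    obtain ⟨a1, a2⟩ := Per_frac S π ha hv hz
    obtain ⟨b1, b2⟩ := Per_frac S π' ha' (fun h => hv (hk' v h)) hz
    refine ⟨a1, b1, ?_⟩
    rw [a2, b2]
    exact ⟨hk u, hk' u⟩
  have hfr : ∀ l, S.fr e l ∈ B := fun l => by
    obtain ⟨u, v, hv, huv⟩ := o.reg_iter hreg e n₀ (X l)
    rw [hB]
    refine ⟨u, v, fun h => hv ?_, ?_⟩
    · simpa using hn₀ 0 v h
    · rw [aeval_X] at huv
      exact huv
  have hρ : rho π η (S.fr e) = rho π' η' (S.fr e) :=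
    Finset.sum_congr rfl fun l _ => S.ht_eq π π' hη hη' hπ B haB hBB h1 h1' (hfr l)
  rw [hρ]
  have := hlim e
  rw [Ultrafilter.coe_map, tendsto_map'_iff] at this
  refine this.congr fun j => ?_
  simp only [Function.comp]
  congr 2
  push_cast
  ring

end Pool.Agent.H35S

namespace Pool.Agent.H35S

open IntermediateField Filter Topology

universe u

variable {k Ω κ : Type u} [Field k] [Field Ω] [Field κ] [Algebra k Ω] [Algebra k κ]
variable {ι : Type} [Fintype ι]

variable {Q : Type u} [Field Q] [Algebra k Q] {S : Sys k Ω ι}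

theorem Main_iter (H : ℤ → ℝ) {C : ℝ} (hC : 1 ≤ C)
    (hr : ∀ᶠ n in atTop, H (n + 1) ≤ C * H n ∧ H n ≤ C * H (n + 1)) (m : ℕ) :
    ∀ᶠ n in atTop, H (n + m) ≤ C ^ m * H n ∧ H n ≤ C ^ m * H (n + m) := by
  induction m with
  | zero => simp
  | succ m ih =>
    have h2 : ∀ᶠ n in atTop, H (n + m + 1) ≤ C * H (n + m) ∧ H (n + m) ≤ C * H (n + m + 1) :=
      (tendsto_atTop_add_const_right atTop (m : ℤ) tendsto_id).eventually hr
    filter_upwards [ih, h2] with n h1 h2
    have e : n + ((m + 1 : ℕ) : ℤ) = n + m + 1 := by push_cast; ring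
    have hC0 : 0 ≤ C := by linarith
    have hCm : 0 ≤ C ^ m := pow_nonneg hC0 _
    rw [e, pow_succ]
    constructor
    · nlinarith [mul_le_mul_of_nonneg_left h1.1 hC0]
    · nlinarith [mul_le_mul_of_nonneg_left h2.2 hCm]

/-- `Orb.ratio`; periodic case: `per`, `grow_prog`; otherwise `grow`, `numer` and the `sys_*`
theorems for the iterates (`exists_pow`, `pow_D`, `pow_δ`; the ratio bound of the `m`-th iterate is
`C^m`). -/
theorem Orb.main [CharZero k] [IsAlgClosed Ω] [IsAlgClosed Q] (o : Orb S Q) (hreg : o.Reg) :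
    ∃ α : ℝ, Tendsto (fun n : ℕ => (max 1 (o.H n)) ^ (1 / (n : ℝ))) atTop (𝓝 α) := by
  obtain ⟨C, hC, hr⟩ := o.ratio
  have hcast : Tendsto (fun n : ℕ => (n : ℤ)) atTop atTop := tendsto_natCast_atTop_atTop
  have h1 : ∀ᶠ n : ℕ in atTop, 1 ≤ o.H n := hcast.eventually o.H_pos
  have hr' : ∀ᶠ n : ℕ in atTop, o.H ((n + 1 : ℕ) : ℤ) ≤ C * o.H n ∧
      o.H n ≤ C * o.H ((n + 1 : ℕ) : ℤ) := by
    filter_upwards [hcast.eventually hr] with n hn
    push_cast; exact hn
  by_cases hNP : o.NP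
  · obtain ⟨lo, hi, hlo, hle, hub, hlb, hlim⟩ := grow (fun n : ℕ => o.H n) hC h1 hr'
    refine ⟨lo, hlim ?_⟩
    have hD : (1 : ℝ) ≤ S.D := by exact_mod_cast S.one_le_D
    have hfun : ∀ (m : ℕ) (o' : Orb (S.pow m) Q), (∀ n, o'.H n = o.H (m * n)) →
        (fun n : ℕ => o'.H n) = fun n : ℕ => o.H ((m * n : ℕ) : ℤ) := by
      intro m o' h
      funext n
      rw [h]; push_cast; rfl
    refine numer S.δ (D := S.D) (C := C) hD hC S.one_le_δ ?_ hlo hle ?_ ?_ ?_
    · intro m hm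
      obtain ⟨o', ho', hNP'⟩ := o.exists_pow hm
      have hm' : Tendsto (fun n : ℤ => (m : ℤ) * n) atTop atTop :=
        Tendsto.const_mul_atTop' (by exact_mod_cast hm) tendsto_id
      have := o'.sys_rec (hNP' hNP) (C := C ^ m) (one_le_pow₀ hC) (by
        filter_upwards [hm'.eventually (Main_iter o.H hC hr m)] with n hn
        rw [ho', ho', mul_add, mul_one]
        exact hn)
      rw [S.pow_δ, S.pow_δ, S.pow_D, mul_one, mul_comm m 2] at this
      exact_mod_cast this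
    · intro m hm
      obtain ⟨o', ho', hNP'⟩ := o.exists_pow hm
      have := (o'.sys_bounds (hNP' hNP)).2
      rw [hfun m o' ho', S.pow_δ, mul_one] at this
      exact hub m hm _ this
    · intro m hm
      obtain ⟨o', ho', hNP'⟩ := o.exists_pow hm
      have := (o'.sys_bounds (hNP' hNP)).1
      rw [hfun m o' ho', S.pow_δ, S.pow_D, mul_one] at this
      push_cast at this
      have h := hlb m hm _ (by simpa using this)
      exact h
    · intro m hm s Sg hs hsS hS hnum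
      obtain ⟨o', ho', hNP'⟩ := o.exists_pow hm
      have := o'.sys_dich (hNP' hNP) hs hsS (by
        rw [S.pow_δ, S.pow_δ, S.pow_D, mul_one, mul_comm m 2]
        push_cast
        exact hS) (by
        have e : (S.pow m).δ = fun n => S.δ (m * n) := funext fun n => S.pow_δ m n
        rw [e, S.pow_D]
        push_cast
        exact hnum)
      rw [hfun m o' ho'] at this
      exact this.imp (hub m hm s) (hlb m hm Sg)
  · obtain ⟨n₀, e, ρ, he, hρ⟩ := o.per hreg hNP
    exact grow_prog (fun n : ℕ => o.H n) hC h1 hr' n₀ e he ρ hρ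

end Pool.Agent.H35S

namespace Pool.Agent.H35S

open IntermediateField Filter Topology

universe u

open MvPolynomial

variable {k K : Type u} [Field k] [Field K] [Algebra k K] {ι : Type}

/-- Extension of `φ` to the algebraic closure. -/
theorem exists_aut (htr : Algebra.trdeg k K = 2) (φ : K →ₐ[k] K) :
    ∃ Φ : AlgebraicClosure K ≃ₐ[k] AlgebraicClosure K,
      ∀ x, Φ (algebraMap K _ x) = algebraMap K _ (φ x) := by
  let e : K ≃ₐ[k] φ.fieldRange := AlgEquiv.ofInjectiveField φ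
  have h1 : Algebra.trdeg k φ.fieldRange = 2 := by rw [← e.trdeg_eq, htr]
  have h2 := trdeg_add_eq k φ.fieldRange (A := K)
  rw [h1, htr] at h2
  have h3 : Algebra.trdeg φ.fieldRange K = 0 := by
    refine (Cardinal.add_nat_inj 2).1 ?_
    rw [add_comm, zero_add]
    exact_mod_cast h2
  have : Algebra.IsAlgebraic φ.fieldRange K := trdeg_eq_zero_iff.1 h3
  have : Algebra.IsAlgebraic φ.fieldRange (AlgebraicClosure K) :=
    Algebra.IsAlgebraic.trans φ.fieldRange K _
  have : IsAlgClosure φ.fieldRange (AlgebraicClosure K) := ⟨inferInstance, inferInstance⟩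
  let Ψ := IsAlgClosure.equivOfEquiv (AlgebraicClosure K) (AlgebraicClosure K) e.toRingEquiv
  have h4 : ∀ x, Ψ (algebraMap K _ x) = algebraMap K _ (φ x) := fun x =>
    IsAlgClosure.equivOfEquiv_algebraMap _ _ e.toRingEquiv x
  refine ⟨AlgEquiv.ofRingEquiv (f := Ψ) fun c => ?_, h4⟩
  rw [IsScalarTower.algebraMap_apply k K, h4, φ.commutes]

end Pool.Agent.H35S

namespace Pool.Agent.H35S

open IntermediateField Filter Topology

universe u

open MvPolynomial

variable {k K : Type u} [Field k] [Field K] [Algebra k K] {ι : Type}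

/-- `x` is regular at the point `p` with value `c` -/
def Loc_R (a : ι → K) (p : ι → k) (x : K) (c : k) : Prop :=
  ∃ u v : MvPolynomial ι k, eval p v ≠ 0 ∧ x * aeval a v = aeval a u ∧ c * eval p v = eval p u

section
variable {a : ι → K} {p : ι → k}

theorem Loc_uniq (hp : ∀ f, aeval a f = 0 → eval p f = 0) {x : K} {c c' : k}
    (h : Loc_R a p x c) (h' : Loc_R a p x c') : c = c' := by
  obtain ⟨u, v, h1, h2, h3⟩ := h
  obtain ⟨u', v', h1', h2', h3'⟩ := h'
  have h4 := hp (u * v' - u' * v) (by rw [map_sub, map_mul, map_mul, ← h2, ← h2']; ring)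
  rw [map_sub, map_mul, map_mul, ← h3, ← h3'] at h4
  refine mul_right_cancel₀ (mul_ne_zero h1 h1') ?_
  linear_combination h4

theorem Loc_alg (c : k) : Loc_R a p (algebraMap k K c) c := ⟨C c, 1, by simp, by simp, by simp⟩

theorem Loc_add {x x' : K} {c c' : k} (h : Loc_R a p x c) (h' : Loc_R a p x' c') :
    Loc_R a p (x + x') (c + c') := by
  obtain ⟨u, v, h1, h2, h3⟩ := h
  obtain ⟨u', v', h1', h2', h3'⟩ := h'
  refine ⟨u * v' + u' * v, v * v', by simp [h1, h1'], ?_, ?_⟩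
  · simp only [map_add, map_mul, ← h2, ← h2']; ring
  · simp only [map_add, map_mul, ← h3, ← h3']; ring

theorem Loc_mul {x x' : K} {c c' : k} (h : Loc_R a p x c) (h' : Loc_R a p x' c') :
    Loc_R a p (x * x') (c * c') := by
  obtain ⟨u, v, h1, h2, h3⟩ := h
  obtain ⟨u', v', h1', h2', h3'⟩ := h'
  refine ⟨u * u', v * v', by simp [h1, h1'], ?_, ?_⟩
  · simp only [map_mul, ← h2, ← h2']; ring
  · simp only [map_mul, ← h3, ← h3']; ring

theorem Loc_ne (hp : ∀ f, aeval a f = 0 → eval p f = 0) {x : K} {c : k} (h : Loc_R a p x c)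
    (hc : c ≠ 0) : x ≠ 0 := by
  rintro rfl
  exact hc (Loc_uniq hp h (by simpa using Loc_alg (a := a) (p := p) 0))

theorem Loc_inv (hp : ∀ f, aeval a f = 0 → eval p f = 0) {x : K} {c : k} (h : Loc_R a p x c)
    (hc : c ≠ 0) : Loc_R a p x⁻¹ c⁻¹ := by
  have hx := Loc_ne hp h hc
  obtain ⟨u, v, h1, h2, h3⟩ := h
  refine ⟨v, u, by rw [← h3]; exact mul_ne_zero hc h1, ?_, ?_⟩
  · rw [← h2, inv_mul_cancel_left₀ hx]
  · rw [← h3, inv_mul_cancel_left₀ hc]

theorem Loc_poly {b : ι → K} {q : ι → k} (h : ∀ l, Loc_R a p (b l) (q l))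
    (f : MvPolynomial ι k) : Loc_R a p (aeval b f) (eval q f) := by
  induction f using MvPolynomial.induction_on with
  | C c => simpa using Loc_alg c
  | add f g hf hg => simpa using Loc_add hf hg
  | mul_X f l hf => simpa using Loc_mul hf (h l)

theorem Loc_step (hp : ∀ f, aeval a f = 0 → eval p f = 0) (φ : K →ₐ[k] K) {q : ι → k}
    (h : ∀ l, Loc_R a p (φ (a l)) (q l)) {x : K} {c : k} (hx : Loc_R a q x c) :
    Loc_R a p (φ x) c := by
  obtain ⟨u, v, h1, h2, h3⟩ := hx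
  have hu := Loc_poly h u
  have hv := Loc_poly h v
  have h4 : ∀ f : MvPolynomial ι k, aeval (fun l => φ (a l)) f = φ (aeval a f) := fun f =>
    (comp_aeval_apply _ _ _).symm
  have h5 := Loc_mul hu (Loc_inv hp hv h1)
  have h6 := Loc_ne hp hv h1
  rw [h4] at h6
  rwa [h4, h4, ← h2, ← h3, map_mul, mul_inv_cancel_right₀ h6, mul_inv_cancel_right₀ h1] at h5

end

/-- The local ring of the first point contains all iterated pull-backs of the coordinates.
Plan: `B n = {x | ∃ u v, eval (y n) v ≠ 0 ∧ x * v(a) = u(a)}` with `e n x = u(y n) / v(y n)`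
(well defined by `hy`); `φ (B (n+1)) ⊆ B n` and `e n ∘ φ = e (n+1)` (first on `k[a]`, then on
fractions: an element of `B n` with nonzero value has its inverse in `B n`). -/
theorem exists_local (a : ι → K) (φ : K →ₐ[k] K) (y : ℕ → ι → k)
    (hy : ∀ n f, aeval a f = 0 → eval (y n) f = 0)
    (hreg : ∀ n l, ∃ u v : MvPolynomial ι k, eval (y n) v ≠ 0 ∧
      φ (a l) * aeval a v = aeval a u ∧ y (n + 1) l * eval (y n) v = eval (y n) u) :
    ∃ (B : Subalgebra k K) (e : B →ₐ[k] k), ∀ (n : ℕ) l,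
      ∃ h : (φ ^ n) (a l) ∈ B, e ⟨_, h⟩ = y n l := by
  have hit : ∀ (n : ℕ) (x : K) (c : k), Loc_R a (y n) x c → Loc_R a (y 0) ((φ ^ n) x) c := by
    intro n
    induction n with
    | zero => intro x c h; simpa using h
    | succ n ih =>
      intro x c h
      rw [pow_succ, AlgHom.mul_apply]
      exact ih _ _ (Loc_step (hy n) φ (hreg n) h)
  let B : Subalgebra k K :=
    { carrier := {x | ∃ c, Loc_R a (y 0) x c}
      mul_mem' := fun ⟨_, h⟩ ⟨_, h'⟩ => ⟨_, Loc_mul h h'⟩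
      add_mem' := fun ⟨_, h⟩ ⟨_, h'⟩ => ⟨_, Loc_add h h'⟩
      algebraMap_mem' := fun c => ⟨c, Loc_alg c⟩ }
  have hB : ∀ x : B, ∃ c, Loc_R a (y 0) x c := fun x => x.2
  choose e he using hB
  have h1 : ∀ c : k, e (algebraMap k B c) = c := fun c => Loc_uniq (hy 0) (he _) (Loc_alg c)
  refine ⟨B,
    { toFun := e
      map_one' := by simpa using h1 1
      map_mul' := fun x x' => Loc_uniq (hy 0) (he _) (Loc_mul (he x) (he x'))
      map_zero' := by simpa using h1 0
      map_add' := fun x x' => Loc_uniq (hy 0) (he _) (Loc_add (he x) (he x'))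
      commutes' := h1 }, fun n l => ?_⟩
  have h2 := hit n (a l) (y n l) ⟨X l, 1, by simp, by simp, by simp⟩
  exact ⟨⟨_, h2⟩, Loc_uniq (hy 0) (he _) h2⟩

/-- The next point is determined by the current one. -/
theorem orbit_det (a : ι → K) (φ : K →ₐ[k] K) (y : ℕ → ι → k)
    (hy : ∀ n f, aeval a f = 0 → eval (y n) f = 0)
    (hreg : ∀ n l, ∃ u v : MvPolynomial ι k, eval (y n) v ≠ 0 ∧
      φ (a l) * aeval a v = aeval a u ∧ y (n + 1) l * eval (y n) v = eval (y n) u)
    (hinj : ¬ Function.Injective y) : (Set.range y).Finite := by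
  have h1 : ∀ i j, y i = y j → ∀ t, y (i + t) = y (j + t) := by
    intro i j h t
    induction t with
    | zero => exact h
    | succ t ih =>
      funext l
      have h2 : Loc_R a (y (i + t)) _ _ := hreg (i + t) l
      have h3 : Loc_R a (y (j + t)) _ _ := hreg (j + t) l
      rw [ih] at h2
      exact Loc_uniq (hy _) h2 h3
  have h2 : ∃ i j, i < j ∧ y i = y j := by
    by_contra hc
    refine hinj fun i j h => ?_
    rcases lt_trichotomy i j with h' | h' | h'
    · exact absurd ⟨i, j, h', h⟩ hc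
    · exact h'
    · exact absurd ⟨j, i, h', h.symm⟩ hc
  obtain ⟨i, j, hij, h⟩ := h2
  refine ((Set.finite_lt_nat j).image y).subset ?_
  rintro _ ⟨n, rfl⟩
  induction n using Nat.strong_induction_on with
  | _ n ih =>
    by_cases hn : n < j
    · exact ⟨n, hn, rfl⟩
    · obtain ⟨t, rfl⟩ := Nat.exists_eq_add_of_le (not_lt.1 hn)
      rw [← h1 i j h t]
      exact ih _ (by omega)

end Pool.Agent.H35S

namespace Pool.Agent.H35S

open IntermediateField Filter Topology

universe u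

open MvPolynomial Height

/-- The affine form of the theorem. Plan: if `y` is not injective use `orbit_det`,
`tendsto_of_bounded`. Otherwise `Ω = AlgebraicClosure K`, `Q = AlgebraicClosure k`, `S` from
`exists_aut` (`trdeg_add_eq`, `trdeg_eq_zero`), the place from `exists_local` (map `B` into `Ω`) and
`exists_place`, heights `isAHt_abs`, `absLogHeight₁_map`, `tendsto_sum_logHeight₁`; `Orb.main`,
`tendsto_of_comparable`. -/
theorem affine_main {k K : Type u} [Field k] [NumberField k] [Field K] [Algebra k K]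
    {ι : Type} [Fintype ι] (a : ι → K) (hgen : adjoin k (Set.range a) = ⊤)
    (htr : Algebra.trdeg k K = 2) (φ : K →ₐ[k] K) (y : ℕ → ι → k)
    (hy : ∀ n f, aeval a f = 0 → eval (y n) f = 0)
    (hreg : ∀ n l, ∃ u v : MvPolynomial ι k, eval (y n) v ≠ 0 ∧
      φ (a l) * aeval a v = aeval a u ∧ y (n + 1) l * eval (y n) v = eval (y n) u) :
    ∃ α : ℝ, Tendsto (fun n : ℕ => (max 1 (∑ l, logHeight₁ (y n l))) ^ (1 / (n : ℝ))) atTop
      (𝓝 α) := by
  by_cases hinj : Function.Injective y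
  swap
  · obtain ⟨c, hc⟩ :=
      ((orbit_det a φ y hy hreg hinj).image fun p : ι → k => ∑ l, logHeight₁ (p l)).bddAbove
    exact ⟨1, tendsto_of_bounded (c := c) fun n => hc ⟨_, ⟨n, rfl⟩, rfl⟩⟩
  obtain ⟨Φ, hΦ⟩ := exists_aut htr φ
  obtain ⟨B, e, hB⟩ := exists_local a φ y hy hreg
  let j : K →ₐ[k] AlgebraicClosure K := IsScalarTower.toAlgHom k K _
  have hΦ' : ∀ x, Φ (j x) = j (φ x) := hΦ
  have hmem : ∀ x, x ∈ adjoin k (Set.range fun l => j (a l)) ↔ ∃ z, j z = x := by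
    intro x
    have : adjoin k (Set.range fun l => j (a l)) = (adjoin k (Set.range a)).map j := by
      rw [adjoin_map, ← Set.range_comp]
      rfl
    rw [this, hgen]
    exact ⟨fun ⟨z, _, hz⟩ => ⟨z, hz⟩, fun ⟨z, hz⟩ => ⟨z, trivial, hz⟩⟩
  let S : Sys k (AlgebraicClosure K) ι :=
    { a := fun l => j (a l)
      Φ := Φ
      trdeg := by
        rw [← trdeg_add_eq k K, htr, trdeg_eq_zero, add_zero]
      alg := by
        let _ : Algebra K (adjoin k (Set.range fun l => j (a l))) :=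
          ((j : K →+* AlgebraicClosure K).codRestrict (adjoin k (Set.range fun l => j (a l)))
            fun x => (hmem _).2 ⟨x, rfl⟩).toAlgebra
        have : IsScalarTower K (adjoin k (Set.range fun l => j (a l))) (AlgebraicClosure K) :=
          IsScalarTower.of_algebraMap_eq fun _ => rfl
        exact Algebra.IsAlgebraic.tower_top (K := K) _
      map_mem := fun x hx => by
        obtain ⟨z, rfl⟩ := (hmem x).1 hx
        exact (hmem _).2 ⟨φ z, (hΦ' z).symm⟩ }
  have hit : ∀ (n : ℕ) (x : K), (Φ ^ n) (j x) = j ((φ ^ n) x) := by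
    intro n
    induction n with
    | zero => intro x; rfl
    | succ n ih => intro x; rw [pow_succ, pow_succ, AlgEquiv.mul_apply, hΦ', ih]; rfl
  have hfr : ∀ (n : ℕ) l, S.fr n l = j ((φ ^ n) (a l)) := fun n l => by
    rw [← hit, Sys.fr, zpow_natCast]
  obtain ⟨π, hπ⟩ := exists_place (B.map j) ((Algebra.ofId k (AlgebraicClosure k)).comp
    (e.comp (B.equivMapOfInjective j j.injective).symm.toAlgHom))
  have hev : ∀ (n : ℕ) l, S.fr n l ∈ π.O ∧
      π.ev (S.fr n l) = algebraMap k (AlgebraicClosure k) (y n l) := by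
    intro n l
    obtain ⟨h1, h2⟩ := hB n l
    have h3 := hπ (B.equivMapOfInjective j j.injective ⟨_, h1⟩)
    rw [hfr, ← h2]
    simpa [Algebra.ofId_apply] using h3
  have hd : (1 : ℝ) ≤ Module.finrank ℚ k := by exact_mod_cast Module.finrank_pos
  have hH : ∀ n : ℕ, rho π NumberField.absLogHeight₁ (S.fr n) =
      (∑ l, logHeight₁ (y n l)) / Module.finrank ℚ k := fun n => by
    rw [rho, Finset.sum_div]
    exact Finset.sum_congr rfl fun l _ => by rw [(hev n l).2, absLogHeight₁_map]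
  let o : Orb S (AlgebraicClosure k) :=
    { pl := π
      h := NumberField.absLogHeight₁
      ht := isAHt_abs k _
      mem := fun n l => (hev n l).1
      tends := by
        rw [← Nat.map_cast_int_atTop, tendsto_map'_iff]
        exact ((tendsto_sum_logHeight₁ y hinj).atTop_div_const (by linarith)).congr
          fun n => (hH n).symm }
  have hr : o.Reg := by
    intro n l
    obtain ⟨u, v, h1, h2, -⟩ := hreg n l
    refine ⟨u, v, ?_, ?_⟩
    · have : o.y n = fun l => Algebra.ofId k (AlgebraicClosure k) (y n l) :=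
        funext fun l => (hev n l).2
      rw [this, ← comp_aeval_apply]
      simpa [Algebra.ofId_apply] using h1
    · show Φ (j (a l)) * aeval (fun l => j (a l)) v = aeval (fun l => j (a l)) u
      rw [← comp_aeval_apply, ← comp_aeval_apply, hΦ', ← h2, map_mul]
  obtain ⟨α, hα⟩ := o.main hr
  refine ⟨α, tendsto_of_comparable (c := Module.finrank ℚ k) (fun n => ?_) hα⟩
  have h0 : 0 ≤ ∑ l, logHeight₁ (y n l) := Finset.sum_nonneg fun l _ => zero_le_logHeight₁ _
  have h1 : o.H n = (∑ l, logHeight₁ (y n l)) / Module.finrank ℚ k := hH n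
  constructor
  · rw [h1]
    refine (div_le_self h0 hd).trans ((le_max_right 1 _).trans ?_)
    exact le_mul_of_one_le_left (by positivity) hd
  · calc ∑ l, logHeight₁ (y n l) = Module.finrank ℚ k * o.H n := by
          rw [h1, mul_div_cancel₀ _ (by linarith)]
      _ ≤ _ := mul_le_mul_of_nonneg_left (le_max_right _ _) (by linarith)

end Pool.Agent.H35S

namespace Pool.Agent.H35S

open IntermediateField Filter Topology

universe u

open MvPolynomial Height

/-- An anisotropic form: `∑ π^i X_i^(N+1)` for a uniformiser `π` at a finite place `v`; the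
valuations of the nonzero terms are distinct modulo `N + 1`. (Or a norm form.) -/
theorem exists_aniso (k : Type u) [Field k] [NumberField k] (N : ℕ) :
    ∃ q : MvPolynomial (Fin (N + 1)) k, q.IsHomogeneous (N + 1) ∧
      ∀ x : Fin (N + 1) → k, x ≠ 0 → aeval x q ≠ 0 := by
  obtain ⟨M, hM⟩ := Ideal.exists_maximal (NumberField.RingOfIntegers k)
  let P : IsDedekindDomain.HeightOneSpectrum (NumberField.RingOfIntegers k) :=
    ⟨M, hM.isPrime, Ring.ne_bot_of_isMaximal_of_not_isField hM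
      (NumberField.RingOfIntegers.not_isField k)⟩
  obtain ⟨π, hπ⟩ := P.valuation_exists_uniformizer k
  refine ⟨∑ i : Fin (N + 1), C (π ^ (i : ℕ)) * X i ^ (N + 1),
    IsHomogeneous.sum _ _ _ fun i _ => isHomogeneous_C_mul_X_pow _ _ _, fun x hx => ?_⟩
  set v := P.valuation k with hv
  let t : Fin (N + 1) → k := fun i => π ^ (i : ℕ) * x i ^ (N + 1)
  have h1 : aeval x (∑ i : Fin (N + 1), C (π ^ (i : ℕ)) * X i ^ (N + 1)
      : MvPolynomial (Fin (N + 1)) k) = ∑ i, t i := by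
    simp [t]
  have hπ0 : π ≠ 0 := by
    rintro rfl
    rw [map_zero] at hπ
    exact WithZero.exp_ne_zero hπ.symm
  have h2 : ∀ i, x i ≠ 0 →
      v (t i) = WithZero.exp (-(i : ℤ) + (N + 1) * WithZero.log (v (x i))) := by
    intro i hi
    have h3 : v (x i) ≠ 0 := (Valuation.ne_zero_iff v).2 hi
    have h4 : v (x i) ^ (N + 1) = WithZero.exp ((N + 1) • WithZero.log (v (x i))) := by
      rw [WithZero.exp_nsmul, WithZero.exp_log h3]
    simp only [t, map_mul, map_pow, hπ]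
    rw [h4, ← WithZero.exp_nsmul, ← WithZero.exp_add]
    congr 1
    simp
  obtain ⟨j, -, hj⟩ := Finset.exists_max_image Finset.univ (fun i => v (t i)) Finset.univ_nonempty
  obtain ⟨i0, hi0⟩ : ∃ i, x i ≠ 0 := Function.ne_iff.1 hx
  have h5 : v (t j) ≠ 0 := by
    intro h
    have h6 := hj i0 (Finset.mem_univ _)
    rw [h, h2 i0 hi0] at h6
    exact WithZero.exp_ne_zero (le_zero_iff.1 h6)
  have h7 : ∀ i, v (t i) ≠ 0 → x i ≠ 0 := by
    intro i hi h
    apply hi
    simp [t, h]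
  have h8 : v (∑ i, t i) = v (t j) := by
    refine Valuation.map_sum_eq_of_lt v (Finset.mem_univ j) fun i hi => ?_
    refine lt_of_le_of_ne (hj i (Finset.mem_univ _)) fun h => ?_
    have hij : i ≠ j := by simpa using hi
    have h9 := h7 i (h ▸ h5)
    rw [h2 i h9, h2 j (h7 j h5), WithZero.exp_inj] at h
    have h10 : ((N + 1 : ℕ) : ℤ) ∣ (i : ℤ) - (j : ℤ) :=
      ⟨WithZero.log (v (x i)) - WithZero.log (v (x j)), by push_cast; linarith⟩
    have h11 := Int.eq_zero_of_abs_lt_dvd h10 (by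
      have := i.2
      have := j.2
      rw [abs_lt]
      constructor <;> omega)
    exact hij (Fin.ext (by omega))
  rw [h1]
  intro h
  rw [h, map_zero] at h8
  exact h5 h8.symm

theorem ChA0_mono {k σ : Type*} [Field k] (n : ℕ) : ∀ d : σ →₀ ℕ, d.degree = n →
    ∃ w : Fin n → σ, (monomial d 1 : MvPolynomial σ k) = ∏ j, X (w j) := by
  induction n with
  | zero =>
    intro d hd
    rw [Finsupp.degree_eq_zero_iff] at hd
    exact ⟨Fin.elim0, by simp [hd]⟩
  | succ n ih =>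
    intro d hd
    obtain ⟨g, hg, hg1⟩ := Finsupp.exists_le_degree_eq d 1 (by omega)
    obtain ⟨c, rfl⟩ := exists_add_of_le hg
    obtain ⟨a, rfl⟩ : g ∈ Set.range (fun a : σ => Finsupp.single a 1) := by
      rw [Finsupp.range_single_one]
      exact hg1
    rw [map_add, hg1] at hd
    obtain ⟨w, hw⟩ := ih c (by omega)
    refine ⟨Fin.cons a w, ?_⟩
    rw [Fin.prod_univ_succ]
    simp only [Fin.cons_zero, Fin.cons_succ]
    rw [← hw, X, monomial_mul, one_mul]

/-- A form of degree `e e'` is a form of degree `e'` in the monomials of degree `e`. -/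
theorem exists_word {k σ : Type*} [Field k] (e e' : ℕ) (f : MvPolynomial σ k)
    (hf : f.IsHomogeneous (e * e')) :
    ∃ u : MvPolynomial (Fin e → σ) k, u.IsHomogeneous e' ∧
      aeval (fun w : Fin e → σ => ∏ j, (X (w j) : MvPolynomial σ k)) u = f := by
  have h1 : ∀ d ∈ f.support, ∃ u : MvPolynomial (Fin e → σ) k, u.IsHomogeneous e' ∧
      aeval (fun w : Fin e → σ => ∏ j, (X (w j) : MvPolynomial σ k)) u
        = monomial d (coeff d f) := by
    intro d hd
    have h2 : d.degree = e' * e := by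
      by_contra h
      exact mem_support_iff.1 hd (hf.coeff_eq_zero (by rwa [mul_comm]))
    obtain ⟨w, hw⟩ := ChA0_mono (k := k) (e' * e) d h2
    refine ⟨C (coeff d f) * ∏ a : Fin e', X (fun b => w (finProdFinEquiv (a, b))), ?_, ?_⟩
    · refine IsHomogeneous.C_mul ?_ _
      have h3 := IsHomogeneous.prod (R := k) Finset.univ
        (fun a : Fin e' => X (fun b => w (finProdFinEquiv (a, b)))) (fun _ => 1)
        (fun a _ => isHomogeneous_X _ _)
      simpa using h3
    · rw [map_mul, map_prod, aeval_C]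
      simp only [aeval_X]
      rw [← Fintype.prod_prod_type' (f := fun a b => (X (w (finProdFinEquiv (a, b))) :
        MvPolynomial σ k)), Equiv.prod_comp finProdFinEquiv (fun j => (X (w j) : MvPolynomial σ k)),
        ← hw, algebraMap_eq, C_mul_monomial, mul_one]
  choose! U hU1 hU2 using h1
  refine ⟨∑ d ∈ f.support, U d, IsHomogeneous.sum _ _ _ hU1, ?_⟩
  rw [map_sum, Finset.sum_congr rfl hU2]
  exact f.as_sum.symm

theorem ChA0_div {k L τ : Type*} [Field k] [Field L] [Algebra k L] (y : τ → L) (c : L) {n : ℕ}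
    (u : MvPolynomial τ k) (hu : u.IsHomogeneous n) :
    aeval (fun w => y w / c) u = aeval y u / c ^ n := by
  rw [u.as_sum, map_sum, map_sum, Finset.sum_div]
  refine Finset.sum_congr rfl fun d hd => ?_
  have h2 : d.degree = n := by
    by_contra h
    exact mem_support_iff.1 hd (hu.coeff_eq_zero h)
  rw [aeval_monomial, aeval_monomial, mul_div_assoc, ← h2, Finsupp.degree_apply]
  simp only [Finsupp.prod, div_pow, Finset.prod_div_distrib, Finset.prod_pow_eq_pow_sum]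

theorem aeval_wd {k L σ : Type*} [Field k] [Field L] [Algebra k L] (q : MvPolynomial σ k)
    (e : ℕ) (ξ : σ → L) {e' : ℕ} (u : MvPolynomial (Fin e → σ) k) (hu : u.IsHomogeneous e') :
    aeval (wd q e ξ) u =
      aeval ξ (aeval (fun w : Fin e → σ => ∏ j, (X (w j) : MvPolynomial σ k)) u) /
        aeval ξ q ^ e' := by
  rw [← AlgHom.comp_apply, comp_aeval, ← ChA0_div _ _ u hu]
  congr 2
  funext w
  simp [wd]

end Pool.Agent.H35S

namespace Pool.Agent.H35S

open IntermediateField Filter Topology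

universe u

open MvPolynomial Height

/-- Comparison of heights: `logHeight₁_div_eq_logHeight` and `logHeight_eval_le'` for the upper
bound; `logHeight_pow`, `logHeight_smul_eq_logHeight`, `logHeight_le_sum` (constant words) for the
lower bound. -/
theorem wd_height {k : Type u} [Field k] [NumberField k] {N e : ℕ} (he : 1 ≤ e)
    (q : MvPolynomial (Fin (N + 1)) k) (hq : q.IsHomogeneous e) :
    ∃ c : ℝ, ∀ x : Fin (N + 1) → k, aeval x q ≠ 0 →
      ∑ w, logHeight₁ (wd q e x w) ≤ c * max 1 (logHeight x) ∧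
      logHeight x ≤ c * max 1 (∑ w, logHeight₁ (wd q e x w)) := by
  have h1 : ∀ w : Fin e → Fin (N + 1), ∃ C, ∀ x : Fin (N + 1) → k,
      logHeight₁ (wd q e x w) ≤ C + e * logHeight x := by
    intro w
    have hw : (∏ j, (X (w j) : MvPolynomial (Fin (N + 1)) k)).IsHomogeneous e := by
      simpa using IsHomogeneous.prod Finset.univ (fun j => (X (w j) : MvPolynomial _ k))
        (fun _ => 1) fun j _ => isHomogeneous_X k (w j)
    obtain ⟨C, hC⟩ := logHeight_eval_le' (p := ![∏ j, X (w j), q]) (N := e)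
      (fun i => by fin_cases i; exacts [hw, hq])
    refine ⟨C, fun x => le_trans (le_of_eq ?_) (hC x)⟩
    rw [wd, logHeight₁_div_eq_logHeight]
    congr 1
    funext i
    fin_cases i
    · simp
    · simp [aeval_eq_eval]
  choose C hC using h1
  have he' : (1 : ℝ) ≤ e := by exact_mod_cast he
  refine ⟨|∑ w, C w| + ∑ _w : Fin e → Fin (N + 1), (e : ℝ) + 1, fun x hx => ⟨?_, ?_⟩⟩
  · refine (Finset.sum_le_sum fun w _ => hC w x).trans ?_
    rw [Finset.sum_add_distrib, ← Finset.sum_mul]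
    have a0 : (0 : ℝ) ≤ ∑ _w : Fin e → Fin (N + 1), (e : ℝ) := by positivity
    have a1 := le_max_left 1 (logHeight x)
    have a2 := mul_le_mul_of_nonneg_left (le_max_right 1 (logHeight x)) a0
    have a3 := mul_le_mul_of_nonneg_left a1 (abs_nonneg (∑ w, C w))
    have a4 := le_abs_self (∑ w, C w)
    nlinarith
  · have e1 : (aeval x q)⁻¹ • x ^ e = wd q e x ∘ fun i _ => i := by
      funext i
      simp [wd, div_eq_inv_mul]
    have h2 : e * logHeight x ≤ ∑ w, logHeight₁ (wd q e x w) := by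
      rw [← logHeight_pow, ← logHeight_smul_eq_logHeight _ (inv_ne_zero hx), e1]
      exact (logHeight_comp_le _ _).trans (logHeight_le_sum _)
    have a0 : (0 : ℝ) ≤ |∑ w, C w| + ∑ _w : Fin e → Fin (N + 1), (e : ℝ) := by positivity
    have a1 := le_max_left 1 (∑ w, logHeight₁ (wd q e x w))
    have a2 := le_max_right 1 (∑ w, logHeight₁ (wd q e x w))
    have a3 := logHeight_nonneg x
    nlinarith

end Pool.Agent.H35S

namespace Pool.Agent.H35S

open IntermediateField Filter Topology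

universe u

open MvPolynomial

variable {k L : Type u} [Field k] [Field L] [Algebra k L] {σ : Type} [Fintype σ]

/-- The generic point of the cone: `L = FractionRing (k[X] ⧸ I)`. -/
theorem exists_field (I : Ideal (MvPolynomial σ k)) [I.IsPrime]
    (hdim : Algebra.trdeg k (MvPolynomial σ k ⧸ I) = 3) (G : σ → MvPolynomial σ k)
    (hdom : ∀ p, aeval G p ∈ I ↔ p ∈ I) :
    ∃ (L : Type u) (_ : Field L) (_ : Algebra k L) (ξ : σ → L) (Φ : L →ₐ[k] L),
      (∀ p, aeval ξ p = 0 ↔ p ∈ I) ∧ adjoin k (Set.range ξ) = ⊤ ∧ Algebra.trdeg k L = 3 ∧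
      ∀ i, Φ (ξ i) = aeval ξ (G i) := by
  let A := MvPolynomial σ k ⧸ I
  let F := FractionRing A
  let ξ : σ → F := fun i => algebraMap A F (Ideal.Quotient.mk I (X i))
  have h1 : ∀ p, aeval ξ p = algebraMap A F (Ideal.Quotient.mk I p) := by
    intro p
    have : aeval ξ = (IsScalarTower.toAlgHom k A F).comp (Ideal.Quotient.mkₐ k I) :=
      MvPolynomial.algHom_ext fun i => by rw [aeval_X]; rfl
    rw [this]
    rfl
  have h2 : ∀ p, aeval ξ p = 0 ↔ p ∈ I := by
    intro p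
    rw [h1, map_eq_zero_iff _ (IsFractionRing.injective A F), Ideal.Quotient.eq_zero_iff_mem]
  let g : A →ₐ[k] F := Ideal.Quotient.liftₐ I ((aeval ξ).comp (aeval G))
    fun p hp => (h2 _).2 ((hdom p).2 hp)
  have hg : ∀ p, g (Ideal.Quotient.mk I p) = aeval ξ (aeval G p) := fun p => rfl
  have hinj : Function.Injective g := by
    rw [injective_iff_map_eq_zero]
    intro a ha
    obtain ⟨p, rfl⟩ := Ideal.Quotient.mk_surjective a
    rw [hg, h2, hdom] at ha
    exact Ideal.Quotient.eq_zero_iff_mem.2 ha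
  refine ⟨F, inferInstance, inferInstance, ξ, IsFractionRing.liftAlgHom hinj, h2, ?_, ?_, ?_⟩
  · rw [eq_top_iff]
    intro x _
    obtain ⟨a, b, -, rfl⟩ := IsFractionRing.div_surjective (A := A) x
    obtain ⟨p, rfl⟩ := Ideal.Quotient.mk_surjective a
    obtain ⟨r, rfl⟩ := Ideal.Quotient.mk_surjective b
    exact (mem_adjoin_range_iff _ _ _).2 ⟨p, r, by rw [h1, h1]⟩
  · have : Algebra.IsAlgebraic A F := IsLocalization.isAlgebraic F (nonZeroDivisors A)
    rw [← trdeg_add_eq k A (A := F), trdeg_eq_zero (R := A) (A := F), add_zero]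
    exact hdim
  · intro i
    rw [IsFractionRing.liftAlgHom_apply]
    refine (IsFractionRing.lift_algebraMap (g := (g : A →+* F)) hinj _).trans ?_
    exact (hg _).trans (by rw [aeval_X])

/-- `u / v = u v^(e-1) / v^e`, `exists_word`, `aeval_wd`. -/
theorem ratio_mem {e : ℕ} (he : 1 ≤ e) (q : MvPolynomial σ k) (ξ : σ → L) (hq : aeval ξ q ≠ 0)
    {n : ℕ} {u v : MvPolynomial σ k} (hu : u.IsHomogeneous n) (hv : v.IsHomogeneous n) :
    aeval ξ u / aeval ξ v ∈ adjoin k (Set.range (wd q e ξ)) := by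
  by_cases h0 : aeval ξ v = 0
  · rw [h0, div_zero]
    exact zero_mem _
  obtain ⟨e', rfl⟩ := Nat.exists_eq_add_of_le' he
  have h1 : (u * v ^ e').IsHomogeneous ((e' + 1) * n) := by
    convert hu.mul (hv.pow e') using 1
    ring
  have h2 : (v * v ^ e').IsHomogeneous ((e' + 1) * n) := by
    convert hv.mul (hv.pow e') using 1
    ring
  obtain ⟨U, hU, eU⟩ := exists_word _ _ _ h1
  obtain ⟨V, hV, eV⟩ := exists_word _ _ _ h2
  refine (mem_adjoin_range_iff _ _ _).2 ⟨U, V, ?_⟩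
  rw [aeval_wd q _ ξ U hU, aeval_wd q _ ξ V hV, eU, eV, map_mul, map_mul, map_pow]
  field_simp

omit [Fintype σ] in
theorem ChB0_rep {e : ℕ} (q : MvPolynomial σ k) (hqe : q.IsHomogeneous e) (ξ : σ → L)
    (hq : aeval ξ q ≠ 0) {x : L} (hx : x ∈ adjoin k (Set.range (wd q e ξ))) :
    ∃ (n : ℕ) (u v : MvPolynomial σ k), u.IsHomogeneous n ∧ v.IsHomogeneous n ∧ aeval ξ v ≠ 0 ∧
      x * aeval ξ v = aeval ξ u := by
  induction hx using adjoin_induction with
  | mem x hx =>
    obtain ⟨w, rfl⟩ := hx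
    refine ⟨e, ∏ j, X (w j), q, ?_, hqe, hq, ?_⟩
    · simpa using IsHomogeneous.prod Finset.univ (fun j => (X (w j) : MvPolynomial σ k))
        (fun _ => 1) fun j _ => isHomogeneous_X k (w j)
    · simp [wd, div_mul_cancel₀ _ hq]
  | algebraMap c =>
    exact ⟨0, C c, 1, isHomogeneous_C _ _, isHomogeneous_one _ _, by simp, by simp⟩
  | add x y _ _ hx hy =>
    obtain ⟨n, u, v, hu, hv, h0, h⟩ := hx
    obtain ⟨n', u', v', hu', hv', h0', h'⟩ := hy
    refine ⟨n + n', u * v' + v * u', v * v', (hu.mul hv').add (hv.mul hu'), hv.mul hv',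
      by rw [map_mul]; exact mul_ne_zero h0 h0', ?_⟩
    simp only [map_add, map_mul, ← h, ← h']
    ring
  | inv x _ hx =>
    obtain ⟨n, u, v, hu, hv, h0, h⟩ := hx
    by_cases hx0 : x = 0
    · exact ⟨n, u, v, hu, hv, h0, by rw [← h, hx0, inv_zero]⟩
    · refine ⟨n, v, u, hv, hu, ?_, ?_⟩
      · rw [← h]
        exact mul_ne_zero hx0 h0
      · rw [← h, inv_mul_cancel_left₀ hx0]
  | mul x y _ _ hx hy =>
    obtain ⟨n, u, v, hu, hv, h0, h⟩ := hx
    obtain ⟨n', u', v', hu', hv', h0', h'⟩ := hy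
    refine ⟨n + n', u * u', v * v', hu.mul hu', hv.mul hv',
      by rw [map_mul]; exact mul_ne_zero h0 h0', ?_⟩
    simp only [map_mul, ← h, ← h']
    ring

omit [Fintype σ] in
theorem ChB0_common (ξ : σ → L) (a : ℕ → L)
    (ha : ∀ j, ∃ (n : ℕ) (u v : MvPolynomial σ k), u.IsHomogeneous n ∧ v.IsHomogeneous n ∧
      aeval ξ v ≠ 0 ∧ a j * aeval ξ v = aeval ξ u) (m : ℕ) :
    ∃ (n : ℕ) (v : MvPolynomial σ k), v.IsHomogeneous n ∧ aeval ξ v ≠ 0 ∧
      ∀ j, j < m → ∃ u : MvPolynomial σ k, u.IsHomogeneous n ∧ a j * aeval ξ v = aeval ξ u := by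
  induction m with
  | zero => exact ⟨0, 1, isHomogeneous_one _ _, by simp, fun j hj => absurd hj (Nat.not_lt_zero j)⟩
  | succ m ih =>
    obtain ⟨n, v, hv, h0, h⟩ := ih
    obtain ⟨n', u', v', hu', hv', h0', h'⟩ := ha m
    refine ⟨n + n', v * v', hv.mul hv', by rw [map_mul]; exact mul_ne_zero h0 h0', fun j hj => ?_⟩
    rcases (Nat.lt_succ_iff.1 hj).lt_or_eq with hj | rfl
    · obtain ⟨u, hu, hj⟩ := h j hj
      exact ⟨u * v', hu.mul hv', by rw [map_mul, map_mul, ← hj, mul_assoc]⟩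
    · exact ⟨v * u', hv.mul hu', by rw [map_mul, map_mul, ← h', mul_left_comm]⟩

omit [Fintype σ] in
theorem ChB0_trans {e : ℕ} (q : MvPolynomial σ k) (hqe : q.IsHomogeneous e) (ξ : σ → L)
    (hq : aeval ξ q ≠ 0)
    (hI : ∀ p : MvPolynomial σ k, aeval ξ p = 0 → ∀ n, aeval ξ (homogeneousComponent n p) = 0)
    {i : σ} (hi : ξ i ≠ 0) : Transcendental (adjoin k (Set.range (wd q e ξ))) (ξ i) := by
  rw [transcendental_iff]
  intro P hP
  obtain ⟨n, v, -, h0, h⟩ := ChB0_common (k := k) ξ (fun j => (P.coeff j : L))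
    (fun j => ChB0_rep q hqe ξ hq (P.coeff j).2) (P.natDegree + 1)
  choose! u hu hu' using h
  have h1 : aeval ξ (∑ j ∈ Finset.range (P.natDegree + 1), u j * X i ^ j) = 0 := by
    rw [Polynomial.aeval_eq_sum_range] at hP
    rw [map_sum, ← mul_zero (aeval ξ v), ← hP, Finset.mul_sum]
    refine Finset.sum_congr rfl fun j hj => ?_
    rw [map_mul, map_pow, aeval_X, ← hu' j (Finset.mem_range.1 hj), IntermediateField.smul_def,
      smul_eq_mul]
    ring
  refine Polynomial.ext fun j => ?_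
  rcases lt_or_ge P.natDegree j with hj | hj
  · rw [Polynomial.coeff_eq_zero_of_natDegree_lt hj, Polynomial.coeff_zero]
  have hj' : j < P.natDegree + 1 := Nat.lt_succ_of_le hj
  have h2 := hI _ h1 (n + j)
  rw [map_sum, Finset.sum_eq_single j, homogeneousComponent_eq_self
    ((hu j hj').mul (isHomogeneous_X_pow i j)), map_mul, map_pow, aeval_X, ← hu' j hj'] at h2
  · have h3 := ((mul_eq_zero.1 h2).resolve_right (pow_ne_zero _ hi))
    exact Subtype.ext ((mul_eq_zero.1 h3).resolve_right h0)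
  · intro b hb hbj
    rw [homogeneousComponent_of_mem ((hu b (Finset.mem_range.1 hb)).mul (isHomogeneous_X_pow i b)),
      if_neg (by omega)]
  · intro hb
    exact absurd (Finset.mem_range.2 hj') hb

/-- Plan: some `ξ i₀ ≠ 0`; `L` is generated by `ξ i₀` over `K' = k(wd)` (`ratio_mem`); every element
of `K'` is a quotient of two forms of the same degree, so `ξ i₀` is transcendental over `K'` (a
relation gives forms of different degrees summing into `I`); `trdeg_add_eq`. -/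
theorem trdeg_chart {e : ℕ} (he : 1 ≤ e) (q : MvPolynomial σ k) (hqe : q.IsHomogeneous e)
    (ξ : σ → L) (hq : aeval ξ q ≠ 0)
    (hI : ∀ p : MvPolynomial σ k, aeval ξ p = 0 → ∀ n, aeval ξ (homogeneousComponent n p) = 0)
    (hgen : adjoin k (Set.range ξ) = ⊤) (htr : Algebra.trdeg k L = 3) :
    Algebra.trdeg k (adjoin k (Set.range (wd q e ξ))) = 2 := by
  obtain ⟨i, hi⟩ : ∃ i, ξ i ≠ 0 := by
    by_contra hc
    have h0 : ξ = 0 := funext fun i => not_not.1 fun h => hc ⟨i, h⟩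
    apply hq
    rw [h0, aeval_zero, constantCoeff_eq, hqe.coeff_eq_zero (by simp; omega), map_zero]
  set K := adjoin k (Set.range (wd q e ξ)) with hK
  have htop : adjoin K {ξ i} = ⊤ := by
    rw [← restrictScalars_eq_top_iff (K := k), eq_top_iff, ← hgen, adjoin_le_iff]
    rintro _ ⟨j, rfl⟩
    have h1 : ξ j / ξ i ∈ K := by
      simpa using ratio_mem he q ξ hq (isHomogeneous_X k j) (isHomogeneous_X k i)
    have h2 : ξ j / ξ i ∈ adjoin K {ξ i} := (adjoin K {ξ i}).algebraMap_mem ⟨_, h1⟩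
    have h3 := mul_mem h2 (mem_adjoin_simple_self K (ξ i))
    rwa [div_mul_cancel₀ _ hi] at h3
  have halg : Algebra.IsAlgebraic (Algebra.adjoin K {ξ i}) L := by
    rw [← isAlgebraic_adjoin_iff_top]
    exact ⟨fun x => isAlgebraic_algebraMap (⟨x, htop ▸ mem_top⟩ : adjoin K {ξ i})⟩
  have hle : Algebra.trdeg K L ≤ 1 := by
    simpa using Algebra.IsAlgebraic.trdeg_le_cardinalMk K ({ξ i} : Set L)
  have : Algebra.Transcendental K L := ⟨ξ i, ChB0_trans q hqe ξ hq hI hi⟩
  have h1 : Algebra.trdeg K L = 1 :=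
    le_antisymm hle (Cardinal.one_le_iff_pos.2 (trdeg_pos K L))
  have h2 := trdeg_add_eq k K (A := L)
  rw [h1, htr, show (3 : Cardinal) = 2 + 1 by norm_num] at h2
  exact Cardinal.add_one_inj.1 h2

end Pool.Agent.H35S

namespace Pool.Agent.H35S

open IntermediateField Filter Topology

universe u

open MvPolynomial

variable {k L : Type u} [Field k] [Field L] [Algebra k L] {σ : Type} [Fintype σ]

omit [Fintype σ] in
theorem ChB_hom (e : ℕ) (q : MvPolynomial σ k) (f : MvPolynomial (Fin e → σ) k) :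
    ∃ (N : ℕ) (p : MvPolynomial σ k), ∀ (L' : Type u) [Field L'] [Algebra k L'] (ξ : σ → L'),
      aeval ξ q ≠ 0 → aeval ξ p = aeval ξ q ^ N * aeval (wd q e ξ) f := by
  induction f using MvPolynomial.induction_on with
  | C a => exact ⟨0, C a, fun L' _ _ ξ _ => by simp⟩
  | add f g hf hg =>
    obtain ⟨N₁, p₁, h₁⟩ := hf
    obtain ⟨N₂, p₂, h₂⟩ := hg
    refine ⟨N₁ + N₂, q ^ N₂ * p₁ + q ^ N₁ * p₂, fun L' _ _ ξ hξ => ?_⟩
    simp only [map_add, map_mul, map_pow, h₁ L' ξ hξ, h₂ L' ξ hξ]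
    ring
  | mul_X f w hf =>
    obtain ⟨N, p, h⟩ := hf
    refine ⟨N + 1, p * ∏ j, X (w j), fun L' _ _ ξ hξ => ?_⟩
    simp only [map_mul, map_prod, aeval_X, h L' ξ hξ, wd]
    field_simp
    ring

omit [Fintype σ] in
theorem ChB_smul {e : ℕ} (q : MvPolynomial σ k) (hqe : q.IsHomogeneous e) (c : L) (y : σ → L) :
    aeval (fun a => c * y a) q = c ^ e * aeval y q := by
  rw [aeval_def, aeval_def, eval₂_eq, eval₂_eq, Finset.mul_sum]
  refine Finset.sum_congr rfl fun s hs => ?_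
  rw [hqe.degree_eq_sum_deg_support hs]
  simp only [mul_pow, Finset.prod_mul_distrib, Finset.prod_pow_eq_pow_sum]
  ring

omit [Fintype σ] in
theorem ChB_comp {L' : Type u} [Field L'] [Algebra k L'] (q : MvPolynomial σ k)
    (F : σ → MvPolynomial σ k) (ξ : σ → L') :
    aeval ξ (aeval F q) = aeval (fun a => aeval ξ (F a)) q := by
  rw [← AlgHom.comp_apply, comp_aeval]

/-- Homogenise `f` with powers of `q`. -/
theorem wd_ker (e : ℕ) (q : MvPolynomial σ k) (ξ : σ → L) (hq : aeval ξ q ≠ 0) (x : σ → k)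
    (hqx : aeval x q ≠ 0) (hx : ∀ p : MvPolynomial σ k, aeval ξ p = 0 → aeval x p = 0)
    (f : MvPolynomial (Fin e → σ) k) (hf : aeval (wd q e ξ) f = 0) :
    aeval (wd q e x) f = 0 := by
  obtain ⟨N, p, h⟩ := ChB_hom e q f
  have h1 : aeval ξ p = 0 := by rw [h L ξ hq, hf, mul_zero]
  have h2 := hx p h1
  rw [h k x hqx] at h2
  exact (mul_eq_zero.1 h2).resolve_left (pow_ne_zero _ hqx)

/-- Take `u, v` from `exists_word` for the forms `∏ F (w j)` and `q(F)`; the vectors `F(ξ)` and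
`G(ξ)` are nonzero and proportional. -/
theorem wd_reg {e : ℕ} (he : 1 ≤ e) (q : MvPolynomial σ k) (hqe : q.IsHomogeneous e)
    (ξ : σ → L) (hq : aeval ξ q ≠ 0) (Φ : L →ₐ[k] L) (G : σ → MvPolynomial σ k)
    (hΦ : ∀ i, Φ (ξ i) = aeval ξ (G i)) (x x' : σ → k) (hqx : aeval x q ≠ 0)
    (hqx' : aeval x' q ≠ 0) (hx : ∀ p : MvPolynomial σ k, aeval ξ p = 0 → aeval x p = 0)
    {e' : ℕ} (F : σ → MvPolynomial σ k) (hF : ∀ a, (F a).IsHomogeneous e')
    (hFG : ∀ a b, aeval ξ (F a * G b - F b * G a) = 0) (hx' : ∀ a, x' a = aeval x (F a))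
    (w : Fin e → σ) :
    ∃ u v : MvPolynomial (Fin e → σ) k, aeval (wd q e x) v ≠ 0 ∧
      Φ (wd q e ξ w) * aeval (wd q e ξ) v = aeval (wd q e ξ) u ∧
      wd q e x' w * aeval (wd q e x) v = aeval (wd q e x) u := by
  have hA : (∏ j, F (w j)).IsHomogeneous (e * e') := by
    have := IsHomogeneous.prod Finset.univ (fun j => F (w j)) (fun _ => e') (fun j _ => hF _)
    simpa using this
  have hB : (aeval F q).IsHomogeneous (e * e') := by
    have := hqe.aeval F hF
    rwa [mul_comm] at this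
  obtain ⟨u, hu, hu'⟩ := exists_word e e' _ hA
  obtain ⟨v, hv, hv'⟩ := exists_word e e' _ hB
  have hxF : (fun a => aeval x (F a)) = x' := by
    funext a; exact (hx' a).symm
  have hvx : aeval (wd q e x) v = aeval x' q / aeval x q ^ e' := by
    rw [aeval_wd q e x v hv, hv', ChB_comp, hxF]
  have hux : aeval (wd q e x) u = (∏ j, x' (w j)) / aeval x q ^ e' := by
    rw [aeval_wd q e x u hu, hu', map_prod]
    simp only [hx']
  have hΦq : Φ (aeval ξ q) = aeval (fun a => aeval ξ (G a)) q := by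
    rw [← AlgHom.comp_apply, comp_aeval]
    simp only [hΦ]
  have hGq : aeval (fun a => aeval ξ (G a)) q ≠ 0 := by
    rw [← hΦq]
    exact (map_ne_zero Φ).2 hq
  obtain ⟨b, hb⟩ : ∃ b, aeval ξ (G b) ≠ 0 := by
    by_contra hcon
    push Not at hcon
    apply hGq
    have h0 : (fun a => aeval ξ (G a)) = fun a => (0 : L) * aeval ξ (G a) := by
      funext a; rw [hcon a, mul_zero]
    rw [h0, ChB_smul q hqe, zero_pow (by omega), zero_mul]
  have hc : ∀ a, aeval ξ (F a) = (aeval ξ (F b) / aeval ξ (G b)) * aeval ξ (G a) := by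
    intro a
    have := hFG a b
    rw [map_sub, map_mul, map_mul, sub_eq_zero] at this
    field_simp
    rw [this]
  refine ⟨u, v, ?_, ?_, ?_⟩
  · rw [hvx]
    exact div_ne_zero hqx' (pow_ne_zero _ hqx)
  · rw [aeval_wd q e ξ v hv, hv', ChB_comp, aeval_wd q e ξ u hu, hu', map_prod]
    simp only [wd, map_div₀, map_prod, hΦ, hΦq]
    generalize aeval ξ (F b) / aeval ξ (G b) = c at hc
    simp only [hc]
    rw [ChB_smul q hqe, Finset.prod_mul_distrib, Finset.prod_const, Finset.card_univ,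
      Fintype.card_fin]
    field_simp
  · rw [hvx, hux]
    simp only [wd]
    field_simp

end Pool.Agent.H35S

namespace Pool.Agent.H35S

open IntermediateField Filter Topology

universe u

open MvPolynomial Height

/-- Plan: `q` from `exists_aniso`, `L, ξ, Φ` from `exists_field`, `K' = k(wd q e ξ)` (as a type),
`φ` the restriction of `Φ` (`ratio_mem`), `affine_main`, `wd_height`, `tendsto_of_comparable`. -/
theorem surface_main {K : Type u} [Field K] [NumberField K] {N : ℕ}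
    (I : Ideal (MvPolynomial (Fin (N + 1)) K)) [I.IsPrime]
    (hI : ∀ p ∈ I, ∀ n, homogeneousComponent n p ∈ I)
    (hdim : Algebra.trdeg K (MvPolynomial (Fin (N + 1)) K ⧸ I) = 3)
    (G : Fin (N + 1) → MvPolynomial (Fin (N + 1)) K) (d : ℕ) (hG : ∀ a, (G a).IsHomogeneous d)
    (hdom : ∀ p, aeval G p ∈ I ↔ p ∈ I)
    (x : ℕ → Fin (N + 1) → K) (hx0 : ∀ n, x n ≠ 0) (hxI : ∀ n, ∀ p ∈ I, eval (x n) p = 0)
    (hstep : ∀ n, ∃ (e : ℕ) (F : Fin (N + 1) → MvPolynomial (Fin (N + 1)) K),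
      (∀ a, (F a).IsHomogeneous e) ∧ (∀ a b, F a * G b - F b * G a ∈ I) ∧
      ∀ a, x (n + 1) a = eval (x n) (F a)) :
    ∃ α : ℝ, Tendsto (fun n : ℕ => (max 1 (logHeight (x n))) ^ (1 / (n : ℝ))) atTop (𝓝 α) := by
  classical
  obtain ⟨q, hq, han⟩ := exists_aniso K N
  obtain ⟨L, _, _, ξ, Φ, hker, hgen, htr, hΦ⟩ := exists_field I hdim G hdom
  have hev : ∀ (z : Fin (N + 1) → K) (p : MvPolynomial (Fin (N + 1)) K), aeval z p = eval z p :=
    fun z p => by rw [MvPolynomial.aeval_eq_eval]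
  have hev' : ∀ (z : (Fin (N + 1) → Fin (N + 1)) → K)
      (p : MvPolynomial (Fin (N + 1) → Fin (N + 1)) K), aeval z p = eval z p :=
    fun z p => by rw [MvPolynomial.aeval_eq_eval]
  have hx : ∀ n (p : MvPolynomial (Fin (N + 1)) K), aeval ξ p = 0 → aeval (x n) p = 0 :=
    fun n p hp => by rw [hev]; exact hxI n p ((hker p).1 hp)
  have hqx : ∀ n, aeval (x n) q ≠ 0 := fun n => han _ (hx0 n)
  have hqξ : aeval ξ q ≠ 0 := fun h => hqx 0 (hx 0 q h)
  have he : 1 ≤ N + 1 := by omega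
  set K' : IntermediateField K L := adjoin K (Set.range (wd q (N + 1) ξ)) with hK'
  have hcomp : ∀ p : MvPolynomial (Fin (N + 1)) K, Φ (aeval ξ p) = aeval ξ (aeval G p) := by
    intro p
    have h1 : Φ.comp (aeval ξ) = (aeval ξ).comp (aeval G) := by
      apply MvPolynomial.algHom_ext
      intro i
      simp [hΦ]
    exact AlgHom.congr_fun h1 p
  have hgenmem : ∀ w, Φ (wd q (N + 1) ξ w) ∈ K' := by
    intro w
    have h1 : Φ (wd q (N + 1) ξ w) =
        aeval ξ (∏ j, G (w j)) / aeval ξ (aeval G q) := by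
      simp only [wd, map_div₀, map_prod, hΦ, hcomp]
    rw [h1]
    refine ratio_mem he q ξ hqξ (n := d * (N + 1)) ?_ (hq.aeval G hG)
    have := MvPolynomial.IsHomogeneous.prod (Finset.univ : Finset (Fin (N + 1)))
      (fun j => G (w j)) (fun _ => d) (fun j _ => hG _)
    simpa [mul_comm] using this
  have hmap : ∀ z ∈ K', Φ z ∈ K' := by
    have h1 : K' ≤ K'.comap Φ := by
      rw [hK', adjoin_le_iff]
      rintro _ ⟨w, rfl⟩
      exact hgenmem w
    intro z hz
    exact h1 hz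
  let φ : K' →ₐ[K] K' :=
    { toFun := fun z => ⟨Φ z, hmap z z.2⟩
      map_one' := Subtype.ext (by simp)
      map_mul' := fun a b => Subtype.ext (by simp)
      map_zero' := Subtype.ext (by simp)
      map_add' := fun a b => Subtype.ext (by simp)
      commutes' := fun c => Subtype.ext (by simp) }
  let a : (Fin (N + 1) → Fin (N + 1)) → K' :=
    fun w => ⟨wd q (N + 1) ξ w, subset_adjoin K _ ⟨w, rfl⟩⟩
  have hval : ∀ f : MvPolynomial (Fin (N + 1) → Fin (N + 1)) K,
      ((aeval a f : K') : L) = aeval (wd q (N + 1) ξ) f := by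
    intro f
    have h1 : K'.val.comp (aeval a) = aeval (wd q (N + 1) ξ) := by
      apply MvPolynomial.algHom_ext
      intro i
      simp [a]
    exact AlgHom.congr_fun h1 f
  have hgen' : adjoin K (Set.range a) = ⊤ := by
    apply IntermediateField.lift_injective K'
    rw [IntermediateField.lift_adjoin, IntermediateField.lift_top, ← Set.range_comp]
    rfl
  have htr' : Algebra.trdeg K K' = 2 :=
    trdeg_chart he q hq ξ hqξ
      (fun p hp n => (hker _).2 (hI p ((hker p).1 hp) n)) hgen htr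
  obtain ⟨α, hα⟩ := affine_main a hgen' htr' φ (fun n => wd q (N + 1) (x n))
    (fun n f hf => by
      rw [← hev']
      refine wd_ker (N + 1) q ξ hqξ (x n) (hqx n) (hx n) f ?_
      rw [← hval, hf]; rfl)
    (fun n w => by
      obtain ⟨e', F, hF, hFG, hx'⟩ := hstep n
      obtain ⟨u, v, h1, h2, h3⟩ := wd_reg he q hq ξ hqξ Φ G hΦ (x n) (x (n + 1)) (hqx n)
        (hqx (n + 1)) (hx n) F hF (fun a b => (hker _).2 (hFG a b))
        (fun a => by rw [hev]; exact hx' a) w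
      refine ⟨u, v, by rwa [← hev'], ?_, by rw [← hev', ← hev']; exact h3⟩
      apply Subtype.ext
      rw [MulMemClass.coe_mul, hval, hval]
      exact h2)
  obtain ⟨c, hc⟩ := wd_height he q hq
  exact ⟨α, tendsto_of_comparable (c := c) (fun n => hc (x n) (hqx n)) hα⟩

end Pool.Agent.H35S
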